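import Pool.Agent.Helper77.PMFour

set_option autoImplicit false

/-! Induction over links, and joins. -/

namespace Pool.Agent.Helper77.PMan

open Finset

noncomputable section

open scoped Classical

variable {V : Type*} {G : SimpleGraph V}

theorem compl_adj' {u v : V} : Gᶜ.Adj u v ↔ u ≠ v ∧ ¬ G.Adj u v := SimpleGraph.compl_adj ..

theorem PM.one_no_edge {A : Finset V} (h : PM G 1 A) {u v : V} (hu : u ∈ A) (hv : v ∈ A) :
    ¬ G.Adj u v := by
  obtain ⟨a, b, hab, hadj, rfl⟩ := h
  rw [mem_insert, mem_singleton] at hu hv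
  rcases hu with rfl | rfl <;> rcases hv with rfl | rfl
  · exact fun h => h.ne rfl
  · exact hadj
  · exact fun h => hadj h.symm
  · exact fun h => h.ne rfl

theorem PM.lemmaJ {n : ℕ} : ∀ {A C U W : Finset V}, PM G n A → A = C ∪ U ∪ W →
    (∀ c ∈ C, ∀ u ∈ U, G.Adj c u) → (∀ u ∈ U, ∀ w ∈ W, ¬ G.Adj u w) →
    (∃ u ∈ U, ∃ u' ∈ U, G.Adj u u') → W = ∅ := by
  induction n with
  | zero =>
    intro A C U W h hA _ _ _
    rw [show A = ∅ from h] at hA
    rw [eq_empty_iff_forall_notMem]
    intro w hw
    have : w ∈ (∅ : Finset V) := by rw [hA]; exact mem_union_right _ hw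
    exact notMem_empty _ this
  | succ n ih =>
    intro A C U W h hA hCU hUW hU
    have hCA : C ⊆ A := by rw [hA]; exact subset_union_left.trans subset_union_left
    have hUA : U ⊆ A := by rw [hA]; exact subset_union_right.trans subset_union_left
    have hWA : W ⊆ A := by rw [hA]; exact subset_union_right
    obtain ⟨u, hu, u', hu', huu'⟩ := hU
    cases n with
    | zero => exact absurd huu' (h.one_no_edge (hUA hu) (hUA hu'))
    | succ n =>
      by_contra hW
      have hWne : W.Nonempty := nonempty_iff_ne_empty.2 hW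
      by_cases hedge : ∃ w ∈ W, ∃ y ∈ C, G.Adj y w
      · obtain ⟨w, hw, y, hy, hyw⟩ := hedge
        have h1 := ih (A := nb G A y) (C := nb G C y) (U := U) (W := nb G W y) (h.link (hCA hy))
          (by
            ext v
            rw [mem_union, mem_union, mem_nb, mem_nb, mem_nb, hA, mem_union, mem_union]
            constructor
            · rintro ⟨(h1 | h1) | h1, h2⟩
              · exact Or.inl (Or.inl ⟨h1, h2⟩)
              · exact Or.inl (Or.inr h1)
              · exact Or.inr ⟨h1, h2⟩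
            · rintro ((h1 | h1) | h1)
              · exact ⟨Or.inl (Or.inl h1.1), h1.2⟩
              · exact ⟨Or.inl (Or.inr h1), hCU y hy v h1⟩
              · exact ⟨Or.inr h1.1, h1.2⟩)
          (fun c hc u hu => hCU c (mem_nb.1 hc).1 u hu)
          (fun u hu w hw => hUW u hu w (mem_nb.1 hw).1) ⟨u, hu, u', hu', huu'⟩
        have h2 : w ∈ nb G W y := mem_nb.2 ⟨hw, hyw⟩
        rw [h1] at h2
        exact notMem_empty _ h2
      · push Not at hedge
        have h1 : W = A := by
          apply h.conn W hWA hWne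
          intro w hw v hv hwv
          rw [hA, mem_union, mem_union] at hv
          rcases hv with (hv | hv) | hv
          · exact absurd hwv.symm (hedge w hw v hv)
          · exact absurd hwv.symm (hUW v hv w hw)
          · exact hv
        exact hUW u hu u' (by rw [h1]; exact hUA hu') huu'

theorem PM.exists_good {n : ℕ} {A : Finset V} (h : PM G (n + 2) A) (hc : Conn Gᶜ A) :
    ∃ x ∈ A, Conn Gᶜ (nb G A x) ∧ 2 ≤ (nn G A x).card := by
  set P := (A ×ˢ A.powerset).filter (fun q => q.2 ⊆ nb G A q.1 ∧ q.2.Nonempty ∧ Conn Gᶜ q.2)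
    with hP
  have hPne : P.Nonempty := by
    obtain ⟨x, hx⟩ := h.nonempty
    obtain ⟨y, hy⟩ := (h.link hx).nonempty
    refine ⟨(x, {y}), ?_⟩
    rw [hP, mem_filter, mem_product, mem_powerset]
    refine ⟨⟨hx, by simpa using (mem_nb.1 hy).1⟩, by simpa using hy, singleton_nonempty y, ?_⟩
    apply conn_of_subsingleton
    intro u hu v hv
    rw [mem_singleton] at hu hv
    rw [hu, hv]
  obtain ⟨⟨x, C⟩, hxC, hmax⟩ := exists_max_image P (fun q => q.2.card) hPne
  rw [hP, mem_filter, mem_product, mem_powerset] at hxC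
  obtain ⟨⟨hx, hCA⟩, hCL, hCne, hCconn⟩ := hxC
  simp only at hx hCA hCL hCne hCconn
  have hmax' : ∀ u ∈ A, ∀ E ⊆ nb G A u, E.Nonempty → Conn Gᶜ E → E.card ≤ C.card := by
    intro u hu E hE h1 h2
    have := hmax (u, E) (by
      rw [hP, mem_filter, mem_product, mem_powerset]
      exact ⟨⟨hu, hE.trans nb_subset⟩, hE, h1, h2⟩)
    exact this
  set W := (nn G A x).filter (fun w => ∃ c ∈ C, ¬ G.Adj w c) with hW
  set U := A \ (C ∪ W) with hU
  have hxC' : x ∉ C := fun h1 => not_mem_nb_self (hCL h1)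
  -- C is complete to U
  have hCU : ∀ c ∈ C, ∀ u ∈ U, G.Adj c u := by
    intro c hc' u hu
    rw [hU, mem_sdiff, mem_union, not_or] at hu
    by_cases hux : u = x
    · rw [hux]
      exact (mem_nb.1 (hCL hc')).2.symm
    · by_cases hxu : G.Adj x u
      · by_contra hcu
        have h1 := hmax' x hx (insert u C) (insert_subset (mem_nb.2 ⟨hu.1, hxu⟩) hCL)
          ⟨u, mem_insert_self _ _⟩ (hCconn.insert hc' (compl_adj'.2
            ⟨fun e => hu.2.1 (e ▸ hc'), fun e => hcu e.symm⟩))
        rw [card_insert_of_notMem hu.2.1] at h1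
        omega
      · by_contra hcu
        apply hu.2.2
        rw [hW, mem_filter]
        exact ⟨mem_nn.2 ⟨hu.1, hux, hxu⟩, c, hc', fun e => hcu e.symm⟩
  -- no edges between U and W
  have hUW : ∀ u ∈ U, ∀ w ∈ W, ¬ G.Adj u w := by
    intro u hu w hw huw
    have hw' := hw
    rw [hW, mem_filter] at hw'
    obtain ⟨hwn, c, hc', hwc⟩ := hw'
    have hwn' := mem_nn.1 hwn
    have huA : u ∈ A := (mem_sdiff.1 hu).1
    have hwC : w ∉ C := fun h1 => hwn'.2.2 (mem_nb.1 (hCL h1)).2
    have h1 := hmax' u huA (insert w C) (by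
      intro v hv
      rw [mem_insert] at hv
      rcases hv with rfl | hv
      · exact mem_nb.2 ⟨hwn'.1, huw⟩
      · exact mem_nb.2 ⟨hCA hv, (hCU v hv u hu).symm⟩) ⟨w, mem_insert_self _ _⟩
      (hCconn.insert hc' (compl_adj'.2 ⟨fun e => hwC (e ▸ hc'), hwc⟩))
    rw [card_insert_of_notMem hwC] at h1
    omega
  have hWA : W ⊆ A := by
    intro w hw
    rw [hW, mem_filter] at hw
    exact (mem_nn.1 hw.1).1
  have hA : A = C ∪ U ∪ W := by
    ext v
    rw [mem_union, mem_union, hU, mem_sdiff, mem_union]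
    constructor
    · intro hv
      by_cases h1 : v ∈ C
      · exact Or.inl (Or.inl h1)
      · by_cases h2 : v ∈ W
        · exact Or.inr h2
        · exact Or.inl (Or.inr ⟨hv, by tauto⟩)
    · rintro ((h1 | h1) | h1)
      · exact hCA h1
      · exact h1.1
      · exact hWA h1
  have hxU : x ∈ U := by
    rw [hU, mem_sdiff, mem_union, not_or]
    refine ⟨hx, hxC', ?_⟩
    rw [hW, mem_filter]
    rintro ⟨h1, _⟩
    exact (mem_nn.1 h1).2.1 rfl
  -- U is independent
  have hUind : ¬ ∃ u ∈ U, ∃ u' ∈ U, G.Adj u u' := by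
    intro hedge
    have hW0 := h.lemmaJ hA hCU hUW hedge
    have h1 : C = A := by
      apply hc C hCA hCne
      intro c hc' v hv hcv
      rw [compl_adj'] at hcv
      rw [hA, hW0, union_empty, mem_union] at hv
      rcases hv with hv | hv
      · exact hv
      · exact absurd (hCU c hc' v hv) hcv.2
    exact hxC' (by rw [h1]; exact hx)
  have hLC : nb G A x = C := by
    apply Subset.antisymm _ hCL
    intro y hy
    by_contra hyC
    apply hUind
    refine ⟨x, hxU, y, ?_, (mem_nb.1 hy).2⟩
    rw [hU, mem_sdiff, mem_union, not_or]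
    refine ⟨(mem_nb.1 hy).1, hyC, ?_⟩
    rw [hW, mem_filter]
    rintro ⟨h1, _⟩
    exact (mem_nn.1 h1).2.2 (mem_nb.1 hy).2
  refine ⟨x, hx, by rw [hLC]; exact hCconn, ?_⟩
  obtain ⟨x', hx', hne, hadj⟩ := h.exists_nonadj hx
  have hx'n : x' ∈ nn G A x := mem_nn.2 ⟨hx', hne, hadj⟩
  by_contra hcard
  have h1 : (nn G A x).card = 1 := by
    have := card_pos.2 ⟨x', hx'n⟩
    omega
  obtain ⟨x'', hx''⟩ := card_eq_one.1 h1
  have hxx : x'' = x' := by
    rw [hx'', mem_singleton] at hx'n
    exact hx'n.symm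
  rw [hxx] at hx''
  have huniq : ∀ w ∈ A, w ≠ x → ¬ G.Adj x w → w = x' := by
    intro w hw hwx hadj'
    have : w ∈ nn G A x := mem_nn.2 ⟨hw, hwx, hadj'⟩
    rw [hx'', mem_singleton] at this
    exact this
  have h2 : ({x, x'} : Finset V) = A := by
    apply hc
    · intro v hv
      rw [mem_insert, mem_singleton] at hv
      rcases hv with rfl | rfl
      · exact hx
      · exact hx'
    · exact ⟨x, by simp⟩
    · intro v hv w hw hvw
      rw [compl_adj'] at hvw
      rw [mem_insert, mem_singleton] at hv ⊢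
      rcases hv with rfl | rfl
      · right
        exact huniq w hw (fun e => hvw.1 e.symm) hvw.2
      · by_cases hwx : w = x
        · exact Or.inl hwx
        · by_cases hxw : G.Adj x w
          · exact absurd (h.unique_nonadj hx huniq (mem_nb.2 ⟨hw, hxw⟩)) hvw.2
          · exact absurd (huniq w hw hwx hxw).symm hvw.1
  obtain ⟨y, hy⟩ := hCne
  have hy1 := mem_nb.1 (hCL hy)
  rw [← h2, mem_insert, mem_singleton] at hy1
  rcases hy1.1 with e | e
  · exact hxC' (e ▸ hy)
  · rw [e] at hy1
    exact hadj hy1.2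

theorem card_decomp {A : Finset V} {x : V} (hx : x ∈ A) :
    A.card = 1 + (nb G A x).card + (nn G A x).card := by
  have h1 : A = insert x (nb G A x ∪ nn G A x) := by
    ext v
    rw [mem_insert, mem_union, mem_nb, mem_nn]
    constructor
    · intro hv
      by_cases h1 : v = x
      · exact Or.inl h1
      · by_cases h2 : G.Adj x v
        · exact Or.inr (Or.inl ⟨hv, h2⟩)
        · exact Or.inr (Or.inr ⟨hv, h1, h2⟩)
    · rintro (rfl | h1 | h1)
      · exact hx
      · exact h1.1
      · exact h1.1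
  have h2 : Disjoint (nb G A x) (nn G A x) := by
    rw [disjoint_left]
    intro v hv hv'
    exact (mem_nn.1 hv').2.2 (mem_nb.1 hv).2
  have h3 : x ∉ nb G A x ∪ nn G A x := by
    rw [mem_union, not_or]
    exact ⟨not_mem_nb_self, fun h => (mem_nn.1 h).2.1 rfl⟩
  conv_lhs => rw [h1]
  rw [card_insert_of_notMem h3, card_union_of_disjoint h2]
  omega

/-- a pseudomanifold which is not a join has at least `3 n - 1` vertices -/
theorem PM.card_ge_nonjoin {n : ℕ} : ∀ {A : Finset V}, PM G (n + 1) A → Conn Gᶜ A →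
    3 * n + 2 ≤ A.card := by
  induction n with
  | zero => intro A h _; rw [h.card_two]
  | succ n ih =>
    intro A h hc
    obtain ⟨x, hx, hL, h2⟩ := h.exists_good hc
    have h1 := ih (h.link hx) hL
    have h3 := card_decomp (G := G) hx
    omega

/-- `2 γ₂` of a pseudomanifold with facets of size `n` -/
def G2 (G : SimpleGraph V) (n : ℕ) (A : Finset V) : ℤ :=
  (e2 G A : ℤ) - 2 * (2 * (n : ℤ) - 3) * A.card + 4 * n * ((n : ℤ) - 2)

theorem PM.bd_nn {m : ℕ} {A : Finset V} (h : PM G (m + 2) A) {x : V} (hx : x ∈ A) :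
    bd G A (nn G A x) = nb G A x := by
  ext p
  rw [mem_bd, mem_nb]
  constructor
  · rintro ⟨⟨h1, h2⟩, w, hw, hpw⟩
    refine ⟨h1, ?_⟩
    by_contra hxp
    by_cases hpx : p = x
    · subst hpx
      exact (mem_nn.1 hw).2.2 hpw
    · exact h2 (mem_nn.2 ⟨h1, hpx, hxp⟩)
  · rintro ⟨h1, h2⟩
    refine ⟨⟨h1, fun h3 => (mem_nn.1 h3).2.2 h2⟩, ?_⟩
    obtain ⟨w, hw, hwx, hadj⟩ := (h.link h1).exists_nonadj (v := x) (mem_nb.2 ⟨hx, h2.symm⟩)
    have hw' := mem_nb.1 hw
    exact ⟨w, mem_nn.2 ⟨hw'.1, hwx, hadj⟩, hw'.2⟩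

theorem PM.e2_decomp {m : ℕ} {A : Finset V} (h : PM G (m + 2) A) {x : V} (hx : x ∈ A) :
    (e2 G A : ℤ) = e2 G (nb G A x) + 4 * (nb G A x).card + Phi G A (nn G A x) := by
  set L := nb G A x with hL
  set W := nn G A x with hW
  have hd : Disjoint L W := by
    rw [disjoint_left]
    intro v hv hv'
    exact (mem_nn.1 hv').2.2 (mem_nb.1 hv).2
  have hxLW : x ∉ L ∪ W := by
    rw [mem_union, not_or]
    exact ⟨not_mem_nb_self, fun h => (mem_nn.1 h).2.1 rfl⟩
  have hA : A = insert x (L ∪ W) := by
    ext v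
    rw [mem_insert, mem_union, hL, hW, mem_nb, mem_nn]
    constructor
    · intro hv
      by_cases h1 : v = x
      · exact Or.inl h1
      · by_cases h2 : G.Adj x v
        · exact Or.inr (Or.inl ⟨hv, h2⟩)
        · exact Or.inr (Or.inr ⟨hv, h1, h2⟩)
    · rintro (rfl | h1 | h1)
      · exact hx
      · exact h1.1
      · exact h1.1
  have h1 : e2 G A = e2 G (L ∪ W) + 2 * L.card := by
    have h2 : nb G (L ∪ W) x = L := by
      ext v
      rw [mem_nb, mem_union]
      constructor
      · rintro ⟨h3 | h3, h4⟩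
        · exact h3
        · exact absurd h4 (mem_nn.1 h3).2.2
      · intro h3
        exact ⟨Or.inl h3, (mem_nb.1 h3).2⟩
    have h3 := e2_insert (G := G) hxLW
    rw [← hA, h2] at h3
    exact h3
  rw [e2_union_disj hd, sum_card_nb_comm L W] at h1
  have h2 : ∀ w ∈ W, (nb G A w).card = (nb G L w).card + (nb G W w).card := by
    intro w hw
    rw [hA, nb_insert_of_not_adj (fun h3 => (mem_nn.1 hw).2.2 h3.symm), card_nb_union hd]
  unfold Phi
  rw [h.bd_nn hx]
  have h3 : ∑ w ∈ W, ((nb G A w).card : ℤ) = ∑ w ∈ W, ((nb G L w).card : ℤ) + e2 G W := by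
    unfold e2
    push_cast
    rw [← sum_add_distrib]
    apply sum_congr rfl
    intro w hw
    rw [h2 w hw]
    push_cast
    ring
  rw [h3]
  have h4 : (e2 G A : ℤ) = e2 G L + e2 G W + 2 * ∑ w ∈ W, ((nb G L w).card : ℤ) + 2 * L.card := by
    rw [h1]; push_cast; ring
  rw [h4]
  ring

theorem PM.G2_diff {m : ℕ} {A : Finset V} (h : PM G (m + 2) A) {x : V} (hx : x ∈ A)
    (hg : Good G m A (nn G A x)) : G2 G (m + 1) (nb G A x) ≤ G2 G (m + 2) A := by
  unfold G2
  rw [h.e2_decomp hx, card_decomp (G := G) hx]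
  unfold Good at hg
  push_cast
  nlinarith [hg]

theorem PM.G2_three {A : Finset V} (h : PM G 3 A) : 0 ≤ G2 G 3 A := by
  have h1 := h.surface
  have h2 : (6 * A.card : ℤ) ≤ e2 G A + 12 := by exact_mod_cast h1
  unfold G2
  push_cast
  linarith

theorem PM.G2_nonneg_nonjoin {n : ℕ} : ∀ {A : Finset V}, PM G (n + 3) A → Conn Gᶜ A →
    A.card ≤ 3 * (n + 3) + 3 → 0 ≤ G2 G (n + 3) A := by
  induction n with
  | zero => intro A h _ _; exact h.G2_three
  | succ n ih =>
    intro A h hc hcard
    have h' : PM G ((n + 2) + 2) A := h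
    obtain ⟨x, hx, hL, h2⟩ := h'.exists_good hc
    have hLPM : PM G (n + 3) (nb G A x) := h.link hx
    have h3 := card_decomp (G := G) hx
    have h4 : 3 * (n + 2) + 2 ≤ (nb G A x).card := hLPM.card_ge_nonjoin hL
    have h5 := ih hLPM hL (by omega)
    refine h5.trans (h'.G2_diff hx ?_)
    have hWA : nn G A x ⊆ A := filter_subset _ _
    have hWne : (nn G A x).Nonempty := card_pos.1 (by omega)
    have hWc : Conn G (nn G A x) := h.conn_nn hx
    have hxW : x ∉ nn G A x := fun h1 => (mem_nn.1 h1).2.1 rfl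
    have hxadj : ∀ b ∈ nn G A x, ¬ G.Adj b x := fun b hb h1 => (mem_nn.1 hb).2.2 h1.symm
    by_cases h6 : (nn G A x).card ≤ 5
    · exact h'.good5 hx _ hWA hWne hWc hxW hxadj h6
    · refine h'.good6 (by omega) hx hWA hWc hxW hxadj (by omega) ?_
      rw [h'.bd_nn hx]
      exact h4

/-- rank four: at most sixteen vertices -/
theorem PM.G2_four {A : Finset V} (h : PM G 4 A) (hc : Conn Gᶜ A) (hcard : A.card ≤ 16) :
    0 ≤ G2 G 4 A := by
  have h' : PM G (2 + 2) A := h
  obtain ⟨x, hx, hL, h2⟩ := h'.exists_good hc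
  have hLPM : PM G 3 (nb G A x) := h.link hx
  have h3 := card_decomp (G := G) hx
  have h4 : 3 * 2 + 2 ≤ (nb G A x).card := hLPM.card_ge_nonjoin hL
  have h5 : 0 ≤ G2 G (2 + 1) (nb G A x) := hLPM.G2_three
  refine h5.trans (h'.G2_diff hx ?_)
  have hWA : nn G A x ⊆ A := filter_subset _ _
  have hWne : (nn G A x).Nonempty := card_pos.1 (by omega)
  have hWc : Conn G (nn G A x) := h.conn_nn hx
  have hxW : x ∉ nn G A x := fun h1 => (mem_nn.1 h1).2.1 rfl
  have hxadj : ∀ b ∈ nn G A x, ¬ G.Adj b x := fun b hb h1 => (mem_nn.1 hb).2.2 h1.symm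
  refine h.good_seven hx hWA hWne hWc hxW hxadj (by omega) ?_
  rw [h'.bd_nn hx]
  exact h4

theorem PM.G2_le_three {n : ℕ} {A : Finset V} (h : PM G n A) (hn : n ≤ 3) : 0 ≤ G2 G n A := by
  interval_cases n
  · rw [show A = ∅ from h]
    simp [G2, e2]
  · have h1 := h.card_two
    unfold G2
    rw [h1]
    have : (0 : ℤ) ≤ e2 G A := Int.natCast_nonneg _
    push_cast
    linarith
  · have h1 := h.e2_two
    unfold G2
    rw [h1]
    push_cast
    linarith
  · exact h.G2_three

/-- factors of a join -/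
theorem PM.factor {n : ℕ} : ∀ {A B C : Finset V}, PM G n A → A = B ∪ C →
    (∀ b ∈ B, ∀ c ∈ C, G.Adj b c) → ∃ k l, k + l = n ∧ PM G k B ∧ PM G l C := by
  induction n with
  | zero =>
    intro A B C h hA hBC
    rw [show A = ∅ from h] at hA
    have hB : B = ∅ := by
      rw [eq_empty_iff_forall_notMem]
      intro b hb
      have : b ∈ (∅ : Finset V) := by rw [hA]; exact mem_union_left _ hb
      exact notMem_empty _ this
    have hC : C = ∅ := by
      rw [eq_empty_iff_forall_notMem]
      intro b hb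
      have : b ∈ (∅ : Finset V) := by rw [hA]; exact mem_union_right _ hb
      exact notMem_empty _ this
    exact ⟨0, 0, rfl, hB, hC⟩
  | succ n ih =>
    intro A B C h hA hBC
    rcases B.eq_empty_or_nonempty with hB | ⟨b, hb⟩
    · refine ⟨0, n + 1, by omega, hB, ?_⟩
      rw [hB, empty_union] at hA
      rw [← hA]; exact h
    · rcases C.eq_empty_or_nonempty with hC | ⟨c, hc⟩
      · refine ⟨n + 1, 0, by omega, ?_, hC⟩
        rw [hC, union_empty] at hA
        rw [← hA]; exact h
      · have hbA : b ∈ A := by rw [hA]; exact mem_union_left _ hb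
        have hcA : c ∈ A := by rw [hA]; exact mem_union_right _ hc
        obtain ⟨k, l, hkl, hk, hl⟩ := ih (A := nb G A b) (B := nb G B b) (C := C) (h.link hbA)
          (by
            ext v
            rw [mem_union, mem_nb, mem_nb, hA, mem_union]
            constructor
            · rintro ⟨h1 | h1, h2⟩
              · exact Or.inl ⟨h1, h2⟩
              · exact Or.inr h1
            · rintro (h1 | h1)
              · exact ⟨Or.inl h1.1, h1.2⟩
              · exact ⟨Or.inr h1, hBC b hb v h1⟩)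
          (fun b' hb' c hc => hBC b' (mem_nb.1 hb').1 c hc)
        obtain ⟨k', l', hkl', hk', hl'⟩ := ih (A := nb G A c) (B := B) (C := nb G C c)
          (h.link hcA)
          (by
            ext v
            rw [mem_union, mem_nb, mem_nb, hA, mem_union]
            constructor
            · rintro ⟨h1 | h1, h2⟩
              · exact Or.inl h1
              · exact Or.inr ⟨h1, h2⟩
            · rintro (h1 | h1)
              · exact ⟨Or.inl h1, (hBC v h1 c hc).symm⟩
              · exact ⟨Or.inr h1.1, h1.2⟩)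
          (fun b' hb' c' hc' => hBC b' hb' c' (mem_nb.1 hc').1)
        refine ⟨k', l, ?_, hk', hl⟩
        cases k' with
        | zero =>
          rw [show B = ∅ from hk'] at hb
          exact absurd hb (notMem_empty b)
        | succ k' =>
          have := (hk'.link hb).unique hk
          omega

theorem G2_join {k l : ℕ} {B C : Finset V} (hd : Disjoint B C)
    (hBC : ∀ b ∈ B, ∀ c ∈ C, G.Adj b c) :
    G2 G (k + l) (B ∪ C) = G2 G k B + G2 G l C +
      2 * ((B.card : ℤ) - 2 * k) * ((C.card : ℤ) - 2 * l) := by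
  unfold G2
  have h1 : ∑ v ∈ B, (nb G C v).card = B.card * C.card := by
    have : ∀ v ∈ B, (nb G C v).card = C.card := by
      intro v hv
      congr 1
      ext w
      rw [mem_nb]
      exact ⟨fun h => h.1, fun h => ⟨h, hBC v hv w h⟩⟩
    rw [sum_congr rfl this, sum_const, smul_eq_mul]
  rw [e2_union_disj hd, h1, card_union_of_disjoint hd]
  push_cast
  ring

/-- the combinatorial hypothesis on the components of the complement -/
def Comp (G : SimpleGraph V) (A : Finset V) : Prop :=
  ∀ K ⊆ A, K.Nonempty → Conn Gᶜ K → Clo Gᶜ A K →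
    (∀ S ⊆ K, (∀ u ∈ S, ∀ v ∈ S, u ≠ v → G.Adj u v) → S.card ≤ 3) ∨ K.card ≤ 16 ∨
    (∃ S ⊆ K, (∀ u ∈ S, ∀ v ∈ S, u ≠ v → G.Adj u v) ∧ K.card ≤ 3 * S.card + 3)

theorem PM.exists_clique {n : ℕ} : ∀ {A : Finset V}, PM G n A →
    ∃ S ⊆ A, (∀ u ∈ S, ∀ v ∈ S, u ≠ v → G.Adj u v) ∧ S.card = n := by
  induction n with
  | zero => intro A _; exact ⟨∅, empty_subset _, by simp, by simp⟩
  | succ n ih =>
    intro A h
    obtain ⟨x, hx⟩ := h.nonempty
    obtain ⟨S, hS, hcl, hSn⟩ := ih (h.link hx)
    refine ⟨insert x S, insert_subset hx (hS.trans nb_subset), ?_, ?_⟩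
    · intro u hu v hv huv
      rw [mem_insert] at hu hv
      rcases hu with rfl | hu
      · rcases hv with rfl | hv
        · exact absurd rfl huv
        · exact (mem_nb.1 (hS hv)).2
      · rcases hv with rfl | hv
        · exact (mem_nb.1 (hS hu)).2.symm
        · exact hcl u hu v hv huv
    · rw [card_insert_of_notMem, hSn]
      exact fun h1 => not_mem_nb_self (hS h1)

theorem PM.G2_nonneg : ∀ (N n : ℕ) {A : Finset V}, A.card ≤ N → PM G n A → Comp G A →
    0 ≤ G2 G n A := by
  intro N
  induction N with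
  | zero =>
    intro n A hN h _
    have hA : A = ∅ := card_eq_zero.1 (by omega)
    cases n with
    | zero => exact h.G2_le_three (by omega)
    | succ n =>
      obtain ⟨x, hx⟩ := h.nonempty
      rw [hA] at hx
      exact absurd hx (notMem_empty x)
  | succ N ih =>
    intro n A hN h hcomp
    by_cases hc : Conn Gᶜ A
    · rcases A.eq_empty_or_nonempty with hA | hA
      · cases n with
        | zero => exact h.G2_le_three (by omega)
        | succ n =>
          obtain ⟨x, hx⟩ := h.nonempty
          rw [hA] at hx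
          exact absurd hx (notMem_empty x)
      · rcases hcomp A (Subset.refl _) hA hc (fun v _ w hw _ => hw) with h1 | h1 | h1
        · obtain ⟨S, hS, hcl, hSn⟩ := h.exists_clique
          exact h.G2_le_three (by rw [← hSn]; exact h1 S hS hcl)
        · by_cases hn : n ≤ 3
          · exact h.G2_le_three hn
          · by_cases hn4 : n = 4
            · subst hn4
              exact h.G2_four hc h1
            · obtain ⟨m, rfl⟩ : ∃ m, n = m + 3 := ⟨n - 3, by omega⟩
              exact h.G2_nonneg_nonjoin hc (by omega)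
        · obtain ⟨S, hS, hcl, hK⟩ := h1
          have h2 := h.clique_card_le hS hcl
          by_cases hn : n ≤ 3
          · exact h.G2_le_three hn
          · obtain ⟨m, rfl⟩ : ∃ m, n = m + 3 := ⟨n - 3, by omega⟩
            exact h.G2_nonneg_nonjoin hc (by omega)
    · unfold Conn at hc
      push Not at hc
      obtain ⟨B, hBA, hBne, hBclo, hne⟩ := hc
      have hd : Disjoint B (A \ B) := disjoint_sdiff
      have hA : A = B ∪ (A \ B) := (union_sdiff_of_subset hBA).symm
      have hBC : ∀ b ∈ B, ∀ c ∈ A \ B, G.Adj b c := by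
        intro b hb c hc
        rw [mem_sdiff] at hc
        by_contra hbc
        exact hc.2 (hBclo b hb c hc.1 (compl_adj'.2 ⟨fun e => hc.2 (e ▸ hb), hbc⟩))
      have hCne : (A \ B).Nonempty := by
        rw [sdiff_nonempty]
        intro h1
        exact hne (Subset.antisymm hBA h1)
      have hCclo : Clo Gᶜ A (A \ B) := by
        intro v hv w hw hvw
        rw [mem_sdiff] at hv ⊢
        exact ⟨hw, fun hwB => hv.2 (hBclo w hwB v hv.1 hvw.symm)⟩
      obtain ⟨k, l, hkl, hk, hl⟩ := h.factor hA hBC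
      have hcard : B.card + (A \ B).card = A.card := by
        rw [← card_union_of_disjoint hd, ← hA]
      have hBpos := card_pos.2 hBne
      have hCpos := card_pos.2 hCne
      have sub : ∀ D ⊆ A, Clo Gᶜ A D → Comp G D := by
        intro D hD hDclo K hK hKne hKc hKclo
        exact hcomp K (hK.trans hD) hKne hKc (fun v hv w hw hvw =>
          hKclo v hv w (hDclo v (hK hv) w hw hvw) hvw)
      have h1 := ih k (by omega) hk (sub B hBA hBclo)
      have h2 := ih l (by omega) hl (sub _ sdiff_subset hCclo)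
      have h3 : (2 * k : ℤ) ≤ B.card := by exact_mod_cast hk.card_ge
      have h4 : (2 * l : ℤ) ≤ (A \ B).card := by exact_mod_cast hl.card_ge
      rw [hA, ← hkl, G2_join hd hBC]
      have h5 : 0 ≤ 2 * ((B.card : ℤ) - 2 * k) * (((A \ B).card : ℤ) - 2 * l) := by
        apply mul_nonneg
        · linarith
        · linarith
      linarith

/-- small pseudomanifolds satisfy the hypothesis -/
theorem PM.comp_of_card {n : ℕ} {A : Finset V} (h : PM G n A) (hcard : A.card ≤ 2 * n + 8) :
    Comp G A := by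
  intro K hKA hKne hKc hKclo
  have hd : Disjoint K (A \ K) := disjoint_sdiff
  have hA : A = K ∪ (A \ K) := (union_sdiff_of_subset hKA).symm
  have hBC : ∀ b ∈ K, ∀ c ∈ A \ K, G.Adj b c := by
    intro b hb c hc
    rw [mem_sdiff] at hc
    by_contra hbc
    exact hc.2 (hKclo b hb c hc.1 (compl_adj'.2 ⟨fun e => hc.2 (e ▸ hb), hbc⟩))
  obtain ⟨k, l, hkl, hk, hl⟩ := h.factor hA hBC
  have hcard' : K.card + (A \ K).card = A.card := by
    rw [← card_union_of_disjoint hd, ← hA]
  have hl' := hl.card_ge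
  by_cases hk3 : k ≤ 3
  · left
    intro S hS hcl
    exact (hk.clique_card_le hS hcl).trans hk3
  · right
    by_cases hk4 : k = 4
    · left
      omega
    · right
      obtain ⟨S, hS, hcl, hSk⟩ := hk.exists_clique
      refine ⟨S, hS, hcl, ?_⟩
      omega

end

end Pool.Agent.Helper77.PMan
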