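import Pool.Agent.Helper77.PMDefs
import Pool.Agent.Helper77.PMMain

set_option autoImplicit false

/-! From the recursive definition of discrete pseudomanifolds to `PM`. -/

namespace Pool.Agent.Helper77.PMan

open Finset Pool.Agent.Helper77.PseudoM

noncomputable section

open scoped Classical

universe u v

variable {V : Type v} {G : SimpleGraph V}

theorem conn_image {W : Type u} [Fintype W] {H : SimpleGraph W} {f : W → V}
    (hadj : ∀ a b, H.Adj a b ↔ G.Adj (f a) (f b)) (hH : H.Connected) :
    Conn G (univ.image f) := by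
  intro B hB hne hclo
  have key : ∀ a b : W, H.Walk a b → f a ∈ B → f b ∈ B := by
    intro a b p
    induction p with
    | nil => exact id
    | cons h p ih =>
      intro ha
      apply ih
      exact hclo _ ha _ (mem_image_of_mem f (mem_univ _)) ((hadj _ _).1 h)
  apply Subset.antisymm hB
  intro y hy
  obtain ⟨b, _, rfl⟩ := mem_image.1 hy
  obtain ⟨z, hz⟩ := hne
  obtain ⟨a, _, rfl⟩ := mem_image.1 (hB hz)
  obtain ⟨p⟩ := hH.preconnected a b
  exact key a b p hz

theorem nb_image {W : Type u} [Fintype W] {H : SimpleGraph W} {f : W → V}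
    (hadj : ∀ a b, H.Adj a b ↔ G.Adj (f a) (f b)) (a : W) :
    nb G (univ.image f) (f a) = univ.image (fun x : H.neighborSet a => f x.1) := by
  ext y
  rw [mem_nb, mem_image, mem_image]
  constructor
  · rintro ⟨⟨b, _, rfl⟩, h⟩
    exact ⟨⟨b, (hadj a b).2 h⟩, mem_univ _, rfl⟩
  · rintro ⟨⟨b, hb⟩, _, rfl⟩
    exact ⟨⟨b, mem_univ _, rfl⟩, (hadj a b).1 hb⟩

theorem bridge_cycle {W : Type u} [Fintype W] {H : SimpleGraph W} {f : W → V}
    (hf : Function.Injective f) (hadj : ∀ a b, H.Adj a b ↔ G.Adj (f a) (f b)) {n : ℕ} (hn : 4 ≤ n)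
    (e : H ≃g SimpleGraph.cycleGraph n) : PM G 2 (univ.image f) := by
  obtain ⟨k, rfl⟩ : ∃ k, n = k + 4 := ⟨n - 4, by omega⟩
  have hcon : H.Connected := e.symm.connected_iff.1 (SimpleGraph.cycleGraph_connected (n := k + 3))
  have h2 : (2 : Fin (k + 4)) ≠ 0 := by
    rw [Ne, Fin.ext_iff]
    simp only [Fin.coe_ofNat_eq_mod]
    rw [Nat.mod_eq_of_lt (by omega)]
    norm_num
  refine ⟨⟨f (e.symm 0), mem_image_of_mem f (mem_univ _)⟩, conn_image hadj hcon, ?_⟩
  intro y hy
  obtain ⟨a, _, rfl⟩ := mem_image.1 hy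
  have hnb : nb G (univ.image f) (f a) = {f (e.symm (e a - 1)), f (e.symm (e a + 1))} := by
    rw [nb_image hadj]
    ext z
    rw [mem_image, mem_insert, mem_singleton]
    have hiff : ∀ b, H.Adj a b ↔ b = e.symm (e a - 1) ∨ b = e.symm (e a + 1) := by
      intro b
      rw [← e.map_adj_iff]
      have h3 := SimpleGraph.cycleGraph_neighborSet (n := k + 2) (v := e a)
      have h4 : (SimpleGraph.cycleGraph (k + 4)).Adj (e a) (e b) ↔
          e b ∈ (SimpleGraph.cycleGraph (k + 4)).neighborSet (e a) := Iff.rfl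
      rw [h4]
      rw [show (SimpleGraph.cycleGraph (k + 4)).neighborSet (e a) = {e a - 1, e a + 1} from h3]
      rw [Set.mem_insert_iff, Set.mem_singleton_iff]
      constructor
      · rintro (h5 | h5)
        · left; rw [← h5]; simp
        · right; rw [← h5]; simp
      · rintro (h5 | h5)
        · left; rw [h5]; simp
        · right; rw [h5]; simp
    constructor
    · rintro ⟨⟨b, hb⟩, _, rfl⟩
      rcases (hiff b).1 hb with h5 | h5
      · left; rw [← h5]
      · right; rw [← h5]
    · rintro (h5 | h5)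
      · exact ⟨⟨e.symm (e a - 1), (hiff _).2 (Or.inl rfl)⟩, mem_univ _, h5.symm⟩
      · exact ⟨⟨e.symm (e a + 1), (hiff _).2 (Or.inr rfl)⟩, mem_univ _, h5.symm⟩
  rw [hnb]
  refine ⟨_, _, ?_, ?_, rfl⟩
  · intro h3
    have h4 := e.symm.injective (hf h3)
    apply h2
    have h5 : e a - 1 + 1 = e a + 1 + 1 := by rw [h4]
    rw [sub_add_cancel, add_assoc] at h5
    have h6 : (1 : Fin (k + 4)) + 1 = 2 := by
      rw [Fin.ext_iff, Fin.val_add, Fin.val_one, Fin.val_two]
      simp
    rw [h6] at h5
    exact (left_eq_add.1 h5)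
  · rw [← hadj, ← e.map_adj_iff]
    simp only [RelIso.apply_symm_apply]
    change ¬ ((e a - 1) - (e a + 1) = 1 ∨ (e a + 1) - (e a - 1) = 1)
    have e1 : e a - 1 - (e a + 1) = -2 := by
      have h6 : (1 : Fin (k + 4)) + 1 = 2 := by
        rw [Fin.ext_iff, Fin.val_add, Fin.val_one, Fin.val_two]
        simp
      rw [← h6]; abel
    have e2' : e a + 1 - (e a - 1) = 2 := by
      have h6 : (1 : Fin (k + 4)) + 1 = 2 := by
        rw [Fin.ext_iff, Fin.val_add, Fin.val_one, Fin.val_two]
        simp
      rw [← h6]; abel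
    have m0 : 0 % (k + 4) = 0 := Nat.mod_eq_of_lt (by omega)
    have m1 : 1 % (k + 4) = 1 := Nat.mod_eq_of_lt (by omega)
    have m2 : 2 % (k + 4) = 2 := Nat.mod_eq_of_lt (by omega)
    have m3 : 3 % (k + 4) = 3 := Nat.mod_eq_of_lt (by omega)
    rintro (h3 | h3)
    · have h4 : (-2 : Fin (k + 4)) = 1 := by rw [← e1]; exact h3
      have h5 : (0 : Fin (k + 4)) = 1 + 2 := by rw [← h4]; simp
      have h6 := congrArg Fin.val h5
      rw [Fin.val_add] at h6
      simp only [Fin.coe_ofNat_eq_mod, m1, m2] at h6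
      have h7 : (1 + 2) % (k + 4) = 3 := m3
      rw [m0, h7] at h6
      exact absurd h6 (by norm_num)
    · have h4 : (2 : Fin (k + 4)) = 1 := by rw [← e2']; exact h3
      have h6 := congrArg Fin.val h4
      simp only [Fin.coe_ofNat_eq_mod, m1, m2] at h6
      omega

theorem bridge {d : ℕ} : ∀ {W : Type u} [Fintype W] {H : SimpleGraph W} {f : W → V},
    Function.Injective f → (∀ a b, H.Adj a b ↔ G.Adj (f a) (f b)) →
    IsPseudomanifold (d + 1) H → PM G (d + 2) (univ.image f) := by
  induction d with
  | zero =>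
    intro W _ H f hf hadj h
    obtain ⟨n, hn, ⟨e⟩⟩ := h
    exact bridge_cycle hf hadj hn e
  | succ d ih =>
    intro W _ H f hf hadj h
    obtain ⟨hcon, hlk⟩ := h
    obtain ⟨a₀⟩ := hcon.nonempty
    refine ⟨⟨f a₀, mem_image_of_mem f (mem_univ _)⟩, conn_image hadj hcon, ?_⟩
    intro y hy
    obtain ⟨a, _, rfl⟩ := mem_image.1 hy
    rw [nb_image hadj a]
    apply ih (H := H.induce (H.neighborSet a)) (f := fun x : H.neighborSet a => f x.1)
    · intro x y hxy
      exact Subtype.ext (hf hxy)
    · intro x y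
      rw [SimpleGraph.comap_adj]
      exact hadj _ _
    · exact hlk a

theorem pm_univ {d : ℕ} [Fintype V] (h : IsPseudomanifold (d + 1) G) : PM G (d + 2) univ := by
  have := bridge (G := G) (H := G) (f := id) Function.injective_id (fun a b => Iff.rfl) h
  rwa [image_id] at this

theorem two_edges [Fintype V] : (e2 G univ : ℤ) = 2 * (G.edgeSet.ncard : ℤ) := by
  have h1 := G.sum_degrees_eq_twice_card_edges
  have h2 : e2 G univ = ∑ v, G.degree v := by
    unfold e2
    apply sum_congr rfl
    intro v _
    rw [← SimpleGraph.card_neighborFinset_eq_degree]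
    congr 1
    ext w
    rw [mem_nb, SimpleGraph.mem_neighborFinset]
    simp
  rw [h2, h1, Set.ncard_eq_toFinset_card']
  push_cast
  rfl

theorem gamma2_eq {d : ℕ} [Fintype V] : G2 G (d + 2) univ = 2 * gamma2 (d + 1) G := by
  unfold G2 gamma2
  rw [two_edges, card_univ, Nat.card_eq_fintype_card]
  push_cast
  ring

theorem gamma2_nonneg {d : ℕ} [Fintype V] (h : IsPseudomanifold (d + 1) G)
    (hyp : Nat.card V ≤ 2 * (d + 1) + 10 ∨ ∀ K : Gᶜ.ConnectedComponent,
      (∀ S ⊆ K.supp, G.IsClique S → S.ncard ≤ 3) ∨ K.supp.ncard ≤ 16 ∨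
      (∃ S ⊆ K.supp, G.IsClique S ∧ K.supp.ncard ≤ 3 * S.ncard + 3)) :
    0 ≤ gamma2 (d + 1) G := by
  have hPM := pm_univ h
  have hcomp : Comp G univ := by
    rcases hyp with hyp | hyp
    · apply hPM.comp_of_card
      rw [card_univ, ← Nat.card_eq_fintype_card]
      omega
    · intro K _ hKne hKc hKclo
      obtain ⟨v, hv⟩ := hKne
      -- K is the support of a component
      have hsupp : (Gᶜ.connectedComponentMk v).supp = (K : Set V) := by
        have hstep : ∀ a b : V, Gᶜ.Walk a b → a ∈ K → b ∈ K := by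
          intro a b p
          induction p with
          | nil => exact id
          | cons h p ih => exact fun ha => ih (hKclo _ ha _ (mem_univ _) h)
        ext w
        rw [SimpleGraph.ConnectedComponent.mem_supp_iff, SimpleGraph.ConnectedComponent.eq,
          mem_coe]
        constructor
        · rintro ⟨p⟩
          exact hstep v w p.reverse hv
        · intro hw
          have h1 : K.filter (fun x => Gᶜ.Reachable x v) = K := by
            refine hKc _ (filter_subset _ _) ⟨v, mem_filter.2 ⟨hv, ?_⟩⟩ ?_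
            · exact SimpleGraph.Reachable.refl v
            intro a ha b hb hab
            rw [mem_filter] at ha ⊢
            exact ⟨hb, hab.symm.reachable.trans ha.2⟩
          rw [← h1, mem_filter] at hw
          exact hw.2
      rcases hyp (Gᶜ.connectedComponentMk v) with h1 | h1 | ⟨S, hS, hcl, hK⟩
      · left
        intro S hS hcl
        have := h1 (S : Set V) (by rw [hsupp]; exact_mod_cast hS) (by
          intro a ha b hb hab
          exact hcl a ha b hb hab)
        rwa [Set.ncard_coe_finset] at this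
      · right; left
        rwa [hsupp, Set.ncard_coe_finset] at h1
      · right; right
        refine ⟨S.toFinset, ?_, ?_, ?_⟩
        · intro x hx
          rw [Set.mem_toFinset] at hx
          have := hS hx
          rw [hsupp] at this
          exact this
        · intro a ha b hb hab
          rw [Set.mem_toFinset] at ha hb
          exact hcl ha hb hab
        · rw [hsupp, Set.ncard_coe_finset, Set.ncard_eq_toFinset_card'] at hK
          exact hK
  have h1 := PM.G2_nonneg _ _ (le_refl _) hPM hcomp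
  rw [gamma2_eq] at h1
  linarith

end

end Pool.Agent.Helper77.PMan
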