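import Mathlib

set_option autoImplicit false

open scoped commutatorElement

namespace Pool.Agent.Helper77.CD

/-- Every automorphism that induces the identity on `G / Z(G)` maps every subgroup onto itself. -/
def IsCoDedekindian (G : Type*) [Group G] : Prop :=
  ∀ α : G ≃* G, (∀ g : G, g⁻¹ * α g ∈ Subgroup.center G) →
    ∀ H : Subgroup G, H.map α.toMonoidHom = H

/-- P. Hall's regularity: `(x y)^p = x^p y^p c` with `c` a product of `p`-th powers of elements
of the derived subgroup of `⟨x, y⟩`. -/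
def IsRegular (p : ℕ) (G : Type*) [Group G] : Prop :=
  ∀ x y : G, ∃ c ∈ Subgroup.closure
      {w : G | ∃ v ∈ ⁅Subgroup.closure {x, y}, Subgroup.closure {x, y}⁆, w = v ^ p},
    (x * y) ^ p = x ^ p * y ^ p * c

section Basic

variable {G : Type*} [Group G] {p : ℕ}

theorem coatom_normal [Finite G] [Fact p.Prime] (hG : IsPGroup p G) {M : Subgroup G}
    (hM : IsCoatom M) : M.Normal := by
  have hn : Group.IsNilpotent G := hG.isNilpotent
  have hc : NormalizerCondition G := Group.normalizerCondition_of_isNilpotent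
  exact Subgroup.NormalizerCondition.normal_of_coatom M hc hM

theorem coatom_commutator_le [Finite G] [Fact p.Prime] (hG : IsPGroup p G) {M : Subgroup G}
    (hM : IsCoatom M) : commutator G ≤ M := by
  have hMn := coatom_normal hG hM
  have hnt : Nontrivial (G ⧸ M) := by
    rw [QuotientGroup.nontrivial_iff]
    exact hM.1
  have hq : IsPGroup p (G ⧸ M) := hG.to_quotient M
  have hcn : Nontrivial (Subgroup.center (G ⧸ M)) := hq.center_nontrivial
  have hle : M ≤ (Subgroup.center (G ⧸ M)).comap (QuotientGroup.mk' M) := by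
    intro x hx
    rw [Subgroup.mem_comap]
    have : QuotientGroup.mk' M x = 1 := (QuotientGroup.eq_one_iff x).2 hx
    rw [this]
    exact Subgroup.one_mem _
  have htop : (Subgroup.center (G ⧸ M)).comap (QuotientGroup.mk' M) = ⊤ := by
    rcases hM.le_iff.1 hle with h | h
    · exact h
    · exfalso
      obtain ⟨⟨z, hz⟩, hz1⟩ := exists_ne (1 : Subgroup.center (G ⧸ M))
      obtain ⟨g, rfl⟩ := QuotientGroup.mk_surjective z
      have hg : g ∈ (Subgroup.center (G ⧸ M)).comap (QuotientGroup.mk' M) := hz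
      rw [h] at hg
      exact hz1 (Subtype.ext ((QuotientGroup.eq_one_iff g).2 hg))
  rw [commutator_def, Subgroup.commutator_le]
  intro a _ b _
  have ha : QuotientGroup.mk' M a ∈ Subgroup.center (G ⧸ M) := by
    have : a ∈ (Subgroup.center (G ⧸ M)).comap (QuotientGroup.mk' M) := by
      rw [htop]; exact Subgroup.mem_top a
    exact this
  have h1 : QuotientGroup.mk' M ⁅a, b⁆ = 1 := by
    rw [map_commutatorElement, commutatorElement_eq_one_iff_mul_comm]
    exact (Subgroup.mem_center_iff.1 ha _).symm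
  exact (QuotientGroup.eq_one_iff _).1 h1

theorem eq_top_of_sup_commutator [Finite G] [Fact p.Prime] (hG : IsPGroup p G) {H : Subgroup G}
    (h : H ⊔ commutator G = ⊤) : H = ⊤ := by
  by_contra hne
  obtain ⟨M, hM, hHM⟩ := (eq_top_or_exists_le_coatom H).resolve_left hne
  have : (⊤ : Subgroup G) ≤ M := by
    rw [← h]
    exact sup_le hHM (coatom_commutator_le hG hM)
  exact hM.1 (top_le_iff.1 this)

/-- relative version -/
theorem eq_of_sup_commutator [Finite G] [Fact p.Prime] (hG : IsPGroup p G) {H K : Subgroup G}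
    (hHK : H ≤ K) (h : K ≤ H ⊔ ⁅K, K⁆) : H = K := by
  have hK : IsPGroup p K := hG.to_subgroup K
  have h1 : (H.subgroupOf K) ⊔ commutator K = ⊤ := by
    rw [eq_top_iff]
    intro x _
    have hmap : ((H.subgroupOf K) ⊔ commutator K).map K.subtype = H ⊔ ⁅K, K⁆ := by
      rw [Subgroup.map_sup, commutator_def, Subgroup.map_commutator, Subgroup.map_subgroupOf_eq_of_le hHK]
      simp [← MonoidHom.range_eq_map]
    have hx : (x : G) ∈ ((H.subgroupOf K) ⊔ commutator K).map K.subtype := by
      rw [hmap]; exact h x.2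
    obtain ⟨y, hy, hyx⟩ := hx
    have : y = x := Subtype.ext hyx
    rwa [← this]
  have h2 := eq_top_of_sup_commutator hK h1
  apply le_antisymm hHK
  intro x hx
  have : (⟨x, hx⟩ : K) ∈ H.subgroupOf K := by rw [h2]; exact Subgroup.mem_top _
  exact this

theorem commutator_lt [Finite G] [Fact p.Prime] (hG : IsPGroup p G) {K : Subgroup G}
    (hK : K ≠ ⊥) : ⁅K, K⁆ < K := by
  refine lt_of_le_of_ne (Subgroup.commutator_le_self K) ?_
  intro h
  have := eq_of_sup_commutator hG (H := ⊥) (K := K) bot_le (by rw [bot_sup_eq, h])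
  exact hK this.symm



/-- If `K = ⟨x,y⟩` is nonabelian and `x' ∈ ⁅K,K⁆ x`, then `⟨x, x'⟩ < K`. -/
theorem closure_pair_lt [Finite G] [Fact p.Prime] (hG : IsPGroup p G) {x y x' : G}
    (hx' : x' * x⁻¹ ∈ ⁅Subgroup.closure {x, y}, Subgroup.closure {x, y}⁆)
    (hxy : x * y ≠ y * x) :
    Subgroup.closure {x', x} < Subgroup.closure {x, y} := by
  set K := Subgroup.closure {x, y} with hK
  have hxK : x ∈ K := Subgroup.subset_closure (by simp)
  have hyK : y ∈ K := Subgroup.subset_closure (by simp)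
  have hx'K : x' ∈ K := by
    have h1 : x' * x⁻¹ ∈ K := Subgroup.commutator_le_self K hx'
    simpa using K.mul_mem h1 hxK
  have hle : Subgroup.closure {x', x} ≤ K := by
    rw [Subgroup.closure_le]
    rintro t (rfl | rfl)
    · exact hx'K
    · exact hxK
  refine lt_of_le_of_ne hle ?_
  intro heq
  have h2 : K ≤ Subgroup.zpowers x ⊔ ⁅K, K⁆ := by
    rw [← heq, Subgroup.closure_le, heq]
    rintro t (rfl | rfl)
    · have h3 : t = (t * x⁻¹) * x := by group
      rw [h3]
      exact Subgroup.mul_mem _ (Subgroup.mem_sup_right hx')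
        (Subgroup.mem_sup_left (Subgroup.mem_zpowers x))
    · exact Subgroup.mem_sup_left (Subgroup.mem_zpowers _)
  have h3 : Subgroup.zpowers x = K :=
    eq_of_sup_commutator hG (by rw [Subgroup.zpowers_le]; exact hxK) h2
  have h4 : y ∈ Subgroup.zpowers x := by rw [h3]; exact hyK
  obtain ⟨n, rfl⟩ := Subgroup.mem_zpowers_iff.1 h4
  exact hxy ((Commute.refl x).zpow_right n)

/-- the key step: given the statement for all smaller pairs, if `⁅y,x⁆^p = 1` then the derived
subgroup of `⟨x,y⟩` has exponent `p`. -/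
theorem exponent_commutator [Finite G] [Fact p.Prime] (hG : IsPGroup p G) {x y : G}
    (IH : ∀ u v : G, Subgroup.closure {u, v} < Subgroup.closure {x, y} →
      u ^ p = v ^ p → (u * v⁻¹) ^ p = 1)
    (hxy : x * y ≠ y * x) (hc : ⁅y, x⁆ ^ p = 1) :
    ∀ w ∈ ⁅Subgroup.closure {x, y}, Subgroup.closure {x, y}⁆, w ^ p = 1 := by
  set K := Subgroup.closure {x, y} with hK
  have hxK : x ∈ K := Subgroup.subset_closure (by simp)
  have hyK : y ∈ K := Subgroup.subset_closure (by simp)
  have hKbot : K ≠ ⊥ := by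
    intro h
    apply hxy
    rw [h, Subgroup.mem_bot] at hxK
    rw [hxK]; simp
  have hlt : ⁅K, K⁆ < K := commutator_lt hG hKbot
  have hpair : ∀ u ∈ ⁅K, K⁆, ∀ v ∈ ⁅K, K⁆, Subgroup.closure {u, v} < K := by
    intro u hu v hv
    refine lt_of_le_of_lt ?_ hlt
    rw [Subgroup.closure_le]
    rintro t (rfl | rfl)
    · exact hu
    · exact hv
  have hmul : ∀ u ∈ ⁅K, K⁆, ∀ v ∈ ⁅K, K⁆, u ^ p = 1 → v ^ p = 1 → (u * v) ^ p = 1 := by
    intro u hu v hv h1 h2
    have := IH u v⁻¹ (hpair u hu v⁻¹ (Subgroup.inv_mem _ hv)) (by rw [inv_pow, h1, h2, inv_one])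
    simpa using this
  let T : Subgroup G :=
    { carrier := {w | w ∈ ⁅K, K⁆ ∧ w ^ p = 1}
      one_mem' := ⟨Subgroup.one_mem _, one_pow p⟩
      mul_mem' := fun {a b} ha hb => ⟨Subgroup.mul_mem _ ha.1 hb.1, hmul a ha.1 b hb.1 ha.2 hb.2⟩
      inv_mem' := fun {a} ha => ⟨Subgroup.inv_mem _ ha.1, by rw [inv_pow, ha.2, inv_one]⟩ }
  have hTmem : ∀ w, w ∈ T ↔ (w ∈ ⁅K, K⁆ ∧ w ^ p = 1) := fun w => Iff.rfl
  have hconj : ∀ k ∈ K, ∀ w ∈ T, k * w * k⁻¹ ∈ T := by
    intro k hk w hw
    rw [hTmem] at hw ⊢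
    refine ⟨?_, ?_⟩
    · have h1 : k * w * k⁻¹ = ⁅k, w⁆ * w := by rw [commutatorElement_def]; group
      rw [h1]
      exact Subgroup.mul_mem _
        (Subgroup.commutator_mem_commutator hk (Subgroup.commutator_le_self K hw.1)) hw.1
    · rw [conj_pow, hw.2]; group
  have hyx : ⁅y, x⁆ ∈ T := (hTmem _).2 ⟨Subgroup.commutator_mem_commutator hyK hxK, hc⟩
  -- first: commutators with `x`
  have key : ∀ b ∈ K, (∀ a ∈ ({x, y} : Set G), ⁅a, b⁆ ∈ T) → ∀ a ∈ K, ⁅a, b⁆ ∈ T := by
    intro b hb hgen a ha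
    have hgenerate : a ∈ Subgroup.closure ({x, y} : Set G) := ha
    induction hgenerate using Subgroup.closure_induction with
    | mem t ht => exact hgen t ht
    | one => rw [commutatorElement_one_left]; exact T.one_mem
    | mul s t hs ht ihs iht =>
      have h1 : ⁅s * t, b⁆ = (s * ⁅t, b⁆ * s⁻¹) * ⁅s, b⁆ := by
        simp only [commutatorElement_def]; group
      rw [h1]
      exact T.mul_mem (hconj s hs _ (iht ht)) (ihs hs)
    | inv s hs ihs =>
      have h1 : ⁅s⁻¹, b⁆ = s⁻¹ * (⁅s, b⁆)⁻¹ * (s⁻¹)⁻¹ := by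
        simp only [commutatorElement_def]; group
      rw [h1]
      exact hconj s⁻¹ (K.inv_mem hs) _ (T.inv_mem (ihs hs))
  have hX : ∀ a ∈ K, ⁅a, x⁆ ∈ T := by
    refine key x hxK ?_
    rintro a (rfl | rfl)
    · rw [commutatorElement_self]; exact T.one_mem
    · exact hyx
  have hY : ∀ a ∈ K, ⁅a, y⁆ ∈ T := by
    refine key y hyK ?_
    rintro a (rfl | rfl)
    · rw [← commutatorElement_inv]; exact T.inv_mem hyx
    · rw [commutatorElement_self]; exact T.one_mem
  have hall : ∀ b ∈ K, ∀ a ∈ K, ⁅a, b⁆ ∈ T := by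
    intro b hb
    refine key b hb ?_
    rintro a (rfl | rfl)
    · rw [← commutatorElement_inv]; exact T.inv_mem (hX b hb)
    · rw [← commutatorElement_inv]; exact T.inv_mem (hY b hb)
  have hle : ⁅K, K⁆ ≤ T := by
    rw [Subgroup.commutator_le]
    intro a ha b hb
    exact hall b hb a ha
  intro w hw
  exact ((hTmem w).1 (hle hw)).2

/-- Hall's theorem `E_1`: in a regular `p`-group `x^p = y^p` implies `(x y⁻¹)^p = 1`. -/
theorem pow_eq_one_of_pow_eq [Finite G] [Fact p.Prime] (hG : IsPGroup p G) (hreg : IsRegular p G) :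
    ∀ x y : G, x ^ p = y ^ p → (x * y⁻¹) ^ p = 1 := by
  suffices H : ∀ n : ℕ, ∀ x y : G, Nat.card (Subgroup.closure {x, y}) ≤ n → x ^ p = y ^ p →
      (x * y⁻¹) ^ p = 1 from fun x y h => H _ x y le_rfl h
  intro n
  induction n with
  | zero =>
    intro x y h
    have := Nat.card_pos (α := Subgroup.closure ({x, y} : Set G))
    omega
  | succ n ih =>
    intro x y hcard hpow
    by_cases hxy : x * y = y * x
    · have hc : Commute x y⁻¹ := (show Commute x y from hxy).inv_right
      rw [hc.mul_pow, hpow, inv_pow, mul_inv_cancel]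
    · have IH : ∀ u v : G, Subgroup.closure {u, v} < Subgroup.closure {x, y} →
          u ^ p = v ^ p → (u * v⁻¹) ^ p = 1 := by
        intro u v huv hp
        refine ih u v ?_ hp
        have h1 : Nat.card (Subgroup.closure ({u, v} : Set G)) <
            Nat.card (Subgroup.closure ({x, y} : Set G)) := by
          refine lt_of_le_of_ne (Subgroup.card_le_of_le huv.le) ?_
          intro h
          exact huv.ne (Subgroup.eq_of_le_of_card_ge huv.le h.ge)
        omega
      have hxK : x ∈ Subgroup.closure ({x, y} : Set G) := Subgroup.subset_closure (by simp)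
      have hyK : y ∈ Subgroup.closure ({x, y} : Set G) := Subgroup.subset_closure (by simp)
      have hlt := closure_pair_lt hG (x := x) (y := y) (x' := y * x * y⁻¹)
        (by
          have h1 : y * x * y⁻¹ * x⁻¹ = ⁅y, x⁆ := by rw [commutatorElement_def]
          rw [h1]
          exact Subgroup.commutator_mem_commutator hyK hxK) hxy
      have hpow' : (y * x * y⁻¹) ^ p = x ^ p := by
        rw [conj_pow, hpow]
        have : Commute y (y ^ p) := (Commute.refl y).pow_right p
        rw [this.eq]; group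
      have hc : ⁅y, x⁆ ^ p = 1 := by
        have := IH _ _ hlt hpow'
        rwa [← commutatorElement_def] at this
      have hexp := exponent_commutator hG IH hxy hc
      obtain ⟨c, hc1, hc2⟩ := hreg x y⁻¹
      have hcl : Subgroup.closure ({x, y⁻¹} : Set G) = Subgroup.closure ({x, y} : Set G) := by
        apply le_antisymm
        · rw [Subgroup.closure_le]
          rintro t (rfl | rfl)
          · exact hxK
          · exact Subgroup.inv_mem _ hyK
        · rw [Subgroup.closure_le]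
          rintro t (rfl | rfl)
          · exact Subgroup.subset_closure (by simp)
          · have : t⁻¹ ∈ Subgroup.closure ({x, t⁻¹} : Set G) := Subgroup.subset_closure (by simp)
            simpa using Subgroup.inv_mem _ this
      have hc3 : c = 1 := by
        have : c ∈ (⊥ : Subgroup G) := by
          refine (Subgroup.closure_le (K := (⊥ : Subgroup G))).2 ?_ hc1
          rintro w ⟨v, hv, rfl⟩
          rw [hcl] at hv
          rw [SetLike.mem_coe, Subgroup.mem_bot]
          exact hexp v hv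
        rwa [Subgroup.mem_bot] at this
      rw [hc2, hc3, hpow, inv_pow]; group

theorem IsRegular.quotient (hreg : IsRegular p G) (N : Subgroup G) [N.Normal] :
    IsRegular p (G ⧸ N) := by
  intro a b
  obtain ⟨x, rfl⟩ := QuotientGroup.mk'_surjective N a
  obtain ⟨y, rfl⟩ := QuotientGroup.mk'_surjective N b
  obtain ⟨c, hc, h⟩ := hreg x y
  refine ⟨QuotientGroup.mk' N c, ?_, by rw [← map_mul, ← map_pow, h]; simp only [map_mul, map_pow]⟩
  have hK : Subgroup.closure ({QuotientGroup.mk' N x, QuotientGroup.mk' N y} : Set (G ⧸ N)) =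
      (Subgroup.closure ({x, y} : Set G)).map (QuotientGroup.mk' N) := by
    rw [MonoidHom.map_closure, Set.image_pair]
  have h1 : QuotientGroup.mk' N c ∈ (Subgroup.closure
      {w : G | ∃ v ∈ ⁅Subgroup.closure {x, y}, Subgroup.closure {x, y}⁆, w = v ^ p}).map
      (QuotientGroup.mk' N) := Subgroup.mem_map_of_mem _ hc
  rw [MonoidHom.map_closure] at h1
  refine Subgroup.closure_mono ?_ h1
  rintro _ ⟨w, ⟨v, hv, rfl⟩, rfl⟩
  refine ⟨QuotientGroup.mk' N v, ?_, by rw [map_pow]⟩
  rw [hK, ← Subgroup.map_commutator]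
  exact Subgroup.mem_map_of_mem _ hv

end Basic

/-- Hall's theorem `E_n`. -/
theorem pow_pow_eq_one {p : ℕ} [Fact p.Prime] {G : Type*} [Group G] [Finite G]
    (hG : IsPGroup p G) (hreg : IsRegular p G) (n : ℕ) :
    ∀ x y : G, x ^ p ^ n = y ^ p ^ n → (x * y⁻¹) ^ p ^ n = 1 := by
  induction n with
  | zero =>
    intro x y h
    simp only [pow_zero, pow_one] at h ⊢
    rw [h, mul_inv_cancel]
  | succ n ih =>
    intro x y h
    let N : Subgroup G :=
      { carrier := {w | w ^ p ^ n = 1}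
        one_mem' := one_pow _
        mul_mem' := by
          intro a b ha hb
          have ha' : a ^ p ^ n = 1 := ha
          have hb' : b ^ p ^ n = 1 := hb
          have := ih a b⁻¹ (by rw [inv_pow, ha', hb', inv_one])
          simpa using this
        inv_mem' := by
          intro a ha
          have ha' : a ^ p ^ n = 1 := ha
          change a⁻¹ ^ p ^ n = 1
          rw [inv_pow, ha', inv_one] }
    have hmem : ∀ w, w ∈ N ↔ w ^ p ^ n = 1 := fun w => Iff.rfl
    have hN : N.Normal := by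
      constructor
      intro w hw g
      rw [hmem] at hw ⊢
      rw [conj_pow, hw]; group
    have h1 : (x ^ p) ^ p ^ n = (y ^ p) ^ p ^ n := by
      rw [← pow_mul, ← pow_mul, ← pow_succ', h]
    have h2 := ih _ _ h1
    have h3 : (QuotientGroup.mk' N x) ^ p = (QuotientGroup.mk' N y) ^ p := by
      rw [← map_pow, ← map_pow, ← mul_inv_eq_one, ← map_inv, ← map_mul]
      exact (QuotientGroup.eq_one_iff _).2 h2
    have h4 := pow_eq_one_of_pow_eq (hG.to_quotient N) (hreg.quotient N) _ _ h3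
    rw [← map_inv, ← map_mul, ← map_pow] at h4
    have h5 : (x * y⁻¹) ^ p ∈ N := (QuotientGroup.eq_one_iff _).1 h4
    rw [hmem, ← pow_mul, ← pow_succ'] at h5
    exact h5

section CoDed

variable {G : Type*} [Group G] [Finite G] {p : ℕ} [Fact p.Prime]

theorem coatom_card (hG : IsPGroup p G) {M : Subgroup G} (hM : IsCoatom M) [M.Normal] :
    Nat.card (G ⧸ M) = p := by
  have hnt : Nontrivial (G ⧸ M) := by
    rw [QuotientGroup.nontrivial_iff]
    exact hM.1
  have hq : IsPGroup p (G ⧸ M) := hG.to_quotient M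
  obtain ⟨n, hn0, hn⟩ := hq.nontrivial_iff_card.1 hnt
  have hdvd : p ∣ Nat.card (G ⧸ M) := by rw [hn]; exact dvd_pow_self p (by omega)
  obtain ⟨q, hqo⟩ := exists_prime_orderOf_dvd_card' (G := G ⧸ M) p hdvd
  have hle : M ≤ (Subgroup.zpowers q).comap (QuotientGroup.mk' M) := by
    intro x hx
    rw [Subgroup.mem_comap]
    have : QuotientGroup.mk' M x = 1 := (QuotientGroup.eq_one_iff x).2 hx
    rw [this]
    exact Subgroup.one_mem _
  have htop : (Subgroup.zpowers q).comap (QuotientGroup.mk' M) = ⊤ := by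
    rcases hM.le_iff.1 hle with h | h
    · exact h
    · exfalso
      obtain ⟨g, rfl⟩ := QuotientGroup.mk'_surjective M q
      have hg : g ∈ (Subgroup.zpowers (QuotientGroup.mk' M g)).comap (QuotientGroup.mk' M) :=
        Subgroup.mem_zpowers _
      rw [h] at hg
      have h1 : QuotientGroup.mk' M g = 1 := (QuotientGroup.eq_one_iff g).2 hg
      rw [h1, orderOf_one] at hqo
      exact (Fact.out : p.Prime).one_lt.ne hqo
  have htop2 : Subgroup.zpowers q = ⊤ := by
    rw [eq_top_iff]
    intro t _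
    obtain ⟨g, rfl⟩ := QuotientGroup.mk'_surjective M t
    have : g ∈ (Subgroup.zpowers q).comap (QuotientGroup.mk' M) := by
      rw [htop]; exact Subgroup.mem_top g
    exact this
  rw [← hqo, ← Nat.card_zpowers, htop2, Subgroup.card_top]

theorem pow_mem_coatom (hG : IsPGroup p G) {M : Subgroup G} (hM : IsCoatom M) (x : G) :
    x ^ p ∈ M := by
  have hMn := coatom_normal hG hM
  rw [← QuotientGroup.eq_one_iff, QuotientGroup.mk_pow]
  rw [← coatom_card hG hM]
  exact pow_card_eq_one'

theorem dvd_of_zpow_mem_coatom (hG : IsPGroup p G) {M : Subgroup G} (hM : IsCoatom M) {g : G}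
    (hg : g ∉ M) {j : ℤ} (hj : g ^ j ∈ M) : (p : ℤ) ∣ j := by
  have hMn := coatom_normal hG hM
  have h1 : ((g : G ⧸ M)) ^ j = 1 := by
    rw [← QuotientGroup.mk_zpow]; exact (QuotientGroup.eq_one_iff _).2 hj
  have h2 : orderOf (g : G ⧸ M) = p := by
    apply orderOf_eq_prime
    · rw [← QuotientGroup.mk_pow]; exact (QuotientGroup.eq_one_iff _).2 (pow_mem_coatom hG hM g)
    · intro h; exact hg ((QuotientGroup.eq_one_iff _).1 h)
  rw [← h2]
  exact orderOf_dvd_iff_zpow_eq_one.2 h1

/-- The template: `m ∈ M` central of order `p`, `g ∉ M` implies `m ∈ ⟨g⟩`. -/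
theorem mem_zpowers_of_not_mem (hG : IsPGroup p G) (hco : IsCoDedekindian G) {M : Subgroup G}
    (hM : IsCoatom M) {m : G} (hmM : m ∈ M) (hmZ : m ∈ Subgroup.center G) (hmo : orderOf m = p)
    {g : G} (hg : g ∉ M) : m ∈ Subgroup.zpowers g := by
  have hMn := coatom_normal hG hM
  have hcard : Nat.card (G ⧸ M) = p := coatom_card hG hM
  have hcard2 : Nat.card (Subgroup.zpowers m) = p := by rw [Nat.card_zpowers, hmo]
  let e : G ⧸ M ≃* Subgroup.zpowers m := mulEquivOfPrimeCardEq hcard hcard2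
  let ψ : G →* G := (Subgroup.subtype _).comp (e.toMonoidHom.comp (QuotientGroup.mk' M))
  have hψ : ∀ x, ψ x = (e (x : G ⧸ M) : G) := fun x => rfl
  have hψm : ∀ x, ψ x ∈ Subgroup.zpowers m := fun x => (e (x : G ⧸ M)).2
  have hψZ : ∀ x, ψ x ∈ Subgroup.center G := fun x =>
    (Subgroup.zpowers_le.2 hmZ) (hψm x)
  have hψM : ∀ x, x ∈ M ↔ ψ x = 1 := by
    intro x
    rw [hψ, ← QuotientGroup.eq_one_iff]
    constructor
    · intro h; rw [h, map_one]; rfl
    · intro h
      have : e (x : G ⧸ M) = 1 := Subtype.ext h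
      exact (MulEquiv.map_eq_one_iff e).1 this
  let f : G →* G :=
    { toFun := fun x => x * ψ x
      map_one' := by simp
      map_mul' := by
        intro x y
        have h1 : ψ x * y = y * ψ x := ((Subgroup.mem_center_iff.1 (hψZ x)) y).symm
        rw [map_mul]
        calc x * y * (ψ x * ψ y) = x * (y * ψ x) * ψ y := by group
          _ = x * (ψ x * y) * ψ y := by rw [h1]
          _ = x * ψ x * (y * ψ y) := by group }
  have hf : ∀ x, f x = x * ψ x := fun x => rfl
  have hinj : Function.Injective f := by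
    rw [injective_iff_map_eq_one]
    intro x hx
    rw [hf] at hx
    have h1 : x = (ψ x)⁻¹ := eq_inv_of_mul_eq_one_left hx
    have h2 : x ∈ M := by
      rw [h1]
      exact M.inv_mem ((Subgroup.zpowers_le.2 hmM) (hψm x))
    rw [(hψM x).1 h2] at h1
    simpa using h1
  let α : G ≃* G := MulEquiv.ofBijective f ((Finite.injective_iff_bijective).1 hinj)
  have hα : ∀ x, α x = x * ψ x := fun x => rfl
  have h3 := hco α (by intro x; rw [hα]; simpa using hψZ x) (Subgroup.zpowers g)
  have h4 : α g ∈ Subgroup.zpowers g := by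
    rw [← h3]
    exact Subgroup.mem_map_of_mem _ (Subgroup.mem_zpowers g)
  have h5 : ψ g ∈ Subgroup.zpowers g := by
    rw [hα] at h4
    have := Subgroup.mul_mem _ (Subgroup.inv_mem _ (Subgroup.mem_zpowers g)) h4
    simpa using this
  have h6 : ψ g ≠ 1 := fun h => hg ((hψM g).2 h)
  -- `ψ g` generates `⟨m⟩`
  have h7 : Subgroup.zpowers (ψ g) = Subgroup.zpowers m := by
    apply Subgroup.eq_of_le_of_card_ge
    · rw [Subgroup.zpowers_le]; exact hψm g
    · rw [hcard2, Nat.card_zpowers]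
      have h8 : orderOf (ψ g) ∣ p := by
        rw [← hmo]; exact orderOf_dvd_of_mem_zpowers (hψm g)
      rcases (Nat.dvd_prime (Fact.out : p.Prime)).1 h8 with h9 | h9
      · exact absurd (orderOf_eq_one_iff.1 h9) h6
      · rw [h9]
  have h8 : m ∈ Subgroup.zpowers (ψ g) := by rw [h7]; exact Subgroup.mem_zpowers m
  exact (Subgroup.zpowers_le.2 h5) h8

/-- normal nontrivial subgroups contain central elements of order `p` -/
theorem exists_central_order (hG : IsPGroup p G) {N : Subgroup G} [N.Normal] (hN : N ≠ ⊥) :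
    ∃ z ∈ N, z ∈ Subgroup.center G ∧ orderOf z = p := by
  have hNn : Nontrivial N := (Subgroup.nontrivial_iff_ne_bot N).2 hN
  obtain ⟨n, hn0, hn⟩ := (hG.to_subgroup N).nontrivial_iff_card.1 hNn
  have hdvd : p ∣ Nat.card N := by rw [hn]; exact dvd_pow_self p (by omega)
  have h1 := (hG.of_equiv ConjAct.toConjAct).exists_fixed_point_of_prime_dvd_card_of_fixed_point
    N hdvd (a := 1) (by
      intro g
      exact smul_one g)
  obtain ⟨b, hb, hb1⟩ := h1
  have hbZ : (b : G) ∈ Subgroup.center G := by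
    rw [Subgroup.mem_center_iff]
    intro g
    have h2 := hb (ConjAct.toConjAct g)
    have h3 : g * (b : G) * g⁻¹ = b := congrArg (Subtype.val) h2
    calc g * (b : G) = (g * (b : G) * g⁻¹) * g := by group
      _ = b * g := by rw [h3]
  have hb2 : (b : G) ≠ 1 := fun h => hb1 (Subtype.ext h.symm)
  obtain ⟨k, hk⟩ := hG.exists_orderOf_eq_pow (b : G)
  have hk0 : k ≠ 0 := by
    rintro rfl
    rw [pow_zero] at hk
    exact hb2 (orderOf_eq_one_iff.1 hk)
  obtain ⟨k, rfl⟩ := Nat.exists_eq_succ_of_ne_zero hk0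
  refine ⟨(b : G) ^ p ^ k, N.pow_mem b.2 _, Subgroup.pow_mem _ hbZ _, ?_⟩
  have hp0 : 0 < p := (Fact.out : p.Prime).pos
  rw [orderOf_pow_of_dvd (pow_pos hp0 k).ne' (by rw [hk]; exact pow_dvd_pow p (Nat.le_succ k)), hk,
    Nat.succ_eq_add_one, pow_succ, Nat.mul_div_cancel_left _ (pow_pos hp0 k)]

/-- the subgroup of order `p` of a cyclic `p`-group -/
theorem zpowers_eq_of_mem {z x : G} (hz : orderOf z = p) {a : ℕ} (hx : orderOf x = p ^ (a + 1))
    (hmem : z ∈ Subgroup.zpowers x) : Subgroup.zpowers z = Subgroup.zpowers (x ^ p ^ a) := by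
  have hp0 : 0 < p := (Fact.out : p.Prime).pos
  apply Subgroup.eq_of_le_of_card_ge
  · obtain ⟨j, rfl⟩ := Subgroup.mem_zpowers_iff.1 hmem
    have h1 : x ^ (j * (p : ℤ)) = 1 := by
      rw [zpow_mul, zpow_natCast, ← hz, pow_orderOf_eq_one]
    have h2 : ((p ^ (a + 1) : ℕ) : ℤ) ∣ j * p := by
      rw [← hx]; exact orderOf_dvd_iff_zpow_eq_one.2 h1
    have h3 : ((p ^ a : ℕ) : ℤ) ∣ j := by
      rw [pow_succ, Nat.cast_mul] at h2
      exact Int.dvd_of_mul_dvd_mul_right (by exact_mod_cast hp0.ne') h2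
    obtain ⟨i, rfl⟩ := h3
    rw [Subgroup.zpowers_le, zpow_mul, zpow_natCast]
    exact Subgroup.zpow_mem _ (Subgroup.mem_zpowers _) i
  · rw [Nat.card_zpowers, Nat.card_zpowers, hz,
      orderOf_pow_of_dvd (pow_pos hp0 a).ne' (by rw [hx]; exact pow_dvd_pow p (Nat.le_succ a)), hx,
      pow_succ, Nat.mul_div_cancel_left _ (pow_pos hp0 a)]

theorem isCyclic_of_isCoDedekindian (hG : IsPGroup p G) (hreg : IsRegular p G)
    (hco : IsCoDedekindian G) : IsCyclic G := by
  have hp : p.Prime := Fact.out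
  have hp0 : 0 < p := hp.pos
  by_contra hnc
  have hnt : Nontrivial G := by
    by_contra h
    rw [not_nontrivial_iff_subsingleton] at h
    exact hnc isCyclic_of_subsingleton
  obtain ⟨z, -, hzZ, hzo⟩ := exists_central_order hG (N := (⊤ : Subgroup G)) top_ne_bot
  -- `z` lies in every maximal subgroup
  have hzM : ∀ M : Subgroup G, IsCoatom M → z ∈ M := by
    intro M hM
    by_contra hz
    have hMn := coatom_normal hG hM
    have hMbot : M ≠ ⊥ := by
      rintro rfl
      apply hnc
      have h1 := coatom_card hG hM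
      have h2 := Subgroup.card_eq_card_quotient_mul_card_subgroup (⊥ : Subgroup G)
      rw [h1, Subgroup.card_bot, mul_one] at h2
      exact isCyclic_of_prime_card h2
    obtain ⟨m, hmM, hmZ, hmo⟩ := exists_central_order hG hMbot
    have h1 : m ∈ Subgroup.zpowers z := mem_zpowers_of_not_mem hG hco hM hmM hmZ hmo hz
    have h2 : Subgroup.zpowers m = Subgroup.zpowers z := by
      apply Subgroup.eq_of_le_of_card_ge
      · rw [Subgroup.zpowers_le]; exact h1
      · rw [Nat.card_zpowers, Nat.card_zpowers, hzo, hmo]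
    have h3 : z ∈ Subgroup.zpowers m := by rw [h2]; exact Subgroup.mem_zpowers z
    exact hz ((Subgroup.zpowers_le.2 hmM) h3)
  have hzg : ∀ M : Subgroup G, IsCoatom M → ∀ g, g ∉ M → z ∈ Subgroup.zpowers g := fun M hM g hg =>
    mem_zpowers_of_not_mem hG hco hM (hzM M hM) hzZ hzo hg
  -- an element of least order outside the Frattini subgroup
  have hne : ∃ n, ∃ g : G, (∃ M : Subgroup G, IsCoatom M ∧ g ∉ M) ∧ orderOf g = n := by
    obtain ⟨M, hM, -⟩ := (eq_top_or_exists_le_coatom (⊥ : Subgroup G)).resolve_left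
      top_ne_bot.symm
    have : ∃ g, g ∉ M := by
      by_contra hall
      push Not at hall
      exact hM.1 (eq_top_iff.2 fun x _ => hall x)
    obtain ⟨g, hg⟩ := this
    exact ⟨_, g, ⟨M, hM, hg⟩, rfl⟩
  classical
  obtain ⟨h, ⟨M, hM, hhM⟩, hho⟩ := Nat.find_spec hne
  have hmin : ∀ g : G, ∀ M' : Subgroup G, IsCoatom M' → g ∉ M' → orderOf h ≤ orderOf g := by
    intro g M' hM' hg
    rw [hho]
    exact Nat.find_min' hne ⟨g, ⟨M', hM', hg⟩, rfl⟩
  have hhtop : Subgroup.zpowers h ≠ ⊤ := by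
    intro htop
    exact hnc ⟨h, fun x => (show x ∈ Subgroup.zpowers h by rw [htop]; exact Subgroup.mem_top x)⟩
  obtain ⟨M', hM', hhM'⟩ := (eq_top_or_exists_le_coatom (Subgroup.zpowers h)).resolve_left hhtop
  have hgex : ∃ g, g ∉ M' := by
    by_contra hall
    push Not at hall
    exact hM'.1 (eq_top_iff.2 fun x _ => hall x)
  obtain ⟨g, hg⟩ := hgex
  have hord : ∀ x : G, z ∈ Subgroup.zpowers x → ∃ a, orderOf x = p ^ (a + 1) := by
    intro x hx
    obtain ⟨k, hk⟩ := hG.exists_orderOf_eq_pow x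
    have h1 : p ∣ orderOf x := by rw [← hzo]; exact orderOf_dvd_of_mem_zpowers hx
    have hk0 : k ≠ 0 := by
      rintro rfl
      rw [hk, pow_zero] at h1
      exact hp.one_lt.ne' (Nat.dvd_one.1 h1)
    obtain ⟨k, rfl⟩ := Nat.exists_eq_succ_of_ne_zero hk0
    exact ⟨k, hk⟩
  have hzh := hzg M hM h hhM
  have hzgg := hzg M' hM' g hg
  obtain ⟨k, hk⟩ := hord h hzh
  obtain ⟨l, hl⟩ := hord g hzgg
  have hkl : k ≤ l := by
    have h1 := hmin g M' hM' hg
    rw [hk, hl] at h1
    have := (Nat.pow_le_pow_iff_right hp.one_lt).1 h1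
    omega
  have h1 : Subgroup.zpowers (h ^ p ^ k) = Subgroup.zpowers (g ^ p ^ l) := by
    rw [← zpowers_eq_of_mem hzo hk hzh, ← zpowers_eq_of_mem hzo hl hzgg]
  have h2 : h ^ p ^ k ∈ Subgroup.zpowers (g ^ p ^ l) := by
    rw [← h1]; exact Subgroup.mem_zpowers _
  obtain ⟨u, hu⟩ := Subgroup.mem_zpowers_iff.1 h2
  set y : G := g ^ (u * ((p ^ (l - k) : ℕ) : ℤ)) with hy
  have h3 : h ^ p ^ k = y ^ p ^ k := by
    rw [← hu, hy, ← zpow_natCast (g ^ (u * ((p ^ (l - k) : ℕ) : ℤ))) (p ^ k), ← zpow_mul,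
      mul_assoc, ← Nat.cast_mul, ← pow_add, Nat.sub_add_cancel hkl, mul_comm u, zpow_mul,
      zpow_natCast]
  have h4 := pow_pow_eq_one hG hreg k h y h3
  have h5 : orderOf (h * y⁻¹) ≤ p ^ k := Nat.le_of_dvd (pow_pos hp0 k) (orderOf_dvd_of_pow_eq_one h4)
  have h6 : ∀ M'' : Subgroup G, IsCoatom M'' → h * y⁻¹ ∈ M'' := by
    intro M'' hM''
    by_contra hn
    have h7 := hmin _ M'' hM'' hn
    rw [hk] at h7
    have h8 := (Nat.pow_le_pow_iff_right hp.one_lt).1 (h7.trans h5)
    omega
  have hhM'2 : h ∈ M' := hhM' (Subgroup.mem_zpowers h)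
  have h7 : y ∈ M' := by
    have h8 := M'.mul_mem (M'.inv_mem (h6 M' hM')) hhM'2
    simpa [mul_assoc] using h8
  obtain ⟨e, he⟩ := dvd_of_zpow_mem_coatom hG hM' hg h7
  have h8 : y ∈ M := by
    rw [hy, he, mul_comm, zpow_mul, zpow_natCast]
    exact pow_mem_coatom hG hM _
  have h9 := M.mul_mem (h6 M hM) h8
  exact hhM (by simpa [mul_assoc] using h9)

theorem isCoDedekindian_of_isCyclic (hcyc : IsCyclic G) : IsCoDedekindian G := by
  intro α _ H
  obtain ⟨m, hm⟩ := MonoidHom.map_cyclic α.toMonoidHom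
  apply Subgroup.eq_of_le_of_card_ge
  · rintro _ ⟨x, hx, rfl⟩
    rw [hm]
    exact H.zpow_mem hx m
  · rw [Subgroup.card_map_of_injective α.injective]

end CoDed

end Pool.Agent.Helper77.CD
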