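import Pool.Agent.Helper77.LomSeries

/-!
Final assembly for MP_9fbc95_co: exponents, integrality and positivity.
-/

namespace Pool.Agent.Helper77.Lom

open Finset LomDefs Polynomial

theorem fexp_eq {m n i : ℕ} (hi : i ≤ m) (h : 2 * i ≠ m) :
    fexp m n i = if i ≤ n then 1 + (n - i) / mu m i else 0 := by
  unfold fexp
  rw [if_neg h]
  have ha : (0 : ℤ) < (i : ℤ) + 1 := by positivity
  have hb : (0 : ℤ) < (m : ℤ) + 1 - i := by have : (i : ℤ) ≤ m := by exact_mod_cast hi
                                            omega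
  have e1 : ((n : ℤ) + 1) / ((i : ℤ) + 1) = ((n : ℤ) - i) / ((i : ℤ) + 1) + 1 := by
    have : (n : ℤ) + 1 = ((n : ℤ) - i) + 1 * ((i : ℤ) + 1) := by ring
    rw [this, Int.add_mul_ediv_right _ _ ha.ne']
  have e2 : ((n : ℤ) + m + 1 - 2 * i) / ((m : ℤ) + 1 - i)
      = ((n : ℤ) - i) / ((m : ℤ) + 1 - i) + 1 := by
    have : (n : ℤ) + m + 1 - 2 * i = ((n : ℤ) - i) + 1 * ((m : ℤ) + 1 - i) := by ring
    rw [this, Int.add_mul_ediv_right _ _ hb.ne']
  rw [e1, e2]
  by_cases hn : i ≤ n
  · rw [if_pos hn]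
    obtain ⟨d, rfl⟩ : ∃ d, n = i + d := ⟨n - i, by omega⟩
    have e3 : ((i + d : ℕ) : ℤ) - (i : ℤ) = (d : ℤ) := by push_cast; ring
    have e4 : (m : ℤ) + 1 - i = ((m + 1 - i : ℕ) : ℤ) := by
      rw [Nat.cast_sub (by omega)]; push_cast; ring
    have e5 : (i : ℤ) + 1 = ((i + 1 : ℕ) : ℤ) := by push_cast; ring
    rw [e3, e4, e5, ← Int.natCast_ediv, ← Int.natCast_ediv]
    have e6 : i + d - i = d := by omega
    rw [e6]
    rcases le_total (i + 1) (m + 1 - i) with h1 | h1
    · have hmu : mu m i = i + 1 := by unfold mu; omega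
      have h2 : d / (m + 1 - i) ≤ d / (i + 1) := Nat.div_le_div_left h1 (by omega)
      rw [hmu, max_eq_left (by exact_mod_cast Nat.add_le_add_right h2 1)]
      have h3 : ((d / (i + 1) : ℕ) : ℤ) + 1 = ((1 + d / (i + 1) : ℕ) : ℤ) := by
        rw [Nat.cast_add, Nat.cast_one]; ring
      rw [h3, Int.toNat_natCast]
    · have hmu : mu m i = m + 1 - i := by unfold mu; omega
      have h2 : d / (i + 1) ≤ d / (m + 1 - i) := Nat.div_le_div_left h1 (by omega)
      rw [hmu, max_eq_right (by exact_mod_cast Nat.add_le_add_right h2 1)]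
      have h3 : ((d / (m + 1 - i) : ℕ) : ℤ) + 1 = ((1 + d / (m + 1 - i) : ℕ) : ℤ) := by
        rw [Nat.cast_add, Nat.cast_one]; ring
      rw [h3, Int.toNat_natCast]
  · rw [if_neg hn]
    have hneg : (n : ℤ) - i < 0 := by
      have : (n : ℤ) < i := by exact_mod_cast not_le.mp hn
      omega
    have h1 := Int.ediv_neg_of_neg_of_pos hneg ha
    have h2 := Int.ediv_neg_of_neg_of_pos hneg hb
    apply Int.toNat_of_nonpos
    apply max_le <;> omega

/-- evaluation of integer polynomials at `ν` -/
noncomputable def phi : ℤ[X] →+* F :=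
  (algebraMap ℚ[X] F).comp (Polynomial.mapRingHom (Int.castRingHom ℚ))

theorem phi_apply (p : ℤ[X]) : phi p = algebraMap ℚ[X] F (p.map (Int.castRingHom ℚ)) := rfl

theorem phi_injective : Function.Injective phi := by
  unfold phi
  rw [RingHom.coe_comp]
  apply Function.Injective.comp
  · exact FaithfulSMul.algebraMap_injective ℚ[X] F
  · exact Polynomial.map_injective _ (RingHom.injective_int (Int.castRingHom ℚ))

theorem phi_X : phi X = nu := by
  rw [phi_apply, Polynomial.map_X, RatFunc.algebraMap_X]; rfl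

theorem phi_lin (i : ℕ) : phi (X + C (1 + (i : ℤ))) = nu + 1 + (i : F) := by
  have : (C (1 + (i : ℤ)) : ℤ[X]) = 1 + ((i : ℕ) : ℤ[X]) := by
    rw [C_add, C_1]; simp
  rw [this, map_add, map_add, map_one, map_natCast, phi_X]
  ring

theorem phi_eval (P : ℕ[X]) :
    P.eval₂ (Nat.castRingHom F) (nu + 1)
      = phi ((P.comp (X + 1)).map (Nat.castRingHom ℤ)) := by
  have h1 : (P.comp (X + 1)).map (Nat.castRingHom ℤ)
      = P.eval₂ (C.comp (Nat.castRingHom ℤ)) (X + 1) := by
    rw [Polynomial.map_comp]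
    simp only [Polynomial.map_add, Polynomial.map_X, Polynomial.map_one]
    rw [Polynomial.comp, Polynomial.eval₂_map]
  rw [h1, Polynomial.hom_eval₂]
  have h2 : phi (X + 1) = nu + 1 := by rw [map_add, map_one, phi_X]
  rw [h2]
  congr 1
  exact Subsingleton.elim _ _

/-- coefficient form of the linear recursion -/
theorem lin_rec (m n : ℕ) :
    ∑ j ∈ range (n + 1), lc (m + 1) j (nu + 1) * coeffC m (n - j) = lc m n (nu + 1 + 1) := by
  have h := Q0_VL (m := m) nu_add_ne
  have h2 := congrArg (fun s : LaurentSeries F => s.coeff ((2 * n : ℕ) : ℤ)) h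
  -- both sides as power series
  have hP : ∀ (M : ℕ) (s : F), HahnSeries.single (M : ℤ) 1 * lommel M s
      = ((PowerSeries.mk fun k => if k % 2 = 0 then lc M (k / 2) s else 0 : PowerSeries F) :
        LaurentSeries F) := by
    intro M s
    rw [lommel_eq M s (B := M / 2 + 1) le_rfl, single_mul_sum]
    ext k
    rw [HahnSeries.coeff_sum]
    rcases lt_or_ge k 0 with hk | hk
    · rw [Finset.sum_eq_zero]
      · rw [PowerSeries.coeff_coe]
        simp [hk]
      · intro j _
        rw [HahnSeries.coeff_single_of_ne]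
        omega
    · obtain ⟨k, rfl⟩ := Int.eq_ofNat_of_zero_le hk
      rw [LaurentSeries.coeff_coe_powerSeries, PowerSeries.coeff_mk]
      by_cases hk2 : k % 2 = 0
      · rw [if_pos hk2]
        by_cases hk3 : k / 2 ∈ range (M / 2 + 1)
        · rw [Finset.sum_eq_single_of_mem _ hk3]
          · have : (M : ℤ) + (2 * ((k / 2 : ℕ) : ℤ) - (M : ℤ)) = (k : ℤ) := by omega
            rw [this, HahnSeries.coeff_single_same, one_mul]
          · intro b _ hb
            rw [HahnSeries.coeff_single_of_ne]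
            omega
        · rw [Finset.sum_eq_zero]
          · rw [mem_range] at hk3
            rw [lc, if_neg (by omega)]
          · intro b hb
            rw [HahnSeries.coeff_single_of_ne]
            rw [mem_range] at hb hk3
            omega
      · rw [if_neg hk2, Finset.sum_eq_zero]
        intro b hb
        rw [HahnSeries.coeff_single_of_ne]
        omega
  have hQ0 : Q m (nu + 1) 0 = ((PowerSeries.mk fun k =>
      if k % 2 = 0 then lc (m + 1) (k / 2) (nu + 1) else 0 : PowerSeries F) : LaurentSeries F) := by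
    rw [← hP]
    unfold Q
    simp
  have hQ1 : Q m (nu + 1) 1 = ((PowerSeries.mk fun k =>
      if k % 2 = 0 then lc m (k / 2) (nu + 1 + 1) else 0 : PowerSeries F) : LaurentSeries F) := by
    rw [← hP]
    unfold Q
    simp
  rw [hQ0, hQ1] at h2
  unfold VL at h2
  rw [← PowerSeries.coe_mul, LaurentSeries.coeff_coe_powerSeries,
    LaurentSeries.coeff_coe_powerSeries, PowerSeries.coeff_mk, PowerSeries.coeff_mul] at h2
  have e0 : 2 * n % 2 = 0 := by omega
  have e1 : 2 * n / 2 = n := by omega
  rw [if_pos e0, e1] at h2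
  rw [← h2, Finset.Nat.sum_antidiagonal_eq_sum_range_succ_mk]
  simp only [PowerSeries.coeff_mk, V]
  -- sum over range (2n+1), only even indices contribute
  symm
  have hinj : Set.InjOn (fun j : ℕ => 2 * j) (range (n + 1) : Finset ℕ) := by
    intro a _ b _ hab
    simp only at hab
    omega
  rw [← Finset.sum_subset (s₁ := (range (n + 1)).image (fun j => 2 * j))]
  · rw [Finset.sum_image hinj]
    apply Finset.sum_congr rfl
    intro j hj
    rw [mem_range] at hj
    have f1 : 2 * j % 2 = 0 := by omega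
    have f2 : (2 * n - 2 * j) % 2 = 0 := by omega
    have f3 : 2 * j / 2 = j := by omega
    have f4 : (2 * n - 2 * j) / 2 = n - j := by omega
    rw [if_pos f1, if_pos f2, f3, f4, coeffC_eq]
  · intro a ha
    simp only [mem_image, mem_range] at ha ⊢
    obtain ⟨j, hj, rfl⟩ := ha
    omega
  · intro a ha hna
    simp only [mem_image, mem_range] at ha hna
    have : a % 2 ≠ 0 := by
      intro h0
      exact hna ⟨a / 2, by omega, by omega⟩
    rw [if_neg this, zero_mul]

/-- product of all the linear factors except the central one -/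
noncomputable def B0 (m q : ℕ) : ℤ[X] := ∏ i ∈ (range (m + 1)).erase q, (X + C (1 + (i : ℤ)))

theorem lc_mem (M j : ℕ) : ∃ p : ℤ[X], lc M j (nu + 1) = phi p := by
  unfold lc
  split
  · refine ⟨(-1) ^ j * ((M - j).choose j : ℤ[X]) *
      ∏ i ∈ range (M - 2 * j), (X + C (1 + ((j + i : ℕ) : ℤ))), ?_⟩
    rw [map_mul, map_mul, map_pow, map_neg, map_one, map_natCast, map_prod]
    congr 1
    apply Finset.prod_congr rfl
    intro i _
    rw [phi_lin]
    push_cast
    ring
  · exact ⟨0, by simp⟩

theorem lc_mem' (M j : ℕ) : ∃ p : ℤ[X], lc M j (nu + 1 + 1) = phi p := by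
  unfold lc
  split
  · refine ⟨(-1) ^ j * ((M - j).choose j : ℤ[X]) *
      ∏ i ∈ range (M - 2 * j), (X + C (1 + ((j + i + 1 : ℕ) : ℤ))), ?_⟩
    rw [map_mul, map_mul, map_pow, map_neg, map_one, map_natCast, map_prod]
    congr 1
    apply Finset.prod_congr rfl
    intro i _
    rw [phi_lin]
    push_cast
    ring
  · exact ⟨0, by simp⟩

theorem lc_center (q j : ℕ) :
    ∃ p : ℤ[X], lc (2 * q + 1) j (nu + 1) = (nu + 1 + (q : F)) * phi p := by
  by_cases h : 2 * j ≤ 2 * q + 1
  · rw [lc, if_pos h]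
    have hmem : q - j ∈ range (2 * q + 1 - 2 * j) := by rw [mem_range]; omega
    refine ⟨(-1) ^ j * ((2 * q + 1 - j).choose j : ℤ[X]) *
      ∏ i ∈ (range (2 * q + 1 - 2 * j)).erase (q - j), (X + C (1 + ((j + i : ℕ) : ℤ))), ?_⟩
    rw [← Finset.mul_prod_erase _ _ hmem, map_mul, map_mul, map_pow, map_neg, map_one, map_natCast,
      map_prod]
    have e1 : ∏ i ∈ (range (2 * q + 1 - 2 * j)).erase (q - j), phi (X + C (1 + ((j + i : ℕ) : ℤ)))
        = ∏ i ∈ (range (2 * q + 1 - 2 * j)).erase (q - j), (nu + 1 + (j : F) + (i : F)) := by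
      apply Finset.prod_congr rfl
      intro i _
      rw [phi_lin]
      push_cast
      ring
    rw [e1]
    have e2 : nu + 1 + (j : F) + ((q - j : ℕ) : F) = nu + 1 + (q : F) := by
      rw [Nat.cast_sub (by omega)]; ring
    rw [e2]
    ring
  · exact ⟨0, by rw [lc, if_neg h]; simp⟩

theorem lc_zero_center (q : ℕ) :
    lc (2 * q + 1) 0 (nu + 1) = (nu + 1 + (q : F)) * phi (B0 (2 * q) q) := by
  rw [lc, if_pos (by omega)]
  simp only [pow_zero, Nat.sub_zero, Nat.choose_zero_right, Nat.cast_one, one_mul, mul_zero,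
    Nat.cast_zero, add_zero]
  have hmem : q ∈ range (2 * q + 1) := by rw [mem_range]; omega
  rw [← Finset.mul_prod_erase _ _ hmem, B0, map_prod]
  congr 1
  apply Finset.prod_congr rfl
  intro i _
  rw [phi_lin]

theorem center_simple (q : ℕ) : ∀ n : ℕ, ∃ A : ℤ[X],
    (nu + 1 + (q : F)) * coeffC (2 * q) n * phi (B0 (2 * q) q) ^ (n + 1) = phi A := by
  intro n
  induction n using Nat.strong_induction_on with
  | _ n ih =>
  have h := lin_rec (2 * q) n
  rw [Finset.sum_range_succ'] at h
  rw [Nat.sub_zero, lc_zero_center] at h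
  obtain ⟨K, hK⟩ := lc_mem' (2 * q) n
  rw [hK] at h
  -- the remaining sum
  have hsum : ∃ S : ℤ[X], (∑ j ∈ range n, lc (2 * q + 1) (j + 1) (nu + 1) *
      coeffC (2 * q) (n - (j + 1))) * phi (B0 (2 * q) q) ^ n = phi S := by
    have : ∀ j ∈ range n, ∃ S : ℤ[X], lc (2 * q + 1) (j + 1) (nu + 1) *
      coeffC (2 * q) (n - (j + 1)) * phi (B0 (2 * q) q) ^ n = phi S := by
      intro j hj
      rw [mem_range] at hj
      obtain ⟨p, hp⟩ := lc_center q (j + 1)
      obtain ⟨A, hA⟩ := ih (n - (j + 1)) (by omega)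
      refine ⟨p * A * (B0 (2 * q) q) ^ j, ?_⟩
      rw [hp, map_mul, map_mul, ← hA, map_pow]
      have e : n = (n - (j + 1) + 1) + j := by omega
      conv_lhs => rw [e]
      have e' : (n - (j + 1) + 1 + j) - (j + 1) = n - (j + 1) := by omega
      rw [e', pow_add]
      ring
    choose! S hS using this
    refine ⟨∑ j ∈ range n, S j, ?_⟩
    rw [Finset.sum_mul, map_sum]
    exact Finset.sum_congr rfl hS
  obtain ⟨S, hS⟩ := hsum
  refine ⟨K * (B0 (2 * q) q) ^ n - S, ?_⟩
  rw [map_sub, map_mul, map_pow, ← hS, ← h]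
  ring

/-- Main theorem. -/
theorem main (m n : ℕ) :
    ∃ p : ℤ[X],
      numN m n = algebraMap ℚ[X] F (p.map (Int.castRingHom ℚ)) ∧
      (Odd m → ∀ i, 0 ≤ p.coeff i) ∧
      (Even m → ∀ i,
        0 ≤ (p * (X + C (1 + ((m / 2 : ℕ) : ℤ))) ^ ((n - m / 2) / (m / 2 + 1))).coeff i) := by
  have hcone := O_cone (m := m) nu_add_ne (0 + (List.replicate n 1).sum + (List.replicate n 1).length)
    0 (List.replicate n 1) le_rfl (Nat.zero_le _) (by
      intro j hj
      rw [List.mem_replicate] at hj
      omega)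
  rw [← coeffC_eq] at hcone
  obtain ⟨P, hP⟩ := hcone
  rw [phi_eval] at hP
  have hnn : ∀ i, 0 ≤ ((P.comp (X + 1)).map (Nat.castRingHom ℤ)).coeff i := by
    intro i
    rw [coeff_map]
    simp
  have hexp : ∀ i ∈ range (m + 1), 2 * i ≠ m →
      cnt (mu m i) (List.replicate n 1) (i - 0) = fexp m n i := by
    intro i hi h2
    rw [mem_range] at hi
    rw [cnt_replicate (one_le_mu m i), Nat.sub_zero, fexp_eq (by omega) h2]
  rcases Nat.even_or_odd m with hm | hm
  · -- even
    obtain ⟨q, hq⟩ : ∃ q, m = 2 * q := by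
      obtain ⟨r, hr⟩ := hm
      exact ⟨r, by omega⟩
    subst hq
    have hqq : 2 * q / 2 = q := by omega
    rw [hqq]
    have hmu : mu (2 * q) q = q + 1 := by unfold mu; omega
    set k := (n - q) / (q + 1) with hk
    have hmem : q ∈ range (2 * q + 1) := by rw [mem_range]; omega
    -- N * z^k = phi P'
    have hNk : ∃ P' : ℤ[X], (∀ i, 0 ≤ P'.coeff i) ∧
        numN (2 * q) n * (nu + 1 + (q : F)) ^ k = phi P' := by
      have hD : denD (2 * q) n = (nu + 1 + (q : F)) *
          ∏ i ∈ (range (2 * q + 1)).erase q, (nu + 1 + (i : F)) ^ fexp (2 * q) n i := by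
        unfold denD
        rw [← Finset.mul_prod_erase _ _ hmem]
        congr 1
        unfold fexp
        rw [if_pos rfl, pow_one]
      have hE : ∏ i ∈ range (2 * q + 1), (nu + 1 + (i : F)) ^
            cnt (mu (2 * q) i) (List.replicate n 1) (i - 0)
          = (nu + 1 + (q : F)) ^ cnt (q + 1) (List.replicate n 1) q *
          ∏ i ∈ (range (2 * q + 1)).erase q, (nu + 1 + (i : F)) ^ fexp (2 * q) n i := by
        rw [← Finset.mul_prod_erase _ _ hmem, hmu, Nat.sub_zero]
        congr 1
        apply Finset.prod_congr rfl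
        intro i hi
        rw [Finset.mem_erase] at hi
        rw [hexp i hi.2 (by omega)]
      rw [hE, cnt_replicate (by omega)] at hP
      by_cases hn : q ≤ n
      · rw [if_pos hn, ← hk, pow_add, pow_one] at hP
        refine ⟨_, hnn, ?_⟩
        rw [← hP, numN, hD]
        ring
      · rw [if_neg hn, pow_zero, one_mul] at hP
        have hk0 : k = 0 := by
          rw [hk, Nat.sub_eq_zero_of_le (by omega)]
          exact Nat.zero_div _
        refine ⟨((P.comp (X + 1)) * (X + C (1 + q))).map (Nat.castRingHom ℤ), ?_, ?_⟩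
        · intro i
          rw [coeff_map]
          simp
        · rw [hk0, pow_zero, mul_one, Polynomial.map_mul, map_mul, ← hP, numN, hD]
          have : phi ((X + C (1 + q) : ℕ[X]).map (Nat.castRingHom ℤ)) = nu + 1 + (q : F) := by
            rw [← phi_lin]
            congr 1
            simp
          rw [this]
          ring
    obtain ⟨P', hP'nn, hP'⟩ := hNk
    obtain ⟨A, hA⟩ := center_simple q n
    -- product of the non central factors of D
    set E' : ℤ[X] := ∏ i ∈ (range (2 * q + 1)).erase q, (X + C (1 + (i : ℤ))) ^ fexp (2 * q) n i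
      with hE'
    have hDE : denD (2 * q) n = (nu + 1 + (q : F)) * phi E' := by
      unfold denD
      rw [← Finset.mul_prod_erase _ _ hmem, hE', map_prod]
      congr 1
      · unfold fexp
        rw [if_pos rfl, pow_one]
      · apply Finset.prod_congr rfl
        intro i _
        rw [map_pow, phi_lin]
    have hkey : P' * (B0 (2 * q) q) ^ (n + 1)
        = (X + C (1 + (q : ℤ))) ^ k * (E' * A) := by
      apply phi_injective
      rw [map_mul, map_mul, map_mul, map_pow, map_pow, phi_lin, ← hP', ← hA, numN, hDE]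
      ring
    have hprime : Prime (X + C (1 + (q : ℤ)) : ℤ[X]) := by
      have := Polynomial.prime_X_sub_C (R := ℤ) (-(1 + (q : ℤ)))
      rwa [C_neg, sub_neg_eq_add] at this
    have hndvd : ¬ (X + C (1 + (q : ℤ)) : ℤ[X]) ∣ (B0 (2 * q) q) ^ (n + 1) := by
      intro h
      have h1 := hprime.dvd_of_dvd_pow h
      unfold B0 at h1
      rw [Prime.dvd_finsetProd_iff hprime] at h1
      obtain ⟨i, hi, hdvd⟩ := h1
      rw [Finset.mem_erase] at hi
      obtain ⟨r, hr⟩ := hdvd
      have := congrArg (Polynomial.eval (-(1 + (q : ℤ)))) hr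
      simp only [eval_add, eval_X, eval_C, eval_mul] at this
      have h3 : -(1 + (q : ℤ)) + (1 + (q : ℤ)) = 0 := by ring
      rw [h3, zero_mul] at this
      have : (i : ℤ) = q := by omega
      exact hi.1 (by exact_mod_cast this)
    have hdvd : (X + C (1 + (q : ℤ)) : ℤ[X]) ^ k ∣ P' := by
      apply hprime.pow_dvd_of_dvd_mul_right k hndvd
      rw [hkey]
      exact Dvd.intro _ rfl
    obtain ⟨p, hp⟩ := hdvd
    have hz : (nu + 1 + (q : F)) ^ k ≠ 0 := pow_ne_zero _ (nu_add_ne q)
    refine ⟨p, ?_, ?_, ?_⟩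
    · rw [← phi_apply]
      apply mul_right_cancel₀ hz
      rw [hP', hp, map_mul, map_pow, phi_lin]
      ring
    · intro hodd
      exact absurd hm (Nat.not_even_iff_odd.mpr hodd)
    · intro _ i
      rw [mul_comm, ← hp]
      exact hP'nn i
  · -- odd
    refine ⟨(P.comp (X + 1)).map (Nat.castRingHom ℤ), ?_, fun _ => hnn, ?_⟩
    · rw [← phi_apply, ← hP, numN, denD, mul_comm]
      congr 1
      apply Finset.prod_congr rfl
      intro i hi
      change _ = (nu + 1 + (i : F)) ^ (cnt (mu m i) (List.replicate n 1) (i - 0))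
      rw [hexp i hi]
      rintro rfl
      exact (Nat.not_odd_iff_even.mpr (even_two_mul i)) hm
    · intro heven
      exact absurd hm (Nat.not_odd_iff_even.mpr heven)

end Pool.Agent.Helper77.Lom
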