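import Pool.Agent.Helper77.LomPath

/-!
Counting bound for the pole orders and the positivity theorem for the objects `O`.
-/

namespace Pool.Agent.Helper77.Lom

open Finset Polynomial

/-- greedy count of marked points with gaps `≥ μ`, the first one at distance `≥ d` -/
def cnt (μ : ℕ) : List ℕ → ℕ → ℕ
  | [], d => if d = 0 then 1 else 0
  | (j :: w), d => if d = 0 then 1 + cnt μ w (μ - j) else cnt μ w (d - j)

section cnt

variable {μ : ℕ}

theorem cnt_cons_zero (j : ℕ) (w : List ℕ) : cnt μ (j :: w) 0 = 1 + cnt μ w (μ - j) := by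
  simp [cnt]

theorem cnt_cons_pos (j : ℕ) (w : List ℕ) {d : ℕ} (hd : d ≠ 0) :
    cnt μ (j :: w) d = cnt μ w (d - j) := by
  simp [cnt, hd]

theorem cnt_nil_pos {d : ℕ} (hd : d ≠ 0) : cnt μ [] d = 0 := by simp [cnt, hd]

theorem cnt_nil_zero : cnt μ [] 0 = 1 := by simp [cnt]

theorem cnt_zero (hμ : 1 ≤ μ) (W : List ℕ) : cnt μ W 0 = 1 + cnt μ W μ := by
  cases W with
  | nil => rw [cnt_nil_zero, cnt_nil_pos (by omega)]
  | cons j w => rw [cnt_cons_zero, cnt_cons_pos _ _ (by omega)]

theorem cnt_anti (hμ : 1 ≤ μ) : ∀ (W : List ℕ) {d d' : ℕ}, d ≤ d' → cnt μ W d' ≤ cnt μ W d := by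
  intro W
  induction W with
  | nil =>
    intro d d' h
    by_cases hd : d = 0
    · subst hd
      rw [cnt_nil_zero]
      by_cases hd' : d' = 0
      · subst hd'; rw [cnt_nil_zero]
      · rw [cnt_nil_pos hd']; omega
    · rw [cnt_nil_pos (show d' ≠ 0 by omega)]; omega
  | cons j w ih =>
    intro d d' h
    by_cases hd : d = 0
    · subst hd
      by_cases hd' : d' = 0
      · subst hd'; exact le_rfl
      · rw [cnt_cons_zero, cnt_cons_pos _ _ hd']
        have h1 := ih (d := 0) (d' := d' - j) (by omega)
        have h2 := cnt_zero hμ w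
        have h3 := ih (d := μ - j) (d' := μ) (by omega)
        omega
    · rw [cnt_cons_pos _ _ hd, cnt_cons_pos _ _ (show d' ≠ 0 by omega)]
      exact ih (by omega)

theorem cnt_merge (hμ : 1 ≤ μ) (k l : ℕ) (v : List ℕ) (d : ℕ) :
    cnt μ ((k + l) :: v) d ≤ cnt μ (k :: l :: v) d := by
  have aux : ∀ d : ℕ, cnt μ v (d - (k + l)) ≤ cnt μ (l :: v) (d - k) := by
    intro d
    by_cases h : d - k = 0
    · rw [h, cnt_cons_zero]
      have h1 : d - (k + l) = 0 := by omega
      rw [h1, cnt_zero hμ]
      have := cnt_anti hμ v (d := μ - l) (d' := μ) (by omega)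
      omega
    · rw [cnt_cons_pos _ _ h, Nat.sub_sub]
  by_cases hd : d = 0
  · subst hd
    rw [cnt_cons_zero, cnt_cons_zero]
    have := aux μ
    omega
  · rw [cnt_cons_pos _ _ hd, cnt_cons_pos _ _ hd]
    exact aux d

theorem cnt_prefix_mono {A B : List ℕ} (h : ∀ d, cnt μ A d ≤ cnt μ B d) :
    ∀ (u : List ℕ) (d : ℕ), cnt μ (u ++ A) d ≤ cnt μ (u ++ B) d := by
  intro u
  induction u with
  | nil => intro d; exact h d
  | cons j u ih =>
    intro d
    simp only [List.cons_append]
    by_cases hd : d = 0
    · subst hd
      rw [cnt_cons_zero, cnt_cons_zero]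
      have := ih (μ - j)
      omega
    · rw [cnt_cons_pos _ _ hd, cnt_cons_pos _ _ hd]
      exact ih _

theorem cnt_eq_zero_of_lt : ∀ (u : List ℕ) {d : ℕ}, u.sum < d → cnt μ u d = 0 := by
  intro u
  induction u with
  | nil => intro d h; exact cnt_nil_pos (by simp at h; omega)
  | cons j u ih =>
    intro d h
    rw [List.sum_cons] at h
    rw [cnt_cons_pos _ _ (by omega)]
    exact ih (by omega)

theorem cnt_append_of_lt (j : ℕ) (v : List ℕ) : ∀ (u : List ℕ) {d : ℕ}, u.sum < d →
    cnt μ (u ++ j :: v) d = cnt μ v (d - u.sum - j) := by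
  intro u
  induction u with
  | nil =>
    intro d h
    simp only [List.sum_nil] at h
    simp only [List.nil_append, List.sum_nil, Nat.sub_zero]
    exact cnt_cons_pos _ _ (by omega)
  | cons i u ih =>
    intro d h
    rw [List.sum_cons] at h ⊢
    rw [List.cons_append, cnt_cons_pos _ _ (by omega), ih (by omega)]
    congr 1
    omega

theorem cnt_of_eq : ∀ (u : List ℕ), (∀ j ∈ u, 1 ≤ j) → cnt μ u u.sum = 1 := by
  intro u
  induction u with
  | nil => intro _; exact cnt_nil_zero
  | cons i u ih =>
    intro h
    have hi := h i (by simp)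
    rw [List.sum_cons, cnt_cons_pos _ _ (by omega)]
    have : i + u.sum - i = u.sum := by omega
    rw [this]
    exact ih (fun k hk => h k (by simp [hk]))

theorem cnt_append_of_eq (j : ℕ) (v : List ℕ) : ∀ (u : List ℕ), (∀ j ∈ u, 1 ≤ j) →
    cnt μ (u ++ j :: v) u.sum = 1 + cnt μ v (μ - j) := by
  intro u
  induction u with
  | nil => intro _; exact cnt_cons_zero _ _
  | cons i u ih =>
    intro h
    have hi := h i (by simp)
    rw [List.sum_cons, List.cons_append, cnt_cons_pos _ _ (by omega)]
    have : i + u.sum - i = u.sum := by omega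
    rw [this]
    exact ih (fun k hk => h k (by simp [hk]))

theorem cnt_split (hμ : 1 ≤ μ) (j : ℕ) (v : List ℕ) {D : ℕ} (hD : μ ≤ D) :
    ∀ (u : List ℕ) {d : ℕ}, d ≤ D → cnt μ u d + cnt μ v (D - j) ≤ cnt μ (u ++ j :: v) d := by
  intro u
  induction u with
  | nil =>
    intro d hd
    simp only [List.nil_append]
    by_cases h0 : d = 0
    · subst h0
      rw [cnt_nil_zero, cnt_cons_zero]
      have := cnt_anti hμ v (d := μ - j) (d' := D - j) (by omega)
      omega
    · rw [cnt_nil_pos h0, cnt_cons_pos _ _ h0]
      have := cnt_anti hμ v (d := d - j) (d' := D - j) (by omega)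
      omega
  | cons i u ih =>
    intro d hd
    rw [List.cons_append]
    by_cases h0 : d = 0
    · subst h0
      rw [cnt_cons_zero, cnt_cons_zero]
      have := ih (d := μ - i) (by omega)
      omega
    · rw [cnt_cons_pos _ _ h0, cnt_cons_pos _ _ h0]
      exact ih (by omega)

theorem cnt_replicate (hμ : 1 ≤ μ) : ∀ (n d : ℕ),
    cnt μ (List.replicate n 1) d = if d ≤ n then 1 + (n - d) / μ else 0 := by
  intro n
  induction n with
  | zero =>
    intro d
    by_cases h : d = 0
    · subst h; simp [cnt]
    · simp [cnt, h]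
  | succ n ih =>
    intro d
    rw [List.replicate_succ]
    by_cases h : d = 0
    · subst h
      rw [cnt_cons_zero, ih]
      simp only [Nat.zero_le, if_true, Nat.sub_zero]
      by_cases h1 : μ - 1 ≤ n
      · rw [if_pos h1]
        have e : n + 1 = (n - (μ - 1)) + μ := by omega
        rw [e, Nat.add_div_right _ (by omega)]
        have : n - (μ - 1) + μ - (μ - 1) - 1 = n - (μ - 1) := by omega
        omega
      · rw [if_neg h1, Nat.div_eq_of_lt (by omega)]
    · rw [cnt_cons_pos _ _ h, ih]
      by_cases h1 : d ≤ n + 1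
      · rw [if_pos (by omega), if_pos h1]
        congr 2
        omega
      · rw [if_neg (by omega), if_neg h1]

end cnt

section cone

variable {K : Type*} [Field K]

/-- `g * ∏ (x+i)^(e i)` is a polynomial in `x` with coefficients in `ℕ` -/
def Cone (m : ℕ) (x : K) (e : ℕ → ℕ) (g : K) : Prop :=
  ∃ p : ℕ[X], g * ∏ i ∈ range (m + 1), (x + (i : K)) ^ e i = p.eval₂ (Nat.castRingHom K) x

variable {m : ℕ} {x : K}

theorem Cone.mono {e e' : ℕ → ℕ} {g : K} (h : Cone m x e g) (he : ∀ i ≤ m, e i ≤ e' i) :
    Cone m x e' g := by
  obtain ⟨p, hp⟩ := h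
  refine ⟨p * ∏ i ∈ range (m + 1), (X + C i) ^ (e' i - e i), ?_⟩
  rw [eval₂_mul, ← hp, eval₂_finsetProd]
  simp only [eval₂_pow, eval₂_add, eval₂_X, eval₂_C, Nat.coe_castRingHom]
  rw [mul_assoc, ← Finset.prod_mul_distrib]
  congr 1
  apply Finset.prod_congr rfl
  intro i hi
  rw [← pow_add]
  congr 1
  have := he i (by simp at hi; omega)
  omega

theorem Cone.zero (e : ℕ → ℕ) : Cone m x e 0 := ⟨0, by simp⟩

theorem Cone.add {e : ℕ → ℕ} {g g' : K} (h : Cone m x e g) (h' : Cone m x e g') :
    Cone m x e (g + g') := by
  obtain ⟨p, hp⟩ := h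
  obtain ⟨p', hp'⟩ := h'
  exact ⟨p + p', by rw [eval₂_add, ← hp, ← hp', add_mul]⟩

theorem Cone.sum {ι : Type*} {e : ℕ → ℕ} {s : Finset ι} {g : ι → K}
    (h : ∀ i ∈ s, Cone m x e (g i)) : Cone m x e (∑ i ∈ s, g i) := by
  classical
  induction s using Finset.induction_on with
  | empty => simpa using Cone.zero e
  | insert b s hb ih =>
    rw [Finset.sum_insert hb]
    exact (h b (by simp)).add (ih (fun i hi => h i (by simp [hi])))

theorem Cone.mul {e e' : ℕ → ℕ} {g g' : K} (h : Cone m x e g) (h' : Cone m x e' g') :
    Cone m x (fun i => e i + e' i) (g * g') := by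
  obtain ⟨p, hp⟩ := h
  obtain ⟨p', hp'⟩ := h'
  refine ⟨p * p', ?_⟩
  rw [eval₂_mul, ← hp, ← hp']
  simp only [pow_add, Finset.prod_mul_distrib]
  ring

theorem Cone.div {e : ℕ → ℕ} {g : K} {q : ℕ} (hq : q ≤ m) (h : Cone m x e ((x + (q : K)) * g)) :
    Cone m x (fun i => e i + if i = q then 1 else 0) g := by
  obtain ⟨p, hp⟩ := h
  refine ⟨p, ?_⟩
  rw [← hp]
  simp only [pow_add, Finset.prod_mul_distrib]
  have : ∏ i ∈ range (m + 1), (x + (i : K)) ^ (if i = q then 1 else 0) = x + (q : K) := by
    rw [Finset.prod_eq_single q]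
    · simp
    · intro b _ hb; simp [hb]
    · intro h; simp at h; omega
  rw [this]
  ring

theorem Cone.one : Cone m x (fun _ => 0) (1 : K) := ⟨1, by simp⟩

end cone

section main

variable {K : Type*} [Field K] {m : ℕ} {x : K}

/-- gap parameter -/
def mu (m q : ℕ) : ℕ := min q (m - q) + 1

theorem one_le_mu (m q : ℕ) : 1 ≤ mu m q := by unfold mu; omega

theorem L_append (m : ℕ) (x : K) (u w : List ℕ) : L m x u (O m x w) = O m x (u ++ w) := by
  induction u with
  | nil => rfl
  | cons j u ih => simp only [L, List.cons_append, O, ih]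

theorem L_snoc (m : ℕ) (x : K) (u : List ℕ) (k : ℕ) (f : ℕ → K) :
    L m x (u ++ [k]) f = L m x u (Rop x (Up m k f)) := by
  induction u with
  | nil => rfl
  | cons j u ih => simp only [L, List.cons_append, ih]

theorem L_zero (m : ℕ) (x : K) (u : List ℕ) : L m x u (fun _ => 0) = fun _ => 0 := by
  induction u with
  | nil => rfl
  | cons j u ih =>
    funext a
    simp only [L, ih]
    apply Rop_eq_zero
    intro i _
    simp [Up]

theorem Up_Up (m j k : ℕ) (f : ℕ → K) : Up m j (Up m k f) = Up m (j + k) f := by
  funext i
  simp only [Up]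
  by_cases h : i + (j + k) ≤ m
  · have h1 : i + j ≤ m := by omega
    have h2 : i + j + k ≤ m := by omega
    rw [if_pos h, if_pos h1, if_pos h2]
    congr 1
    omega
  · rw [if_neg h]
    by_cases h1 : i + j ≤ m
    · rw [if_pos h1, if_neg (by omega)]
    · rw [if_neg h1]

theorem Up_ind (m : ℕ) {k : ℕ} (hk : 1 ≤ k) : Up m k (ind 0 : ℕ → K) = fun _ => 0 := by
  funext i
  simp only [Up, ind]
  rw [if_neg (show i + k ≠ 0 by omega)]
  simp

theorem exists_split (m a : ℕ) (ha : a ≤ m) : ∀ W : List ℕ,
    ∃ u v : List ℕ, W = u ++ v ∧ a + u.sum ≤ m ∧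
      (v = [] ∨ ∃ j v', v = j :: v' ∧ m < a + u.sum + j) := by
  intro W
  induction W using List.reverseRecOn with
  | nil => exact ⟨[], [], rfl, by simpa using ha, Or.inl rfl⟩
  | append_singleton W j ih =>
    obtain ⟨u, v, rfl, h1, h2⟩ := ih
    rcases h2 with rfl | ⟨i, v', rfl, h3⟩
    · by_cases h : a + u.sum + j ≤ m
      · refine ⟨u ++ [j], [], by simp, ?_, Or.inl rfl⟩
        simp
        omega
      · exact ⟨u, [j], by simp, h1, Or.inr ⟨j, [], rfl, by omega⟩⟩
    · exact ⟨u, i :: (v' ++ [j]), by simp, h1, Or.inr ⟨i, v' ++ [j], rfl, h3⟩⟩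

theorem cnt_full {q : ℕ} {u v : List ℕ} (hu : ∀ j ∈ u, 1 ≤ j) :
    1 ≤ cnt (mu m q) (u ++ v) u.sum := by
  cases v with
  | nil => rw [List.append_nil, cnt_of_eq u hu]
  | cons j v => rw [cnt_append_of_eq j v u hu]; omega

/-- Main positivity theorem for the objects. -/
theorem O_cone (hx : ∀ i : ℕ, x + (i : K) ≠ 0) :
    ∀ (N : ℕ) (a : ℕ) (W : List ℕ), a + W.sum + W.length ≤ N → a ≤ m → (∀ j ∈ W, 1 ≤ j) →
      Cone m x (fun q => cnt (mu m q) W (q - a)) (O m x W a) := by
  intro N
  induction N using Nat.strong_induction_on with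
  | _ N IH =>
  intro a W hN ha hW
  obtain ⟨u, v, rfl, hau, hv⟩ := exists_split m a ha W
  have hu : ∀ j ∈ u, 1 ≤ j := fun j hj => hW j (by simp [hj])
  have hvp : ∀ j ∈ v, 1 ≤ j := fun j hj => hW j (by simp [hj])
  set Q := a + u.sum with hQ
  have hrec := recursion hx u v a hu hau
  -- the reduced exponent
  set e' : ℕ → ℕ := fun q => cnt (mu m q) (u ++ v) (q - a) - (if q = Q then 1 else 0) with he'
  have hfin : Cone m x e' ((x + (Q : K)) * O m x (u ++ v) a) := by
    have e1 : (x + (Q : K)) = x + (a : K) + (u.sum : K) := by rw [hQ]; push_cast; ring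
    rw [e1, hrec]
    -- value of the exponent at Q
    have hexQ : ∀ q, q = Q → (v = [] → cnt (mu m q) (u ++ v) (q - a) = 1) ∧
        (∀ j v', v = j :: v' → cnt (mu m q) (u ++ v) (q - a) = 1 + cnt (mu m q) v' 0) := by
      intro q hq
      have hqa : q - a = u.sum := by omega
      refine ⟨?_, ?_⟩
      · rintro rfl
        rw [hqa, List.append_nil, cnt_of_eq u hu]
      · rintro j v' rfl
        rw [hqa, cnt_append_of_eq j v' u hu]
        have hj : m < Q + j := by
          rcases hv with h | ⟨j', v'', h, h'⟩
          · simp at h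
          · simp only [List.cons.injEq] at h
            obtain ⟨rfl, _⟩ := h
            exact h'
        have : mu m q - j = 0 := by
          unfold mu
          omega
        rw [this]
    refine Cone.add ?_ (Cone.add ?_ ?_)
    · -- term O (a-1)
      cases a with
      | zero => exact Cone.zero _
      | succ a =>
        rw [prev_succ]
        have h1 := IH (a + (u ++ v).sum + (u ++ v).length) (by omega) a (u ++ v) le_rfl (by omega) hW
        refine h1.mono ?_
        intro q hq
        simp only [he']
        by_cases h : q = Q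
        · rw [if_pos h]
          have hqa : q - a = u.sum + 1 := by omega
          rcases hv with hv0 | ⟨j, v', hvj, hj⟩
          · have e2 := (hexQ q h).1 hv0
            rw [e2, hqa, hv0, List.append_nil, cnt_eq_zero_of_lt u (by omega)]
          · have e2 := (hexQ q h).2 j v' hvj
            rw [e2, hqa, hvj, cnt_append_of_lt j v' u (by omega)]
            have := cnt_anti (one_le_mu m q) v' (d := 0) (d' := u.sum + 1 - u.sum - j) (by omega)
            omega
        · rw [if_neg h]
          have := cnt_anti (one_le_mu m q) (u ++ v) (d := q - (a + 1)) (d' := q - a) (by omega)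
          omega
    · -- merged term
      rcases hv with hv0 | ⟨j, v', hvj, hj⟩
      · -- v = []
        subst hv0
        have hg : gfun m x ([] : List ℕ) = ind 0 := rfl
        rw [hg]
        rcases List.eq_nil_or_concat u with hu0 | ⟨u', k, hu'⟩
        · subst hu0
          simp only [L, ind]
          by_cases h0 : a = 0
          · rw [if_pos h0]
            exact Cone.one.mono (fun i _ => Nat.zero_le _)
          · rw [if_neg h0]
            exact Cone.zero _
        · rw [List.concat_eq_append] at hu'
          subst hu'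
          rw [L_snoc, Up_ind m (hu k (by simp))]
          have : Rop x (fun _ => (0 : K)) = fun _ => 0 := by
            funext i; exact Rop_zero x i
          rw [this, L_zero]
          exact Cone.zero _
      · subst hvj
        have hg : gfun m x (j :: v') = Up m j (O m x v') := rfl
        rw [hg]
        rcases List.eq_nil_or_concat u with hu0 | ⟨u', k, hu'⟩
        · subst hu0
          simp only [L, Up]
          rw [if_neg (by simp only [List.sum_nil] at hQ; omega)]
          exact Cone.zero _
        · rw [List.concat_eq_append] at hu'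
          subst hu'
          have hk := hu k (by simp)
          rw [L_snoc, Up_Up]
          have hR : Rop x (Up m (k + j) (O m x v')) = O m x ((k + j) :: v') := rfl
          rw [hR, L_append]
          have hsum : (u' ++ (k + j) :: v').sum = (u' ++ [k] ++ j :: v').sum := by
            simp only [List.sum_append, List.sum_cons, List.sum_nil]; omega
          have hlen : (u' ++ (k + j) :: v').length + 1 = (u' ++ [k] ++ j :: v').length := by
            simp only [List.length_append, List.length_cons, List.length_nil]; omega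
          have h1 := IH (a + (u' ++ (k + j) :: v').sum + (u' ++ (k + j) :: v').length)
            (by omega) a (u' ++ (k + j) :: v') le_rfl ha (by
              intro i hi
              simp only [List.mem_append, List.mem_cons] at hi
              rcases hi with hi | rfl | hi
              · exact hu i (by simp [hi])
              · omega
              · exact hvp i (by simp [hi]))
          refine h1.mono ?_
          intro q hq
          simp only [he']
          have hus : (u' ++ [k]).sum = u'.sum + k := by simp
          by_cases h : q = Q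
          · rw [if_pos h, (hexQ q h).2 j v' rfl]
            have hqa : q - a = u'.sum + k := by omega
            rw [hqa, cnt_append_of_lt (k + j) v' u' (by omega)]
            have := cnt_anti (one_le_mu m q) v' (d := 0) (d' := u'.sum + k - u'.sum - (k + j))
              (by omega)
            omega
          · rw [if_neg h, Nat.sub_zero, List.append_assoc]
            exact cnt_prefix_mono (fun d => cnt_merge (one_le_mu m q) k j v' d) u' (q - a)
    · -- product terms
      apply Cone.sum
      intro i hi
      rw [Finset.mem_range] at hi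
      have hget : u.getD i 0 = u[i] := by
        rw [List.getD_eq_getElem?_getD, List.getElem?_eq_getElem hi]; rfl
      rw [hget]
      have hui : 1 ≤ u[i] := hu _ (List.getElem_mem hi)
      have hdec : u = u.take i ++ u[i] :: u.drop (i + 1) := by
        rw [← List.drop_eq_getElem_cons hi, List.take_append_drop]
      have hsum : u.sum = (u.take i).sum + u[i] + (u.drop (i + 1)).sum := by
        conv_lhs => rw [hdec]
        simp only [List.sum_append, List.sum_cons]
        omega
      have hlen : u.length = (u.take i).length + 1 + (u.drop (i + 1)).length := by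
        conv_lhs => rw [hdec]
        simp only [List.length_append, List.length_cons]
        omega
      have hsumv : (u ++ v).sum = u.sum + v.sum := List.sum_append
      have hlenv : (u ++ v).length = u.length + v.length := List.length_append
      have hsumd : (u.drop (i + 1) ++ v).sum = (u.drop (i + 1)).sum + v.sum := List.sum_append
      have hlend : (u.drop (i + 1) ++ v).length = (u.drop (i + 1)).length + v.length :=
        List.length_append
      have h1 := IH (a + (u.take i).sum + (u.take i).length) (by omega) a (u.take i) le_rfl ha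
        (fun k hk => hu k (List.mem_of_mem_take hk))
      have h2 := IH (u[i] - 1 + (u.drop (i + 1) ++ v).sum + (u.drop (i + 1) ++ v).length)
        (by omega) (u[i] - 1) (u.drop (i + 1) ++ v) le_rfl (by omega)
        (by
          intro k hk
          rw [List.mem_append] at hk
          rcases hk with hk | hk
          · exact hu k (List.mem_of_mem_drop hk)
          · exact hvp k hk)
      refine (h1.mul h2).mono ?_
      intro q hq
      simp only [he']
      by_cases h : q = Q
      · rw [if_pos h]
        have z1 : cnt (mu m q) (u.take i) (q - a) = 0 := cnt_eq_zero_of_lt _ (by omega)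
        rw [z1, zero_add]
        rcases hv with hv0 | ⟨j, v', hvj, hj⟩
        · rw [(hexQ q h).1 hv0, hv0, List.append_nil, cnt_eq_zero_of_lt _ (by omega)]
        · rw [(hexQ q h).2 j v' hvj, hvj, cnt_append_of_lt j v' _ (by omega)]
          have := cnt_anti (one_le_mu m q) v' (d := 0)
            (d' := q - (u[i] - 1) - (u.drop (i + 1)).sum - j) (by omega)
          omega
      · rw [if_neg h, Nat.sub_zero]
        have hW' : u ++ v = u.take i ++ u[i] :: (u.drop (i + 1) ++ v) := by
          have h3 : u ++ v = (u.take i ++ u[i] :: u.drop (i + 1)) ++ v := by rw [← hdec]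
          rw [h3, List.append_assoc, List.cons_append]
        rw [hW']
        have hs := cnt_split (one_le_mu m q) u[i] (u.drop (i + 1) ++ v) (D := q + 1)
          (by unfold mu; omega) (u.take i) (d := q - a) (by omega)
        have e3 : q - (u[i] - 1) = q + 1 - u[i] := by omega
        rw [e3]
        exact hs
  refine (Cone.div hau hfin).mono ?_
  intro q hq
  simp only [he']
  by_cases h : q = Q
  · rw [if_pos h]
    have hqa : q - a = u.sum := by omega
    have := cnt_full (m := m) (q := q) (v := v) hu
    rw [hqa]
    omega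
  · rw [if_neg h]
    omega

end main

end Pool.Agent.Helper77.Lom
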