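import Mathlib

/-! Definitions: maximal Cohen-Macaulay modules, countable CM-representation type and the
dimension of a subcategory of modules. -/

universe u

namespace Pool.Agent.Helper77.CM

section Defs

/-- The depth of a module `N` over a local ring `A`: the supremum of the lengths of the
(weakly) `N`-regular sequences contained in the maximal ideal. For finitely generated `N ≠ 0`
over a noetherian local ring this is the usual depth (by Nakayama's lemma weakly regular
sequences in the maximal ideal are regular), and it is `⊤` for `N = 0`. -/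
noncomputable def depth (A : Type u) [CommRing A] [IsLocalRing A]
    (N : Type u) [AddCommGroup N] [Module A N] : ℕ∞ :=
  ⨆ (s : List A) (_ : (∀ a ∈ s, a ∈ IsLocalRing.maximalIdeal A) ∧
    RingTheory.Sequence.IsWeaklyRegular N s), (s.length : ℕ∞)

variable (R : Type u) [CommRing R]

/-- Maximal Cohen-Macaulay modules: finitely generated modules `M` with
`depth M_p ≥ dim R_p` for every prime ideal `p` of `R`. -/
def IsMCM (M : ModuleCat.{u} R) : Prop :=
  Module.Finite R M ∧ ∀ (p : Ideal R) [p.IsPrime],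
    ringKrullDim (Localization.AtPrime p) ≤
      ((depth (Localization.AtPrime p) (LocalizedModule p.primeCompl M) : ℕ∞) : WithBot ℕ∞)

/-- Cohen-Macaulay local rings: noetherian local rings that are maximal Cohen-Macaulay as
modules over themselves. -/
def IsCMLocalRing : Prop := IsNoetherianRing R ∧ IsLocalRing R ∧ IsMCM R (ModuleCat.of R R)

/-- Indecomposable modules: nonzero, and not a direct sum of two nonzero modules. -/
def IsIndecomposable (M : ModuleCat.{u} R) : Prop :=
  Nontrivial M ∧ ∀ A B : ModuleCat.{u} R, Nonempty (M ≃ₗ[R] (A × B)) →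
    Subsingleton A ∨ Subsingleton B

/-- Countable CM-representation type: there are only countably many indecomposable maximal
Cohen-Macaulay modules up to isomorphism. -/
def CountableCMType : Prop :=
  ∃ N : ℕ → ModuleCat.{u} R, ∀ M : ModuleCat.{u} R, IsMCM R M → IsIndecomposable R M →
    ∃ n : ℕ, Nonempty (M ≃ₗ[R] N n)

/-- `add C`: direct summands of finite direct sums of modules in `C`. -/
def Add (C : ModuleCat.{u} R → Prop) (M : ModuleCat.{u} R) : Prop :=
  ∃ (n : ℕ) (X : Fin n → ModuleCat.{u} R), (∀ j, C (X j)) ∧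
    ∃ N : ModuleCat.{u} R, Nonempty ((M × N) ≃ₗ[R] (∀ j, X j))

/-- `N` is the first syzygy of `M`: the kernel of a minimal free cover of `M` (a surjection
from a finitely generated free module with as few generators as possible). -/
def IsSyzygy (M N : ModuleCat.{u} R) : Prop :=
  ∃ (n : ℕ) (f : (Fin n → R) →ₗ[R] M), Function.Surjective f ∧
    (∀ (m : ℕ) (g : (Fin m → R) →ₗ[R] M), Function.Surjective g → n ≤ m) ∧
    Nonempty (N ≃ₗ[R] LinearMap.ker f)

/-- `N` is the `i`-th syzygy of `M` in its minimal free resolution. -/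
def IsIterSyzygy : ℕ → ModuleCat.{u} R → ModuleCat.{u} R → Prop
  | 0, M, N => Nonempty (M ≃ₗ[R] N)
  | (i + 1), M, N => ∃ P : ModuleCat.{u} R, IsIterSyzygy i M P ∧ IsSyzygy R P N

/-- `[C] = add ({R} ∪ {Ω^i X : i ≥ 0, X ∈ C})`. -/
def Bracket (C : ModuleCat.{u} R → Prop) : ModuleCat.{u} R → Prop :=
  Add R (fun M => Nonempty (M ≃ₗ[R] R) ∨ ∃ X, C X ∧ ∃ i, IsIterSyzygy R i X M)

/-- `C ∘ D`: modules `M` with an exact sequence `0 → X → M → Y → 0`, `X ∈ C`, `Y ∈ D`. -/
def Circ (C D : ModuleCat.{u} R → Prop) (M : ModuleCat.{u} R) : Prop :=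
  ∃ X Y : ModuleCat.{u} R, C X ∧ D Y ∧ ∃ (f : X →ₗ[R] M) (g : M →ₗ[R] Y),
    Function.Injective f ∧ Function.Exact f g ∧ Function.Surjective g

/-- `[C]_r`: `[C]_0 = {0}`, `[C]_1 = [C]`, `[C]_{r+1} = [[C]_r ∘ [C]]`. -/
def Ball (C : ModuleCat.{u} R → Prop) : ℕ → ModuleCat.{u} R → Prop
  | 0 => fun M => Subsingleton M
  | 1 => Bracket R C
  | (r + 2) => Bracket R (Circ R (Ball C (r + 1)) (Bracket R C))

/-- `[G]_r` for a single module `G`. -/
def BallOf (G : ModuleCat.{u} R) (r : ℕ) : ModuleCat.{u} R → Prop :=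
  Ball R (fun M => Nonempty (M ≃ₗ[R] G)) r

/-- The dimension of a subcategory `X`: the infimum of the `n ≥ 0` such that `X = [G]_{n+1}` for
some `G ∈ X` (and `⊤` if there is none). -/
noncomputable def dimSubcat (X : ModuleCat.{u} R → Prop) : ℕ∞ :=
  ⨅ (n : ℕ) (_ : ∃ G : ModuleCat.{u} R, X G ∧ ∀ M, X M ↔ BallOf R G (n + 1) M), (n : ℕ∞)

end Defs

end Pool.Agent.Helper77.CM
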