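import Pool.Agent.Helper77.CMDefs

universe u

namespace Pool.Agent.Helper77.CM



section FacFree

variable {R : Type u} [CommRing R]

/-- multiplication by `a` on `M` factors through a finite free module. -/
def FacFree (a : R) (M : Type u) [AddCommGroup M] [Module R M] : Prop :=
  ∃ (ι : Type) (_ : Finite ι) (α : M →ₗ[R] (ι → R)) (β : (ι → R) →ₗ[R] M),
    ∀ m, β (α m) = a • m

lemma FacFree.of_equiv {a : R} {M N : Type u} [AddCommGroup M] [Module R M] [AddCommGroup N]
    [Module R N] (h : FacFree a M) (e : M ≃ₗ[R] N) : FacFree a N := by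
  obtain ⟨ι, hι, α, β, hαβ⟩ := h
  refine ⟨ι, hι, α ∘ₗ e.symm.toLinearMap, e.toLinearMap ∘ₗ β, fun m => ?_⟩
  simp [hαβ]

lemma FacFree.of_retract {a : R} {M N : Type u} [AddCommGroup M] [Module R M] [AddCommGroup N]
    [Module R N] (h : FacFree a M) (s : N →ₗ[R] M) (r : M →ₗ[R] N) (hrs : ∀ n, r (s n) = n) :
    FacFree a N := by
  obtain ⟨ι, hι, α, β, hαβ⟩ := h
  refine ⟨ι, hι, α ∘ₗ s, r ∘ₗ β, fun m => ?_⟩
  simp [hαβ, hrs]

lemma FacFree.mul {a : R} (b : R) {M : Type u} [AddCommGroup M] [Module R M]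
    (h : FacFree a M) : FacFree (b * a) M := by
  obtain ⟨ι, hι, α, β, hαβ⟩ := h
  refine ⟨ι, hι, b • α, β, fun m => ?_⟩
  simp [hαβ, mul_smul]

lemma facFree_free (a : R) (ι : Type) [Finite ι] {M : Type u} [AddCommGroup M] [Module R M]
    (e : M ≃ₗ[R] (ι → R)) : FacFree a M := by
  refine ⟨ι, inferInstance, a • e.toLinearMap, e.symm.toLinearMap, fun m => ?_⟩
  simp

lemma facFree_pi {a : R} {n : ℕ} (X : Fin n → Type u) [∀ j, AddCommGroup (X j)]
    [∀ j, Module R (X j)] (h : ∀ j, FacFree a (X j)) : FacFree a (∀ j, X j) := by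
  choose ι hι α β hαβ using h
  refine ⟨Σ j, ι j, inferInstance,
    LinearMap.pi (fun x => (LinearMap.proj x.2) ∘ₗ (α x.1) ∘ₗ (LinearMap.proj x.1)),
    LinearMap.pi (fun j => (β j) ∘ₗ LinearMap.pi (fun y => LinearMap.proj (⟨j, y⟩ : Σ j, ι j))),
    fun m => ?_⟩
  funext j
  simp only [LinearMap.pi_apply, LinearMap.comp_apply, Pi.smul_apply]
  rw [← hαβ j (m j)]
  rfl

/-- lifting property -/
lemma lift_free {ι : Type} [Finite ι] {M N : Type u} [AddCommGroup M] [Module R M] [AddCommGroup N]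
    [Module R N] (g : M →ₗ[R] N) (hg : Function.Surjective g) (f : (ι → R) →ₗ[R] N) :
    ∃ h : (ι → R) →ₗ[R] M, ∀ x, g (h x) = f x := by
  obtain ⟨h, hh⟩ := Module.projective_lifting_property g f hg
  exact ⟨h, fun x => by rw [← hh]; rfl⟩

lemma FacFree.ker {a : R} {ι : Type} [Finite ι] {M : Type u} [AddCommGroup M] [Module R M]
    (h : FacFree a M) (π : (ι → R) →ₗ[R] M) (hπ : Function.Surjective π) :
    FacFree a (LinearMap.ker π) := by
  obtain ⟨κ, hκ, α, β, hαβ⟩ := h
  obtain ⟨β', hβ'⟩ := lift_free π hπ β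
  have key : ∀ x : ι → R, a • x - β' (α (π x)) ∈ LinearMap.ker π := by
    intro x
    rw [LinearMap.mem_ker, map_sub, hβ', hαβ, map_smul, sub_self]
  refine ⟨ι, inferInstance, (LinearMap.ker π).subtype,
    LinearMap.codRestrict (LinearMap.ker π)
      (a • LinearMap.id - β' ∘ₗ α ∘ₗ π) key, fun m => ?_⟩
  apply Subtype.ext
  have hm : π m = 0 := m.2
  simp [hm]

lemma FacFree.ext {a b : R} {X M Y : Type u} [AddCommGroup X] [Module R X]
    [AddCommGroup M] [Module R M] [AddCommGroup Y] [Module R Y]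
    (hX : FacFree a X) (hY : FacFree b Y) (f : X →ₗ[R] M) (g : M →ₗ[R] Y)
    (hf : Function.Injective f) (hfg : Function.Exact f g) (hg : Function.Surjective g) :
    FacFree (a * b) M := by
  obtain ⟨ι, hι, α, β, hαβ⟩ := hX
  obtain ⟨κ, hκ, γ, δ, hγδ⟩ := hY
  obtain ⟨δ', hδ'⟩ := lift_free g hg δ
  -- b • m - δ' (γ (g m)) lies in the range of f
  have key : ∀ m : M, b • m - δ' (γ (g m)) ∈ LinearMap.range f := by
    intro m
    have : g (b • m - δ' (γ (g m))) = 0 := by
      rw [map_sub, hδ', hγδ, map_smul, sub_self]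
    exact (hfg _).1 this
  let e := LinearEquiv.ofInjective f hf
  let w : M →ₗ[R] X := e.symm.toLinearMap ∘ₗ
    LinearMap.codRestrict (LinearMap.range f) (b • LinearMap.id - δ' ∘ₗ γ ∘ₗ g) key
  have hw : ∀ m, f (w m) = b • m - δ' (γ (g m)) := by
    intro m
    have : e (w m) = (LinearMap.codRestrict (LinearMap.range f)
      (b • LinearMap.id - δ' ∘ₗ γ ∘ₗ g) key) m := by
      simp [w]
    have h2 := congrArg Subtype.val this
    simpa [e] using h2
  refine ⟨κ ⊕ ι, inferInstance,
    LinearMap.pi (fun x => Sum.elim (fun k => a • (LinearMap.proj k) ∘ₗ γ ∘ₗ g)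
      (fun j => (LinearMap.proj j) ∘ₗ α ∘ₗ w) x),
    δ' ∘ₗ LinearMap.pi (fun k => LinearMap.proj (Sum.inl k)) +
      f ∘ₗ β ∘ₗ LinearMap.pi (fun j => LinearMap.proj (Sum.inr j)), fun m => ?_⟩
  have e1 : (fun k => a • (γ (g m)) k) = a • γ (g m) := rfl
  have e2 : (fun j => (α (w m)) j) = α (w m) := rfl
  simp only [LinearMap.add_apply, LinearMap.comp_apply]
  have h1 : (LinearMap.pi (fun k => LinearMap.proj (Sum.inl k)) : (κ ⊕ ι → R) →ₗ[R] (κ → R))
      ((LinearMap.pi (fun x => Sum.elim (fun k => a • (LinearMap.proj k) ∘ₗ γ ∘ₗ g)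
      (fun j => (LinearMap.proj j) ∘ₗ α ∘ₗ w) x) : M →ₗ[R] (κ ⊕ ι → R)) m) = a • γ (g m) := by
    funext k; simp
  have h2 : (LinearMap.pi (fun j => LinearMap.proj (Sum.inr j)) : (κ ⊕ ι → R) →ₗ[R] (ι → R))
      ((LinearMap.pi (fun x => Sum.elim (fun k => a • (LinearMap.proj k) ∘ₗ γ ∘ₗ g)
      (fun j => (LinearMap.proj j) ∘ₗ α ∘ₗ w) x) : M →ₗ[R] (κ ⊕ ι → R)) m) = α (w m) := by
    funext k; simp
  rw [h1, h2, hαβ, map_smul, map_smul, hw, smul_sub, mul_smul]
  abel

lemma facFree_self (a : R) {M : Type u} [AddCommGroup M] [Module R M] (e : M ≃ₗ[R] R) :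
    FacFree a M :=
  facFree_free a Unit (e.trans (LinearEquiv.funUnique Unit R R).symm)

lemma facFree_iterSyzygy {a : R} : ∀ (i : ℕ) (M N : ModuleCat.{u} R), FacFree a M →
    IsIterSyzygy R i M N → FacFree a N := by
  intro i
  induction i with
  | zero => rintro M N hM ⟨e⟩; exact hM.of_equiv e
  | succ i ih =>
    rintro M N hM ⟨P, hP, n, f, hf, _, ⟨e⟩⟩
    exact ((ih M P hM hP).ker f hf).of_equiv e.symm

lemma facFree_add {a : R} {C : ModuleCat.{u} R → Prop} (h : ∀ X, C X → FacFree a X)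
    (M : ModuleCat.{u} R) (hM : Add R C M) : FacFree a M := by
  obtain ⟨n, X, hX, N, ⟨e⟩⟩ := hM
  refine (facFree_pi (fun j => X j) (fun j => h _ (hX j))).of_retract
    (e.toLinearMap ∘ₗ LinearMap.inl R M N) (LinearMap.fst R M N ∘ₗ e.symm.toLinearMap) ?_
  intro m; simp

lemma facFree_bracket {a : R} {C : ModuleCat.{u} R → Prop} (h : ∀ X, C X → FacFree a X)
    (M : ModuleCat.{u} R) (hM : Bracket R C M) : FacFree a M := by
  refine facFree_add ?_ M hM
  rintro X (⟨⟨e⟩⟩ | ⟨Y, hY, i, hi⟩)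
  · exact facFree_self a e
  · exact facFree_iterSyzygy i Y X (h Y hY) hi

lemma facFree_circ {a b : R} {C D : ModuleCat.{u} R → Prop} (hC : ∀ X, C X → FacFree a X)
    (hD : ∀ X, D X → FacFree b X) (M : ModuleCat.{u} R) (hM : Circ R C D M) :
    FacFree (a * b) M := by
  obtain ⟨X, Y, hX, hY, f, g, hf, hfg, hg⟩ := hM
  exact (hC X hX).ext (hD Y hY) f g hf hfg hg

lemma facFree_ball {t : R} {G : ModuleCat.{u} R} {a : ℕ} (hG : FacFree (t ^ a) G) (r : ℕ) :
    ∀ M, BallOf R G r M → FacFree (t ^ (a * r)) M := by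
  have h1 : ∀ X : ModuleCat.{u} R, Nonempty (X ≃ₗ[R] G) → FacFree (t ^ a) X := by
    rintro X ⟨e⟩; exact hG.of_equiv e.symm
  unfold BallOf
  induction r with
  | zero =>
    intro M hM
    have : Subsingleton M := hM
    exact ⟨Unit, inferInstance, 0, 0, fun m => Subsingleton.elim _ _⟩
  | succ r ih =>
    rcases r with _ | r
    · intro M hM
      have := facFree_bracket h1 M hM
      simpa using this
    · intro M hM
      have e : t ^ (a * (r + 1 + 1)) = t ^ (a * (r + 1)) * t ^ a := by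
        rw [← pow_add]; congr 1
      rw [e]
      exact facFree_bracket (facFree_circ ih (facFree_bracket h1)) M hM

end FacFree


/-- The data from which the ring is built. -/
structure Datum (K L : Type u) [Field K] [Field L] where
  A : ValuationSubring L
  i : K →+* L
  d : K →+ L
  leib : ∀ x y, d (x * y) = i x * d y + i y * d x
  t : K
  dt : d t = 0
  t_mem : i t ∈ A
  t_inv : (i t)⁻¹ ∉ A
  arch : ∀ x : L, ∃ n : ℕ, (i t) ^ n * x ∈ A
  unif : ∀ x ∈ A, x⁻¹ ∈ A ∨ (i t)⁻¹ * x ∈ A
  dense : ∀ a ∈ A, ∃ x : K, i x ∈ A ∧ d x ∈ A ∧ (i t)⁻¹ * (a - i x) ∈ A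
  unbdd : ∀ n : ℕ, ∃ x : K, i x ∈ A ∧ d x * (i t) ^ n = 1

namespace Datum

variable {K L : Type u} [Field K] [Field L] (S : Datum K L)

lemma d_one : S.d 1 = 0 := by
  have h := S.leib 1 1
  simp only [mul_one, map_one, one_mul] at h
  linear_combination -h

lemma d_inv (x : K) (hx : x ≠ 0) : S.d x⁻¹ = - ((S.i x)⁻¹ ^ 2) * S.d x := by
  have h := S.leib x x⁻¹
  have hx' : S.i x ≠ 0 := (map_ne_zero S.i).2 hx
  rw [mul_inv_cancel₀ hx, S.d_one, map_inv₀ S.i x] at h
  have h2 : S.i x * S.d x⁻¹ = - ((S.i x)⁻¹ * S.d x) := by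
    rw [mul_comm (S.i x)⁻¹ (S.d x)]
    linear_combination -h
  calc S.d x⁻¹ = (S.i x)⁻¹ * (S.i x * S.d x⁻¹) := by
        rw [← mul_assoc, inv_mul_cancel₀ hx', one_mul]
    _ = _ := by rw [h2]; ring

lemma t_ne : S.t ≠ 0 := by
  intro h
  have := S.t_inv
  rw [h, map_zero, inv_zero] at this
  exact this (zero_mem _)

lemma it_ne : S.i S.t ≠ 0 := (map_ne_zero S.i).2 S.t_ne

lemma d_t_mul (x : K) : S.d (S.t * x) = S.i S.t * S.d x := by
  rw [S.leib, S.dt]; ring

lemma d_tpow_mul (n : ℕ) (x : K) : S.d (S.t ^ n * x) = S.i S.t ^ n * S.d x := by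
  induction n with
  | zero => simp
  | succ n ih => rw [pow_succ', mul_assoc, S.d_t_mul, ih]; ring

lemma tpow_mem (n : ℕ) : S.i S.t ^ n ∈ S.A := pow_mem S.t_mem n

/-- the ring `R`. -/
def R : Subring K where
  carrier := {x | S.i x ∈ S.A ∧ S.d x ∈ S.A}
  zero_mem' := by simp
  one_mem' := by simp [S.d_one]
  add_mem' := by
    rintro x y ⟨h1, h2⟩ ⟨h3, h4⟩
    simp only [Set.mem_ofPred_eq, map_add]
    exact ⟨add_mem h1 h3, add_mem h2 h4⟩
  neg_mem' := by
    rintro x ⟨h1, h2⟩
    simp only [Set.mem_ofPred_eq, map_neg]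
    exact ⟨neg_mem h1, neg_mem h2⟩
  mul_mem' := by
    rintro x y ⟨h1, h2⟩ ⟨h3, h4⟩
    simp only [Set.mem_ofPred_eq, map_mul, S.leib]
    exact ⟨mul_mem h1 h3, add_mem (mul_mem h1 h4) (mul_mem h3 h2)⟩

lemma mem_R {x : K} : x ∈ S.R ↔ S.i x ∈ S.A ∧ S.d x ∈ S.A := Iff.rfl

/-- the modules `R_n`. -/
def Rn (n : ℕ) : Submodule S.R K where
  carrier := {x | S.i x ∈ S.A ∧ S.i S.t ^ n * S.d x ∈ S.A}
  zero_mem' := by simp
  add_mem' := by
    rintro x y ⟨h1, h2⟩ ⟨h3, h4⟩
    simp only [Set.mem_ofPred_eq, map_add, mul_add]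
    exact ⟨add_mem h1 h3, add_mem h2 h4⟩
  smul_mem' := by
    rintro ⟨c, hc⟩ x ⟨h1, h2⟩
    obtain ⟨h3, h4⟩ := S.mem_R.1 hc
    have e : (⟨c, hc⟩ : S.R) • x = c * x := rfl
    simp only [Set.mem_ofPred_eq, e, map_mul, S.leib]
    refine ⟨mul_mem h3 h1, ?_⟩
    have : S.i S.t ^ n * (S.i c * S.d x + S.i x * S.d c) =
      S.i c * (S.i S.t ^ n * S.d x) + S.i S.t ^ n * (S.i x * S.d c) := by ring
    rw [this]
    exact add_mem (mul_mem h3 h2) (mul_mem (S.tpow_mem n) (mul_mem h1 h4))

lemma mem_Rn {n : ℕ} {x : K} : x ∈ S.Rn n ↔ S.i x ∈ S.A ∧ S.i S.t ^ n * S.d x ∈ S.A := Iff.rfl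

lemma t_mem_R : S.t ∈ S.R := ⟨S.t_mem, by rw [S.dt]; exact zero_mem _⟩

/-- density to any order -/
lemma dense' (n : ℕ) (a : L) (ha : a ∈ S.A) :
    ∃ x ∈ S.R, (S.i S.t ^ n)⁻¹ * (a - S.i x) ∈ S.A := by
  induction n generalizing a with
  | zero => exact ⟨0, zero_mem _, by simpa using ha⟩
  | succ n ih =>
    obtain ⟨x, hx1, hx2, hx3⟩ := S.dense a ha
    obtain ⟨y, hy, hy2⟩ := ih _ hx3
    refine ⟨x + S.t * y, add_mem ⟨hx1, hx2⟩ (mul_mem S.t_mem_R hy), ?_⟩
    have e : (S.i S.t ^ (n + 1))⁻¹ * (a - S.i (x + S.t * y)) =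
      (S.i S.t ^ n)⁻¹ * ((S.i S.t)⁻¹ * (a - S.i x) - S.i y) := by
      have := S.it_ne
      rw [map_add, map_mul]
      field_simp
      ring
    rw [e]; exact hy2

lemma inv_mem_R {x : K} (hx : x ∈ S.R) (h : (S.i x)⁻¹ ∈ S.A) : x⁻¹ ∈ S.R := by
  by_cases h0 : x = 0
  · rw [h0, inv_zero]; exact zero_mem _
  · refine ⟨by rw [map_inv₀]; exact h, ?_⟩
    rw [S.d_inv x h0]
    exact mul_mem (neg_mem (pow_mem h 2)) hx.2

/-- every element of `K` is a quotient by a power of `t`. -/
lemma arch_K (x : K) : ∃ n : ℕ, S.t ^ n * x ∈ S.R := by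
  obtain ⟨n, hn⟩ := S.arch (S.i x)
  obtain ⟨m, hm⟩ := S.arch (S.d x)
  refine ⟨n + m, ?_, ?_⟩
  · have e : S.i (S.t ^ (n + m) * x) = S.i S.t ^ m * (S.i S.t ^ n * S.i x) := by
      rw [map_mul, map_pow]; ring
    rw [e]; exact mul_mem (S.tpow_mem m) hn
  · have e : S.d (S.t ^ (n + m) * x) = S.i S.t ^ n * (S.i S.t ^ m * S.d x) := by
      rw [S.d_tpow_mul]; ring
    rw [e]; exact mul_mem (S.tpow_mem n) hm

lemma arch_t (x : K) (hx : x ≠ 0) : ∃ n : ℕ, ∃ y ∈ S.R, S.t ^ n = x * y := by
  obtain ⟨n, hn⟩ := S.arch_K x⁻¹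
  exact ⟨n, _, hn, by field_simp⟩

/-- the maximal ideal: a nonunit of `R` is divisible by `t` in `V` -/
lemma nonunit {x : K} (hx : x ∈ S.R) (h : x⁻¹ ∉ S.R) : (S.i S.t)⁻¹ * S.i x ∈ S.A := by
  rcases S.unif (S.i x) hx.1 with h1 | h1
  · exact absurd (S.inv_mem_R hx h1) h
  · exact h1

/-! ### the ring `R` is a one-dimensional noetherian local domain -/

lemma isUnit_iff (x : S.R) : IsUnit x ↔ (S.i S.t)⁻¹ * S.i x ∉ S.A := by
  constructor
  · rintro ⟨u, rfl⟩ h
    have h1 : (((u : S.R) : K) * ((u⁻¹ : S.Rˣ) : S.R) : K) = 1 := by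
      exact congrArg Subtype.val (Units.mul_inv u)
    have h2 : S.i (((u⁻¹ : S.Rˣ) : S.R) : K) ∈ S.A := ((u⁻¹ : S.Rˣ) : S.R).2.1
    have h3 := mul_mem h h2
    rw [mul_assoc, ← map_mul, h1, map_one, mul_one] at h3
    exact S.t_inv h3
  · intro h
    have h1 : (x : K)⁻¹ ∈ S.R := by
      by_contra hc
      exact h (S.nonunit x.2 hc)
    have h0 : (x : K) ≠ 0 := by
      intro h0
      rw [h0, map_zero, mul_zero] at h
      exact h (zero_mem _)
    refine ⟨⟨x, ⟨_, h1⟩, ?_, ?_⟩, rfl⟩
    · apply Subtype.ext; simp [h0]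
    · apply Subtype.ext; simp [h0]

instance instLocal : IsLocalRing S.R := by
  refine IsLocalRing.of_nonunits_add ?_
  intro a b ha hb
  rw [mem_nonunits_iff, isUnit_iff, not_not] at ha hb ⊢
  have e : (S.i S.t)⁻¹ * S.i ((a + b : S.R) : K) = (S.i S.t)⁻¹ * S.i a + (S.i S.t)⁻¹ * S.i b := by
    push_cast; rw [map_add, mul_add]
  rw [e]; exact add_mem ha hb

lemma mem_max (x : S.R) :
    x ∈ IsLocalRing.maximalIdeal S.R ↔ (S.i S.t)⁻¹ * S.i x ∈ S.A := by
  rw [IsLocalRing.mem_maximalIdeal, mem_nonunits_iff, isUnit_iff, not_not]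

/-- `t` as an element of `R` -/
def tR : S.R := ⟨S.t, S.t_mem_R⟩

lemma tR_mem : S.tR ∈ IsLocalRing.maximalIdeal S.R := by
  rw [mem_max]
  change (S.i S.t)⁻¹ * S.i S.t ∈ S.A
  rw [inv_mul_cancel₀ S.it_ne]; exact one_mem _

lemma tR_ne : S.tR ≠ 0 := fun h => S.t_ne (congrArg Subtype.val h)

lemma dvd_tpow (x : S.R) (hx : x ≠ 0) : ∃ n : ℕ, x ∣ S.tR ^ n := by
  have hx' : (x : K) ≠ 0 := fun h => hx (Subtype.ext h)
  obtain ⟨n, y, hy, h⟩ := S.arch_t x hx'
  exact ⟨n, ⟨y, hy⟩, Subtype.ext h⟩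

lemma d_tinv_mul (z : K) : S.d (S.t⁻¹ * z) = (S.i S.t)⁻¹ * S.d z := by
  have h := S.d_t_mul (S.t⁻¹ * z)
  rw [← mul_assoc, mul_inv_cancel₀ S.t_ne, one_mul] at h
  rw [h, ← mul_assoc, inv_mul_cancel₀ S.it_ne, one_mul]

lemma sq_dvd (x : S.R) (hx : x ∈ IsLocalRing.maximalIdeal S.R) : S.tR ∣ x ^ 2 := by
  rw [mem_max] at hx
  refine ⟨⟨S.t⁻¹ * (x : K) ^ 2, ?_, ?_⟩, ?_⟩
  · have e : S.i (S.t⁻¹ * (x : K) ^ 2) = ((S.i S.t)⁻¹ * S.i x) * S.i x := by
      rw [map_mul, map_inv₀, map_pow]; ring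
    rw [e]; exact mul_mem hx x.2.1
  · have e : S.d (S.t⁻¹ * (x : K) ^ 2) =
        ((S.i S.t)⁻¹ * S.i x) * S.d x + ((S.i S.t)⁻¹ * S.i x) * S.d x := by
      rw [d_tinv_mul, pow_two, S.leib]; ring
    rw [e]; exact add_mem (mul_mem hx x.2.2) (mul_mem hx x.2.2)
  · apply Subtype.ext
    change (x : K) ^ 2 = S.t * (S.t⁻¹ * (x : K) ^ 2)
    rw [← mul_assoc, mul_inv_cancel₀ S.t_ne, one_mul]

lemma max_le_radical (x : S.R) (hx : x ≠ 0) :
    IsLocalRing.maximalIdeal S.R ≤ Ideal.radical (Ideal.span {x}) := by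
  intro y hy
  obtain ⟨n, hn⟩ := S.dvd_tpow x hx
  refine ⟨2 * n, ?_⟩
  rw [Ideal.mem_span_singleton, pow_mul]
  exact hn.trans (pow_dvd_pow_of_dvd (S.sq_dvd y hy) n)

lemma not_isField : ¬ IsField S.R := by
  intro h
  have h1 := S.tR_mem
  rw [IsLocalRing.mem_maximalIdeal, mem_nonunits_iff] at h1
  obtain ⟨b, hb⟩ := h.mul_inv_cancel S.tR_ne
  exact h1 (IsUnit.of_mul_eq_one b hb)

lemma dim_eq_one : ringKrullDim S.R = 1 :=
  ringKrullDim_eq_one_iff_of_isLocalRing_isDomain.2 ⟨S.not_isField, S.max_le_radical⟩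

lemma prime_eq (p : Ideal S.R) [hp : p.IsPrime] (h : p ≠ ⊥) : p = IsLocalRing.maximalIdeal S.R := by
  obtain ⟨x, hx, hx0⟩ := Submodule.exists_mem_ne_zero_of_ne_bot h
  refine le_antisymm (IsLocalRing.le_maximalIdeal hp.ne_top) ?_
  refine (S.max_le_radical x hx0).trans ?_
  rw [Ideal.IsRadical.radical_le_iff hp.isRadical]
  exact (Ideal.span_singleton_le_iff_mem p).2 hx

lemma exists_max_eq : ∃ b : S.R, IsLocalRing.maximalIdeal S.R = Ideal.span {S.tR, b} := by
  obtain ⟨g, hg1, hg2⟩ := S.unbdd 1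
  rw [pow_one] at hg2
  have hdg : S.d g = (S.i S.t)⁻¹ := eq_inv_of_mul_eq_one_left hg2
  have hb : S.t * g ∈ S.R := by
    refine ⟨?_, ?_⟩
    · rw [map_mul]; exact mul_mem S.t_mem hg1
    · rw [S.d_t_mul, mul_comm, hg2]; exact one_mem _
  refine ⟨⟨S.t * g, hb⟩, le_antisymm ?_ ?_⟩
  · intro z hz
    rw [mem_max] at hz
    obtain ⟨a, ha1, ha2, ha3⟩ := S.dense (S.d z) z.2.2
    have hw : S.t⁻¹ * (z : K) - a * g ∈ S.R := by
      refine ⟨?_, ?_⟩
      · rw [map_sub, map_mul, map_inv₀, map_mul]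
        exact sub_mem hz (mul_mem ha1 hg1)
      · rw [map_sub, d_tinv_mul, S.leib, hdg]
        have e : (S.i S.t)⁻¹ * S.d z - (S.i a * (S.i S.t)⁻¹ + S.i g * S.d a) =
          (S.i S.t)⁻¹ * (S.d z - S.i a) - S.i g * S.d a := by ring
        rw [e]
        exact sub_mem ha3 (mul_mem hg1 ha2)
    rw [Ideal.mem_span_pair]
    refine ⟨⟨_, hw⟩, ⟨a, ha1, ha2⟩, ?_⟩
    apply Subtype.ext
    change (S.t⁻¹ * (z : K) - a * g) * S.t + a * (S.t * g) = z
    have := S.t_ne
    field_simp
    ring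
  · rw [Ideal.span_le]
    rintro x (rfl | rfl)
    · exact S.tR_mem
    · change _ ∈ IsLocalRing.maximalIdeal S.R
      rw [mem_max]
      change (S.i S.t)⁻¹ * S.i (S.t * g) ∈ S.A
      rw [map_mul, ← mul_assoc, inv_mul_cancel₀ S.it_ne, one_mul]
      exact hg1

instance instNoeth : IsNoetherianRing S.R := by
  refine IsNoetherianRing.of_prime_ne_bot ?_
  intro p hp h
  rw [S.prime_eq p h]
  obtain ⟨b, hb⟩ := S.exists_max_eq
  rw [hb]
  exact Submodule.fg_span (by simp)

end Datum


/-- Elimination over a valuation ring: a finite subset of a vector space contains a linearly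
independent subset whose span over the valuation ring contains the whole set. -/
lemma exists_greedy {K W : Type u} [Field K] [AddCommGroup W] [Module K W]
    (V : ValuationSubring K) (G : Finset W) :
    ∃ T : Finset W, T ⊆ G ∧ LinearIndependent K (fun x : T => (x : W)) ∧
      ∀ g ∈ G, ∃ c : W → K, (∀ x, c x ∈ V) ∧ g = ∑ x ∈ T, c x • x := by
  classical
  have hne : ∃ n : ℕ, ∃ T : Finset W, T ⊆ G ∧ T.card = n ∧
      ∀ g ∈ G, ∃ c : W → K, (∀ x, c x ∈ V) ∧ g = ∑ x ∈ T, c x • x := by
    refine ⟨G.card, G, subset_rfl, rfl, fun g hg => ⟨fun x => if x = g then 1 else 0, ?_, ?_⟩⟩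
    · intro x; dsimp only; split_ifs
      · exact one_mem _
      · exact zero_mem _
    · simp [hg]
  obtain ⟨T, hTG, hTn, hT⟩ := Nat.find_spec hne
  refine ⟨T, hTG, ?_, hT⟩
  rw [Fintype.linearIndependent_iff]
  intro c hc
  by_contra hcon
  push Not at hcon
  obtain ⟨i0, hi0⟩ := hcon
  obtain ⟨j0, _, hj0⟩ := Finset.exists_max_image (Finset.univ : Finset T)
    (fun j => V.valuation (c j)) ⟨i0, Finset.mem_univ _⟩
  have hcj0 : c j0 ≠ 0 := by
    intro h
    have := hj0 i0 (Finset.mem_univ _)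
    rw [h, map_zero, le_zero_iff] at this
    exact hi0 ((map_eq_zero _).1 this)
  have hdiv : ∀ j, c j / c j0 ∈ V := by
    intro j
    rw [← ValuationSubring.valuation_le_one_iff, map_div₀]
    exact div_le_one_of_le₀ (hj0 j (Finset.mem_univ _)) zero_le
  -- extend c to W
  let e : W → K := fun x => if h : x ∈ T then c ⟨x, h⟩ / c j0 else 0
  have he : ∀ x, e x ∈ V := by
    intro x
    by_cases h : x ∈ T
    · simp only [e, dif_pos h]; exact hdiv _
    · simp only [e, dif_neg h]; exact zero_mem _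
  have hej0 : e j0 = 1 := by
    simp only [e, dif_pos j0.2]
    exact div_self hcj0
  have hsum : ∑ x ∈ T, e x • x = 0 := by
    rw [← Finset.sum_coe_sort T (fun x => e x • x)]
    have : ∀ x : T, e x • (x : W) = (c j0)⁻¹ • (c x • (x : W)) := by
      intro x
      simp only [e, dif_pos x.2]
      rw [smul_smul, div_eq_inv_mul]
    rw [Finset.sum_congr rfl (fun x _ => this x), ← Finset.smul_sum, hc, smul_zero]
  have hlt : (T.erase j0).card < Nat.find hne := by
    rw [← hTn]; exact Finset.card_erase_lt_of_mem j0.2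
  refine Nat.find_min hne hlt ⟨T.erase j0, (Finset.erase_subset _ _).trans hTG, rfl, ?_⟩
  intro g hg
  obtain ⟨a, ha, hga⟩ := hT g hg
  refine ⟨fun x => a x - a j0 * e x, fun x => sub_mem (ha x) (mul_mem (ha _) (he x)), ?_⟩
  have h1 : ∑ x ∈ T, (a x - a j0 * e x) • x = g := by
    simp only [sub_smul, mul_smul]
    rw [Finset.sum_sub_distrib, ← Finset.smul_sum, hsum, smul_zero, sub_zero, ← hga]
  rw [← h1, ← Finset.add_sum_erase T _ j0.2, hej0, mul_one, sub_self, zero_smul, zero_add]

namespace Datum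

variable {K L : Type u} [Field K] [Field L] (S : Datum K L)

/-! ### modules -/

lemma Rn_mono {m n : ℕ} (h : m ≤ n) : S.Rn m ≤ S.Rn n := by
  rintro x ⟨h1, h2⟩
  refine ⟨h1, ?_⟩
  obtain ⟨k, rfl⟩ := Nat.exists_eq_add_of_le h
  have e : S.i S.t ^ (m + k) * S.d x = S.i S.t ^ k * (S.i S.t ^ m * S.d x) := by ring
  rw [e]; exact mul_mem (S.tpow_mem k) h2

lemma mem_R_of_mem_Rn0 {x : K} (h : x ∈ S.Rn 0) : x ∈ S.R :=
  ⟨h.1, by simpa using h.2⟩

lemma tpow_mul_mem {n : ℕ} {x : K} (h : x ∈ S.Rn n) : S.t ^ n * x ∈ S.R := by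
  refine ⟨?_, ?_⟩
  · rw [map_mul, map_pow]; exact mul_mem (S.tpow_mem n) h.1
  · rw [d_tpow_mul]; exact h.2

lemma Rn_mul {n : ℕ} {x y : K} (hx : x ∈ S.Rn n) (hy : y ∈ S.Rn n) : x * y ∈ S.Rn n := by
  refine ⟨?_, ?_⟩
  · rw [map_mul]; exact mul_mem hx.1 hy.1
  · have e : S.i S.t ^ n * S.d (x * y) = S.i x * (S.i S.t ^ n * S.d y) +
      S.i y * (S.i S.t ^ n * S.d x) := by rw [S.leib]; ring
    rw [e]; exact add_mem (mul_mem hx.1 hy.2) (mul_mem hy.1 hx.2)

lemma one_mem_Rn (n : ℕ) : (1 : K) ∈ S.Rn n :=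
  ⟨by rw [map_one]; exact one_mem _, by rw [S.d_one, mul_zero]; exact zero_mem _⟩

lemma mem_Rn_of_mem_R {x : K} (n : ℕ) (hx : x ∈ S.R) : x ∈ S.Rn n :=
  ⟨hx.1, mul_mem (S.tpow_mem n) hx.2⟩

/-- The key step: every lattice between `R^ι` and `(R_c)^ι` has some `R_n` as a retract. -/
lemma exists_retract {ι : Type} [Nonempty ι] (M : Submodule S.R (ι → K))
    (hR : ∀ x : ι → K, (∀ j, x j ∈ S.R) → x ∈ M)
    (hb : ∃ c, ∀ x ∈ M, ∀ j, x j ∈ S.Rn c) :
    ∃ (n : ℕ) (s : S.Rn n →ₗ[S.R] M) (π : M →ₗ[S.R] S.Rn n), ∀ x, π (s x) = x := by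
  classical
  set n := Nat.find hb with hn
  have hspec : ∀ x ∈ M, ∀ j, x j ∈ S.Rn n := Nat.find_spec hb
  have key : ∃ (j₀ : ι) (u : ι → K), u j₀ = 1 ∧ ∀ x ∈ S.Rn n, (fun j => x * u j) ∈ M := by
    rcases Nat.eq_zero_or_pos n with h0 | hpos
    · obtain ⟨j₀⟩ := (inferInstance : Nonempty ι)
      refine ⟨j₀, fun _ => 1, rfl, fun x hx => hR _ fun j => ?_⟩
      rw [mul_one]
      rw [h0] at hx
      exact S.mem_R_of_mem_Rn0 hx
    · obtain ⟨m, hm⟩ : ∃ m, n = m + 1 := ⟨n - 1, by omega⟩
      have hmin := Nat.find_min hb (m := m) (by rw [← hn]; omega)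
      push Not at hmin
      obtain ⟨y, hy, j₀, hj₀⟩ := hmin
      have hyn := hspec y hy
      have hit : S.i S.t ^ n ≠ 0 := pow_ne_zero _ S.it_ne
      have hw0 : S.i S.t ^ n * S.d (y j₀) ∈ S.A := (hyn j₀).2
      have hw0inv : (S.i S.t ^ n * S.d (y j₀))⁻¹ ∈ S.A := by
        rcases S.unif _ hw0 with h | h
        · exact h
        · exfalso
          apply hj₀
          refine ⟨(hyn j₀).1, ?_⟩
          have e : (S.i S.t)⁻¹ * (S.i S.t ^ n * S.d (y j₀)) = S.i S.t ^ m * S.d (y j₀) := by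
            have := S.it_ne
            rw [hm, pow_succ]
            field_simp
          rwa [e] at h
      set w : ι → L := fun j => S.i S.t ^ n * S.d (y j) with hw
      have hwj0 : w j₀ ≠ 0 := by
        intro h0
        apply hj₀
        have : S.d (y j₀) = 0 := by
          rcases mul_eq_zero.1 h0 with h | h
          · exact absurd h hit
          · exact h
        exact ⟨(hyn j₀).1, by rw [this, mul_zero]; exact zero_mem _⟩
      have hex : ∀ j, ∃ u ∈ S.R, (S.i S.t ^ n)⁻¹ * (w j * (w j₀)⁻¹ - S.i u) ∈ S.A := fun j =>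
        S.dense' n _ (mul_mem (hyn j).2 hw0inv)
      choose u0 hu0 hu0' using hex
      let u : ι → K := Function.update u0 j₀ 1
      have hu : ∀ j, u j ∈ S.R := by
        intro j
        by_cases hj : j = j₀
        · subst hj; simp only [u, Function.update_self]; exact one_mem _
        · simp only [u, Function.update_of_ne hj]; exact hu0 j
      have hu' : ∀ j, (S.i S.t ^ n)⁻¹ * (w j * (w j₀)⁻¹ - S.i (u j)) ∈ S.A := by
        intro j
        by_cases hj : j = j₀
        · subst hj; simp only [u, Function.update_self]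
          rw [mul_inv_cancel₀ hwj0, map_one, sub_self, mul_zero]; exact zero_mem _
        · simp only [u, Function.update_of_ne hj]; exact hu0' j
      refine ⟨j₀, u, by simp [u], fun x hx => ?_⟩
      obtain ⟨a, ha, ha'⟩ := S.dense' n (S.i S.t ^ n * S.d x * (w j₀)⁻¹) (mul_mem hx.2 hw0inv)
      have hz : (fun j => x * u j - a * y j) ∈ M := by
        refine hR _ fun j => ⟨?_, ?_⟩
        · rw [map_sub, map_mul, map_mul]
          exact sub_mem (mul_mem hx.1 (hu j).1) (mul_mem ha.1 (hyn j).1)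
        · have e : S.d (x * u j - a * y j) = S.i x * S.d (u j) - S.i (y j) * S.d a +
            (w j * ((S.i S.t ^ n)⁻¹ * (S.i S.t ^ n * S.d x * (w j₀)⁻¹ - S.i a)) -
             (S.i S.t ^ n * S.d x) * ((S.i S.t ^ n)⁻¹ * (w j * (w j₀)⁻¹ - S.i (u j)))) := by
            rw [map_sub, S.leib, S.leib]
            have e1 : w j * ((S.i S.t ^ n)⁻¹ * (S.i S.t ^ n * S.d x * (w j₀)⁻¹ - S.i a)) -
             (S.i S.t ^ n * S.d x) * ((S.i S.t ^ n)⁻¹ * (w j * (w j₀)⁻¹ - S.i (u j))) =
              (S.i S.t ^ n)⁻¹ * (S.i S.t ^ n) * (S.d x * S.i (u j)) -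
              (S.i S.t ^ n)⁻¹ * w j * S.i a := by ring
            have e2 : (S.i S.t ^ n)⁻¹ * w j = S.d (y j) := by
              simp only [hw]
              rw [← mul_assoc, inv_mul_cancel₀ hit, one_mul]
            rw [e1, e2, inv_mul_cancel₀ hit]
            ring
          rw [e]
          exact add_mem (sub_mem (mul_mem hx.1 (hu j).2) (mul_mem (hyn j).1 ha.2))
            (sub_mem (mul_mem (hyn j).2 ha') (mul_mem hx.2 (hu' j)))
      have hay : (⟨a, ha⟩ : S.R) • y ∈ M := M.smul_mem _ hy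
      have e : (fun j => x * u j) = (fun j => x * u j - a * y j) + (⟨a, ha⟩ : S.R) • y := by
        funext j
        change x * u j = x * u j - a * y j + a * y j
        ring
      rw [e]
      exact add_mem hz hay
  obtain ⟨j₀, u, hu1, hu2⟩ := key
  refine ⟨n,
    { toFun := fun x => ⟨fun j => (x : K) * u j, hu2 x x.2⟩
      map_add' := fun x y => by
        apply Subtype.ext; funext j
        change ((x : K) + y) * u j = x * u j + y * u j
        ring
      map_smul' := fun c x => by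
        apply Subtype.ext; funext j
        change ((c : K) * x) * u j = c * (x * u j)
        ring },
    { toFun := fun y => ⟨(y : ι → K) j₀, hspec y y.2 j₀⟩
      map_add' := fun x y => by apply Subtype.ext; rfl
      map_smul' := fun c x => by apply Subtype.ext; rfl }, fun x => ?_⟩
  apply Subtype.ext
  change (x : K) * u j₀ = x
  rw [hu1, mul_one]



instance instFrac : IsFractionRing S.R K := by
  refine IsFractionRing.of_field S.R K fun z => ?_
  obtain ⟨n, hn⟩ := S.arch_K z
  refine ⟨⟨_, hn⟩, S.tR ^ n, ?_⟩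
  change z = (S.t ^ n * z) / (S.tR ^ n : S.R)
  have : ((S.tR ^ n : S.R) : K) = S.t ^ n := by push_cast; rfl
  rw [this]
  have := S.t_ne
  field_simp

/-- A finitely generated torsion-free module is a lattice in `K^r`, squeezed between `R^r`
and `(R_c)^r`. -/
lemma exists_embedding (M : Type u) [AddCommGroup M] [Module S.R M] [Module.Finite S.R M]
    (htf : ∀ (r : S.R) (m : M), r ≠ 0 → r • m = 0 → m = 0) :
    ∃ (r : ℕ) (f : M →ₗ[S.R] (Fin r → K)), Function.Injective f ∧
      (∀ x : Fin r → K, (∀ j, x j ∈ S.R) → x ∈ LinearMap.range f) ∧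
      ∃ c, ∀ m, ∀ j, f m j ∈ S.Rn c := by
  classical
  let W := TensorProduct S.R K M
  let φ : M →ₗ[S.R] W := TensorProduct.mk S.R K M 1
  have hloc : IsLocalizedModule (nonZeroDivisors S.R) φ :=
    (isLocalizedModule_iff_isBaseChange (nonZeroDivisors S.R) K φ).2
      (TensorProduct.isBaseChange S.R M K)
  have hφ : Function.Injective φ := by
    rw [injective_iff_map_eq_zero]
    intro m hm
    have h0 : φ m = φ 0 := by rw [hm, map_zero]
    obtain ⟨c, hc⟩ := (IsLocalizedModule.eq_iff_exists (nonZeroDivisors S.R) φ).1 h0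
    rw [smul_zero] at hc
    exact htf c m (nonZeroDivisors.ne_zero c.2) hc
  obtain ⟨G₀, hG₀⟩ := (Module.finite_def (R := S.R) (M := M)).1 inferInstance
  let V : ValuationSubring K := S.A.comap S.i
  obtain ⟨T, hTG, hli, hT⟩ := exists_greedy V (G₀.image φ)
  -- T spans W
  have hspW : Submodule.span K (Set.range φ) = ⊤ := by
    rw [eq_top_iff]
    rintro w -
    induction w using TensorProduct.induction_on with
    | zero => exact zero_mem _
    | tmul a m =>
      have : (a ⊗ₜ[S.R] m : W) = a • φ m := by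
        change _ = a • ((1 : K) ⊗ₜ[S.R] m)
        rw [TensorProduct.smul_tmul', smul_eq_mul, mul_one]
      rw [this]
      exact Submodule.smul_mem _ _ (Submodule.subset_span ⟨m, rfl⟩)
    | add x y hx hy => exact add_mem hx hy
  have hφT : ∀ m : M, φ m ∈ Submodule.span K (Set.range fun x : T => (x : W)) := by
    intro m
    have hm : m ∈ Submodule.span S.R (G₀ : Set M) := by rw [hG₀]; trivial
    induction hm using Submodule.span_induction with
    | mem x hx =>
      obtain ⟨c, _, hc2⟩ := hT (φ x) (Finset.mem_image_of_mem φ hx)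
      rw [hc2]
      exact sum_mem fun y hy => Submodule.smul_mem _ _ (Submodule.subset_span ⟨⟨y, hy⟩, rfl⟩)
    | zero => rw [map_zero]; exact zero_mem _
    | add x y _ _ hx hy => rw [map_add]; exact add_mem hx hy
    | smul a x _ hx =>
      rw [map_smul]
      have : a • φ x = (a : K) • φ x := rfl
      rw [this]
      exact Submodule.smul_mem _ _ hx
  have hspT : ⊤ ≤ Submodule.span K (Set.range fun x : T => (x : W)) := by
    rw [← hspW, Submodule.span_le]
    rintro _ ⟨m, rfl⟩
    exact hφT m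
  let b₀ : Module.Basis T K W := Module.Basis.mk hli hspT
  let b : Module.Basis (Fin (Fintype.card T)) K W := b₀.reindex (Fintype.equivFin T)
  have hb : ∀ j, b j = ((Fintype.equivFin T).symm j : W) := by
    intro j
    simp [b, b₀]
  let f : M →ₗ[S.R] (Fin (Fintype.card T) → K) :=
    (b.equivFun.toLinearMap.restrictScalars S.R) ∘ₗ φ
  have hf : ∀ m, f m = b.equivFun (φ m) := fun m => rfl
  refine ⟨Fintype.card T, f, ?_, ?_, ?_⟩
  · intro x y hxy
    rw [hf, hf] at hxy
    exact hφ (b.equivFun.injective hxy)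
  · intro x hx
    have hpre : ∀ j, ∃ m : M, φ m = b j := by
      intro j
      rw [hb]
      obtain ⟨m, _, hm⟩ := Finset.mem_image.1 (hTG ((Fintype.equivFin T).symm j).2)
      exact ⟨m, hm⟩
    choose μ hμ using hpre
    refine ⟨∑ j, (⟨x j, hx j⟩ : S.R) • μ j, ?_⟩
    rw [hf]
    apply b.equivFun.symm.injective
    rw [LinearEquiv.symm_apply_apply, map_sum, Module.Basis.equivFun_symm_apply]
    refine Finset.sum_congr rfl fun j _ => ?_
    rw [map_smul, hμ]
    rfl
  · -- bounded denominators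
    have hV : ∀ m ∈ G₀, ∀ j, S.i (f m j) ∈ S.A := by
      intro m hm j
      obtain ⟨c, hc1, hc2⟩ := hT (φ m) (Finset.mem_image_of_mem φ hm)
      have e : φ m = ∑ j, c (b j) • b j := by
        rw [hc2, ← Finset.sum_coe_sort T (fun x => c x • x)]
        refine Fintype.sum_equiv (Fintype.equivFin T) _ _ fun x => ?_
        rw [hb]; simp
      have : f m j = c (b j) := by
        rw [hf, e, map_sum, Finset.sum_apply]
        simp only [map_smul, Pi.smul_apply, Module.Basis.equivFun_self]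
        simp
      rw [this]
      exact hc1 _
    have hc : ∀ m ∈ G₀, ∃ c, ∀ j, f m j ∈ S.Rn c := by
      intro m hm
      have h1 : ∀ j, ∃ c, S.i S.t ^ c * S.d (f m j) ∈ S.A := fun j => S.arch _
      choose c hc using h1
      refine ⟨Finset.univ.sup c, fun j => ?_⟩
      exact S.Rn_mono (Finset.le_sup (Finset.mem_univ j)) ⟨hV m hm j, hc j⟩
    have hc2 : ∀ m : G₀, ∃ c, ∀ j, f m j ∈ S.Rn c := fun m => hc m m.2
    choose c hc3 using hc2
    refine ⟨Finset.univ.sup c, fun m => ?_⟩
    have hm : m ∈ Submodule.span S.R (G₀ : Set M) := by rw [hG₀]; trivial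
    induction hm using Submodule.span_induction with
    | mem x hx =>
      intro j
      exact S.Rn_mono (Finset.le_sup (Finset.mem_univ (⟨x, hx⟩ : G₀))) (hc3 ⟨x, hx⟩ j)
    | zero => intro j; rw [map_zero]; exact zero_mem _
    | add x y _ _ hx hy => intro j; rw [map_add]; exact add_mem (hx j) (hy j)
    | smul a x _ hx => intro j; rw [map_smul]; exact Submodule.smul_mem _ _ (hx j)

end Datum


namespace Datum

variable {K L : Type u} [Field K] [Field L] (S : Datum K L)

/-! ### maximal Cohen-Macaulay modules are the finitely generated torsion-free ones -/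

lemma torsionFree_of_isMCM (M : ModuleCat.{u} S.R) (hM : IsMCM S.R M) :
    ∀ (r : S.R) (m : M), r ≠ 0 → r • m = 0 → m = 0 := by
  intro r m hr hrm
  have hdim := hM.2 (IsLocalRing.maximalIdeal S.R)
  rw [IsLocalization.AtPrime.ringKrullDim_eq_height (IsLocalRing.maximalIdeal S.R),
    IsLocalRing.maximalIdeal_height_eq_ringKrullDim, S.dim_eq_one] at hdim
  have h1 : (1 : ℕ∞) ≤ depth (Localization.AtPrime (IsLocalRing.maximalIdeal S.R))
      (LocalizedModule (IsLocalRing.maximalIdeal S.R).primeCompl M) := by exact_mod_cast hdim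
  have h0 : (0 : ℕ∞) < depth (Localization.AtPrime (IsLocalRing.maximalIdeal S.R))
      (LocalizedModule (IsLocalRing.maximalIdeal S.R).primeCompl M) :=
    lt_of_lt_of_le zero_lt_one h1
  unfold depth at h0
  rw [lt_iSup_iff] at h0
  obtain ⟨s, hs⟩ := h0
  rw [lt_iSup_iff] at hs
  obtain ⟨⟨hs1, hs2⟩, hs3⟩ := hs
  rcases s with _ | ⟨a, s⟩
  · simp at hs3
  have ha : IsSMulRegular (LocalizedModule (IsLocalRing.maximalIdeal S.R).primeCompl M) a :=
    ((RingTheory.Sequence.isWeaklyRegular_cons_iff _ _ _).1 hs2).1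
  have hamax := hs1 a List.mem_cons_self
  obtain ⟨y, u, hyu⟩ := IsLocalization.exists_mk'_eq (IsLocalRing.maximalIdeal S.R).primeCompl a
  have hy : y ∈ IsLocalRing.maximalIdeal S.R := by
    rw [← hyu] at hamax
    exact (IsLocalization.AtPrime.mk'_mem_maximal_iff _ _ _ _ _).1 hamax
  obtain ⟨k, hk⟩ := S.max_le_radical r hr hy
  obtain ⟨q, hq⟩ := Ideal.mem_span_singleton.1 hk
  have hym : y ^ k • m = 0 := by rw [hq, mul_comm, mul_smul, hrm, smul_zero]
  set N := LocalizedModule (IsLocalRing.maximalIdeal S.R).primeCompl M with hN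
  let φ : M →ₗ[S.R] N := LocalizedModule.mkLinearMap (IsLocalRing.maximalIdeal S.R).primeCompl M
  have hau : a * algebraMap S.R (Localization.AtPrime (IsLocalRing.maximalIdeal S.R)) u =
      algebraMap S.R (Localization.AtPrime (IsLocalRing.maximalIdeal S.R)) y := by
    rw [← hyu]; exact IsLocalization.mk'_spec _ _ _
  have hunit : IsUnit (algebraMap S.R (Localization.AtPrime (IsLocalRing.maximalIdeal S.R)) u) :=
    IsLocalization.map_units _ u
  have h2 : a ^ k • φ m = 0 := by
    have h3 : (algebraMap S.R (Localization.AtPrime (IsLocalRing.maximalIdeal S.R)) u) ^ k •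
        (a ^ k • φ m) = 0 := by
      rw [smul_smul, mul_comm, ← mul_pow, hau, ← map_pow, algebraMap_smul, ← map_smul, hym, map_zero]
    exact (hunit.pow k).smul_eq_zero.1 h3
  have h4 : φ m = 0 := by
    have h5 := ha.pow k
    apply h5
    change a ^ k • φ m = a ^ k • (0 : N)
    rw [h2, smul_zero]
  obtain ⟨c, hc⟩ := (IsLocalizedModule.eq_zero_iff (IsLocalRing.maximalIdeal S.R).primeCompl φ).1 h4
  have hcu : IsUnit (c : S.R) := by
    by_contra hcon
    exact c.2 ((IsLocalRing.mem_maximalIdeal _).2 hcon)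
  exact hcu.smul_eq_zero.1 hc

lemma isMCM_of_torsionFree (M : ModuleCat.{u} S.R) [Module.Finite S.R M]
    (htf : ∀ (r : S.R) (m : M), r ≠ 0 → r • m = 0 → m = 0) : IsMCM S.R M := by
  refine ⟨inferInstance, fun p hp => ?_⟩
  rw [IsLocalization.AtPrime.ringKrullDim_eq_height p]
  by_cases hbot : p = ⊥
  · subst hbot
    rw [Ideal.height_bot]
    exact_mod_cast zero_le
  · have hpm := S.prime_eq p hbot
    have hh : p.height = 1 := by
      have : (p.height : WithBot ℕ∞) = 1 := by
        rw [hpm, IsLocalRing.maximalIdeal_height_eq_ringKrullDim, S.dim_eq_one]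
      exact_mod_cast this
    rw [hh]
    have h1 : (1 : ℕ∞) ≤ depth (Localization.AtPrime p) (LocalizedModule p.primeCompl M) := by
      unfold depth
      refine le_iSup₂_of_le [algebraMap S.R (Localization.AtPrime p) S.tR] ⟨?_, ?_⟩ ?_
      · intro a ha
        rw [List.mem_singleton] at ha
        rw [ha, IsLocalization.AtPrime.to_map_mem_maximal_iff _ p, hpm]
        exact S.tR_mem
      · rw [RingTheory.Sequence.isWeaklyRegular_singleton_iff]
        rw [isSMulRegular_iff_right_eq_zero_of_smul]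
        intro x hx
        obtain ⟨⟨m, u⟩, rfl⟩ := IsLocalizedModule.mk'_surjective p.primeCompl
          (LocalizedModule.mkLinearMap p.primeCompl M) x
        rw [algebraMap_smul] at hx
        simp only [Function.uncurry_apply_pair] at hx ⊢
        rw [← IsLocalizedModule.mk'_smul, IsLocalizedModule.mk'_eq_zero'] at hx
        obtain ⟨c, hc⟩ := hx
        rw [IsLocalizedModule.mk'_eq_zero']
        refine ⟨c, ?_⟩
        have hc0 : (c : S.R) ≠ 0 := fun h => c.2 (by rw [h]; exact zero_mem _)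
        have h2 : S.tR • m = 0 := htf c _ hc0 hc
        have h3 : m = 0 := htf _ m S.tR_ne h2
        rw [h3, smul_zero]
      · simp
    exact_mod_cast h1

instance Rn_finite (n : ℕ) : Module.Finite S.R (S.Rn n) := by
  let f : S.Rn n →ₗ[S.R] S.R :=
    { toFun := fun x => ⟨S.t ^ n * x, S.tpow_mul_mem x.2⟩
      map_add' := fun x y => by
        apply Subtype.ext
        change S.t ^ n * ((x : K) + y) = S.t ^ n * x + S.t ^ n * y
        ring
      map_smul' := fun c x => by
        apply Subtype.ext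
        change S.t ^ n * ((c : K) * x) = c * (S.t ^ n * x)
        ring }
  refine Module.Finite.of_injective f ?_
  intro x y hxy
  have h : S.t ^ n * (x : K) = S.t ^ n * y := congrArg Subtype.val hxy
  exact Subtype.ext (mul_left_cancel₀ (pow_ne_zero n S.t_ne) h)

lemma Rn_isMCM (n : ℕ) : IsMCM S.R (ModuleCat.of S.R (S.Rn n)) := by
  have : Module.Finite S.R (ModuleCat.of S.R (S.Rn n)) := S.Rn_finite n
  refine S.isMCM_of_torsionFree _ ?_
  intro r m hr h
  have h1 : (r : K) * ((m : S.Rn n) : K) = 0 := congrArg Subtype.val h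
  have hr' : (r : K) ≠ 0 := fun h => hr (Subtype.ext h)
  exact Subtype.ext ((mul_eq_zero.1 h1).resolve_left hr')

lemma R_isMCM : IsMCM S.R (ModuleCat.of S.R S.R) := by
  have : Module.Finite S.R (ModuleCat.of S.R S.R) := inferInstanceAs (Module.Finite S.R S.R)
  refine S.isMCM_of_torsionFree _ ?_
  intro r m hr h
  have h1 : r * (m : S.R) = 0 := h
  exact (mul_eq_zero.1 h1).resolve_left hr

lemma exists_facFree (M : ModuleCat.{u} S.R) (hM : IsMCM S.R M) :
    ∃ a : ℕ, FacFree (S.tR ^ a) M := by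
  have := hM.1
  obtain ⟨r, f, hf, hR, c, hc⟩ := S.exists_embedding M (S.torsionFree_of_isMCM M hM)
  have hc' : ∀ m j, S.t ^ c * f m j ∈ S.R := fun m j => S.tpow_mul_mem (hc m j)
  let e := LinearEquiv.ofInjective f hf
  let α : M →ₗ[S.R] (Fin r → S.R) :=
    { toFun := fun m j => ⟨S.t ^ c * f m j, hc' m j⟩
      map_add' := fun x y => by
        funext j; apply Subtype.ext
        change S.t ^ c * f (x + y) j = S.t ^ c * f x j + S.t ^ c * f y j
        rw [map_add]
        change S.t ^ c * (f x j + f y j) = _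
        ring
      map_smul' := fun a x => by
        funext j; apply Subtype.ext
        change S.t ^ c * f (a • x) j = a * (S.t ^ c * f x j)
        rw [map_smul]
        change S.t ^ c * ((a : K) * f x j) = _
        ring }
  let β₀ : (Fin r → S.R) →ₗ[S.R] LinearMap.range f :=
    { toFun := fun x => ⟨fun j => (x j : K), hR _ fun j => (x j).2⟩
      map_add' := fun x y => rfl
      map_smul' := fun a x => rfl }
  refine ⟨c, Fin r, inferInstance, α, e.symm.toLinearMap ∘ₗ β₀, fun m => ?_⟩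
  change e.symm (β₀ (α m)) = S.tR ^ c • m
  rw [LinearEquiv.symm_apply_eq]
  apply Subtype.ext
  have h1 : ((e (S.tR ^ c • m) : LinearMap.range f) : Fin r → K) = f (S.tR ^ c • m) := rfl
  rw [h1, map_smul]
  funext j
  change S.t ^ c * f m j = ((S.tR ^ c : S.R) : K) * f m j
  have : ((S.tR ^ c : S.R) : K) = S.t ^ c := by push_cast; rfl
  rw [this]

lemma not_facFree_Rn (a : ℕ) : ¬ FacFree (S.tR ^ a) (S.Rn (a + 1)) := by
  rintro ⟨κ, hκ, α, β, hαβ⟩
  classical
  have := Fintype.ofFinite κ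
  obtain ⟨g, hg1, hg2⟩ := S.unbdd (a + 1)
  have hgn : g ∈ S.Rn (a + 1) := ⟨hg1, by rw [mul_comm, hg2]; exact one_mem _⟩
  let one : S.Rn (a + 1) := ⟨1, S.one_mem_Rn _⟩
  -- linear maps to R are multiplications
  have hmul : ∀ (k : κ) (x : S.Rn (a + 1)), ((α one k : S.R) : K) * x = (α x k : S.R) := by
    intro k x
    have e : (⟨S.t ^ (a + 1) * x, S.tpow_mul_mem x.2⟩ : S.R) • one = (S.tR ^ (a + 1)) • x := by
      apply Subtype.ext
      change (S.t ^ (a + 1) * (x : K)) * 1 = ((S.tR ^ (a + 1) : S.R) : K) * x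
      have : ((S.tR ^ (a + 1) : S.R) : K) = S.t ^ (a + 1) := by push_cast; rfl
      rw [this, mul_one]
    have h1 := congrArg (fun z => ((α z k : S.R) : K)) e
    simp only [map_smul] at h1
    change (S.t ^ (a + 1) * (x : K)) * (α one k : S.R) = ((S.tR ^ (a + 1) : S.R) : K) * (α x k : S.R)
      at h1
    have h2 : ((S.tR ^ (a + 1) : S.R) : K) = S.t ^ (a + 1) := by push_cast; rfl
    rw [h2, mul_assoc] at h1
    have h3 := mul_left_cancel₀ (pow_ne_zero (a + 1) S.t_ne) h1
    rw [mul_comm]; exact h3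
  let b : κ → S.Rn (a + 1) := fun k => β (Pi.single k 1)
  have hβ : ∀ v : κ → S.R, ((β v : S.Rn (a + 1)) : K) = ∑ k, (v k : K) * (b k : K) := by
    intro v
    have h1 : v = ∑ k, (v k) • (Pi.single k (1 : S.R) : κ → S.R) := by
      funext j
      simp [Finset.sum_apply, Pi.single_apply]
    conv_lhs => rw [h1]
    rw [map_sum]
    simp only [map_smul]
    rw [Submodule.coe_sum]
    rfl
  have h1 := congrArg Subtype.val (hαβ one)
  rw [hβ] at h1
  have h2 : ((S.tR ^ a • one : S.Rn (a + 1)) : K) = S.t ^ a := by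
    change ((S.tR ^ a : S.R) : K) * 1 = _
    have : ((S.tR ^ a : S.R) : K) = S.t ^ a := by push_cast; rfl
    rw [this, mul_one]
  rw [h2] at h1
  have h3 : S.t ^ a * g ∈ S.R := by
    rw [← h1, Finset.sum_mul]
    refine sum_mem fun k _ => ?_
    have hbg : (b k : K) * g ∈ S.Rn (a + 1) := S.Rn_mul (b k).2 hgn
    have h4 := hmul k ⟨_, hbg⟩
    rw [mul_assoc]
    change ((α one k : S.R) : K) * ((b k : K) * g) = _ at h4
    rw [h4]
    exact (α _ k).2
  have h5 := h3.2
  rw [S.d_tpow_mul] at h5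
  have h6 : S.i S.t ^ a * S.d g = (S.i S.t)⁻¹ := by
    refine eq_inv_of_mul_eq_one_left ?_
    rw [← hg2]; ring
  rw [h6] at h5
  exact S.t_inv h5

lemma exists_equiv_Rn (M : ModuleCat.{u} S.R) (hM : IsMCM S.R M) (hI : IsIndecomposable S.R M) :
    ∃ n : ℕ, Nonempty (M ≃ₗ[S.R] S.Rn n) := by
  have := hM.1
  obtain ⟨r, f, hf, hR, c, hc⟩ := S.exists_embedding M (S.torsionFree_of_isMCM M hM)
  have hne : Nonempty (Fin r) := by
    by_contra hcon
    rw [not_nonempty_iff] at hcon
    have h1 := hI.1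
    obtain ⟨x, y, hxy⟩ := h1
    exact hxy (hf (Subsingleton.elim _ _))
  let e := LinearEquiv.ofInjective f hf
  obtain ⟨n, s, π, hs⟩ := S.exists_retract (LinearMap.range f) hR
    ⟨c, by rintro _ ⟨m, rfl⟩ j; exact hc m j⟩
  let s' : S.Rn n →ₗ[S.R] M := e.symm.toLinearMap ∘ₗ s
  let π' : M →ₗ[S.R] S.Rn n := π ∘ₗ e.toLinearMap
  have hs' : ∀ x, π' (s' x) = x := fun x => by
    change π (e (e.symm (s x))) = x
    rw [LinearEquiv.apply_symm_apply, hs]
  let E : M ≃ₗ[S.R] (S.Rn n × LinearMap.ker π') :=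
    { toFun := fun m => (π' m, ⟨m - s' (π' m), by
        rw [LinearMap.mem_ker, map_sub, hs', sub_self]⟩)
      map_add' := fun x y => by
        apply Prod.ext
        · exact map_add π' x y
        · apply Subtype.ext
          change (x + y) - s' (π' (x + y)) = (x - s' (π' x)) + (y - s' (π' y))
          rw [map_add, map_add]; abel
      map_smul' := fun a x => by
        apply Prod.ext
        · exact map_smul π' a x
        · apply Subtype.ext
          change (a • x) - s' (π' (a • x)) = a • (x - s' (π' x))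
          rw [map_smul, map_smul, smul_sub]
      invFun := fun p => s' p.1 + p.2
      left_inv := fun m => by
        change s' (π' m) + (m - s' (π' m)) = m
        abel
      right_inv := fun p => by
        have h2 : π' (p.2 : M) = 0 := p.2.2
        have h1 : π' (s' p.1 + p.2) = p.1 := by rw [map_add, hs', h2, add_zero]
        apply Prod.ext
        · exact h1
        · apply Subtype.ext
          change (s' p.1 + p.2) - s' (π' (s' p.1 + p.2)) = p.2
          rw [h1]; abel }
  rcases hI.2 (ModuleCat.of S.R (S.Rn n)) (ModuleCat.of S.R (LinearMap.ker π')) ⟨E⟩ with h | h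
  · exfalso
    have h0 : (⟨1, S.one_mem_Rn n⟩ : S.Rn n) = 0 := h.elim _ _
    exact one_ne_zero (congrArg Subtype.val h0)
  · have h' : Subsingleton (LinearMap.ker π') := h
    refine ⟨n, ⟨LinearEquiv.ofBijective π' ⟨?_, fun x => ⟨s' x, hs' x⟩⟩⟩⟩
    rw [← LinearMap.ker_eq_bot]
    exact (Submodule.subsingleton_iff_eq_bot).1 h'

lemma countable_type : CountableCMType S.R :=
  ⟨fun n => ModuleCat.of S.R (S.Rn n), fun M hM hI => S.exists_equiv_Rn M hM hI⟩

lemma dim_eq_top : dimSubcat S.R (IsMCM S.R) = ⊤ := by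
  unfold dimSubcat
  rw [iInf_eq_top]
  intro n
  rw [iInf_eq_top]
  rintro ⟨G, hG, hall⟩
  exfalso
  obtain ⟨a, ha⟩ := S.exists_facFree G hG
  have h := facFree_ball ha (n + 1) _
    ((hall (ModuleCat.of S.R (S.Rn (a * (n + 1) + 1)))).1 (S.Rn_isMCM _))
  exact S.not_facFree_Rn _ h

end Datum


/-! ### a power series transcendental over `k(X)` -/

section Transcendence

variable (k : Type u) [Field k]

open scoped Nat

/-- the lacunary series `∑ X ^ (n !)`. -/
noncomputable def lac : PowerSeries k :=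
  open Classical in PowerSeries.mk (fun m => if ∃ n, 1 ≤ n ∧ m = n ! then 1 else 0)

/-- its truncations -/
noncomputable def lacn (n : ℕ) : Polynomial k := PowerSeries.trunc (n ! + 1) (lac k)

lemma coeff_lac_fac (n : ℕ) (hn : 1 ≤ n) : PowerSeries.coeff (n !) (lac k) = 1 := by
  unfold lac
  rw [PowerSeries.coeff_mk, if_pos ⟨n, hn, rfl⟩]

lemma coeff_lac_gap (n m : ℕ) (h1 : n ! < m) (h2 : m < (n + 1)!) :
    PowerSeries.coeff m (lac k) = 0 := by
  unfold lac
  rw [PowerSeries.coeff_mk, if_neg]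
  rintro ⟨l, _, rfl⟩
  have h3 : ¬ l ≤ n := fun h => absurd (Nat.factorial_le h) (by omega)
  have h4 : ¬ n + 1 ≤ l := fun h => absurd (Nat.factorial_le h) (by omega)
  omega

lemma natDegree_lacn (n : ℕ) : (lacn k n).natDegree ≤ n ! :=
  Nat.lt_succ_iff.1 (PowerSeries.natDegree_trunc_lt _ _)

lemma lacn_ne {a b : ℕ} (ha : 1 ≤ a) (hab : a < b) : lacn k a ≠ lacn k b := by
  intro h
  have h1 : (lacn k a).coeff (b !) = 0 := by
    unfold lacn
    rw [PowerSeries.coeff_trunc, if_neg]
    have := (Nat.factorial_lt (by omega : 0 < a)).2 hab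
    omega
  have h2 : (lacn k b).coeff (b !) = 1 := by
    unfold lacn
    rw [PowerSeries.coeff_trunc, if_pos (Nat.lt_succ_self _), coeff_lac_fac k b (by omega)]
  rw [h, h2] at h1
  exact one_ne_zero h1

lemma X_pow_dvd_lac_sub (n : ℕ) :
    (PowerSeries.X : PowerSeries k) ^ ((n + 1)!) ∣ lac k - (lacn k n : PowerSeries k) := by
  rw [PowerSeries.X_pow_dvd_iff]
  intro m hm
  rw [map_sub, Polynomial.coeff_coe, lacn, PowerSeries.coeff_trunc]
  split_ifs with h
  · exact sub_self _
  · rw [sub_zero]; exact coeff_lac_gap k n m (by omega) hm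

lemma eval_eq_zero_of (P : Polynomial (Polynomial k))
    (hP : P.eval₂ Polynomial.coeToPowerSeries.ringHom (lac k) = 0) :
    ∃ N, ∀ n, N ≤ n → P.eval (lacn k n) = 0 := by
  set e := P.support.sup (fun j => (P.coeff j).natDegree) with he
  set d := P.natDegree with hd
  refine ⟨e + d, fun n hn => ?_⟩
  have hdeg : (P.eval (lacn k n)).natDegree ≤ e + d * n ! := by
    rw [Polynomial.eval_eq_sum_range]
    refine Polynomial.natDegree_sum_le_of_forall_le _ _ fun j hj => ?_
    rw [Finset.mem_range] at hj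
    by_cases hc : P.coeff j = 0
    · rw [hc, zero_mul, Polynomial.natDegree_zero]; exact Nat.zero_le _
    · refine Polynomial.natDegree_mul_le.trans (Nat.add_le_add ?_ ?_)
      · exact Finset.le_sup (f := fun j => (P.coeff j).natDegree) (Polynomial.mem_support_iff.2 hc)
      · refine Polynomial.natDegree_pow_le.trans (Nat.mul_le_mul (by omega) (natDegree_lacn k n))
  have hlt : e + d * n ! < (n + 1)! := by
    rw [Nat.factorial_succ]
    have h1 : 1 ≤ n ! := Nat.factorial_pos n
    calc e + d * n ! ≤ e * n ! + d * n ! := by nlinarith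
      _ = (e + d) * n ! := by ring
      _ < (n + 1) * n ! := by
        apply Nat.mul_lt_mul_of_pos_right (by omega) h1
  have hdvd : (PowerSeries.X : PowerSeries k) ^ ((n + 1)!) ∣
      ((P.eval (lacn k n) : Polynomial k) : PowerSeries k) := by
    have h1 : ((P.eval (lacn k n) : Polynomial k) : PowerSeries k) =
        (P.map Polynomial.coeToPowerSeries.ringHom).eval (lacn k n : PowerSeries k) := by
      rw [Polynomial.eval_map, ← Polynomial.coeToPowerSeries.ringHom_apply,
        ← Polynomial.coeToPowerSeries.ringHom_apply, Polynomial.eval₂_at_apply]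
    have h2 : (P.map Polynomial.coeToPowerSeries.ringHom).eval (lac k) = 0 := by
      rw [Polynomial.eval_map]; exact hP
    have h3 := Polynomial.sub_dvd_eval_sub (lac k) (lacn k n : PowerSeries k)
      (P.map Polynomial.coeToPowerSeries.ringHom)
    rw [h2, zero_sub, dvd_neg, ← h1] at h3
    exact (X_pow_dvd_lac_sub k n).trans h3
  rw [PowerSeries.X_pow_dvd_iff] at hdvd
  ext m
  rw [Polynomial.coeff_zero]
  by_cases hm : m < (n + 1)!
  · have := hdvd m hm
    rwa [Polynomial.coeff_coe] at this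
  · exact Polynomial.coeff_eq_zero_of_natDegree_lt (by omega)

lemma lac_transcendental (P : Polynomial (Polynomial k)) (hP : P ≠ 0) :
    P.eval₂ Polynomial.coeToPowerSeries.ringHom (lac k) ≠ 0 := by
  intro h
  obtain ⟨N, hN⟩ := eval_eq_zero_of k P h
  apply hP
  apply Polynomial.eq_zero_of_infinite_isRoot
  refine Set.infinite_of_injective_forall_mem (f := fun n : ℕ => lacn k (n + N + 1)) ?_ ?_
  · intro a b hab
    by_contra hne
    rcases Nat.lt_or_gt_of_ne hne with h1 | h1
    · exact lacn_ne k (by omega) (by omega) hab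
    · exact lacn_ne k (by omega) (by omega) hab.symm
  · intro n
    exact hN _ (by omega)

end Transcendence

/-! ### the concrete datum -/

section Concrete

variable (k : Type u) [Field k]

/-- The valuation ring `k[[X]]` inside `k((X))`. -/
noncomputable def psVal : ValuationSubring (LaurentSeries k) :=
  { (algebraMap (PowerSeries k) (LaurentSeries k)).range with
    mem_or_inv_mem' := fun x => by
      rcases ValuationRing.isInteger_or_isInteger (PowerSeries k) x with ⟨a, ha⟩ | ⟨a, ha⟩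
      · exact Or.inl ⟨a, ha⟩
      · exact Or.inr ⟨a, ha⟩ }

lemma mem_psVal {x : LaurentSeries k} :
    x ∈ psVal k ↔ ∃ a : PowerSeries k, algebraMap (PowerSeries k) (LaurentSeries k) a = x := Iff.rfl

/-- the coefficient embedding of `k[X]` in `k((X))`. -/
noncomputable def cHom : Polynomial k →+* LaurentSeries k :=
  (algebraMap (PowerSeries k) (LaurentSeries k)).comp Polynomial.coeToPowerSeries.ringHom

/-- the homomorphism from `k[X][Y]` to the dual numbers over `k((X))`, `Y ↦ f + ε`. -/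
noncomputable def dualHom₀ : Polynomial (Polynomial k) →+* DualNumber (LaurentSeries k) :=
  Polynomial.eval₂RingHom
    ((TrivSqZeroExt.inlHom (LaurentSeries k) (LaurentSeries k)).comp (cHom k))
    (TrivSqZeroExt.inl (algebraMap (PowerSeries k) (LaurentSeries k) (lac k)) +
      TrivSqZeroExt.inr 1)

lemma fst_dualHom₀ (P : Polynomial (Polynomial k)) :
    (dualHom₀ k P).fst = algebraMap (PowerSeries k) (LaurentSeries k)
      (P.eval₂ Polynomial.coeToPowerSeries.ringHom (lac k)) := by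
  have h1 : (dualHom₀ k P).fst =
      TrivSqZeroExt.fstHom (LaurentSeries k) (LaurentSeries k) (LaurentSeries k) (dualHom₀ k P) := rfl
  rw [h1, dualHom₀, Polynomial.coe_eval₂RingHom]
  have h2 := Polynomial.hom_eval₂ P
    ((TrivSqZeroExt.inlHom (LaurentSeries k) (LaurentSeries k)).comp (cHom k))
    (TrivSqZeroExt.fstHom (LaurentSeries k) (LaurentSeries k) (LaurentSeries k)).toRingHom
    (TrivSqZeroExt.inl (algebraMap (PowerSeries k) (LaurentSeries k) (lac k)) +
      TrivSqZeroExt.inr 1)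
  refine h2.trans ?_
  rw [Polynomial.hom_eval₂]
  congr 1
  change (TrivSqZeroExt.inl (algebraMap (PowerSeries k) (LaurentSeries k) (lac k)) +
      TrivSqZeroExt.inr 1 : DualNumber (LaurentSeries k)).fst = _
  simp

/-- the field `k(X, Y)`. -/
abbrev KK : Type u := FractionRing (Polynomial (Polynomial k))

lemma isUnit_dualHom₀ (P : nonZeroDivisors (Polynomial (Polynomial k))) :
    IsUnit (dualHom₀ k P) := by
  rw [TrivSqZeroExt.isUnit_iff_isUnit_fst, fst_dualHom₀, isUnit_iff_ne_zero]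
  intro h
  exact lac_transcendental k P (nonZeroDivisors.ne_zero P.2)
    ((map_eq_zero_iff _ (IsFractionRing.injective (PowerSeries k) (LaurentSeries k))).1 h)

/-- the extension to the fraction field -/
noncomputable def dualHom : KK k →+* DualNumber (LaurentSeries k) :=
  IsLocalization.lift (M := nonZeroDivisors (Polynomial (Polynomial k))) (isUnit_dualHom₀ k)

lemma dualHom_algebraMap (P : Polynomial (Polynomial k)) :
    dualHom k (algebraMap _ (KK k) P) = dualHom₀ k P :=
  IsLocalization.lift_eq _ _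

/-- the embedding of `k(X, Y)` into `k((X))`. -/
noncomputable def iHom : KK k →+* LaurentSeries k :=
  (TrivSqZeroExt.fstHom (LaurentSeries k) (LaurentSeries k) (LaurentSeries k)).toRingHom.comp
    (dualHom k)

/-- the derivation `∂/∂Y` on `k(X, Y)` with values in `k((X))`. -/
noncomputable def dHom : KK k →+ LaurentSeries k :=
  ((TrivSqZeroExt.sndHom (LaurentSeries k) (LaurentSeries k)).toAddMonoidHom).comp
    (dualHom k).toAddMonoidHom

lemma iHom_apply (x : KK k) : iHom k x = (dualHom k x).fst := rfl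

lemma dHom_apply (x : KK k) : dHom k x = (dualHom k x).snd := rfl

lemma dHom_leib (x y : KK k) : dHom k (x * y) = iHom k x * dHom k y + iHom k y * dHom k x := by
  rw [dHom_apply, dHom_apply, dHom_apply, iHom_apply, iHom_apply, map_mul, TrivSqZeroExt.snd_mul]
  simp only [smul_eq_mul, MulOpposite.smul_eq_mul_unop, MulOpposite.unop_op]
  ring

/-- the element of `k(X, Y)` defined by a polynomial in `X`. -/
noncomputable def coef (p : Polynomial k) : KK k := algebraMap _ (KK k) (Polynomial.C p)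

lemma dualHom_coef (p : Polynomial k) : dualHom k (coef k p) =
    TrivSqZeroExt.inl (algebraMap (PowerSeries k) (LaurentSeries k) (p : PowerSeries k)) := by
  rw [coef, dualHom_algebraMap, dualHom₀, Polynomial.coe_eval₂RingHom, Polynomial.eval₂_C]
  rfl

lemma iHom_coef (p : Polynomial k) : iHom k (coef k p) =
    algebraMap (PowerSeries k) (LaurentSeries k) (p : PowerSeries k) := by
  rw [iHom_apply, dualHom_coef]; rfl

lemma dHom_coef (p : Polynomial k) : dHom k (coef k p) = 0 := by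
  rw [dHom_apply, dualHom_coef]; rfl

/-- the variable `Y`. -/
noncomputable def YY : KK k :=
  algebraMap (Polynomial (Polynomial k)) (KK k) Polynomial.X

lemma dualHom_YY : dualHom k (YY k) =
    TrivSqZeroExt.inl (algebraMap (PowerSeries k) (LaurentSeries k) (lac k)) +
      TrivSqZeroExt.inr 1 := by
  rw [YY, dualHom_algebraMap, dualHom₀, Polynomial.coe_eval₂RingHom, Polynomial.eval₂_X]

lemma iHom_YY : iHom k (YY k) = algebraMap (PowerSeries k) (LaurentSeries k) (lac k) := by
  rw [iHom_apply, dualHom_YY]; simp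

lemma dHom_YY : dHom k (YY k) = 1 := by
  rw [dHom_apply, dualHom_YY]; simp

/-- the variable `X` -/
noncomputable def XX : KK k := coef k Polynomial.X

lemma iHom_XX : iHom k (XX k) = algebraMap (PowerSeries k) (LaurentSeries k) PowerSeries.X := by
  rw [XX, iHom_coef, Polynomial.coe_X]

lemma XX_ne : XX k ≠ 0 := by
  intro h
  have := iHom_XX k
  rw [h, map_zero] at this
  have h2 := (map_eq_zero_iff _ (IsFractionRing.injective (PowerSeries k) (LaurentSeries k))).1
    this.symm
  exact PowerSeries.X_ne_zero h2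

lemma dvd_iff_mem (n : ℕ) (a : PowerSeries k) (h : (PowerSeries.X : PowerSeries k) ^ n ∣ a) :
    (iHom k (XX k) ^ n)⁻¹ * algebraMap (PowerSeries k) (LaurentSeries k) a ∈ psVal k := by
  obtain ⟨b, rfl⟩ := h
  refine ⟨b, ?_⟩
  have h0 : algebraMap (PowerSeries k) (LaurentSeries k) PowerSeries.X ≠ 0 := by
    rw [← iHom_XX]; exact (map_ne_zero _).2 (XX_ne k)
  rw [map_mul, map_pow, iHom_XX]
  field_simp

/-- The datum for the field `k`. -/
noncomputable def datum : Datum (KK k) (LaurentSeries k) where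
  A := psVal k
  i := iHom k
  d := dHom k
  leib := dHom_leib k
  t := XX k
  dt := dHom_coef k _
  t_mem := ⟨PowerSeries.X, (iHom_XX k).symm⟩
  t_inv := by
    rintro ⟨a, ha⟩
    have h0 : iHom k (XX k) ≠ 0 := (map_ne_zero _).2 (XX_ne k)
    have h1 : algebraMap (PowerSeries k) (LaurentSeries k) (a * PowerSeries.X) =
        algebraMap (PowerSeries k) (LaurentSeries k) 1 := by
      rw [map_mul, ← iHom_XX, map_one]
      change algebraMap (PowerSeries k) (LaurentSeries k) a = _ at ha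
      rw [ha, inv_mul_cancel₀ h0]
    have h2 := IsFractionRing.injective (PowerSeries k) (LaurentSeries k) h1
    exact PowerSeries.X_prime.not_isUnit (IsUnit.of_mul_eq_one a (by rw [mul_comm]; exact h2))
  arch := by
    intro x
    obtain ⟨a, b, hb, rfl⟩ := IsFractionRing.div_surjective (A := PowerSeries k) x
    have hb0 : b ≠ 0 := nonZeroDivisors.ne_zero hb
    obtain ⟨n, u, hu⟩ := IsDiscreteValuationRing.eq_unit_mul_pow_irreducible hb0
      PowerSeries.X_prime.irreducible
    refine ⟨n, (u⁻¹ : (PowerSeries k)ˣ) * a, ?_⟩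
    change algebraMap (PowerSeries k) (LaurentSeries k) _ = _
    have h0 : algebraMap (PowerSeries k) (LaurentSeries k) PowerSeries.X ≠ 0 := by
      rw [← iHom_XX]; exact (map_ne_zero _).2 (XX_ne k)
    have hu0 : algebraMap (PowerSeries k) (LaurentSeries k) (u : PowerSeries k) ≠ 0 := by
      intro h
      have := (map_eq_zero_iff _ (IsFractionRing.injective (PowerSeries k) (LaurentSeries k))).1 h
      exact u.ne_zero this
    have hu1 : algebraMap (PowerSeries k) (LaurentSeries k) ((u⁻¹ : (PowerSeries k)ˣ) : PowerSeries k)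
        = (algebraMap (PowerSeries k) (LaurentSeries k) (u : PowerSeries k))⁻¹ := by
      refine eq_inv_of_mul_eq_one_left ?_
      rw [← map_mul, Units.inv_mul, map_one]
    rw [hu, map_mul, hu1, map_mul, map_pow, iHom_XX]
    field_simp
  unif := by
    rintro x ⟨a, ha⟩
    change algebraMap (PowerSeries k) (LaurentSeries k) a = x at ha
    by_cases h : IsUnit a
    · left
      obtain ⟨u, rfl⟩ := h
      refine ⟨(u⁻¹ : (PowerSeries k)ˣ), ?_⟩
      change algebraMap (PowerSeries k) (LaurentSeries k) _ = _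
      refine eq_inv_of_mul_eq_one_left ?_
      rw [← ha, ← map_mul, Units.inv_mul, map_one]
    · right
      have hX : (PowerSeries.X : PowerSeries k) ^ 1 ∣ a := by
        rw [pow_one, PowerSeries.X_dvd_iff]
        by_contra hc
        apply h
        rw [PowerSeries.isUnit_iff_constantCoeff]
        exact isUnit_iff_ne_zero.2 hc
      have := dvd_iff_mem k 1 a hX
      rw [pow_one] at this
      rw [← ha]; exact this
  dense := by
    rintro x ⟨a, ha⟩
    change algebraMap (PowerSeries k) (LaurentSeries k) a = x at ha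
    refine ⟨coef k (Polynomial.C (PowerSeries.constantCoeff a)), ⟨_, (iHom_coef k _).symm⟩, ?_, ?_⟩
    · rw [dHom_coef]; exact zero_mem _
    · rw [← ha, iHom_coef, ← map_sub]
      have := dvd_iff_mem k 1 (a - ((Polynomial.C (PowerSeries.constantCoeff a) : Polynomial k) :
        PowerSeries k)) (by
          rw [pow_one, PowerSeries.X_dvd_iff]; simp)
      rw [pow_one] at this
      exact this
  unbdd := by
    intro n
    have hX : (PowerSeries.X : PowerSeries k) ^ n ∣
        lac k - ((PowerSeries.trunc n (lac k) : Polynomial k) : PowerSeries k) := by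
      rw [PowerSeries.X_pow_dvd_iff]
      intro m hm
      rw [map_sub, Polynomial.coeff_coe, PowerSeries.coeff_trunc, if_pos hm, sub_self]
    have h0 : iHom k (XX k) ≠ 0 := (map_ne_zero _).2 (XX_ne k)
    refine ⟨(XX k ^ n)⁻¹ * (YY k - coef k (PowerSeries.trunc n (lac k))), ?_, ?_⟩
    · have := dvd_iff_mem k n _ hX
      rw [map_mul, map_inv₀, map_pow, map_sub, iHom_YY, iHom_coef, ← map_sub]
      exact this
    · have hXd : ∀ (m : ℕ) (z : KK k), dHom k (XX k ^ m * z) = iHom k (XX k) ^ m * dHom k z := by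
        intro m z
        induction m with
        | zero => simp
        | succ m ih =>
          have hx0 : dHom k (XX k) = 0 := dHom_coef k _
          rw [pow_succ', mul_assoc, dHom_leib, ih, hx0]; ring
      have h1 := hXd n ((XX k ^ n)⁻¹ * (YY k - coef k (PowerSeries.trunc n (lac k))))
      rw [← mul_assoc, mul_inv_cancel₀ (pow_ne_zero n (XX_ne k)), one_mul, map_sub, dHom_YY,
        dHom_coef, sub_zero] at h1
      rw [mul_comm]; exact h1.symm

/-- The constant coefficient map from the ring to `k` -/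
lemma exists_residue : ∃ ρ : (datum k).R →+* k, Function.Surjective ρ := by
  let ι := algebraMap (PowerSeries k) (LaurentSeries k)
  have hι : Function.Injective ι := IsFractionRing.injective (PowerSeries k) (LaurentSeries k)
  let e : PowerSeries k ≃+* ι.range := RingEquiv.ofBijective ι.rangeRestrict
    ⟨fun x y h => hι (congrArg Subtype.val h), ι.rangeRestrict_surjective⟩
  let f : (datum k).R →+* ι.range :=
    ((iHom k).comp (Subring.subtype (datum k).R)).codRestrict ι.range (fun x => x.2.1)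
  refine ⟨(PowerSeries.constantCoeff).comp ((e.symm : ι.range →+* PowerSeries k).comp f), ?_⟩
  intro c
  have hc : coef k (Polynomial.C c) ∈ (datum k).R :=
    ⟨⟨_, (iHom_coef k _).symm⟩, by
      change dHom k _ ∈ _
      rw [dHom_coef]; exact zero_mem _⟩
  refine ⟨⟨_, hc⟩, ?_⟩
  have h1 : f ⟨_, hc⟩ = e ((Polynomial.C c : Polynomial k) : PowerSeries k) := by
    apply Subtype.ext
    exact iHom_coef k _
  change PowerSeries.constantCoeff (e.symm (f ⟨_, hc⟩)) = c
  rw [h1, RingEquiv.symm_apply_apply]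
  simp

lemma residue_equiv : Nonempty (IsLocalRing.ResidueField (datum k).R ≃+* k) := by
  obtain ⟨ρ, hρ⟩ := exists_residue k
  have hmax : (RingHom.ker ρ).IsMaximal := RingHom.ker_isMaximal_of_surjective ρ hρ
  have hker : RingHom.ker ρ = IsLocalRing.maximalIdeal (datum k).R :=
    IsLocalRing.eq_maximalIdeal hmax
  exact ⟨(Ideal.quotEquivOfEq hker.symm).trans (RingHom.quotientKerEquivOfSurjective hρ)⟩

end Concrete


/-- The main result. For every field `k` there is a Cohen-Macaulay local ring `R` (a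
one-dimensional noetherian local domain with residue field `k` whose maximal ideal has two
generators) of countable CM-representation type such that the dimension of the category
`CM(R)` of maximal Cohen-Macaulay modules is infinite: no maximal Cohen-Macaulay module `G` and
no `r` satisfy `CM(R) = [G]_r`. -/
theorem main (k : Type u) [Field k] :
    ∃ (R : Type u) (_ : CommRing R) (_ : IsLocalRing R),
      IsDomain R ∧ IsCMLocalRing R ∧ ringKrullDim R = 1 ∧
      (∃ a b : R, IsLocalRing.maximalIdeal R = Ideal.span {a, b}) ∧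
      Nonempty (IsLocalRing.ResidueField R ≃+* k) ∧
      CountableCMType R ∧
      dimSubcat R (IsMCM R) = ⊤ := by
  obtain ⟨b, hb⟩ := (datum k).exists_max_eq
  exact ⟨(datum k).R, inferInstance, (datum k).instLocal, inferInstance,
    ⟨(datum k).instNoeth, (datum k).instLocal, (datum k).R_isMCM⟩, (datum k).dim_eq_one,
    ⟨_, b, hb⟩, residue_equiv k, (datum k).countable_type, (datum k).dim_eq_top⟩

end Pool.Agent.Helper77.CM
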