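import Mathlib

/-! Horizontal class transpositions and the groups they generate. -/

namespace Pool.Agent.Helper77.CT

/-- The map of the integers that interchanges the residue classes `i + k ℤ` and `j + k ℤ`
by translation and fixes every other integer. -/
def tauFun (k i j : ℕ) (n : ℤ) : ℤ :=
  if n % (k : ℤ) = (i : ℤ) then n + ((j : ℤ) - (i : ℤ))
  else if n % (k : ℤ) = (j : ℤ) then n - ((j : ℤ) - (i : ℤ))
  else n

/-- `IsTau k i j s` says that the permutation `s` of the integers is the horizontal class
transposition `tau_{i(k), j(k)}` (with `k ≥ 2` and `0 ≤ i < j ≤ k - 1`). -/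
def IsTau (k i j : ℕ) (s : Equiv.Perm ℤ) : Prop :=
  2 ≤ k ∧ i < j ∧ j < k ∧ ∀ n : ℤ, s n = tauFun k i j n

/-- The set `H` of all horizontal class transpositions. -/
def H : Set (Equiv.Perm ℤ) := {s | ∃ k i j : ℕ, IsTau k i j s}

/-- The group `CT_k`, generated by the horizontal class transpositions of modulus `k`. -/
def CT (k : ℕ) : Subgroup (Equiv.Perm ℤ) :=
  Subgroup.closure {s | ∃ i j : ℕ, IsTau k i j s}

/-- The group `CT_∞`, generated by all horizontal class transpositions. -/
def CTinf : Subgroup (Equiv.Perm ℤ) := Subgroup.closure H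

end Pool.Agent.Helper77.CT
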