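import Pool.Agent.Helper77.CTDefs

namespace Pool.Agent.Helper77.CT

/-! ### arithmetic of remainders -/

lemma emod_add_of {k x c : ℤ} (h0 : 0 ≤ x % k + c) (h1 : x % k + c < k) :
    (x + c) % k = x % k + c := by
  have h := Int.emod_add_mul_ediv x k
  have : x + c = (x % k + c) + k * (x / k) := by linarith
  rw [this, Int.add_mul_emod_self_left, Int.emod_eq_of_lt h0 h1]

lemma tauFun_tauFun {k i j : ℕ} (hij : i < j) (hjk : j < k) (n : ℤ) :
    tauFun k i j (tauFun k i j n) = n := by
  have hk : (0 : ℤ) < k := by exact_mod_cast (by omega : 0 < k)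
  have hij' : (i : ℤ) < j := by exact_mod_cast hij
  have hjk' : (j : ℤ) < k := by exact_mod_cast hjk
  have hi0 : (0 : ℤ) ≤ i := Int.natCast_nonneg i
  by_cases h1 : n % (k : ℤ) = i
  · have e1 : tauFun k i j n = n + ((j : ℤ) - i) := by simp [tauFun, h1]
    have e2 : (n + ((j : ℤ) - i)) % (k : ℤ) = j := by
      rw [emod_add_of (by rw [h1]; linarith) (by rw [h1]; linarith), h1]; ring
    rw [e1]
    unfold tauFun
    rw [e2, if_neg (by omega), if_pos rfl]; ring
  · by_cases h2 : n % (k : ℤ) = j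
    · have e1 : tauFun k i j n = n + (-((j : ℤ) - i)) := by
        unfold tauFun; rw [if_neg h1, if_pos h2]; ring
      have e2 : (n + (-((j : ℤ) - i))) % (k : ℤ) = i := by
        rw [emod_add_of (by rw [h2]; linarith) (by rw [h2]; linarith), h2]; ring
      rw [e1]
      unfold tauFun
      rw [e2, if_pos rfl]; ring
    · have e1 : tauFun k i j n = n := by unfold tauFun; rw [if_neg h1, if_neg h2]
      rw [e1, e1]

/-- Every admissible triple really gives a permutation. -/
def tau (k i j : ℕ) (hij : i < j) (hjk : j < k) : Equiv.Perm ℤ where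
  toFun := tauFun k i j
  invFun := tauFun k i j
  left_inv := tauFun_tauFun hij hjk
  right_inv := tauFun_tauFun hij hjk

lemma isTau_tau {k i j : ℕ} (hij : i < j) (hjk : j < k) : IsTau k i j (tau k i j hij hjk) :=
  ⟨by omega, hij, hjk, fun _ => rfl⟩

/-! ### periodic sums -/

lemma sum_periodic (k : ℕ) (f : ℤ → ℤ) (hf : ∀ x, f (x + k) = f x) (q : ℕ) :
    ∑ x ∈ Finset.range (q * k), f (x : ℤ) = q * ∑ x ∈ Finset.range k, f (x : ℤ) := by
  have hf' : ∀ (m : ℕ) (x : ℤ), f (x + m * k) = f x := by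
    intro m
    induction m with
    | zero => intro x; simp
    | succ m ih =>
      intro x
      have : x + ((m + 1 : ℕ) : ℤ) * k = (x + m * k) + k := by push_cast; ring
      rw [this, hf, ih]
  induction q with
  | zero => simp
  | succ q ih =>
    have e : (q + 1) * k = q * k + k := by ring
    rw [e, Finset.sum_range_add, ih]
    have : ∑ x ∈ Finset.range k, f (((q * k + x : ℕ)) : ℤ) = ∑ x ∈ Finset.range k, f (x : ℤ) := by
      refine Finset.sum_congr rfl fun x _ => ?_
      have : ((q * k + x : ℕ) : ℤ) = (x : ℤ) + q * k := by push_cast; ring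
      rw [this, hf']
    rw [this]; push_cast; ring

/-- total displacement on `[0, N)`. -/
def disp (N : ℕ) (s : Equiv.Perm ℤ) : ℤ := ∑ x ∈ Finset.range N, |s (x : ℤ) - x|

/-- `s` maps `[0, N)` onto itself. -/
def Pres (N : ℕ) (s : Equiv.Perm ℤ) : Prop := ∀ x : ℤ, (0 ≤ x ∧ x < N) ↔ (0 ≤ s x ∧ s x < N)

lemma sum_range_eq_Ico (N : ℕ) (f : ℤ → ℤ) :
    ∑ x ∈ Finset.range N, f (x : ℤ) = ∑ x ∈ Finset.Ico (0 : ℤ) N, f x := by
  refine Finset.sum_bij' (fun x _ => (x : ℤ)) (fun x _ => x.toNat) ?_ ?_ ?_ ?_ ?_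
  · intro a ha
    rw [Finset.mem_range] at ha
    rw [Finset.mem_Ico]; constructor <;> omega
  · intro a ha
    rw [Finset.mem_Ico] at ha
    rw [Finset.mem_range]; omega
  · intro a _; simp
  · intro a ha
    rw [Finset.mem_Ico] at ha
    exact Int.toNat_of_nonneg ha.1
  · intro a _; rfl

lemma disp_mul (N : ℕ) (s t : Equiv.Perm ℤ) (ht : Pres N t) :
    disp N (s * t) ≤ disp N s + disp N t := by
  unfold disp
  rw [sum_range_eq_Ico N (fun x => |(s * t) x - x|), sum_range_eq_Ico N (fun x => |s x - x|),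
    sum_range_eq_Ico N (fun x => |t x - x|)]
  have h1 : ∑ x ∈ Finset.Ico (0 : ℤ) N, |s (t x) - t x| = ∑ x ∈ Finset.Ico (0 : ℤ) N, |s x - x| := by
    refine Finset.sum_equiv t ?_ ?_
    · intro x; rw [Finset.mem_Ico, Finset.mem_Ico]; exact ht x
    · intro x _; rfl
  rw [← h1, ← Finset.sum_add_distrib]
  refine Finset.sum_le_sum fun x _ => ?_
  have : (s * t) x - x = (s (t x) - t x) + (t x - x) := by
    rw [Equiv.Perm.mul_apply]; ring
  rw [this]
  exact abs_add_le _ _

lemma tauFun_ediv {k i j : ℕ} (hij : i < j) (hjk : j < k) (x : ℤ) :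
    tauFun k i j x / k = x / k := by
  have hk : (0 : ℤ) < k := by exact_mod_cast (by omega : 0 < k)
  have hij' : (i : ℤ) < j := by exact_mod_cast hij
  have hjk' : (j : ℤ) < k := by exact_mod_cast hjk
  have hi0 : (0 : ℤ) ≤ i := Int.natCast_nonneg i
  have key : ∀ c : ℤ, 0 ≤ x % k + c → x % k + c < k → (x + c) / k = x / k := by
    intro c h0 h1
    have h := Int.emod_add_mul_ediv x k
    have : x + c = (x % k + c) + k * (x / k) := by linarith
    rw [this, Int.add_mul_ediv_left _ _ hk.ne', Int.ediv_eq_zero_of_lt h0 h1, zero_add]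
  unfold tauFun
  split_ifs with h1 h2
  · exact key _ (by rw [h1]; linarith) (by rw [h1]; linarith)
  · rw [sub_eq_add_neg]
    exact key _ (by rw [h2]; linarith) (by rw [h2]; linarith)
  · rfl

lemma tau_pres {k i j : ℕ} {s : Equiv.Perm ℤ} (h : IsTau k i j s) (q : ℕ) : Pres (q * k) s := by
  obtain ⟨h2, hij, hjk, hs⟩ := h
  have hk : (0 : ℤ) < k := by exact_mod_cast (by omega : 0 < k)
  have key : ∀ y : ℤ, (0 ≤ y ∧ y < ((q * k : ℕ) : ℤ)) ↔ (0 ≤ y / k ∧ y / k < q) := by
    intro y
    rw [Int.ediv_nonneg_iff_of_pos hk, Int.ediv_lt_iff_lt_mul hk]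
    push_cast
    rfl
  intro x
  rw [key, key, hs, tauFun_ediv hij hjk]

lemma tau_disp {k i j : ℕ} {s : Equiv.Perm ℤ} (h : IsTau k i j s) (q : ℕ) :
    disp (q * k) s ≤ 2 * (q * k : ℕ) := by
  obtain ⟨h2, hij, hjk, hs⟩ := h
  have hk : (0 : ℤ) < k := by exact_mod_cast (by omega : 0 < k)
  have hij' : (i : ℤ) < j := by exact_mod_cast hij
  have hjk' : (j : ℤ) < k := by exact_mod_cast hjk
  have hi0 : (0 : ℤ) ≤ i := Int.natCast_nonneg i
  unfold disp
  rw [sum_periodic k (fun x => |s x - x|)]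
  · have hb : ∑ x ∈ Finset.range k, |s (x : ℤ) - x| ≤
        ∑ x ∈ Finset.range k, ((if x = i then ((j : ℤ) - i) else 0) + (if x = j then ((j : ℤ) - i) else 0)) := by
      refine Finset.sum_le_sum fun x hx => ?_
      rw [Finset.mem_range] at hx
      have hxm : (x : ℤ) % (k : ℤ) = x := Int.emod_eq_of_lt (Int.natCast_nonneg x) (by exact_mod_cast hx)
      rw [hs]
      unfold tauFun
      rw [hxm]
      by_cases h1 : x = i
      · subst h1
        rw [if_pos rfl, if_pos rfl, if_neg (by omega)]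
        rw [add_sub_cancel_left, abs_of_nonneg (by linarith)]; simp
      · by_cases h3 : x = j
        · subst h3
          rw [if_neg (by exact_mod_cast h1), if_pos rfl, if_neg h1, if_pos rfl]
          rw [sub_sub_cancel_left, abs_neg, abs_of_nonneg (by linarith)]; simp
        · rw [if_neg (by exact_mod_cast h1), if_neg (by exact_mod_cast h3), if_neg h1, if_neg h3]
          simp
    rw [Finset.sum_add_distrib, Finset.sum_ite_eq', Finset.sum_ite_eq',
      if_pos (Finset.mem_range.2 (by omega)), if_pos (Finset.mem_range.2 hjk)] at hb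
    have hb2 : ∑ x ∈ Finset.range k, |s (x : ℤ) - x| ≤ 2 * (k : ℤ) := by linarith
    have := mul_le_mul_of_nonneg_left hb2 (Int.natCast_nonneg q)
    push_cast
    linarith
  · intro x
    have e1 : (x + (k : ℤ)) % (k : ℤ) = x % (k : ℤ) := by simp
    simp only [hs]
    unfold tauFun
    rw [e1]
    split_ifs <;> congr 1 <;> ring

/-- The main estimate: a product of `l.length` horizontal class transpositions has total
displacement at most `2 N l.length` on `[0, N)`, for a suitable common period `N`. -/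
lemma exists_period (l : List (Equiv.Perm ℤ)) (hl : ∀ s ∈ l, s ∈ H) :
    ∃ P : ℕ, 0 < P ∧ ∀ q : ℕ, Pres (q * P) l.prod ∧ disp (q * P) l.prod ≤ 2 * (q * P : ℕ) * l.length := by
  induction l with
  | nil =>
    refine ⟨1, one_pos, fun q => ⟨fun x => ?_, ?_⟩⟩
    · simp
    · simp [disp]
  | cons s l ih =>
    obtain ⟨P, hP, hq⟩ := ih (fun t ht => hl t (List.mem_cons_of_mem _ ht))
    obtain ⟨k, i, j, hs⟩ := hl s List.mem_cons_self
    have hk : 0 < k := by have := hs.1; omega
    refine ⟨k * P, Nat.mul_pos hk hP, fun q => ?_⟩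
    have e1 : q * (k * P) = (q * k) * P := by ring
    have e2 : q * (k * P) = (q * P) * k := by ring
    obtain ⟨h1, h2⟩ := hq (q * k)
    rw [← e1] at h1 h2
    have h3 := tau_pres hs (q * P)
    have h4 := tau_disp hs (q * P)
    rw [← e2] at h3 h4
    rw [List.prod_cons]
    refine ⟨fun x => ?_, ?_⟩
    · rw [Equiv.Perm.mul_apply, h1 x, h3 (l.prod x)]
    · have := disp_mul (q * (k * P)) s l.prod h1
      rw [List.length_cons]
      push_cast at *
      nlinarith

/-! ### the block reversal -/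

/-- The extension of a permutation of the residues to a block-periodic permutation of `ℤ`. -/
def ext (N : ℕ) [NeZero N] : Equiv.Perm (Fin N) →* Equiv.Perm ℤ where
  toFun s := (Int.divModEquiv N).trans (((Equiv.refl ℤ).prodCongr s).trans (Int.divModEquiv N).symm)
  map_one' := by
    refine Equiv.ext fun x => ?_
    change (Int.divModEquiv N).symm ((Int.divModEquiv N) x) = x
    exact Equiv.symm_apply_apply _ x
  map_mul' s t := by
    refine Equiv.ext fun x => ?_
    change (Int.divModEquiv N).symm (((Int.divModEquiv N) x).1, s (t ((Int.divModEquiv N) x).2)) =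
      (Int.divModEquiv N).symm (((Int.divModEquiv N) ((Int.divModEquiv N).symm
        (((Int.divModEquiv N) x).1, t ((Int.divModEquiv N) x).2))).1,
        s (((Int.divModEquiv N) ((Int.divModEquiv N).symm
        (((Int.divModEquiv N) x).1, t ((Int.divModEquiv N) x).2))).2))
    rw [Equiv.apply_symm_apply]

lemma ext_apply (N : ℕ) [NeZero N] (s : Equiv.Perm (Fin N)) (x : ℤ) :
    ext N s x = (x / N) * N + (s (Fin.ofNat N (x.natMod N)) : ℕ) := by
  rfl

lemma val_ofNat (N : ℕ) [NeZero N] (x : ℤ) :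
    (((Fin.ofNat N (x.natMod N) : Fin N) : ℕ) : ℤ) = x % N := by
  have hN : (0 : ℤ) < N := by exact_mod_cast Nat.pos_of_ne_zero (NeZero.ne N)
  have h0 := Int.emod_nonneg x hN.ne'
  have h1 := Int.emod_lt_of_pos x hN
  have h2 : ((x.natMod N : ℕ) : ℤ) = x % N := by
    unfold Int.natMod; exact Int.toNat_of_nonneg h0
  rw [Fin.val_ofNat, Nat.mod_eq_of_lt (by zify; rw [h2]; exact h1), h2]

lemma ext_swap_mem (N : ℕ) [NeZero N] (a b : Fin N) (hab : a < b) :
    ext N (Equiv.swap a b) ∈ CT N := by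
  have ha : (a : ℕ) < b := hab
  refine Subgroup.subset_closure ⟨a, b, ?_, hab, b.2, ?_⟩
  · have := b.2; omega
  · intro x
    have hx := Int.emod_add_mul_ediv x N
    have hv := val_ofNat N x
    rw [ext_apply]
    set c : Fin N := Fin.ofNat N (x.natMod N) with hc
    unfold tauFun
    rw [← hv]
    rcases eq_or_ne c a with h | h
    · rw [h, Equiv.swap_apply_left, if_pos rfl]
      rw [h] at hv; linarith
    · rcases eq_or_ne c b with h' | h'
      · rw [h', Equiv.swap_apply_right, if_neg (by exact_mod_cast (by omega : (b : ℕ) ≠ a)), if_pos rfl]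
        rw [h'] at hv; linarith
      · rw [Equiv.swap_apply_of_ne_of_ne h h', if_neg, if_neg]
        · linarith
        · intro e; apply h'; exact Fin.ext (by exact_mod_cast e)
        · intro e; apply h; exact Fin.ext (by exact_mod_cast e)

lemma ext_mem (N : ℕ) [NeZero N] (s : Equiv.Perm (Fin N)) : ext N s ∈ CT N := by
  have h : (⊤ : Subgroup (Equiv.Perm (Fin N))) ≤ (CT N).comap (ext N) := by
    rw [← Equiv.Perm.closure_isSwap, Subgroup.closure_le]
    rintro s ⟨a, b, hab, rfl⟩
    rcases lt_or_gt_of_ne hab with h | h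
    · exact ext_swap_mem N a b h
    · rw [Equiv.swap_comm]; exact ext_swap_mem N b a h
  exact h (Subgroup.mem_top s)

lemma rev_apply (N : ℕ) [NeZero N] (x : ℤ) :
    ext N Fin.revPerm x = x + ((N : ℤ) - 1 - 2 * (x % N)) := by
  have hx := Int.emod_add_mul_ediv x N
  have hv := val_ofNat N x
  rw [ext_apply, Fin.revPerm_apply, Fin.val_rev]
  have hlt := (Fin.ofNat N (x.natMod N) : Fin N).2
  rw [Nat.cast_sub (by omega)]
  push_cast
  rw [hv]; linarith

lemma sum_abs (M : ℕ) :
    ∑ x ∈ Finset.range (2 * M), |((2 * M : ℕ) : ℤ) - 1 - 2 * (x : ℤ)| = 2 * (M : ℤ) ^ 2 := by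
  have h1 : ∀ m : ℕ, ∑ x ∈ Finset.range m, (2 * (x : ℤ) + 1) = (m : ℤ) ^ 2 := by
    intro m
    induction m with
    | zero => simp
    | succ m ih => rw [Finset.sum_range_succ, ih]; push_cast; ring
  have e : 2 * M = M + M := by ring
  rw [e, Finset.sum_range_add]
  have hA : ∑ x ∈ Finset.range M, |((M + M : ℕ) : ℤ) - 1 - 2 * (x : ℤ)| = (M : ℤ) ^ 2 := by
    rw [← h1 M, ← Finset.sum_range_reflect]
    refine Finset.sum_congr rfl fun x hx => ?_
    rw [Finset.mem_range] at hx
    have : ((M - 1 - x : ℕ) : ℤ) = M - 1 - x := by omega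
    rw [this]; push_cast
    rw [abs_of_nonneg (by linarith)]
    ring
  have hB : ∑ x ∈ Finset.range M, |((M + M : ℕ) : ℤ) - 1 - 2 * ((M + x : ℕ) : ℤ)| = (M : ℤ) ^ 2 := by
    rw [← h1 M]
    refine Finset.sum_congr rfl fun x hx => ?_
    rw [Finset.mem_range] at hx
    push_cast
    rw [abs_of_nonpos (by linarith)]
    ring
  rw [hA, hB]; ring

lemma rev_disp (M : ℕ) [NeZero (2 * M)] (q : ℕ) :
    disp (q * (2 * M)) (ext (2 * M) Fin.revPerm) = q * (2 * (M : ℤ) ^ 2) := by
  unfold disp
  rw [sum_periodic (2 * M) (fun x => |ext (2 * M) Fin.revPerm x - x|), ← sum_abs M]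
  · congr 1
    refine Finset.sum_congr rfl fun x hx => ?_
    rw [Finset.mem_range] at hx
    rw [rev_apply, add_sub_cancel_left,
      Int.emod_eq_of_lt (Int.natCast_nonneg x) (by exact_mod_cast hx)]
  · intro x
    simp only [rev_apply]
    have e1 : (x + ((2 * M : ℕ) : ℤ)) % ((2 * M : ℕ) : ℤ) = x % ((2 * M : ℕ) : ℤ) := by simp
    rw [e1]; congr 1; ring

lemma CT_le (k : ℕ) : CT k ≤ CTinf :=
  Subgroup.closure_mono (fun _ ⟨i, j, h⟩ => ⟨k, i, j, h⟩)

/-- `CT_∞` does not have finite width with respect to the set `H` of all horizontal class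
transpositions: for every `n` there is an element of `CT_∞` (which can be taken in
`CT_{4 (n + 1)}`) that is not a product of `n` or fewer horizontal class transpositions. -/
theorem main : ∀ n : ℕ, ∃ g ∈ CTinf, g ∈ CT (4 * (n + 1)) ∧
    ∀ l : List (Equiv.Perm ℤ), (∀ s ∈ l, s ∈ H) → l.length ≤ n → l.prod ≠ g := by
  intro n
  have e4 : 4 * (n + 1) = 2 * (2 * (n + 1)) := by ring
  rw [e4]
  have : NeZero (2 * (2 * (n + 1))) := ⟨by omega⟩
  refine ⟨ext (2 * (2 * (n + 1))) Fin.revPerm, CT_le _ (ext_mem _ _), ext_mem _ _, ?_⟩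
  intro l hl hn heq
  obtain ⟨P, hP, h⟩ := exists_period l hl
  have h1 := (h (2 * (2 * (n + 1)))).2
  rw [heq] at h1
  have e : 2 * (2 * (n + 1)) * P = P * (2 * (2 * (n + 1))) := by ring
  rw [e, rev_disp] at h1
  push_cast at h1
  have hP' : (0 : ℤ) < P := by exact_mod_cast hP
  have hn' : (l.length : ℤ) ≤ n := by exact_mod_cast hn
  have hn0 : (0 : ℤ) ≤ n := Int.natCast_nonneg n
  have h2 : (P : ℤ) * (2 * (2 * (n + 1)) ^ 2) ≤ 2 * (P * (2 * (2 * (n + 1)))) * n := by
    refine h1.trans ?_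
    exact mul_le_mul_of_nonneg_left hn' (by positivity)
  nlinarith [mul_pos hP' (by linarith : (0 : ℤ) < (n : ℤ) + 1)]

end Pool.Agent.Helper77.CT
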