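import Mathlib

set_option autoImplicit false

namespace Pool.Agent.Helper77.WK

variable {D : Type*} [DivisionRing D]

/-- `D` has a noncommutative sub-division ring `K` spanned by finitely many elements over the
center of `K`. -/
def HasCF (D : Type*) [DivisionRing D] : Prop :=
  ∃ K : Subfield D,
    (∃ a ∈ K, ∃ b ∈ K, a * b ≠ b * a) ∧
    ∃ s : Finset D, (∀ t ∈ s, t ∈ K) ∧
      ∀ x ∈ K, ∃ c : D → D,
        (∀ t ∈ s, c t ∈ K ∧ ∀ y ∈ K, c t * y = y * c t) ∧
        x = ∑ t ∈ s, c t * t

theorem closure_comm {C : Set D} {g : D} (h : ∀ c ∈ C, c * g = g * c) :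
    ∀ z ∈ Subfield.closure C, z * g = g * z := by
  intro z hz
  induction hz using Subfield.closure_induction with
  | mem x hx => exact h x hx
  | one => simp
  | add x y _ _ hx hy => rw [add_mul, mul_add, hx, hy]
  | neg x _ hx => rw [neg_mul, mul_neg, hx]
  | inv x _ hx => exact (Commute.inv_left₀ (a := x) (b := g) hx)
  | mul x y _ _ hx hy => rw [mul_assoc, hy, ← mul_assoc, hx, mul_assoc]

theorem cf_of_module (Z : Subfield D) (T : Set D) (S : Finset D)
    (hZ : ∀ x ∈ Z, ∀ y ∈ Z, x * y = y * x)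
    (hZT : ∀ z ∈ Z, ∀ t ∈ T, z * t = t * z)
    (hZS : ∀ z ∈ Z, ∀ s ∈ S, z * s = s * z)
    (h1 : (1 : D) ∈ Submodule.span Z (S : Set D))
    (hST : ∀ s ∈ S, ∀ t ∈ T, s * t ∈ Submodule.span Z (S : Set D))
    (hnc : ∃ a ∈ T, ∃ b ∈ T, a * b ≠ b * a) : HasCF D := by
  classical
  set V : Submodule Z D := Submodule.span Z (S : Set D) with hV
  have hmul : ∀ z ∈ Z, ∀ v ∈ V, z * v ∈ V := by
    intro z hz v hv
    exact V.smul_mem ⟨z, hz⟩ hv
  have hcommV : ∀ z ∈ Z, ∀ v ∈ V, z * v = v * z := by
    intro z hz v hv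
    induction hv using Submodule.span_induction with
    | mem x hx => exact hZS z hz x hx
    | zero => simp
    | add x y _ _ hx hy => rw [mul_add, add_mul, hx, hy]
    | smul c x _ hx =>
      change z * ((c : D) * x) = (c : D) * x * z
      rw [← mul_assoc, hZ z hz c c.2, mul_assoc, hx, mul_assoc]
  have hVT : ∀ v ∈ V, ∀ t ∈ T, v * t ∈ V := by
    intro v hv t ht
    induction hv using Submodule.span_induction with
    | mem x hx => exact hST x hx t ht
    | zero => simp
    | add x y _ _ hx hy => rw [add_mul]; exact V.add_mem hx hy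
    | smul c x _ hx =>
      change (c : D) * x * t ∈ V
      rw [mul_assoc]
      exact hmul c c.2 _ hx
  set R : Subring D := Subring.closure ((Z : Set D) ∪ T) with hR
  have hVR : ∀ y ∈ R, ∀ v ∈ V, v * y ∈ V := by
    intro y hy
    induction hy using Subring.closure_induction with
    | mem x hx =>
      intro v hv
      rcases hx with hx | hx
      · rw [← hcommV x hx v hv]; exact hmul x hx v hv
      · exact hVT v hv x hx
    | zero => intro v _; simp
    | one => intro v hv; simpa using hv
    | add x y _ _ hx hy => intro v hv; rw [mul_add]; exact V.add_mem (hx v hv) (hy v hv)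
    | neg x _ hx => intro v hv; rw [mul_neg]; exact V.neg_mem (hx v hv)
    | mul x y _ _ hx hy => intro v hv; rw [← mul_assoc]; exact hy _ (hx v hv)
  have hRV : ∀ y ∈ R, y ∈ V := by
    intro y hy
    have := hVR y hy 1 h1
    simpa using this
  have hZR : ∀ z ∈ Z, z ∈ R := fun z hz => Subring.subset_closure (Or.inl hz)
  have hTR : ∀ t ∈ T, t ∈ R := fun t ht => Subring.subset_closure (Or.inr ht)
  have hZRc : ∀ z ∈ Z, ∀ y ∈ R, z * y = y * z := fun z hz y hy => hcommV z hz y (hRV y hy)
  let M : Submodule Z D :=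
    { carrier := R
      add_mem' := fun {x y} hx hy => R.add_mem hx hy
      zero_mem' := R.zero_mem
      smul_mem' := fun c x hx => R.mul_mem (hZR c c.2) hx }
  have hMV : M ≤ V := fun y hy => hRV y hy
  haveI : FiniteDimensional Z V := FiniteDimensional.span_finset Z S
  haveI : FiniteDimensional Z M := Submodule.finiteDimensional_of_le hMV
  have hinv : ∀ x ∈ R, x⁻¹ ∈ R := by
    intro x hx
    by_cases hx0 : x = 0
    · subst hx0; simpa using R.zero_mem
    let f : M →ₗ[Z] M :=
      { toFun := fun y => ⟨(y : D) * x, R.mul_mem y.2 hx⟩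
        map_add' := by
          intro y z
          apply Subtype.ext
          change ((y : D) + (z : D)) * x = (y : D) * x + (z : D) * x
          rw [add_mul]
        map_smul' := by
          intro c y
          apply Subtype.ext
          change ((c : D) * (y : D)) * x = (c : D) * ((y : D) * x)
          rw [mul_assoc] }
    have hinj : Function.Injective f := by
      intro y z hyz
      have h2 : (y : D) * x = (z : D) * x := congrArg Subtype.val hyz
      exact Subtype.ext (mul_right_cancel₀ hx0 h2)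
    have hsurj : Function.Surjective f := (LinearMap.injective_iff_surjective).1 hinj
    obtain ⟨y, hy⟩ := hsurj ⟨1, R.one_mem⟩
    have h3 : (y : D) * x = 1 := congrArg Subtype.val hy
    have h4 : x⁻¹ = (y : D) := by
      rw [eq_comm]
      exact eq_inv_of_mul_eq_one_left h3
    rw [h4]
    exact y.2
  let K : Subfield D := { R with inv_mem' := hinv }
  have hKR : ∀ y, y ∈ K ↔ y ∈ R := fun y => Iff.rfl
  have hfg : M.FG := (Submodule.fg_iff_finiteDimensional M).2 inferInstance
  obtain ⟨s, hs⟩ := hfg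
  refine ⟨K, ?_, s, ?_, ?_⟩
  · obtain ⟨a, ha, b, hb, hab⟩ := hnc
    exact ⟨a, (hKR a).2 (hTR a ha), b, (hKR b).2 (hTR b hb), hab⟩
  · intro t ht
    have : t ∈ M := by rw [← hs]; exact Submodule.subset_span ht
    exact this
  · intro x hx
    have hxM : x ∈ Submodule.span Z (s : Set D) := by rw [hs]; exact hx
    rw [Submodule.mem_span_finset] at hxM
    obtain ⟨c, _, hc⟩ := hxM
    refine ⟨fun t => (c t : D), ?_, ?_⟩
    · intro t _
      exact ⟨hZR _ (c t).2, fun y hy => hZRc _ (c t).2 y hy⟩
    · rw [← hc]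
      rfl

theorem cf_of_set (C T : Set D) (S : Finset D)
    (hCC : ∀ x ∈ C, ∀ y ∈ C, x * y = y * x)
    (hCT : ∀ z ∈ C, ∀ t ∈ T, z * t = t * z)
    (hCS : ∀ z ∈ C, ∀ s ∈ S, z * s = s * z)
    (h1 : (1 : D) ∈ Submodule.span (Subfield.closure C) (S : Set D))
    (hST : ∀ s ∈ S, ∀ t ∈ T, s * t ∈ Submodule.span (Subfield.closure C) (S : Set D))
    (hnc : ∃ a ∈ T, ∃ b ∈ T, a * b ≠ b * a) : HasCF D := by
  have hgen : ∀ g : D, (∀ c ∈ C, c * g = g * c) → ∀ z ∈ Subfield.closure C, z * g = g * z :=
    fun g hg => closure_comm hg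
  refine cf_of_module (Subfield.closure C) T S ?_ ?_ ?_ h1 hST hnc
  · intro x hx y hy
    refine hgen y ?_ x hx
    intro c hc
    exact (hgen c (fun c' hc' => hCC c' hc' c hc) y hy).symm
  · intro z hz t ht
    exact hgen t (fun c hc => hCT c hc t ht) z hz
  · intro z hz s hs
    exact hgen s (fun c hc => hCS c hc s hs) z hz

end Pool.Agent.Helper77.WK
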