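import Mathlib
import Pool.Agent.Helper77.WKBase

set_option autoImplicit false

namespace Pool.Agent.Helper77.WK

variable {D : Type*} [DivisionRing D]

theorem span_mul_mem {C : Set D} {S : Set D} {z v : D} (hz : z ∈ Subfield.closure C)
    (hv : v ∈ Submodule.span (Subfield.closure C) S) :
    z * v ∈ Submodule.span (Subfield.closure C) S :=
  (Submodule.span (Subfield.closure C) S).smul_mem ⟨z, hz⟩ hv

/-- Four dimensional closure. -/
theorem quat_closure (C : Set D) (a x s t p r e₀ e₁ e₂ e₃ : D)
    (hCC : ∀ u ∈ C, ∀ v ∈ C, u * v = v * u)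
    (hCa : ∀ z ∈ C, z * a = a * z) (hCx : ∀ z ∈ C, z * x = x * z)
    (hs : s ∈ Subfield.closure C) (ht : t ∈ Subfield.closure C)
    (hp : p ∈ Subfield.closure C) (hr : r ∈ Subfield.closure C)
    (he₀ : e₀ ∈ Subfield.closure C) (he₁ : e₁ ∈ Subfield.closure C)
    (he₂ : e₂ ∈ Subfield.closure C) (he₃ : e₃ ∈ Subfield.closure C)
    (haa : a * a = s * a - t) (hxx : x * x = p * x - r)
    (hxa : x * a = e₀ + e₁ * a + e₂ * x + e₃ * (a * x))
    (hne : a * x ≠ x * a) : HasCF D := by
  classical
  have ca : ∀ z ∈ Subfield.closure C, z * a = a * z := closure_comm hCa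
  have cx : ∀ z ∈ Subfield.closure C, z * x = x * z := closure_comm hCx
  set S : Finset D := {1, a, x, a * x} with hS
  set V := Submodule.span (Subfield.closure C) (S : Set D) with hV
  have m1 : (1 : D) ∈ V := Submodule.subset_span (by simp [hS])
  have ma : a ∈ V := Submodule.subset_span (by simp [hS])
  have mx : x ∈ V := Submodule.subset_span (by simp [hS])
  have max' : a * x ∈ V := Submodule.subset_span (by simp [hS])
  have hz : ∀ z ∈ Subfield.closure C, z ∈ V := by
    intro z hz
    have := span_mul_mem (S := (S : Set D)) hz m1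
    simpa using this
  have hm : ∀ z ∈ Subfield.closure C, ∀ v ∈ V, z * v ∈ V := fun z hz v hv => span_mul_mem hz hv
  refine cf_of_set C {a, x} S hCC ?_ ?_ m1 ?_ ⟨a, by simp, x, by simp, hne⟩
  · intro z hz' t ht
    rcases ht with rfl | ht
    · exact hCa z hz'
    · rw [Set.mem_singleton_iff] at ht
      subst ht
      exact hCx z hz'
  · intro z hz' w hw
    simp only [hS, Finset.mem_insert, Finset.mem_singleton] at hw
    rcases hw with rfl | rfl | rfl | rfl
    · simp
    · exact hCa z hz'
    · exact hCx z hz'
    · rw [← mul_assoc, hCa z hz', mul_assoc, hCx z hz', mul_assoc]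
  · intro w hw g hg
    simp only [hS, Finset.mem_insert, Finset.mem_singleton] at hw
    rcases hg with rfl | hg
    · rcases hw with rfl | rfl | rfl | rfl
      · simpa using ma
      · rw [haa]
        exact V.sub_mem (hm s hs _ ma) (hz t ht)
      · rw [hxa]
        exact V.add_mem (V.add_mem (V.add_mem (hz _ he₀) (hm _ he₁ _ ma)) (hm _ he₂ _ mx))
          (hm _ he₃ _ max')
      · have : g * x * g = e₀ * g + e₁ * (s * g - t) + e₂ * (g * x) + e₃ * (s * (g * x) - t * x) := by
          rw [mul_assoc, hxa, ← haa]
          have h1 : s * (g * x) - t * x = g * g * x := by rw [haa]; noncomm_ring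
          rw [h1]
          simp only [mul_add]
          rw [← ca _ he₀]
          have h2 : g * (e₁ * g) = e₁ * (g * g) := by rw [← mul_assoc, ← ca _ he₁, mul_assoc]
          have h3 : g * (e₂ * x) = e₂ * (g * x) := by rw [← mul_assoc, ← ca _ he₂, mul_assoc]
          have h4 : g * (e₃ * (g * x)) = e₃ * (g * g * x) := by
            rw [← mul_assoc, ← ca _ he₃, mul_assoc, mul_assoc]
          rw [h2, h3, h4]
        rw [this]
        refine V.add_mem (V.add_mem (V.add_mem (hm _ he₀ _ ma) (hm _ he₁ _ ?_)) (hm _ he₂ _ max'))
          (hm _ he₃ _ ?_)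
        · exact V.sub_mem (hm s hs _ ma) (hz t ht)
        · exact V.sub_mem (hm s hs _ max') (hm t ht _ mx)
    · rw [Set.mem_singleton_iff] at hg
      subst hg
      rcases hw with rfl | rfl | rfl | rfl
      · simpa using mx
      · exact max'
      · rw [hxx]
        exact V.sub_mem (hm _ hp _ mx) (hz _ hr)
      · have : a * g * g = p * (a * g) - r * a := by
          rw [mul_assoc, hxx, mul_sub, ← ca _ hr, ← mul_assoc, ← ca _ hp, mul_assoc]
        rw [this]
        exact V.sub_mem (hm _ hp _ max') (hm _ hr _ ma)

/-- Degree two. -/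
theorem deg_two (a y s t : D) (hay : a * y ≠ y * a) (hst : Commute s t)
    (hsa : Commute s a) (hta : Commute t a) (hsy : Commute s y) (hty : Commute t y)
    (haa : a * a = s * a - t) : HasCF D := by
  set x := y * a - a * y with hx
  have hx0 : x ≠ 0 := by
    intro h
    exact hay (sub_eq_zero.1 h).symm
  have hsx : Commute s x := (hsy.mul_right hsa).sub_right (hsa.mul_right hsy)
  have htx : Commute t x := (hty.mul_right hta).sub_right (hta.mul_right hty)
  have hxa : x * a = (s - a) * x := by
    have e1 : x * a = y * (a * a) - a * y * a := by rw [hx]; noncomm_ring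
    have e2 : (s - a) * x = s * y * a - s * a * y - a * y * a + (a * a) * y := by
      rw [hx]; noncomm_ring
    rw [e1, e2, haa]
    have e3 : y * (s * a - t) = s * y * a - t * y := by
      rw [mul_sub, ← mul_assoc, ← hsy.eq, ← hty.eq]
    rw [e3]
    noncomm_ring
  by_cases hc : x * a = a * x
  · -- inseparable case
    have hsaa : s - a = a := by
      have h1 : (s - a) * x = a * x := by rw [← hxa, hc]
      exact mul_right_cancel₀ hx0 h1
    have hs2 : s = a + a := sub_eq_iff_eq_add.1 hsaa
    have h2x : x + x = 0 := by
      have h1 : (a + a) * y = y * (a + a) := by rw [← hs2]; exact hsy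
      rw [hx]
      have : y * a - a * y + (y * a - a * y) = y * (a + a) - (a + a) * y := by noncomm_ring
      rw [this, h1, sub_self]
    have h20 : (1 : D) + 1 = 0 := by
      have h1 : ((1 : D) + 1) * x = 0 := by rw [add_mul, one_mul]; exact h2x
      exact (mul_eq_zero.1 h1).resolve_right hx0
    set y' := x⁻¹ * y with hy'
    have hcinv : x⁻¹ * a = a * x⁻¹ := (Commute.inv_left₀ (a := x) (b := a) hc)
    have hya : y' * a = a * y' + 1 := by
      have h1 : y * a = x + a * y := by rw [hx]; noncomm_ring
      rw [hy', mul_assoc, h1, mul_add, inv_mul_cancel₀ hx0, ← mul_assoc, hcinv, mul_assoc,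
        add_comm]
    have hsy' : Commute s y' := (hsx.inv_right₀).mul_right hsy
    have hty' : Commute t y' := (htx.inv_right₀).mul_right hty
    have hyy : (y' * y') * a = a * (y' * y') := by
      rw [mul_assoc, hya, mul_add, ← mul_assoc, hya]
      have : (a * y' + 1) * y' + y' * 1 = a * (y' * y') + ((1 : D) + 1) * y' := by noncomm_ring
      rw [this, h20]
      simp
    have sy1 : Commute s (y' * y') := hsy'.mul_right hsy'
    have ty1 : Commute t (y' * y') := hty'.mul_right hty'
    have mC : ∀ w ∈ ({s, t, y' * y'} : Set D), w ∈ Subfield.closure ({s, t, y' * y'} : Set D) :=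
      fun w hw => Subfield.subset_closure hw
    refine quat_closure {s, t, y' * y'} a y' s t 0 (-(y' * y')) 1 0 0 1 ?_ ?_ ?_ (mC _ (by simp))
      (mC _ (by simp)) (Subfield.zero_mem _) (Subfield.neg_mem _ (mC _ (by simp)))
      (Subfield.one_mem _) (Subfield.zero_mem _) (Subfield.zero_mem _) (Subfield.one_mem _) haa
      (by simp) (by rw [hya]; noncomm_ring) ?_
    · intro u hu v hv
      simp only [Set.mem_insert_iff, Set.mem_singleton_iff] at hu hv
      rcases hu with rfl | rfl | rfl <;> rcases hv with rfl | rfl | rfl
      · rfl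
      · exact hst
      · exact sy1
      · exact hst.symm
      · rfl
      · exact ty1
      · exact sy1.symm
      · exact ty1.symm
      · rfl
    · intro u hu
      simp only [Set.mem_insert_iff, Set.mem_singleton_iff] at hu
      rcases hu with rfl | rfl | rfl
      · exact hsa
      · exact hta
      · exact hyy
    · intro u hu
      simp only [Set.mem_insert_iff, Set.mem_singleton_iff] at hu
      rcases hu with rfl | rfl | rfl
      · exact hsy'
      · exact hty'
      · rw [mul_assoc]
    · intro h
      rw [hya] at h
      have : (1 : D) = 0 := by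
        have h3 : a * y' + 1 = a * y' + 0 := by rw [← h, add_zero]
        exact add_left_cancel h3
      exact one_ne_zero this
  · -- separable case
    have hxs : x * (s - a) = a * x := by
      rw [mul_sub, hxa, ← hsx.eq]
      noncomm_ring
    have hxx : (x * x) * a = a * (x * x) := by
      rw [mul_assoc, hxa, ← mul_assoc, hxs, mul_assoc]
    have sy1 : Commute s (x * x) := hsx.mul_right hsx
    have ty1 : Commute t (x * x) := htx.mul_right htx
    have mC : ∀ w ∈ ({s, t, x * x} : Set D), w ∈ Subfield.closure ({s, t, x * x} : Set D) :=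
      fun w hw => Subfield.subset_closure hw
    refine quat_closure {s, t, x * x} a x s t 0 (-(x * x)) 0 0 s (-1) ?_ ?_ ?_ (mC _ (by simp))
      (mC _ (by simp)) (Subfield.zero_mem _) (Subfield.neg_mem _ (mC _ (by simp)))
      (Subfield.zero_mem _) (Subfield.zero_mem _) (mC _ (by simp))
      (Subfield.neg_mem _ (Subfield.one_mem _)) haa
      (by simp) (by rw [hxa]; noncomm_ring) (fun h => hc h.symm)
    · intro u hu v hv
      simp only [Set.mem_insert_iff, Set.mem_singleton_iff] at hu hv
      rcases hu with rfl | rfl | rfl <;> rcases hv with rfl | rfl | rfl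
      · rfl
      · exact hst
      · exact sy1
      · exact hst.symm
      · rfl
      · exact ty1
      · exact sy1.symm
      · exact ty1.symm
      · rfl
    · intro u hu
      simp only [Set.mem_insert_iff, Set.mem_singleton_iff] at hu
      rcases hu with rfl | rfl | rfl
      · exact hsa
      · exact hta
      · exact hxx
    · intro u hu
      simp only [Set.mem_insert_iff, Set.mem_singleton_iff] at hu
      rcases hu with rfl | rfl | rfl
      · exact hsx
      · exact htx
      · rw [mul_assoc]

end Pool.Agent.Helper77.WK
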