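import Mathlib
import Pool.Agent.Helper77.WKQuat

set_option autoImplicit false

namespace Pool.Agent.Helper77.WK

variable {D : Type*} [DivisionRing D]

/-- Closure lemma for the cyclic cubic situation. -/
theorem cubic_closure (a b c α β γ ε : D)
    (hαβ : Commute α β) (hαγ : Commute α γ) (hβγ : Commute β γ)
    (hεα : Commute ε α) (hεβ : Commute ε β) (hεγ : Commute ε γ)
    (hαa : Commute α a) (hβa : Commute β a) (hγa : Commute γ a) (hεa : Commute ε a)
    (hαb : Commute α b) (hβb : Commute β b) (hγb : Commute γ b) (hεb : Commute ε b)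
    (hαc : Commute α c) (hβc : Commute β c) (hγc : Commute γ c) (hεc : Commute ε c)
    (ha3 : a * a * a = -(α * (a * a)) - β * a - γ)
    (hbb : b * b = -(a * b) - α * b - a * a - α * a - β)
    (hba : b * a = a * b - ε * c)
    (hca : c * a = b * c) (hcb : c * b = (-α - a - b) * c)
    (hne : a * c ≠ c * a) : HasCF D := by
  classical
  have hc3a : Commute (c * c * c) a := by
    have e1 : c * (-α - a - b) = a * c := by
      rw [mul_sub, mul_sub, hca, hcb, mul_neg, ← hαc.eq]
      noncomm_ring
    have : c * c * c * a = a * (c * c * c) := by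
      calc c * c * c * a = c * (c * (c * a)) := by simp only [mul_assoc]
        _ = c * (c * b) * c := by rw [hca]; simp only [mul_assoc]
        _ = (c * (-α - a - b)) * c * c := by rw [hcb]; simp only [mul_assoc]
        _ = a * (c * c * c) := by rw [e1]; simp only [mul_assoc]
    exact this
  have hc3b : Commute (c * c * c) b := by
    have e1 : c * (-α - a - b) = a * c := by
      rw [mul_sub, mul_sub, hca, hcb, mul_neg, ← hαc.eq]
      noncomm_ring
    have : c * c * c * b = b * (c * c * c) := by
      calc c * c * c * b = c * (c * (c * b)) := by simp only [mul_assoc]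
        _ = c * (c * (-α - a - b)) * c := by rw [hcb]; simp only [mul_assoc]
        _ = (c * a) * c * c := by rw [e1]; simp only [mul_assoc]
        _ = b * (c * c * c) := by rw [hca]; simp only [mul_assoc]
    exact this
  have hc3c : Commute (c * c * c) c := by
    have : c * c * c * c = c * (c * c * c) := by simp only [mul_assoc]
    exact this
  have hαc3 : Commute α (c * c * c) := (hαc.mul_right hαc).mul_right hαc
  have hβc3 : Commute β (c * c * c) := (hβc.mul_right hβc).mul_right hβc
  have hγc3 : Commute γ (c * c * c) := (hγc.mul_right hγc).mul_right hγc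
  have hεc3 : Commute ε (c * c * c) := (hεc.mul_right hεc).mul_right hεc
  set C : Set D := {α, β, γ, ε, c * c * c} with hC
  have hCC : ∀ x ∈ C, ∀ y ∈ C, x * y = y * x := by
    intro u hu v hv
    simp only [hC, Set.mem_insert_iff, Set.mem_singleton_iff] at hu hv
    rcases hu with rfl | rfl | rfl | rfl | rfl <;> rcases hv with rfl | rfl | rfl | rfl | rfl <;>
      first
        | rfl
        | exact hαβ
        | exact hαβ.symm
        | exact hαγ
        | exact hαγ.symm
        | exact hβγ
        | exact hβγ.symm
        | exact hεα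
        | exact hεα.symm
        | exact hεβ
        | exact hεβ.symm
        | exact hεγ
        | exact hεγ.symm
        | exact hαc3
        | exact hαc3.symm
        | exact hβc3
        | exact hβc3.symm
        | exact hγc3
        | exact hγc3.symm
        | exact hεc3
        | exact hεc3.symm
  have hCa : ∀ z ∈ C, z * a = a * z := by
    intro u hu
    simp only [hC, Set.mem_insert_iff, Set.mem_singleton_iff] at hu
    rcases hu with rfl | rfl | rfl | rfl | rfl
    exacts [hαa, hβa, hγa, hεa, hc3a]
  have hCb : ∀ z ∈ C, z * b = b * z := by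
    intro u hu
    simp only [hC, Set.mem_insert_iff, Set.mem_singleton_iff] at hu
    rcases hu with rfl | rfl | rfl | rfl | rfl
    exacts [hαb, hβb, hγb, hεb, hc3b]
  have hCc : ∀ z ∈ C, z * c = c * z := by
    intro u hu
    simp only [hC, Set.mem_insert_iff, Set.mem_singleton_iff] at hu
    rcases hu with rfl | rfl | rfl | rfl | rfl
    exacts [hαc, hβc, hγc, hεc, hc3c]
  have ca : ∀ z ∈ Subfield.closure C, Commute z a := closure_comm hCa
  have cb : ∀ z ∈ Subfield.closure C, Commute z b := closure_comm hCb
  have cc : ∀ z ∈ Subfield.closure C, Commute z c := closure_comm hCc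
  have zα : α ∈ Subfield.closure C := Subfield.subset_closure (by simp [hC])
  have zβ : β ∈ Subfield.closure C := Subfield.subset_closure (by simp [hC])
  have zγ : γ ∈ Subfield.closure C := Subfield.subset_closure (by simp [hC])
  have zε : ε ∈ Subfield.closure C := Subfield.subset_closure (by simp [hC])
  have zc : c * c * c ∈ Subfield.closure C := Subfield.subset_closure (by simp [hC])
  let g : ℕ × ℕ × ℕ → D := fun p => a ^ p.1 * b ^ p.2.1 * c ^ p.2.2
  set S : Finset D := ((Finset.range 3 ×ˢ (Finset.range 2 ×ˢ Finset.range 3)).image g) with hS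
  set V := Submodule.span (Subfield.closure C) (S : Set D) with hV
  have hmem : ∀ i j k : ℕ, i < 3 → j < 2 → k < 3 → a ^ i * b ^ j * c ^ k ∈ V := by
    intro i j k hi hj hk
    apply Submodule.subset_span
    rw [Finset.mem_coe, hS, Finset.mem_image]
    exact ⟨(i, j, k), by simp [hi, hj, hk], rfl⟩
  have hform : ∀ s ∈ S, ∃ i j k : ℕ, i < 3 ∧ j < 2 ∧ k < 3 ∧ s = a ^ i * b ^ j * c ^ k := by
    intro s hs
    rw [hS, Finset.mem_image] at hs
    obtain ⟨⟨i, j, k⟩, hp, rfl⟩ := hs
    simp only [Finset.mem_product, Finset.mem_range] at hp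
    exact ⟨i, j, k, hp.1, hp.2.1, hp.2.2, rfl⟩
  have hm : ∀ z ∈ Subfield.closure C, ∀ v ∈ V, z * v ∈ V := fun z hz v hv => span_mul_mem hz hv
  have m1 : (1 : D) ∈ V := by simpa using hmem 0 0 0 (by norm_num) (by norm_num) (by norm_num)
  have hz : ∀ z ∈ Subfield.closure C, z ∈ V := by
    intro z hz
    simpa using hm z hz 1 m1
  -- left multiplication by a
  have hL : ∀ v ∈ V, a * v ∈ V := by
    intro v hv
    induction hv using Submodule.span_induction with
    | mem x hx =>
      obtain ⟨i, j, k, hi, hj, hk, rfl⟩ := hform x hx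
      rcases Nat.lt_or_ge (i + 1) 3 with h | h
      · have := hmem (i + 1) j k h hj hk
        rwa [pow_succ', mul_assoc, mul_assoc, ← mul_assoc (a ^ i)] at this
      · have hi2 : i = 2 := by omega
        subst hi2
        have e : a * (a ^ 2 * b ^ j * c ^ k) = -(α * (a ^ 2 * b ^ j * c ^ k))
            - β * (a ^ 1 * b ^ j * c ^ k) - γ * (a ^ 0 * b ^ j * c ^ k) := by
          have : a * (a ^ 2 * b ^ j * c ^ k) = (a * a * a) * (b ^ j * c ^ k) := by
            rw [pow_two]; simp only [mul_assoc]
          rw [this, ha3, pow_two, pow_one, pow_zero]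
          simp only [sub_mul, neg_mul, mul_assoc, one_mul]
        rw [e]
        exact V.sub_mem (V.sub_mem (V.neg_mem (hm _ zα _ (hmem 2 j k hi hj hk)))
          (hm _ zβ _ (hmem 1 j k (by norm_num) hj hk))) (hm _ zγ _ (hmem 0 j k (by norm_num) hj hk))
    | zero => simp
    | add x y _ _ hx hy => rw [mul_add]; exact V.add_mem hx hy
    | smul z x _ hx =>
      change a * ((z : D) * x) ∈ V
      rw [← mul_assoc, ← (ca z z.2).eq, mul_assoc]
      exact hm z z.2 _ hx
  have hLp : ∀ i : ℕ, ∀ v ∈ V, a ^ i * v ∈ V := by
    intro i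
    induction i with
    | zero => intro v hv; simpa using hv
    | succ n ih => intro v hv; rw [pow_succ, mul_assoc]; exact ih _ (hL v hv)
  -- right multiplication by c
  have hR : ∀ v ∈ V, v * c ∈ V := by
    intro v hv
    induction hv using Submodule.span_induction with
    | mem x hx =>
      obtain ⟨i, j, k, hi, hj, hk, rfl⟩ := hform x hx
      rcases Nat.lt_or_ge (k + 1) 3 with h | h
      · have := hmem i j (k + 1) hi hj h
        rwa [pow_succ, ← mul_assoc] at this
      · have hk2 : k = 2 := by omega
        subst hk2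
        have e : a ^ i * b ^ j * c ^ 2 * c = (c * c * c) * (a ^ i * b ^ j * c ^ 0) := by
          have h1 : Commute (c * c * c) (a ^ i * b ^ j) :=
            (hc3a.pow_right i).mul_right (hc3b.pow_right j)
          rw [pow_zero, mul_one, h1.eq, pow_two]
          simp only [mul_assoc]
        rw [e]
        exact hm _ zc _ (hmem i j 0 hi hj (by norm_num))
    | zero => simp
    | add x y _ _ hx hy => rw [add_mul]; exact V.add_mem hx hy
    | smul z x _ hx =>
      change (z : D) * x * c ∈ V
      rw [mul_assoc]
      exact hm z z.2 _ hx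
  have hRp : ∀ k : ℕ, ∀ v ∈ V, v * c ^ k ∈ V := by
    intro k
    induction k with
    | zero => intro v hv; simpa using hv
    | succ n ih => intro v hv; rw [pow_succ, ← mul_assoc]; exact hR _ (ih v hv)
  have ma : a ∈ V := by simpa using hmem 1 0 0 (by norm_num) (by norm_num) (by norm_num)
  have mb : b ∈ V := by simpa using hmem 0 1 0 (by norm_num) (by norm_num) (by norm_num)
  have mc : c ∈ V := by simpa using hmem 0 0 1 (by norm_num) (by norm_num) (by norm_num)
  have maa : a * a ∈ V := hL a ma
  have mab : a * b ∈ V := hL b mb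
  have mba : b * a ∈ V := by
    rw [hba]
    exact V.sub_mem mab (hm _ zε _ mc)
  have mbb : b * b ∈ V := by
    rw [hbb]
    exact V.sub_mem (V.sub_mem (V.sub_mem (V.sub_mem (V.neg_mem mab) (hm _ zα _ mb)) maa)
      (hm _ zα _ ma)) (hz _ zβ)
  have mb3 : b * (-α - a - b) ∈ V := by
    have : b * (-α - a - b) = -(α * b) - b * a - b * b := by
      rw [mul_sub, mul_sub, mul_neg, ← hαb.eq]
    rw [this]
    exact V.sub_mem (V.sub_mem (V.neg_mem (hm _ zα _ mb)) mba) mbb
  have ma3 : (-α - a - b) ∈ V := V.sub_mem (V.sub_mem (V.neg_mem (hz _ zα)) ma) mb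
  have hj : ∀ j : ℕ, j < 2 → ∀ s : D, s = a ∨ s = b ∨ s = -α - a - b → b ^ j * s ∈ V := by
    intro j hj s hs
    interval_cases j
    · rw [pow_zero, one_mul]
      rcases hs with rfl | rfl | rfl
      exacts [ma, mb, ma3]
    · rw [pow_one]
      rcases hs with rfl | rfl | rfl
      exacts [mba, mbb, mb3]
  have hk : ∀ k : ℕ, k < 3 → ∃ s : D, (s = a ∨ s = b ∨ s = -α - a - b) ∧ c ^ k * a = s * c ^ k := by
    intro k hk
    interval_cases k
    · exact ⟨a, Or.inl rfl, by simp⟩
    · exact ⟨b, Or.inr (Or.inl rfl), by simpa using hca⟩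
    · refine ⟨-α - a - b, Or.inr (Or.inr rfl), ?_⟩
      rw [pow_two, mul_assoc, hca, ← mul_assoc, hcb, mul_assoc]
  refine cf_of_set C {a, c} S hCC ?_ ?_ m1 ?_ ⟨a, by simp, c, by simp, hne⟩
  · intro z hz' t ht
    rcases ht with rfl | ht
    · exact hCa z hz'
    · rw [Set.mem_singleton_iff] at ht
      subst ht
      exact hCc z hz'
  · intro z hz' w hw
    obtain ⟨i, j, k, hi, hj, hk, rfl⟩ := hform w hw
    have h1 : Commute z a := hCa z hz'
    have h2 : Commute z b := hCb z hz'
    have h3 : Commute z c := hCc z hz'
    exact ((h1.pow_right i).mul_right (h2.pow_right j)).mul_right (h3.pow_right k)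
  · intro w hw t ht
    have hwV : w ∈ V := Submodule.subset_span hw
    obtain ⟨i, j, k, hi, hj', hk', rfl⟩ := hform w hw
    rcases ht with rfl | ht
    · obtain ⟨s, hs, hsk⟩ := hk k hk'
      have e : t ^ i * b ^ j * c ^ k * t = t ^ i * ((b ^ j * s) * c ^ k) := by
        rw [mul_assoc, hsk]
        simp only [mul_assoc]
      rw [e]
      exact hLp i _ (hRp k _ (hj j hj' s hs))
    · rw [Set.mem_singleton_iff] at ht
      subst ht
      exact hR _ hwV

/-- Weyl type closure in characteristic three. -/
theorem weyl_closure (a y α β γ : D)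
    (hαβ : Commute α β) (hαγ : Commute α γ) (hβγ : Commute β γ)
    (hαa : Commute α a) (hβa : Commute β a) (hγa : Commute γ a)
    (hαy : Commute α y) (hβy : Commute β y) (hγy : Commute γ y)
    (ha3 : a * a * a = -(α * (a * a)) - β * a - γ)
    (hya : y * a = a * y + 1) (h3 : (1 : D) + 1 + 1 = 0) : HasCF D := by
  classical
  have hy2 : y * y * a = a * (y * y) + (y + y) := by
    rw [mul_assoc, hya, mul_add, ← mul_assoc, hya]
    noncomm_ring
  have hc3a : Commute (y * y * y) a := by
    have : y * y * y * a = a * (y * y * y) := by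
      calc y * y * y * a = y * (y * y * a) := by simp only [mul_assoc]
        _ = (y * a) * (y * y) + (y * y + y * y) := by
          rw [hy2, mul_add, mul_add, ← mul_assoc y a]
        _ = a * (y * y * y) + ((1 : D) + 1 + 1) * (y * y) := by rw [hya]; noncomm_ring
        _ = a * (y * y * y) := by rw [h3]; simp
    exact this
  have hc3y : Commute (y * y * y) y := by
    have : y * y * y * y = y * (y * y * y) := by simp only [mul_assoc]
    exact this
  have hαc3 : Commute α (y * y * y) := (hαy.mul_right hαy).mul_right hαy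
  have hβc3 : Commute β (y * y * y) := (hβy.mul_right hβy).mul_right hβy
  have hγc3 : Commute γ (y * y * y) := (hγy.mul_right hγy).mul_right hγy
  set C : Set D := {α, β, γ, y * y * y} with hC
  have hCC : ∀ x ∈ C, ∀ y ∈ C, x * y = y * x := by
    intro u hu v hv
    simp only [hC, Set.mem_insert_iff, Set.mem_singleton_iff] at hu hv
    rcases hu with rfl | rfl | rfl | rfl <;> rcases hv with rfl | rfl | rfl | rfl <;>
      first
        | rfl
        | exact hαβ
        | exact hαβ.symm
        | exact hαγ
        | exact hαγ.symm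
        | exact hβγ
        | exact hβγ.symm
        | exact hαc3
        | exact hαc3.symm
        | exact hβc3
        | exact hβc3.symm
        | exact hγc3
        | exact hγc3.symm
  have hCa : ∀ z ∈ C, z * a = a * z := by
    intro u hu
    simp only [hC, Set.mem_insert_iff, Set.mem_singleton_iff] at hu
    rcases hu with rfl | rfl | rfl | rfl
    exacts [hαa, hβa, hγa, hc3a]
  have hCy : ∀ z ∈ C, z * y = y * z := by
    intro u hu
    simp only [hC, Set.mem_insert_iff, Set.mem_singleton_iff] at hu
    rcases hu with rfl | rfl | rfl | rfl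
    exacts [hαy, hβy, hγy, hc3y]
  have ca : ∀ z ∈ Subfield.closure C, Commute z a := closure_comm hCa
  have cy : ∀ z ∈ Subfield.closure C, Commute z y := closure_comm hCy
  have zα : α ∈ Subfield.closure C := Subfield.subset_closure (by simp [hC])
  have zβ : β ∈ Subfield.closure C := Subfield.subset_closure (by simp [hC])
  have zγ : γ ∈ Subfield.closure C := Subfield.subset_closure (by simp [hC])
  have zc : y * y * y ∈ Subfield.closure C := Subfield.subset_closure (by simp [hC])
  let g : ℕ × ℕ → D := fun p => a ^ p.1 * y ^ p.2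
  set S : Finset D := ((Finset.range 3 ×ˢ Finset.range 3).image g) with hS
  set V := Submodule.span (Subfield.closure C) (S : Set D) with hV
  have hmem : ∀ i k : ℕ, i < 3 → k < 3 → a ^ i * y ^ k ∈ V := by
    intro i k hi hk
    apply Submodule.subset_span
    rw [Finset.mem_coe, hS, Finset.mem_image]
    exact ⟨(i, k), by simp [hi, hk], rfl⟩
  have hform : ∀ s ∈ S, ∃ i k : ℕ, i < 3 ∧ k < 3 ∧ s = a ^ i * y ^ k := by
    intro s hs
    rw [hS, Finset.mem_image] at hs
    obtain ⟨⟨i, k⟩, hp, rfl⟩ := hs
    simp only [Finset.mem_product, Finset.mem_range] at hp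
    exact ⟨i, k, hp.1, hp.2, rfl⟩
  have hm : ∀ z ∈ Subfield.closure C, ∀ v ∈ V, z * v ∈ V := fun z hz v hv => span_mul_mem hz hv
  have m1 : (1 : D) ∈ V := by simpa using hmem 0 0 (by norm_num) (by norm_num)
  have hL : ∀ v ∈ V, a * v ∈ V := by
    intro v hv
    induction hv using Submodule.span_induction with
    | mem x hx =>
      obtain ⟨i, k, hi, hk, rfl⟩ := hform x hx
      rcases Nat.lt_or_ge (i + 1) 3 with h | h
      · have := hmem (i + 1) k h hk
        rwa [pow_succ', mul_assoc] at this
      · have hi2 : i = 2 := by omega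
        subst hi2
        have e : a * (a ^ 2 * y ^ k) = -(α * (a ^ 2 * y ^ k))
            - β * (a ^ 1 * y ^ k) - γ * (a ^ 0 * y ^ k) := by
          have : a * (a ^ 2 * y ^ k) = (a * a * a) * (y ^ k) := by
            rw [pow_two]; simp only [mul_assoc]
          rw [this, ha3, pow_two, pow_one, pow_zero]
          simp only [sub_mul, neg_mul, mul_assoc, one_mul]
        rw [e]
        exact V.sub_mem (V.sub_mem (V.neg_mem (hm _ zα _ (hmem 2 k hi hk)))
          (hm _ zβ _ (hmem 1 k (by norm_num) hk))) (hm _ zγ _ (hmem 0 k (by norm_num) hk))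
    | zero => simp
    | add x y _ _ hx hy => rw [mul_add]; exact V.add_mem hx hy
    | smul z x _ hx =>
      change a * ((z : D) * x) ∈ V
      rw [← mul_assoc, ← (ca z z.2).eq, mul_assoc]
      exact hm z z.2 _ hx
  have hLp : ∀ i : ℕ, ∀ v ∈ V, a ^ i * v ∈ V := by
    intro i
    induction i with
    | zero => intro v hv; simpa using hv
    | succ n ih => intro v hv; rw [pow_succ, mul_assoc]; exact ih _ (hL v hv)
  have hR : ∀ v ∈ V, v * y ∈ V := by
    intro v hv
    induction hv using Submodule.span_induction with
    | mem x hx =>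
      obtain ⟨i, k, hi, hk, rfl⟩ := hform x hx
      rcases Nat.lt_or_ge (k + 1) 3 with h | h
      · have := hmem i (k + 1) hi h
        rwa [pow_succ, ← mul_assoc] at this
      · have hk2 : k = 2 := by omega
        subst hk2
        have e : a ^ i * y ^ 2 * y = (y * y * y) * (a ^ i * y ^ 0) := by
          have h1 : Commute (y * y * y) (a ^ i) := hc3a.pow_right i
          rw [pow_zero, mul_one, h1.eq, pow_two]
          simp only [mul_assoc]
        rw [e]
        exact hm _ zc _ (hmem i 0 hi (by norm_num))
    | zero => simp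
    | add x y _ _ hx hy => rw [add_mul]; exact V.add_mem hx hy
    | smul z x _ hx =>
      change (z : D) * x * y ∈ V
      rw [mul_assoc]
      exact hm z z.2 _ hx
  have ma : a ∈ V := by simpa using hmem 1 0 (by norm_num) (by norm_num)
  have my : y ∈ V := by simpa using hmem 0 1 (by norm_num) (by norm_num)
  have hk : ∀ k : ℕ, k < 3 → y ^ k * a ∈ V := by
    intro k hk
    interval_cases k
    · simpa using ma
    · rw [pow_one, hya]
      exact V.add_mem (hL _ my) m1
    · rw [pow_two, hy2]
      exact V.add_mem (hL _ (hR _ my)) (V.add_mem my my)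
  refine cf_of_set C {a, y} S hCC ?_ ?_ m1 ?_ ⟨y, by simp, a, by simp, ?_⟩
  · intro z hz' t ht
    rcases ht with rfl | ht
    · exact hCa z hz'
    · rw [Set.mem_singleton_iff] at ht
      subst ht
      exact hCy z hz'
  · intro z hz' w hw
    obtain ⟨i, k, hi, hk, rfl⟩ := hform w hw
    have h1 : Commute z a := hCa z hz'
    have h3 : Commute z y := hCy z hz'
    exact (h1.pow_right i).mul_right (h3.pow_right k)
  · intro w hw t ht
    have hwV : w ∈ V := Submodule.subset_span hw
    obtain ⟨i, k, hi, hk', rfl⟩ := hform w hw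
    rcases ht with rfl | ht
    · rw [mul_assoc]
      exact hLp i _ (hk k hk')
    · rw [Set.mem_singleton_iff] at ht
      subst ht
      exact hR _ hwV
  · intro h
    rw [hya] at h
    have : (1 : D) = 0 := by
      have h3 : a * y + 1 = a * y + 0 := by rw [h, add_zero]
      exact add_left_cancel h3
    exact one_ne_zero this

end Pool.Agent.Helper77.WK
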