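import Mathlib
import Pool.Agent.Helper77.WKCubic

set_option autoImplicit false

namespace Pool.Agent.Helper77.WK

variable {D : Type*} [DivisionRing D]

/-- Degree three. -/
theorem deg_three (a y α β γ : D) (hay : a * y ≠ y * a)
    (hαβ : Commute α β) (hαγ : Commute α γ) (hβγ : Commute β γ)
    (hαa : Commute α a) (hβa : Commute β a) (hγa : Commute γ a)
    (hαy : Commute α y) (hβy : Commute β y) (hγy : Commute γ y)
    (ha3 : a * a * a = -(α * (a * a)) - β * a - γ) : HasCF D := by
  set w := y * a - a * y with hw
  have hw0 : w ≠ 0 := fun h => hay (sub_eq_zero.1 h).symm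
  have hαw : Commute α w := (hαy.mul_right hαa).sub_right (hαa.mul_right hαy)
  have hβw : Commute β w := (hβy.mul_right hβa).sub_right (hβa.mul_right hβy)
  have hγw : Commute γ w := (hγy.mul_right hγa).sub_right (hγa.mul_right hγy)
  set b := w * a * w⁻¹ with hb
  have hwa : w * a = b * w := by rw [hb, mul_assoc (w * a), inv_mul_cancel₀ hw0, mul_one]
  have hαb : Commute α b := (hαw.mul_right hαa).mul_right hαw.inv_right₀
  have hβb : Commute β b := (hβw.mul_right hβa).mul_right hβw.inv_right₀
  have hγb : Commute γ b := (hγw.mul_right hγa).mul_right hγw.inv_right₀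
  have hG : b * b + a * b + α * b + a * a + α * a + β = 0 := by
    have h1 : (b * b + a * b + α * b + a * a + α * a + β) * w = 0 := by
      have e1 : (b * b + a * b + α * b + a * a + α * a + β) * w
          = (b * (b * w) + a * (b * w) + a * a * w) + α * (b * w + a * w) + β * w := by
        noncomm_ring
      have e2 : b * (w * a) = w * a * a := by rw [← mul_assoc, ← hwa]
      rw [e1, ← hwa, e2]
      have e3 : (w * a * a + a * (w * a) + a * a * w) + α * (w * a + a * w) + β * w
          = y * (a * a * a) - (a * a * a) * y + (α * y) * (a * a) - α * (a * a) * y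
            + (β * y) * a - β * a * y := by
        rw [hw]; noncomm_ring
      rw [e3, ha3, hαy.eq, hβy.eq]
      have e4 : γ * y = y * γ := hγy.eq
      have e5 : y * (-(α * (a * a)) - β * a - γ) - (-(α * (a * a)) - β * a - γ) * y
          + y * α * (a * a) - α * (a * a) * y + y * β * a - β * a * y = γ * y - y * γ := by
        noncomm_ring
      rw [e5, e4, sub_self]
    exact (mul_eq_zero.1 h1).resolve_right hw0
  have hbb : b * b = -(a * b) - α * b - a * a - α * a - β := by
    have : b * b = (b * b + a * b + α * b + a * a + α * a + β)
        + (-(a * b) - α * b - a * a - α * a - β) := by noncomm_ring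
    rw [this, hG, zero_add]
  have hiv : b = a → HasCF D := by
    intro hba
    have hwa' : w * a = a * w := by rw [hwa, hba]
    have h3 : ((1 : D) + 1 + 1) * (a * a) = -((α + α) * a) - β := by
      have : ((1 : D) + 1 + 1) * (a * a) + (α + α) * a + β = 0 := by
        rw [hba] at hG
        rw [← hG]
        noncomm_ring
      have e : ((1 : D) + 1 + 1) * (a * a) = (((1 : D) + 1 + 1) * (a * a) + (α + α) * a + β)
          + (-((α + α) * a) - β) := by noncomm_ring
      rw [e, this, zero_add]
    by_cases h30 : (1 : D) + 1 + 1 = 0
    · set y' := w⁻¹ * y with hy'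
      have hcinv : w⁻¹ * a = a * w⁻¹ := (Commute.inv_left₀ (a := w) (b := a) hwa')
      have hya : y' * a = a * y' + 1 := by
        have h1 : y * a = w + a * y := by rw [hw]; noncomm_ring
        rw [hy', mul_assoc, h1, mul_add, inv_mul_cancel₀ hw0, ← mul_assoc, hcinv, mul_assoc,
          add_comm]
      exact weyl_closure a y' α β γ hαβ hαγ hβγ hαa hβa hγa (hαw.inv_right₀.mul_right hαy)
        (hβw.inv_right₀.mul_right hβy) (hγw.inv_right₀.mul_right hγy) ha3 hya h30
    · have hc3 : ∀ x : D, Commute ((1 : D) + 1 + 1)⁻¹ x := by
        intro x
        have : Commute ((1 : D) + 1 + 1) x :=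
          ((Commute.one_left x).add_left (Commute.one_left x)).add_left (Commute.one_left x)
        exact this.inv_left₀
      refine deg_two a y (-(((1 : D) + 1 + 1)⁻¹ * (α + α))) (((1 : D) + 1 + 1)⁻¹ * β) hay
        ?_ ?_ ?_ ?_ ?_ ?_
      · refine Commute.neg_left (Commute.mul_left ?_ ?_)
        · exact hc3 _
        · exact ((hc3 _).symm.mul_right (hαβ.add_left hαβ))
      · exact Commute.neg_left (Commute.mul_left (hc3 _) (hαa.add_left hαa))
      · exact Commute.mul_left (hc3 _) hβa
      · exact Commute.neg_left (Commute.mul_left (hc3 _) (hαy.add_left hαy))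
      · exact Commute.mul_left (hc3 _) hβy
      · have e : a * a = ((1 : D) + 1 + 1)⁻¹ * (((1 : D) + 1 + 1) * (a * a)) := by
          rw [← mul_assoc, inv_mul_cancel₀ h30, one_mul]
        rw [e, h3]
        noncomm_ring
  by_cases hc : a * b = b * a
  · -- commuting case
    set d := w * b * w⁻¹ with hd
    have hwb : w * b = d * w := by rw [hd, mul_assoc (w * b), inv_mul_cancel₀ hw0, mul_one]
    have hbd : b * d = d * b := by
      have h1 : b * d * w = d * b * w := by
        calc b * d * w = b * (d * w) := mul_assoc _ _ _
          _ = b * (w * b) := by rw [hwb]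
          _ = (b * w) * b := (mul_assoc _ _ _).symm
          _ = (w * a) * b := by rw [hwa]
          _ = w * (a * b) := mul_assoc _ _ _
          _ = w * (b * a) := by rw [hc]
          _ = (w * b) * a := (mul_assoc _ _ _).symm
          _ = (d * w) * a := by rw [hwb]
          _ = d * (w * a) := mul_assoc _ _ _
          _ = d * (b * w) := by rw [hwa]
          _ = d * b * w := (mul_assoc _ _ _).symm
      exact mul_right_cancel₀ hw0 h1
    have hαd : Commute α d := (hαw.mul_right hαb).mul_right hαw.inv_right₀
    have hβd : Commute β d := (hβw.mul_right hβb).mul_right hβw.inv_right₀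
    have hdd : d * d + b * d + α * d + b * b + α * b + β = 0 := by
      have h1 : (d * d + b * d + α * d + b * b + α * b + β) * w = 0 := by
        have e1 : (d * d + b * d + α * d + b * b + α * b + β) * w
            = d * (d * w) + b * (d * w) + α * (d * w) + b * (b * w) + α * (b * w) + β * w := by
          noncomm_ring
        have e2 : d * (w * b) = w * (b * b) := by rw [← mul_assoc, ← hwb, mul_assoc]
        have e3 : b * (w * b) = w * (a * b) := by rw [← mul_assoc, ← hwa, mul_assoc]
        have e4 : b * (w * a) = w * (a * a) := by rw [← mul_assoc, ← hwa, mul_assoc]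
        have e5 : α * (w * b) = w * (α * b) := by rw [← mul_assoc, hαw.eq, mul_assoc]
        have e6 : α * (w * a) = w * (α * a) := by rw [← mul_assoc, hαw.eq, mul_assoc]
        rw [e1, ← hwb, ← hwa, e2, e3, e4, e5, e6, hβw.eq]
        have e7 : w * (b * b) + w * (a * b) + w * (α * b) + w * (a * a) + w * (α * a) + w * β
            = w * (b * b + a * b + α * b + a * a + α * a + β) := by noncomm_ring
        rw [e7, hG, mul_zero]
      exact (mul_eq_zero.1 h1).resolve_right hw0
    by_cases had : a * d = d * a
    · have hprod : (d - a) * (d - (-α - a - b)) = 0 := by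
        have e1 : (d - a) * (d - (-α - a - b)) = d * d + d * α + d * a + d * b - a * d - a * α
            - a * a - a * b := by noncomm_ring
        rw [e1, ← hαd.eq, ← hαa.eq, had, ← hbd]
        have e2 : d * d + α * d + d * a + b * d - d * a - α * a - a * a - a * b
            = (d * d + b * d + α * d + b * b + α * b + β)
              - (b * b + a * b + α * b + a * a + α * a + β) := by noncomm_ring
        rw [e2, hdd, hG, sub_zero]
      rcases mul_eq_zero.1 hprod with h | h
      · have hda : d = a := sub_eq_zero.1 h
        by_cases hba : b = a
        · exact hiv hba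
        · refine deg_two a w (a + b) (a * b) ?_ ?_ ?_ ?_ ?_ ?_ ?_
          · intro h'
            rw [hwa] at h'
            exact hba (mul_right_cancel₀ hw0 h').symm
          · have hcab : Commute a b := hc
            exact ((Commute.refl a).mul_right hcab).add_left (hcab.symm.mul_right (Commute.refl b))
          · have hcab : Commute a b := hc
            exact (Commute.refl a).add_left hcab.symm
          · have hcab : Commute a b := hc
            exact (Commute.refl a).mul_left hcab.symm
          · have : (a + b) * w = w * (a + b) := by
              rw [mul_add, hwa, hwb, hda, add_mul, add_comm]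
            exact this
          · have : (a * b) * w = w * (a * b) := by
              rw [mul_assoc, ← hwa, hc, ← mul_assoc w, hwb, hda, mul_assoc]
            exact this
          · rw [add_mul, ← hc]
            noncomm_ring
      · have hda : d = -α - a - b := sub_eq_zero.1 h
        by_cases hba : b = a
        · exact hiv hba
        · refine cubic_closure a b w α β γ 0 hαβ hαγ hβγ (Commute.zero_left _)
            (Commute.zero_left _) (Commute.zero_left _) hαa hβa hγa (Commute.zero_left _)
            hαb hβb hγb (Commute.zero_left _) hαw hβw hγw (Commute.zero_left _) ha3 hbb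
            (by rw [zero_mul, sub_zero, hc]) hwa (by rw [hwb, hda]) ?_
          intro h'
          rw [hwa] at h'
          exact hba (mul_right_cancel₀ hw0 h').symm
    · have hcab : Commute a b := hc
      have hcbd : Commute b d := hbd
      refine deg_two a d (-(b + α)) (b * b + α * b + β) had ?_ ?_ ?_ ?_ ?_ ?_
      · refine Commute.neg_left (Commute.add_left ?_ ?_)
        · exact (((Commute.refl b).mul_right (Commute.refl b)).add_right
            (hαb.symm.mul_right (Commute.refl b))).add_right hβb.symm
        · exact ((hαb.mul_right hαb).add_right ((Commute.refl α).mul_right hαb)).add_right hαβ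
      · exact Commute.neg_left (Commute.add_left hcab.symm hαa)
      · exact ((hcab.symm.mul_left hcab.symm).add_left (hαa.mul_left hcab.symm)).add_left hβa
      · exact Commute.neg_left (Commute.add_left hcbd hαd)
      · exact ((hcbd.mul_left hcbd).add_left (hαd.mul_left hcbd)).add_left hβd
      · have e : -(b + α) * a - (b * b + α * b + β)
            = a * a - (b * b + a * b + α * b + a * a + α * a + β) + (a * b - b * a) := by
          noncomm_ring
        rw [e, hG, hc]
        simp
  · set c := a * b - b * a with hcdef
    have hc0 : c ≠ 0 := fun h => hc (sub_eq_zero.1 h)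
    have hcb : c * b = (-α - a - b) * c := by
      have h1 : (b * b + a * b + α * b + a * a + α * a + β) * a
          - a * (b * b + a * b + α * b + a * a + α * a + β) = 0 := by rw [hG]; simp
      have h2 : c * b - (-α - a - b) * c
          = -((b * b + a * b + α * b + a * a + α * a + β) * a
            - a * (b * b + a * b + α * b + a * a + α * a + β))
            + (α * a - a * α) * b + (α * a - a * α) * a + (β * a - a * β) := by
        rw [hcdef]; noncomm_ring
      rw [h1, hαa.eq, hβa.eq] at h2
      simp only [sub_self, zero_mul, neg_zero, add_zero] at h2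
      exact sub_eq_zero.1 h2
    have hca : c * a = b * c := by
      have h1 : (b * b + a * b + α * b + a * a + α * a + β) * b
          - b * (b * b + a * b + α * b + a * a + α * a + β) = 0 := by rw [hG]; simp
      have h2 : c * a - b * c = ((b * b + a * b + α * b + a * a + α * a + β) * b
          - b * (b * b + a * b + α * b + a * a + α * a + β))
          - (c * b - (-α - a - b) * c)
            - (α * b - b * α) * b - (α * b - b * α) * a - (β * b - b * β) := by
        rw [hcdef]; noncomm_ring
      rw [h1, hcb, hαb.eq, hβb.eq] at h2
      simp only [sub_self, zero_mul] at h2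
      exact sub_eq_zero.1 h2
    have hαc : Commute α c := (hαa.mul_right hαb).sub_right (hαb.mul_right hαa)
    have hβc : Commute β c := (hβa.mul_right hβb).sub_right (hβb.mul_right hβa)
    have hγc : Commute γ c := (hγa.mul_right hγb).sub_right (hγb.mul_right hγa)
    refine cubic_closure a b c α β γ 1 hαβ hαγ hβγ (Commute.one_left _)
      (Commute.one_left _) (Commute.one_left _) hαa hβa hγa (Commute.one_left _)
      hαb hβb hγb (Commute.one_left _) hαc hβc hγc (Commute.one_left _) ha3 hbb
      (by rw [hcdef]; noncomm_ring) hca hcb ?_
    intro h'
    rw [hca] at h'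
    have hab : a = b := mul_right_cancel₀ hc0 h'
    exact hc (by rw [hab])

end Pool.Agent.Helper77.WK
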