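import Mathlib
import Pool.Agent.Helper77.WKMain

set_option autoImplicit false

namespace Pool.Agent.Helper77.WK

variable {D : Type*} [DivisionRing D]

theorem resolvent_comm {R : Type*} [CommRing R] (u v p q r s : R)
    (h1 : v * u = -(u * v) - p * v + (u * u + p * u) * u + q * u + r)
    (h2 : v * v = (q + (u * u + p * u)) * v - s) :
    (u * u + p * u) * (u * u + p * u) * (u * u + p * u)
      = -((q + q) * ((u * u + p * u) * (u * u + p * u)))
        - (q * q + p * r - (s + s + s + s)) * (u * u + p * u)
        - (p * q * r - r * r - s * (p * p)) := by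
  have h3 : (2 * u + p) * v = (u * u + p * u) * u + q * u + r := by
    linear_combination h1
  linear_combination ((u * u + p * u) * u + q * u + r + (2 * u + p) * v
    - (q + (u * u + p * u)) * (2 * u + p)) * h3 - (2 * u + p) ^ 2 * h2

theorem resolvent (u v p q r s : D)
    (huv : Commute u v) (hup : Commute p u) (huq : Commute q u) (hur : Commute r u)
    (hus : Commute s u) (hvp : Commute p v) (hvq : Commute q v) (hvr : Commute r v)
    (hvs : Commute s v) (hpq : Commute p q) (hpr : Commute p r) (hps : Commute p s)
    (hqr : Commute q r) (hqs : Commute q s) (hrs : Commute r s)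
    (h1 : v * u = -(u * v) - p * v + (u * u + p * u) * u + q * u + r)
    (h2 : v * v = (q + (u * u + p * u)) * v - s) :
    (u * u + p * u) * (u * u + p * u) * (u * u + p * u)
      = -((q + q) * ((u * u + p * u) * (u * u + p * u)))
        - (q * q + p * r - (s + s + s + s)) * (u * u + p * u)
        - (p * q * r - r * r - s * (p * p)) := by
  have hcomm : ∀ x ∈ ({u, v, p, q, r, s} : Set D), ∀ y ∈ ({u, v, p, q, r, s} : Set D),
      x * y = y * x := by
    intro x hx y hy
    simp only [Set.mem_insert_iff, Set.mem_singleton_iff] at hx hy
    rcases hx with rfl | rfl | rfl | rfl | rfl | rfl <;>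
      rcases hy with rfl | rfl | rfl | rfl | rfl | rfl <;>
      first
        | rfl
        | exact huv
        | exact huv.symm
        | exact hup
        | exact hup.symm
        | exact huq
        | exact huq.symm
        | exact hur
        | exact hur.symm
        | exact hus
        | exact hus.symm
        | exact hvp
        | exact hvp.symm
        | exact hvq
        | exact hvq.symm
        | exact hvr
        | exact hvr.symm
        | exact hvs
        | exact hvs.symm
        | exact hpq
        | exact hpq.symm
        | exact hpr
        | exact hpr.symm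
        | exact hps
        | exact hps.symm
        | exact hqr
        | exact hqr.symm
        | exact hqs
        | exact hqs.symm
        | exact hrs
        | exact hrs.symm
  have hmc : IsMulCommutative (Subring.closure ({u, v, p, q, r, s} : Set D)) :=
    Subring.isMulCommutative_closure hcomm
  let _ : CommRing (Subring.closure ({u, v, p, q, r, s} : Set D)) :=
    { (inferInstance : Ring (Subring.closure ({u, v, p, q, r, s} : Set D))) with
      mul_comm := fun x y => hmc.is_comm.comm x y }
  let U : Subring.closure ({u, v, p, q, r, s} : Set D) :=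
    ⟨u, Subring.subset_closure (by simp)⟩
  let W : Subring.closure ({u, v, p, q, r, s} : Set D) :=
    ⟨v, Subring.subset_closure (by simp)⟩
  let P : Subring.closure ({u, v, p, q, r, s} : Set D) :=
    ⟨p, Subring.subset_closure (by simp)⟩
  let Q : Subring.closure ({u, v, p, q, r, s} : Set D) :=
    ⟨q, Subring.subset_closure (by simp)⟩
  let R : Subring.closure ({u, v, p, q, r, s} : Set D) :=
    ⟨r, Subring.subset_closure (by simp)⟩
  let T : Subring.closure ({u, v, p, q, r, s} : Set D) :=
    ⟨s, Subring.subset_closure (by simp)⟩
  have H1 : W * U = -(U * W) - P * W + (U * U + P * U) * U + Q * U + R := Subtype.ext h1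
  have H2 : W * W = (Q + (U * U + P * U)) * W - T := Subtype.ext h2
  exact congrArg Subtype.val (resolvent_comm U W P Q R T H1 H2)

/-- Degree four. -/
theorem deg_four (a y p q r s : D) (hay : a * y ≠ y * a)
    (hpq : Commute p q) (hpr : Commute p r) (hps : Commute p s)
    (hqr : Commute q r) (hqs : Commute q s) (hrs : Commute r s)
    (hpa : Commute p a) (hqa : Commute q a) (hra : Commute r a) (hsa : Commute s a)
    (hpy : Commute p y) (hqy : Commute q y) (hry : Commute r y) (hsy : Commute s y)
    (ha4 : a * a * a * a = -(p * (a * a * a)) - q * (a * a) - r * a - s) : HasCF D := by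
  set w := y * a - a * y with hw
  have hw0 : w ≠ 0 := fun h => hay (sub_eq_zero.1 h).symm
  have hpw : Commute p w := (hpy.mul_right hpa).sub_right (hpa.mul_right hpy)
  have hqw : Commute q w := (hqy.mul_right hqa).sub_right (hqa.mul_right hqy)
  have hrw : Commute r w := (hry.mul_right hra).sub_right (hra.mul_right hry)
  have hsw : Commute s w := (hsy.mul_right hsa).sub_right (hsa.mul_right hsy)
  set b := w * a * w⁻¹ with hb
  have hwa : w * a = b * w := by rw [hb, mul_assoc (w * a), inv_mul_cancel₀ hw0, mul_one]
  have hpb : Commute p b := (hpw.mul_right hpa).mul_right hpw.inv_right₀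
  have hqb : Commute q b := (hqw.mul_right hqa).mul_right hqw.inv_right₀
  have hrb : Commute r b := (hrw.mul_right hra).mul_right hrw.inv_right₀
  have hsb : Commute s b := (hsw.mul_right hsa).mul_right hsw.inv_right₀
  have hG : b * b * b + a * (b * b) + a * a * b + a * a * a
      + p * (b * b + a * b + a * a) + q * (b + a) + r = 0 := by
    have h1 : (b * b * b + a * (b * b) + a * a * b + a * a * a
      + p * (b * b + a * b + a * a) + q * (b + a) + r) * w = 0 := by
      have e0 : (b * b * b + a * (b * b) + a * a * b + a * a * a
          + p * (b * b + a * b + a * a) + q * (b + a) + r) * w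
          = b * (b * (b * w)) + a * (b * (b * w)) + a * a * (b * w) + a * a * a * w
          + p * (b * (b * w) + a * (b * w) + a * a * w) + q * (b * w + a * w) + r * w := by
        noncomm_ring
      have e1 : b * (w * a) = w * a * a := by rw [← mul_assoc, ← hwa]
      have e2 : b * (w * a * a) = w * a * a * a := by
        rw [← mul_assoc, ← mul_assoc, ← hwa]
      rw [e0, ← hwa, e1, e2]
      have e3 : w * a * a * a + a * (w * a * a) + a * a * (w * a) + a * a * a * w
          + p * (w * a * a + a * (w * a) + a * a * w) + q * (w * a + a * w) + r * w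
          = y * (a * a * a * a) - (a * a * a * a) * y + (p * y) * (a * a * a)
            - p * (a * a * a) * y + (q * y) * (a * a) - q * (a * a) * y
            + (r * y) * a - r * a * y := by
        rw [hw]; noncomm_ring
      rw [e3, ha4, hpy.eq, hqy.eq, hry.eq]
      have e4 : y * (-(p * (a * a * a)) - q * (a * a) - r * a - s)
          - (-(p * (a * a * a)) - q * (a * a) - r * a - s) * y
          + y * p * (a * a * a) - p * (a * a * a) * y + y * q * (a * a) - q * (a * a) * y
            + y * r * a - r * a * y = s * y - y * s := by
        noncomm_ring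
      rw [e4, hsy.eq, sub_self]
    exact (mul_eq_zero.1 h1).resolve_right hw0
  set u := a + b with hu
  set v := b * a with hv
  have hpu : Commute p u := hpa.add_right hpb
  have hqu : Commute q u := hqa.add_right hqb
  have hru : Commute r u := hra.add_right hrb
  have hsu : Commute s u := hsa.add_right hsb
  have hpv : Commute p v := hpb.mul_right hpa
  have hqv : Commute q v := hqb.mul_right hqa
  have hrv : Commute r v := hrb.mul_right hra
  have hsv : Commute s v := hsb.mul_right hsa
  have h1 : v * u = -(u * v) - p * v + (u * u + p * u) * u + q * u + r := by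
    have e1 : v * u - (-(u * v) - p * v + (u * u + p * u) * u + q * u + r)
        = -(b * b * b + a * (b * b) + a * a * b + a * a * a
      + p * (b * b + a * b + a * a) + q * (b + a) + r) := by
      rw [hu, hv]; noncomm_ring
    rw [hG, neg_zero] at e1
    exact sub_eq_zero.1 e1
  have h2 : v * v = (q + (u * u + p * u)) * v - s := by
    have e1 : v * v - ((q + (u * u + p * u)) * v - s)
        = -((b * b * b + a * (b * b) + a * a * b + a * a * a
      + p * (b * b + a * b + a * a) + q * (b + a) + r) * a)
        + (a * a * a * a + p * (a * a * a) + q * (a * a) + r * a + s) := by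
      rw [hu, hv]; noncomm_ring
    rw [hG, ha4] at e1
    have e2 : -(0 * a) + (-(p * (a * a * a)) - q * (a * a) - r * a - s + p * (a * a * a)
        + q * (a * a) + r * a + s) = 0 := by noncomm_ring
    rw [e2] at e1
    exact sub_eq_zero.1 e1
  set θ := u * u + p * u with hθ
  have hpθ : Commute p θ := (hpu.mul_right hpu).add_right ((Commute.refl p).mul_right hpu)
  have hqθ : Commute q θ := (hqu.mul_right hqu).add_right (hpq.symm.mul_right hqu)
  have hrθ : Commute r θ := (hru.mul_right hru).add_right (hpr.symm.mul_right hru)
  have hsθ : Commute s θ := (hsu.mul_right hsu).add_right (hps.symm.mul_right hsu)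
  have hθu : Commute θ u :=
    ((Commute.refl u).mul_left (Commute.refl u)).add_left (hpu.mul_left (Commute.refl u))
  have hθv : Commute θ v := by
    have hX : v * u + u * v + p * v = θ * u + q * u + r := by
      rw [h1]; noncomm_ring
    have hY : Commute u (θ * u + q * u + r) :=
      ((hθu.symm.mul_right (Commute.refl u)).add_right
        (hqu.symm.mul_right (Commute.refl u))).add_right hru.symm
    have hXY : u * (v * u + u * v + p * v) = (v * u + u * v + p * v) * u := by
      rw [hX]; exact hY
    have e1 : θ * v - v * θ = (u * (v * u + u * v + p * v) - (v * u + u * v + p * v) * u)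
        + (p * u - u * p) * v + (p * v - v * p) * u := by
      rw [hθ]; noncomm_ring
    rw [hXY, hpu.eq, hpv.eq] at e1
    simp only [sub_self, zero_mul, add_zero] at e1
    exact sub_eq_zero.1 e1
  by_cases huv : u * v = v * u
  · have hcuv : Commute u v := huv
    have hres := resolvent u v p q r s hcuv hpu hqu hru hsu hpv hqv hrv hsv hpq hpr hps hqr hqs
      hrs h1 h2
    rw [← hθ] at hres
    -- the coefficients of the resolvent
    have hA : ∀ x : D, Commute q x → Commute (q + q) x := fun x hx => hx.add_left hx
    have hB : ∀ x : D, Commute p x → Commute q x → Commute r x → Commute s x →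
        Commute (q * q + p * r - (s + s + s + s)) x := fun x h₁ h₂ h₃ h₄ =>
      ((h₂.mul_left h₂).add_left (h₁.mul_left h₃)).sub_left
        (((h₄.add_left h₄).add_left h₄).add_left h₄)
    have hC : ∀ x : D, Commute p x → Commute q x → Commute r x → Commute s x →
        Commute (p * q * r - r * r - s * (p * p)) x := fun x h₁ h₂ h₃ h₄ =>
      ((((h₁.mul_left h₂).mul_left h₃).sub_left (h₃.mul_left h₃)).sub_left
        (h₄.mul_left (h₁.mul_left h₁)))
    have hAB : Commute (q + q) (q * q + p * r - (s + s + s + s)) :=
      (hB (q + q) (hpq.add_right hpq) ((Commute.refl q).add_right (Commute.refl q))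
        (hqr.symm.add_right hqr.symm) (hqs.symm.add_right hqs.symm)).symm
    have hAC : Commute (q + q) (p * q * r - r * r - s * (p * p)) :=
      (hC (q + q) (hpq.add_right hpq) ((Commute.refl q).add_right (Commute.refl q))
        (hqr.symm.add_right hqr.symm) (hqs.symm.add_right hqs.symm)).symm
    have hCp : Commute p (p * q * r - r * r - s * (p * p)) :=
      (hC p (Commute.refl p) hpq.symm hpr.symm hps.symm).symm
    have hCq : Commute q (p * q * r - r * r - s * (p * p)) :=
      (hC q hpq (Commute.refl q) hqr.symm hqs.symm).symm
    have hCr : Commute r (p * q * r - r * r - s * (p * p)) :=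
      (hC r hpr hqr (Commute.refl r) hrs.symm).symm
    have hCs : Commute s (p * q * r - r * r - s * (p * p)) :=
      (hC s hps hqs hrs (Commute.refl s)).symm
    have hBC : Commute (q * q + p * r - (s + s + s + s)) (p * q * r - r * r - s * (p * p)) :=
      hB _ hCp hCq hCr hCs
    have key : ∀ g : D, Commute p g → Commute q g → Commute r g → Commute s g →
        ¬ Commute θ g → HasCF D := by
      intro g g1 g2 g3 g4 hg
      exact deg_three θ g (q + q) (q * q + p * r - (s + s + s + s))
        (p * q * r - r * r - s * (p * p)) hg hAB hAC hBC (hA θ hqθ) (hB θ hpθ hqθ hrθ hsθ)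
        (hC θ hpθ hqθ hrθ hsθ) (hA g g2) (hB g g1 g2 g3 g4) (hC g g1 g2 g3 g4) hres
    by_cases hθa : Commute θ a
    swap
    · exact key a hpa hqa hra hsa hθa
    by_cases hθy : Commute θ y
    swap
    · exact key y hpy hqy hry hsy hθy
    have keyu : ∀ g : D, Commute p g → Commute θ g → ¬ Commute u g → HasCF D := by
      intro g g1 g2 hg
      refine deg_two u g (-p) (-θ) hg hpθ.neg_left.neg_right hpu.neg_left hθu.neg_left
        g1.neg_left g2.neg_left ?_
      rw [hθ]; noncomm_ring
    by_cases hua : Commute u a
    swap
    · exact keyu a hpa hθa hua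
    by_cases huy : Commute u y
    swap
    · exact keyu y hpy hθy huy
    have keyv : ∀ g : D, Commute q g → Commute s g → Commute θ g → ¬ Commute v g → HasCF D := by
      intro g g1 g2 g3 hg
      exact deg_two v g (q + θ) s hg (hqs.add_left hsθ.symm) (hqv.add_left hθv) hsv
        (g1.add_left g3) g2 h2
    by_cases hva : Commute v a
    swap
    · exact keyv a hqa hsa hθa hva
    by_cases hvy : Commute v y
    swap
    · exact keyv y hqy hsy hθy hvy
    refine deg_two a y u v hay hcuv hua hva huy hvy ?_
    rw [hu, hv]; noncomm_ring
  · set C : Set D := {p, q, r, s, θ} with hC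
    have mC : ∀ x ∈ C, x ∈ Subfield.closure C := fun x hx => Subfield.subset_closure hx
    refine quat_closure C u v (-p) (-θ) (q + θ) s r (θ + q) (-p) (-1) ?_ ?_ ?_ ?_ ?_ ?_ ?_ ?_ ?_
      ?_ ?_ ?_ h2 ?_ huv
    · intro x hx y hy
      simp only [hC, Set.mem_insert_iff, Set.mem_singleton_iff] at hx hy
      rcases hx with rfl | rfl | rfl | rfl | rfl <;>
        rcases hy with rfl | rfl | rfl | rfl | rfl <;>
        first
          | rfl
          | exact hpq
          | exact hpq.symm
          | exact hpr
          | exact hpr.symm
          | exact hps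
          | exact hps.symm
          | exact hqr
          | exact hqr.symm
          | exact hqs
          | exact hqs.symm
          | exact hrs
          | exact hrs.symm
          | exact hpθ
          | exact hpθ.symm
          | exact hqθ
          | exact hqθ.symm
          | exact hrθ
          | exact hrθ.symm
          | exact hsθ
          | exact hsθ.symm
    · intro x hx
      simp only [hC, Set.mem_insert_iff, Set.mem_singleton_iff] at hx
      rcases hx with rfl | rfl | rfl | rfl | rfl
      exacts [hpu, hqu, hru, hsu, hθu]
    · intro x hx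
      simp only [hC, Set.mem_insert_iff, Set.mem_singleton_iff] at hx
      rcases hx with rfl | rfl | rfl | rfl | rfl
      exacts [hpv, hqv, hrv, hsv, hθv]
    · exact neg_mem (mC _ (by simp [hC]))
    · exact neg_mem (mC _ (by simp [hC]))
    · exact add_mem (mC _ (by simp [hC])) (mC _ (by simp [hC]))
    · exact mC _ (by simp [hC])
    · exact mC _ (by simp [hC])
    · exact add_mem (mC _ (by simp [hC])) (mC _ (by simp [hC]))
    · exact neg_mem (mC _ (by simp [hC]))
    · exact neg_mem (one_mem _)
    · rw [hθ]; noncomm_ring
    · rw [h1]; noncomm_ring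

end Pool.Agent.Helper77.WK
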