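import Mathlib
import Pool.Agent.Helper77.WKFour

set_option autoImplicit false

namespace Pool.Agent.Results.MP_1d885e_al.DegreeFour

open Pool.Agent.Helper77.WK

theorem of_coeffs {D : Type*} [DivisionRing D] (a y x0 x1 x2 x3 x4 : D) (hay : a * y ≠ y * a)
    (h0 : ∀ g : D, Commute x0 g) (h1 : ∀ g : D, Commute x1 g) (h2 : ∀ g : D, Commute x2 g)
    (h3 : ∀ g : D, Commute x3 g) (h4 : ∀ g : D, Commute x4 g)
    (hne : x0 ≠ 0 ∨ x1 ≠ 0 ∨ x2 ≠ 0 ∨ x3 ≠ 0 ∨ x4 ≠ 0)
    (h : x0 + x1 * a + x2 * (a * a) + x3 * (a * a * a) + x4 * (a * a * a * a) = 0) :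
    HasCF D := by
  by_cases c4 : x4 = 0
  swap
  · have i4 : ∀ g : D, Commute x4⁻¹ g := fun g => (h4 g).inv_left₀
    have j3 : ∀ g : D, Commute (x4⁻¹ * x3) g := fun g => (i4 g).mul_left (h3 g)
    have j2 : ∀ g : D, Commute (x4⁻¹ * x2) g := fun g => (i4 g).mul_left (h2 g)
    have j1 : ∀ g : D, Commute (x4⁻¹ * x1) g := fun g => (i4 g).mul_left (h1 g)
    have j0 : ∀ g : D, Commute (x4⁻¹ * x0) g := fun g => (i4 g).mul_left (h0 g)
    refine deg_four a y (x4⁻¹ * x3) (x4⁻¹ * x2) (x4⁻¹ * x1) (x4⁻¹ * x0) hay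
      (j3 _) (j3 _) (j3 _) (j2 _) (j2 _) (j1 _) (j3 _) (j2 _) (j1 _) (j0 _) (j3 _) (j2 _) (j1 _)
      (j0 _) ?_
    have e : a * a * a * a = x4⁻¹ * (x4 * (a * a * a * a)) := by
      rw [← mul_assoc x4⁻¹, inv_mul_cancel₀ c4, one_mul]
    have e2 : x4 * (a * a * a * a) = (x0 + x1 * a + x2 * (a * a) + x3 * (a * a * a)
        + x4 * (a * a * a * a)) - (x0 + x1 * a + x2 * (a * a) + x3 * (a * a * a)) := by
      noncomm_ring
    rw [e, e2, h]
    noncomm_ring
  by_cases c3 : x3 = 0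
  swap
  · have i3 : ∀ g : D, Commute x3⁻¹ g := fun g => (h3 g).inv_left₀
    have j2 : ∀ g : D, Commute (x3⁻¹ * x2) g := fun g => (i3 g).mul_left (h2 g)
    have j1 : ∀ g : D, Commute (x3⁻¹ * x1) g := fun g => (i3 g).mul_left (h1 g)
    have j0 : ∀ g : D, Commute (x3⁻¹ * x0) g := fun g => (i3 g).mul_left (h0 g)
    refine deg_three a y (x3⁻¹ * x2) (x3⁻¹ * x1) (x3⁻¹ * x0) hay
      (j2 _) (j2 _) (j1 _) (j2 _) (j1 _) (j0 _) (j2 _) (j1 _) (j0 _) ?_
    have e : a * a * a = x3⁻¹ * (x3 * (a * a * a)) := by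
      rw [← mul_assoc x3⁻¹, inv_mul_cancel₀ c3, one_mul]
    have e2 : x3 * (a * a * a) = (x0 + x1 * a + x2 * (a * a) + x3 * (a * a * a)
        + x4 * (a * a * a * a)) - (x0 + x1 * a + x2 * (a * a)) - x4 * (a * a * a * a) := by
      noncomm_ring
    rw [e, e2, h, c4]
    noncomm_ring
  by_cases c2 : x2 = 0
  swap
  · have i2 : ∀ g : D, Commute x2⁻¹ g := fun g => (h2 g).inv_left₀
    have j1 : ∀ g : D, Commute (-(x2⁻¹ * x1)) g := fun g => ((i2 g).mul_left (h1 g)).neg_left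
    have j0 : ∀ g : D, Commute (x2⁻¹ * x0) g := fun g => (i2 g).mul_left (h0 g)
    refine deg_two a y (-(x2⁻¹ * x1)) (x2⁻¹ * x0) hay
      (j1 _) (j1 _) (j0 _) (j1 _) (j0 _) ?_
    have e : a * a = x2⁻¹ * (x2 * (a * a)) := by
      rw [← mul_assoc x2⁻¹, inv_mul_cancel₀ c2, one_mul]
    have e2 : x2 * (a * a) = (x0 + x1 * a + x2 * (a * a) + x3 * (a * a * a)
        + x4 * (a * a * a * a)) - (x0 + x1 * a) - x3 * (a * a * a) - x4 * (a * a * a * a) := by
      noncomm_ring
    rw [e, e2, h, c4, c3]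
    noncomm_ring
  exfalso
  subst c4 c3 c2
  simp only [zero_mul, add_zero] at h
  by_cases c1 : x1 = 0
  · subst c1
    simp only [zero_mul, add_zero] at h
    subst h
    simp at hne
  · have e : a = -(x1⁻¹ * x0) := by
      have e1 : x1 * a = -x0 := by rw [eq_neg_iff_add_eq_zero, add_comm]; exact h
      calc a = x1⁻¹ * (x1 * a) := by rw [← mul_assoc, inv_mul_cancel₀ c1, one_mul]
        _ = -(x1⁻¹ * x0) := by rw [e1, mul_neg]
    have hc : Commute a y := by
      rw [e]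
      exact ((h1 y).inv_left₀.mul_left (h0 y)).neg_left
    exact hay hc

/-- A division ring with a noncentral element that is algebraic of degree at most four over the
center contains a noncommutative sub-division ring spanned by finitely many elements over its own
center. -/
theorem result.{u} (D : Type u) [DivisionRing D] (a : D) (ha : a ∉ Subring.center D)
    (halg : ∃ p : Polynomial (Subring.center D), p ≠ 0 ∧ p.natDegree ≤ 4 ∧
      Polynomial.eval₂ (Subring.center D).subtype a p = 0) :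
    ∃ K : Subfield D,
      (∃ x ∈ K, ∃ y ∈ K, x * y ≠ y * x) ∧
      ∃ s : Finset D, (∀ t ∈ s, t ∈ K) ∧
        ∀ x ∈ K, ∃ c : D → D,
          (∀ t ∈ s, c t ∈ K ∧ ∀ y ∈ K, c t * y = y * c t) ∧
          x = ∑ t ∈ s, c t * t := by
  obtain ⟨p, hp0, hp4, hpa⟩ := halg
  have hy : ∃ y : D, a * y ≠ y * a := by
    by_contra hcon
    push Not at hcon
    exact ha (Subring.mem_center_iff.2 fun g => (hcon g).symm)
  obtain ⟨y, hay⟩ := hy
  have hcent : ∀ (i : ℕ) (g : D), Commute ((p.coeff i : Subring.center D) : D) g := by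
    intro i g
    exact (Subring.mem_center_iff.1 (p.coeff i).2 g).symm
  rw [Polynomial.eval₂_eq_sum_range' _ (Nat.lt_succ_of_le hp4)] at hpa
  refine of_coeffs a y (p.coeff 0 : D) (p.coeff 1 : D) (p.coeff 2 : D) (p.coeff 3 : D)
    (p.coeff 4 : D) hay (hcent 0) (hcent 1) (hcent 2) (hcent 3) (hcent 4) ?_ ?_
  · by_contra hcon
    push Not at hcon
    obtain ⟨z0, z1, z2, z3, z4⟩ := hcon
    apply hp0
    ext i
    rcases Nat.lt_or_ge i 5 with hi | hi
    · interval_cases i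
      · simpa using z0
      · simpa using z1
      · simpa using z2
      · simpa using z3
      · simpa using z4
    · rw [Polynomial.coeff_eq_zero_of_natDegree_lt (by omega)]
      simp
  · simp only [Finset.sum_range_succ, Finset.sum_range_zero, Subring.subtype_apply] at hpa
    rw [← hpa]
    simp only [pow_succ, pow_zero, one_mul, mul_one, zero_add]

end Pool.Agent.Results.MP_1d885e_al.DegreeFour
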