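import Mathlib

/-!
Definitions for MP_9fbc95_co (numerators in Lommel polynomial ratio expansions).
They follow the problem file literally.  `t = x / 2`, so that `2 / x = 1 / t`, and the
Lommel polynomials are viewed as Laurent series in `t` over the field `ℚ(ν)`.
-/

namespace Pool.Agent.Helper77.LomDefs

/-- The field `ℚ(ν)`. -/
abbrev F : Type := RatFunc ℚ

/-- The indeterminate `ν`. -/
noncomputable def nu : F := RatFunc.X

/-- The Lommel polynomial `R_{m,s}(x)`, written as a Laurent series in `t = x / 2`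
(so `(2 / x) ^ (m - 2 j) = t ^ (2 j - m)`); the quotient `Γ(s + m - j) / Γ(s + j)` is the product
`∏_{i < m - 2 j} (s + j + i)`. -/
noncomputable def lommel (m : ℕ) (s : F) : LaurentSeries F :=
  ∑ j ∈ Finset.range (m / 2 + 1),
    HahnSeries.single (2 * (j : ℤ) - (m : ℤ))
      ((-1 : F) ^ j * (((m - j).factorial : F) / ((j.factorial : F) * ((m - 2 * j).factorial : F))) *
        ∏ i ∈ Finset.range (m - 2 * j), (s + (j : F) + (i : F)))

/-- `c^{(m)}_n(ν)` : the coefficient of `t ^ (2 n + 1)` in `R_{m,ν+2}(x) / R_{m+1,ν+1}(x)`. -/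
noncomputable def coeffC (m n : ℕ) : F :=
  (lommel m (nu + 2) / lommel (m + 1) (nu + 1)).coeff (2 * (n : ℤ) + 1)

/-- The exponent `f(m,n,j)` (floor division of integers; the value is nonnegative). -/
def fexp (m n j : ℕ) : ℕ :=
  if 2 * j = m then 1
  else (max (((n : ℤ) + 1) / ((j : ℤ) + 1))
    (((n : ℤ) + m + 1 - 2 * j) / ((m : ℤ) + 1 - j))).toNat

/-- `D^{(m)}_{n,ν}`. -/
noncomputable def denD (m n : ℕ) : F :=
  ∏ j ∈ Finset.range (m + 1), (nu + 1 + (j : F)) ^ fexp m n j

/-- `N^{(m)}_{n,ν}`. -/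
noncomputable def numN (m n : ℕ) : F := denD m n * coeffC m n

end Pool.Agent.Helper77.LomDefs
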