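import Mathlib

/-!
Path sums in a strip of levels `0..m` with vertex weights `1 / (x + level)`; the exchange recursion.
-/

namespace Pool.Agent.Helper77.Lom

open Finset

variable {K : Type*} [Field K]

/-- Sum over descending chains: `(x + a) * Rop x f a = f a + Rop x f (a - 1)`. -/
noncomputable def Rop (x : K) (f : ℕ → K) : ℕ → K
  | 0 => f 0 / x
  | (a + 1) => (f (a + 1) + Rop x f a) / (x + ((a + 1 : ℕ) : K))

/-- Jump up by `j` levels (inside the strip `0..m`). -/
def Up (m j : ℕ) (f : ℕ → K) : ℕ → K := fun i => if i + j ≤ m then f (i + j) else 0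

/-- Indicator of level `l`. -/
def ind (l : ℕ) : ℕ → K := fun i => if i = l then 1 else 0

/-- value at the previous level -/
def prev (f : ℕ → K) : ℕ → K
  | 0 => 0
  | (a + 1) => f a

theorem prev_zero (f : ℕ → K) : prev f 0 = 0 := rfl

theorem prev_succ (f : ℕ → K) (a : ℕ) : prev f (a + 1) = f a := rfl

/-- the basic objects -/
noncomputable def O (m : ℕ) (x : K) : List ℕ → ℕ → K
  | [] => Rop x (ind 0)
  | (j :: w) => Rop x (Up m j (O m x w))

/-- prefix operator -/
noncomputable def L (m : ℕ) (x : K) : List ℕ → (ℕ → K) → ℕ → K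
  | [], f => f
  | (j :: w), f => Rop x (Up m j (L m x w f))

section basic

theorem Rop_spec {x : K} (hx : ∀ i : ℕ, x + (i : K) ≠ 0) (f : ℕ → K) (a : ℕ) :
    (x + (a : K)) * Rop x f a = f a + prev (Rop x f) a := by
  cases a with
  | zero =>
    have h := hx 0
    simp only [Nat.cast_zero, add_zero] at h ⊢
    simp only [Rop, prev, add_zero]
    field_simp
  | succ a =>
    have h := hx (a + 1)
    simp only [Rop, prev]
    field_simp

theorem Rop_congr {x : K} {f g : ℕ → K} : ∀ {a : ℕ}, (∀ i ≤ a, f i = g i) → Rop x f a = Rop x g a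
  | 0, h => by simp only [Rop]; rw [h 0 le_rfl]
  | (a + 1), h => by
    simp only [Rop]
    rw [h (a + 1) le_rfl, Rop_congr (a := a) (fun i hi => h i (by omega))]

theorem Rop_add (x : K) (f g : ℕ → K) : ∀ a, Rop x (fun i => f i + g i) a = Rop x f a + Rop x g a
  | 0 => by simp only [Rop]; ring
  | (a + 1) => by
    simp only [Rop]
    rw [Rop_add x f g a]; ring

theorem Rop_mul (x c : K) (f : ℕ → K) : ∀ a, Rop x (fun i => f i * c) a = Rop x f a * c
  | 0 => by simp only [Rop]; ring
  | (a + 1) => by
    simp only [Rop]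
    rw [Rop_mul x c f a]; ring

theorem Rop_zero (x : K) : ∀ a, Rop x (fun _ => 0) a = 0
  | 0 => by simp only [Rop]; ring
  | (a + 1) => by
    simp only [Rop]
    rw [Rop_zero x a]; ring

theorem Rop_sum {ι : Type*} (x : K) (s : Finset ι) (f : ι → ℕ → K) (a : ℕ) :
    Rop x (fun i => ∑ k ∈ s, f k i) a = ∑ k ∈ s, Rop x (f k) a := by
  classical
  induction s using Finset.induction_on with
  | empty => simp [Rop_zero]
  | insert b s hb ih =>
    simp only [Finset.sum_insert hb]
    rw [Rop_add, ih]

theorem Rop_eq_zero {x : K} {f : ℕ → K} {a : ℕ} (h : ∀ i ≤ a, f i = 0) : Rop x f a = 0 := by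
  rw [Rop_congr (g := fun _ => 0) h, Rop_zero]

end basic

/-- Exchange lemma. -/
theorem exchange {m : ℕ} {x : K} (hx : ∀ i : ℕ, x + (i : K) ≠ 0) (f : ℕ → K) (s : K) {j : ℕ}
    (hj : 1 ≤ j) (hjm : j ≤ m) (a : ℕ) :
    (x + (a : K) + (s + (j : K))) * Rop x (Up m j f) a - prev (Rop x (Up m j f)) a
      = Rop x (Up m j (fun i => (x + (i : K) + s) * f i - prev f i)) a
        + Rop x (ind 0) a * f (j - 1) - Rop x (ind (m + 1 - j)) a * f m := by
  obtain ⟨j, rfl⟩ : ∃ k, j = k + 1 := ⟨j - 1, by omega⟩
  have key : ∀ a : ℕ, (s + ((j + 1 : ℕ) : K)) * Rop x (Up m (j + 1) f) a + Up m (j + 1) f a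
      = Rop x (Up m (j + 1) (fun i => (x + (i : K) + s) * f i - prev f i)) a
        + Rop x (ind 0) a * f j - Rop x (ind (m + 1 - (j + 1))) a * f m := by
    intro a
    induction a with
    | zero =>
      have h0 := hx 0
      simp only [Nat.cast_zero, add_zero] at h0
      have e1 : (0 : ℕ) ≠ m + 1 - (j + 1) := by omega
      have e2 : prev f (0 + (j + 1)) = f j := by rw [zero_add, prev_succ]
      simp only [Rop, Up, ind, zero_add, hjm, if_true, if_neg e1] at e2 ⊢
      rw [e2]
      field_simp
      push_cast
      ring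
    | succ a ih =>
      have h0 := hx (a + 1)
      apply mul_left_cancel₀ h0
      have s1 := Rop_spec hx (Up m (j + 1) f) (a + 1)
      have s2 := Rop_spec hx (Up m (j + 1) (fun i => (x + (i : K) + s) * f i - prev f i)) (a + 1)
      have s3 := Rop_spec hx (ind 0) (a + 1)
      have s4 := Rop_spec hx (ind (m + 1 - (j + 1))) (a + 1)
      simp only [prev_succ] at s1 s2 s3 s4
      have e0 : (ind 0 : ℕ → K) (a + 1) = 0 := by simp [ind]
      rw [e0, zero_add] at s3
      have lhs : (x + ((a + 1 : ℕ) : K)) * ((s + ((j + 1 : ℕ) : K)) * Rop x (Up m (j + 1) f) (a + 1)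
            + Up m (j + 1) f (a + 1))
          = (s + ((j + 1 : ℕ) : K)) * (Up m (j + 1) f (a + 1) + Rop x (Up m (j + 1) f) a)
            + (x + ((a + 1 : ℕ) : K)) * Up m (j + 1) f (a + 1) := by
        rw [← s1]; ring
      have rhs : (x + ((a + 1 : ℕ) : K)) *
            (Rop x (Up m (j + 1) (fun i => (x + (i : K) + s) * f i - prev f i)) (a + 1)
            + Rop x (ind 0) (a + 1) * f j - Rop x (ind (m + 1 - (j + 1))) (a + 1) * f m)
          = (Up m (j + 1) (fun i => (x + (i : K) + s) * f i - prev f i) (a + 1)
              + Rop x (Up m (j + 1) (fun i => (x + (i : K) + s) * f i - prev f i)) a)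
            + Rop x (ind 0) a * f j
            - (ind (m + 1 - (j + 1)) (a + 1) + Rop x (ind (m + 1 - (j + 1))) a) * f m := by
        rw [← s2, ← s3, ← s4]; ring
      rw [lhs, rhs]
      have main : (s + ((j + 1 : ℕ) : K)) * Up m (j + 1) f (a + 1)
            + (x + ((a + 1 : ℕ) : K)) * Up m (j + 1) f (a + 1)
          = Up m (j + 1) (fun i => (x + (i : K) + s) * f i - prev f i) (a + 1)
            + Up m (j + 1) f a - ind (m + 1 - (j + 1)) (a + 1) * f m := by
        simp only [Up, ind]
        rcases lt_trichotomy (a + 1 + (j + 1)) (m + 1) with h | h | h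
        · have h1 : a + 1 + (j + 1) ≤ m := by omega
          have h2 : a + (j + 1) ≤ m := by omega
          have h3 : a + 1 ≠ m + 1 - (j + 1) := by omega
          rw [if_pos h1, if_pos h1, if_pos h2, if_neg h3]
          have : prev f (a + 1 + (j + 1)) = f (a + (j + 1)) := by
            have : a + 1 + (j + 1) = (a + (j + 1)) + 1 := by omega
            rw [this]; rfl
          rw [this]
          push_cast
          ring
        · have h1 : ¬ (a + 1 + (j + 1) ≤ m) := by omega
          have h2 : a + (j + 1) ≤ m := by omega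
          have h3 : a + 1 = m + 1 - (j + 1) := by omega
          have h4 : a + (j + 1) = m := by omega
          rw [if_neg h1, if_neg h1, if_pos h2, if_pos h3, h4]
          ring
        · have h1 : ¬ (a + 1 + (j + 1) ≤ m) := by omega
          have h2 : ¬ (a + (j + 1) ≤ m) := by omega
          have h3 : a + 1 ≠ m + 1 - (j + 1) := by omega
          rw [if_neg h1, if_neg h1, if_neg h2, if_neg h3]
          ring
      linear_combination ih + main
  have h := key a
  have s1 := Rop_spec hx (Up m (j + 1) f) a
  have e : j + 1 - 1 = j := by omega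
  rw [e, ← h]
  linear_combination s1

/-- last jump function -/
noncomputable def gfun (m : ℕ) (x : K) : List ℕ → ℕ → K
  | [] => ind 0
  | (j :: w) => Up m j (O m x w)

theorem O_eq_Rop_gfun (m : ℕ) (x : K) (v : List ℕ) : O m x v = Rop x (gfun m x v) := by
  cases v <;> rfl

theorem Up_congr {m j : ℕ} {f g : ℕ → K} {a : ℕ} (h : ∀ i, i + j ≤ m → i ≤ a → f (i + j) = g (i + j)) :
    ∀ i ≤ a, Up m j f i = Up m j g i := by
  intro i hi
  simp only [Up]
  split
  · exact h i ‹_› hi
  · rfl

/-- The recursion. -/
theorem recursion {m : ℕ} {x : K} (hx : ∀ i : ℕ, x + (i : K) ≠ 0) :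
    ∀ (u v : List ℕ) (a : ℕ), (∀ j ∈ u, 1 ≤ j) → a + u.sum ≤ m →
    (x + (a : K) + (u.sum : K)) * O m x (u ++ v) a
      = prev (O m x (u ++ v)) a + (L m x u (gfun m x v) a
        + ∑ i ∈ range u.length,
            O m x (u.take i) a * O m x (u.drop (i + 1) ++ v) (u.getD i 0 - 1)) := by
  intro u
  induction u with
  | nil =>
    intro v a _ _
    have := Rop_spec hx (gfun m x v) a
    simp only [List.sum_nil, Nat.cast_zero, add_zero, List.nil_append, List.length_nil,
      Finset.range_zero, Finset.sum_empty, L]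
    rw [O_eq_Rop_gfun, this]; ring
  | cons j u ih =>
    intro v a hu ha
    have hj : 1 ≤ j := hu j (by simp)
    have hsum : (j :: u).sum = j + u.sum := List.sum_cons
    rw [hsum] at ha ⊢
    have hjm : j ≤ m := by omega
    have hex := exchange hx (O m x (u ++ v)) (u.sum : K) hj hjm a
    have hz : Rop x (ind (m + 1 - j)) a = (0 : K) := by
      apply Rop_eq_zero
      intro i hi
      simp only [ind]
      rw [if_neg (by omega)]
    rw [hz, zero_mul, sub_zero] at hex
    have hO : O m x ((j :: u) ++ v) = Rop x (Up m j (O m x (u ++ v))) := rfl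
    rw [hO]
    have hE : Rop x (Up m j (fun i => (x + (i : K) + (u.sum : K)) * O m x (u ++ v) i
          - prev (O m x (u ++ v)) i)) a
        = Rop x (Up m j (fun i => L m x u (gfun m x v) i
          + ∑ k ∈ range u.length,
            O m x (u.take k) i * O m x (u.drop (k + 1) ++ v) (u.getD k 0 - 1))) a := by
      apply Rop_congr
      apply Up_congr
      intro i hi hia
      have := ih v (i + j) (fun k hk => hu k (by simp [hk])) (by omega)
      rw [this]; ring
    rw [hE] at hex
    have hsplit : Rop x (Up m j (fun i => L m x u (gfun m x v) i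
          + ∑ k ∈ range u.length,
            O m x (u.take k) i * O m x (u.drop (k + 1) ++ v) (u.getD k 0 - 1))) a
        = L m x (j :: u) (gfun m x v) a + ∑ k ∈ range u.length,
            O m x (j :: u.take k) a * O m x (u.drop (k + 1) ++ v) (u.getD k 0 - 1) := by
      have h1 : (Up m j (fun i => L m x u (gfun m x v) i
          + ∑ k ∈ range u.length,
            O m x (u.take k) i * O m x (u.drop (k + 1) ++ v) (u.getD k 0 - 1)))
          = fun i => Up m j (L m x u (gfun m x v)) i + ∑ k ∈ range u.length,
            Up m j (O m x (u.take k)) i * O m x (u.drop (k + 1) ++ v) (u.getD k 0 - 1) := by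
        funext i
        simp only [Up]
        split
        · rfl
        · simp
      rw [h1, Rop_add, Rop_sum]
      congr 1
      apply Finset.sum_congr rfl
      intro k _
      rw [Rop_mul]
      rfl
    rw [hsplit] at hex
    have hlen : (j :: u).length = u.length + 1 := rfl
    rw [hlen, Finset.sum_range_succ']
    simp only [List.take_succ_cons, List.drop_succ_cons, List.getD_cons_succ, List.getD_cons_zero,
      List.take_zero, List.drop_zero]
    have hO0 : O m x [] = Rop x (ind 0) := rfl
    rw [hO0, Nat.cast_add]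
    linear_combination hex

end Pool.Agent.Helper77.Lom
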