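import Pool.Agent.Helper77.LomDefs
import Pool.Agent.Helper77.LomCone

/-!
The coefficients of the Lommel quotient are the path sums `O (replicate n 1) 0`.
-/

namespace Pool.Agent.Helper77.Lom

open Finset LomDefs

/-- coefficient of the Lommel polynomial -/
noncomputable def lc (M j : ℕ) (s : F) : F :=
  if 2 * j ≤ M then (-1 : F) ^ j * ((M - j).choose j : F) *
    ∏ i ∈ range (M - 2 * j), (s + (j : F) + (i : F)) else 0

theorem lommel_eq (M : ℕ) (s : F) {B : ℕ} (hB : M / 2 + 1 ≤ B) :
    lommel M s = ∑ j ∈ range B, HahnSeries.single (2 * (j : ℤ) - (M : ℤ)) (lc M j s) := by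
  have h1 : lommel M s
      = ∑ j ∈ range (M / 2 + 1), HahnSeries.single (2 * (j : ℤ) - (M : ℤ)) (lc M j s) := by
    unfold lommel
    apply Finset.sum_congr rfl
    intro j hj
    rw [mem_range] at hj
    have hj2 : 2 * j ≤ M := by omega
    have hc : (((M - j).factorial : F) / ((j.factorial : F) * ((M - 2 * j).factorial : F)))
        = ((M - j).choose j : F) := by
      rw [Nat.cast_choose F (show j ≤ M - j by omega)]
      congr 3
      congr 1
      omega
    rw [hc, lc, if_pos hj2]
  rw [h1]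
  apply Finset.sum_subset
  · intro j hj
    rw [mem_range] at *
    omega
  · intro j _ hj
    rw [mem_range] at hj
    rw [lc, if_neg (by omega)]
    simp

theorem lc_zero (M : ℕ) (s : F) : lc (M + 2) 0 s = s * lc (M + 1) 0 (s + 1) := by
  simp only [lc, mul_zero, Nat.zero_le, if_true, pow_zero, Nat.sub_zero, Nat.choose_zero_right,
    Nat.cast_one, one_mul, Nat.cast_zero, add_zero]
  rw [Finset.prod_range_succ']
  rw [mul_comm]
  congr 1
  · simp
  · apply Finset.prod_congr rfl
    intro i _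
    push_cast
    ring

theorem lc_succ (M k : ℕ) (s : F) :
    lc (M + 2) (k + 1) s = s * lc (M + 1) (k + 1) (s + 1) - lc M k (s + 2) := by
  rcases lt_trichotomy (2 * k) M with h | h | h
  · -- generic case
    obtain ⟨r, rfl⟩ : ∃ r, M = 2 * k + r + 1 := ⟨M - 2 * k - 1, by omega⟩
    rw [lc, lc, lc, if_pos (by omega), if_pos (by omega), if_pos (by omega)]
    have e1 : 2 * k + r + 1 + 2 - 2 * (k + 1) = r + 1 := by omega
    have e2 : 2 * k + r + 1 + 1 - 2 * (k + 1) = r := by omega
    have e3 : 2 * k + r + 1 - 2 * k = r + 1 := by omega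
    have e4 : 2 * k + r + 1 + 2 - (k + 1) = k + r + 1 + 1 := by omega
    have e5 : 2 * k + r + 1 + 1 - (k + 1) = k + r + 1 := by omega
    have e6 : 2 * k + r + 1 - k = k + r + 1 := by omega
    rw [e1, e2, e3, e4, e5, e6]
    have hP1 : ∏ i ∈ range (r + 1), (s + ((k + 1 : ℕ) : F) + (i : F))
        = (s + (k : F) + 1) * ∏ i ∈ range r, (s + (k : F) + 2 + (i : F)) := by
      rw [Finset.prod_range_succ', mul_comm]
      congr 1
      · push_cast; ring
      · apply Finset.prod_congr rfl
        intro i _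
        push_cast; ring
    have hP2 : ∏ i ∈ range r, (s + 1 + ((k + 1 : ℕ) : F) + (i : F))
        = ∏ i ∈ range r, (s + (k : F) + 2 + (i : F)) := by
      apply Finset.prod_congr rfl
      intro i _
      push_cast; ring
    have hP3 : ∏ i ∈ range (r + 1), (s + 2 + (k : F) + (i : F))
        = (∏ i ∈ range r, (s + (k : F) + 2 + (i : F))) * (s + (k : F) + 2 + (r : F)) := by
      rw [Finset.prod_range_succ]
      congr 1
      · apply Finset.prod_congr rfl
        intro i _
        ring
      · ring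
    rw [hP1, hP2, hP3]
    have c1 : ((k + r + 1 + 1).choose (k + 1) : F)
        = ((k + r + 1).choose k : F) + ((k + r + 1).choose (k + 1) : F) := by
      rw [Nat.choose_succ_succ]; push_cast; ring
    have c2 : ((k + r + 1 + 1 : ℕ) : F) * ((k + r + 1).choose k : F)
        = ((k + r + 1 + 1).choose (k + 1) : F) * ((k + 1 : ℕ) : F) := by
      have := Nat.add_one_mul_choose_eq (k + r + 1) k
      exact_mod_cast this
    push_cast at c2
    rw [pow_succ]
    rw [c1] at c2 ⊢
    linear_combination (-1 : F) ^ k * (∏ i ∈ range r, (s + (k : F) + 2 + (i : F))) * c2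
  · subst h
    rw [lc, lc, lc, if_pos (by omega), if_neg (by omega), if_pos (by omega)]
    have e1 : 2 * k + 2 - 2 * (k + 1) = 0 := by omega
    have e2 : 2 * k - 2 * k = 0 := by omega
    have e3 : 2 * k + 2 - (k + 1) = k + 1 := by omega
    have e4 : 2 * k - k = k := by omega
    rw [e1, e2, e3, e4]
    simp [pow_succ]
  · rw [lc, lc, lc, if_neg (by omega), if_neg (by omega), if_neg (by omega)]
    simp

/-- `t` -/
noncomputable def tt : LaurentSeries F := HahnSeries.single 1 1

theorem single_mul_sum (s : F) (a : ℤ) (B : ℕ) (g : ℕ → ℤ) (f : ℕ → F) :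
    (HahnSeries.single a s : LaurentSeries F) * ∑ j ∈ range B, HahnSeries.single (g j) (f j)
      = ∑ j ∈ range B, HahnSeries.single (a + g j) (s * f j) := by
  rw [Finset.mul_sum]
  apply Finset.sum_congr rfl
  intro j _
  rw [HahnSeries.single_mul_single]

theorem lommel_rec (M : ℕ) (s : F) :
    lommel (M + 2) s = HahnSeries.single (-1) s * lommel (M + 1) (s + 1) - lommel M (s + 2) := by
  rw [lommel_eq (M + 2) s (B := M + 3) (by omega), lommel_eq (M + 1) (s + 1) (B := M + 3) (by omega),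
    lommel_eq M (s + 2) (B := M + 2) (by omega), single_mul_sum]
  rw [Finset.sum_range_succ' _ (M + 2), Finset.sum_range_succ' _ (M + 2)]
  rw [lc_zero]
  have h0 : (2 * ((0 : ℕ) : ℤ) - ((M + 2 : ℕ) : ℤ)) = -1 + (2 * ((0 : ℕ) : ℤ) - ((M + 1 : ℕ) : ℤ)) := by
    push_cast; ring
  rw [h0]
  rw [add_sub_right_comm]
  congr 1
  rw [← Finset.sum_sub_distrib]
  apply Finset.sum_congr rfl
  intro k _
  have h1 : (2 * ((k + 1 : ℕ) : ℤ) - ((M + 2 : ℕ) : ℤ)) = 2 * (k : ℤ) - (M : ℤ) := by
    push_cast; ring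
  have h2 : (-1 + (2 * ((k + 1 : ℕ) : ℤ) - ((M + 1 : ℕ) : ℤ))) = 2 * (k : ℤ) - (M : ℤ) := by
    push_cast; ring
  rw [h1, h2, lc_succ]
  exact HahnSeries.single_sub _ _ _

theorem lommel_zero (s : F) : lommel 0 s = 1 := by
  rw [lommel_eq 0 s (B := 1) (by omega)]
  simp [lc]

theorem lommel_one (s : F) : lommel 1 s = HahnSeries.single (-1) s := by
  rw [lommel_eq 1 s (B := 1) (by omega)]
  simp [lc]

/-- generating series of the path sums, in `t` (only even powers occur) -/
noncomputable def V (m : ℕ) (x : F) (a : ℕ) : PowerSeries F :=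
  PowerSeries.mk fun n => if n % 2 = 0 then O m x (List.replicate (n / 2) 1) a else 0

theorem O_rec {m : ℕ} {x : F} (hx : ∀ i : ℕ, x + (i : F) ≠ 0) (p a : ℕ) :
    (x + (a : F)) * O m x (List.replicate p 1) a
      = (if p = 0 then (if a = 0 then 1 else 0)
          else (if a + 1 ≤ m then O m x (List.replicate (p - 1) 1) (a + 1) else 0))
        + prev (O m x (List.replicate p 1)) a := by
  have h := Rop_spec hx (gfun m x (List.replicate p 1)) a
  rw [← O_eq_Rop_gfun] at h
  rw [h]
  congr 1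
  cases p with
  | zero => simp [gfun, ind]
  | succ p => simp [gfun, List.replicate_succ, Up]

theorem V_rec {m : ℕ} {x : F} (hx : ∀ i : ℕ, x + (i : F) ≠ 0) (a : ℕ) :
    PowerSeries.C (x + (a : F)) * V m x a
      = (if a = 0 then 1 else V m x (a - 1))
        + (if a + 1 ≤ m then PowerSeries.X ^ 2 * V m x (a + 1) else 0) := by
  ext n
  rw [PowerSeries.coeff_C_mul, map_add]
  have h1 : PowerSeries.coeff n (V m x a)
      = if n % 2 = 0 then O m x (List.replicate (n / 2) 1) a else 0 := by
    simp [V]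
  have h2 : PowerSeries.coeff n (if a + 1 ≤ m then PowerSeries.X ^ 2 * V m x (a + 1) else 0)
      = if a + 1 ≤ m then (if 2 ≤ n ∧ n % 2 = 0 then
          O m x (List.replicate ((n - 2) / 2) 1) (a + 1) else 0) else 0 := by
    split
    · rw [PowerSeries.coeff_X_pow_mul']
      by_cases hn : 2 ≤ n
      · rw [if_pos hn]
        simp only [V, PowerSeries.coeff_mk, hn, true_and]
        have : (n - 2) % 2 = n % 2 := by omega
        rw [this]
      · rw [if_neg hn, if_neg (by tauto)]
    · simp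
  have h3 : PowerSeries.coeff n (if a = 0 then 1 else V m x (a - 1))
      = if a = 0 then (if n = 0 then 1 else 0)
        else (if n % 2 = 0 then O m x (List.replicate (n / 2) 1) (a - 1) else 0) := by
    split
    · rw [PowerSeries.coeff_one]
    · simp [V]
  rw [h1, h2, h3]
  by_cases hn : n % 2 = 0
  · rw [if_pos hn, O_rec hx]
    obtain ⟨p, rfl⟩ : ∃ p, n = 2 * p := ⟨n / 2, by omega⟩
    have e1 : 2 * p / 2 = p := by omega
    rw [e1]
    cases p with
    | zero =>
      cases a with
      | zero => simp [prev]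
      | succ a => simp [prev]
    | succ p =>
      have e2 : (2 * (p + 1) - 2) / 2 = p := by omega
      have e3 : 2 ≤ 2 * (p + 1) := by omega
      have e4 : 2 * (p + 1) % 2 = 0 := by omega
      rw [e2]
      cases a with
      | zero => simp [prev, e3]
      | succ a => simp [prev, e3]; ring
  · rw [if_neg hn]
    have : ¬ (2 ≤ n ∧ n % 2 = 0) := by tauto
    have h0 : n ≠ 0 := by rintro rfl; simp at hn
    simp [h0, hn]

/-- the continuant of the levels `a..m` -/
noncomputable def Q (m : ℕ) (x : F) (a : ℕ) : LaurentSeries F :=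
  HahnSeries.single ((m : ℤ) + 1 - a) 1 * lommel (m + 1 - a) (x + (a : F))

theorem Q_top (m : ℕ) (x : F) : Q m x (m + 1) = 1 := by
  unfold Q
  rw [Nat.sub_self, lommel_zero]
  have : ((m : ℤ) + 1 - ((m + 1 : ℕ) : ℤ)) = 0 := by push_cast; ring
  rw [this]
  simp

theorem Q_m (m : ℕ) (x : F) : Q m x m = HahnSeries.single 0 (x + (m : F)) := by
  unfold Q
  have e : m + 1 - m = 1 := by omega
  rw [e, lommel_one, HahnSeries.single_mul_single]
  have : ((m : ℤ) + 1 - (m : ℤ)) + -1 = 0 := by ring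
  rw [this, one_mul]

theorem Q_rec {m : ℕ} (x : F) {a : ℕ} (ha : a + 1 ≤ m) :
    Q m x a = HahnSeries.single 0 (x + (a : F)) * Q m x (a + 1)
      - HahnSeries.single 2 1 * Q m x (a + 2) := by
  unfold Q
  obtain ⟨M, hM⟩ : ∃ M, m = a + 1 + M := ⟨m - (a + 1), by omega⟩
  subst hM
  have e1 : a + 1 + M + 1 - a = M + 2 := by omega
  have e2 : a + 1 + M + 1 - (a + 1) = M + 1 := by omega
  have e3 : a + 1 + M + 1 - (a + 2) = M := by omega
  rw [e1, e2, e3, lommel_rec, mul_sub, ← mul_assoc, ← mul_assoc, ← mul_assoc,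
    HahnSeries.single_mul_single, HahnSeries.single_mul_single, HahnSeries.single_mul_single]
  have f1 : ((a + 1 + M : ℕ) : ℤ) + 1 - (a : ℤ) + -1 = 0 + (((a + 1 + M : ℕ) : ℤ) + 1 - ((a + 1 : ℕ) : ℤ)) := by
    push_cast; ring
  have f2 : ((a + 1 + M : ℕ) : ℤ) + 1 - (a : ℤ) = 2 + (((a + 1 + M : ℕ) : ℤ) + 1 - ((a + 2 : ℕ) : ℤ)) := by
    push_cast; ring
  have g1 : x + (a : F) + 1 = x + ((a + 1 : ℕ) : F) := by push_cast; ring
  have g2 : x + (a : F) + 2 = x + ((a + 2 : ℕ) : F) := by push_cast; ring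
  rw [f1, g1, g2, ← f2]
  simp

/-- `V` as a Laurent series -/
noncomputable def VL (m : ℕ) (x : F) (a : ℕ) : LaurentSeries F := (V m x a : LaurentSeries F)

theorem VL_rec {m : ℕ} {x : F} (hx : ∀ i : ℕ, x + (i : F) ≠ 0) (a : ℕ) :
    HahnSeries.single 0 (x + (a : F)) * VL m x a
      = (if a = 0 then 1 else VL m x (a - 1))
        + (if a + 1 ≤ m then HahnSeries.single 2 1 * VL m x (a + 1) else 0) := by
  have h := congrArg (HahnSeries.ofPowerSeries ℤ F) (V_rec (m := m) hx a)
  rw [map_mul, map_add (HahnSeries.ofPowerSeries ℤ F) (ite _ _ _)] at h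
  have hC : HahnSeries.ofPowerSeries ℤ F (PowerSeries.C (x + (a : F)))
      = HahnSeries.single 0 (x + (a : F)) := by
    rw [HahnSeries.ofPowerSeries_C]; rfl
  rw [hC] at h
  unfold VL
  rw [show ((V m x a : LaurentSeries F)) = HahnSeries.ofPowerSeries ℤ F (V m x a) from rfl, h]
  congr 1
  · split
    · simp
    · rfl
  · split
    · rw [map_mul, map_pow, HahnSeries.ofPowerSeries_X]
      congr 1
      rw [HahnSeries.single_pow]
      simp
    · simp

theorem Q_VL {m : ℕ} {x : F} (hx : ∀ i : ℕ, x + (i : F) ≠ 0) :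
    ∀ k a : ℕ, a + k = m → 1 ≤ a → Q m x a * VL m x a = Q m x (a + 1) * VL m x (a - 1) := by
  intro k
  induction k with
  | zero =>
    intro a ha h1
    have ha' : a = m := by omega
    subst ha'
    rw [Q_m, Q_top, one_mul, VL_rec hx, if_neg (by omega), if_neg (by omega), add_zero]
  | succ k ih =>
    intro a ha h1
    have h2 := ih (a + 1) (by omega) (by omega)
    have h3 := VL_rec (m := m) hx a
    rw [if_neg (by omega), if_pos (by omega)] at h3
    rw [Q_rec x (show a + 1 ≤ m by omega)]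
    have e : a + 1 - 1 = a := by omega
    rw [e] at h2
    linear_combination Q m x (a + 1) * h3 + HahnSeries.single 2 1 * h2

theorem Q0_VL {m : ℕ} {x : F} (hx : ∀ i : ℕ, x + (i : F) ≠ 0) :
    Q m x 0 * VL m x 0 = Q m x 1 := by
  have h3 := VL_rec (m := m) hx 0
  rw [if_pos rfl] at h3
  cases m with
  | zero =>
    rw [if_neg (by omega)] at h3
    have e1 := Q_m 0 x
    have e2 := Q_top 0 x
    rw [e1, h3, e2, add_zero]
  | succ m =>
    rw [if_pos (by omega)] at h3
    have h2 := Q_VL (m := m + 1) hx m 1 (by omega) le_rfl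
    rw [Q_rec x (show 0 + 1 ≤ m + 1 by omega)]
    simp only [zero_add] at h3 h2 ⊢
    linear_combination Q (m + 1) x 1 * h3 + HahnSeries.single 2 1 * h2

theorem lommel_ne_zero {M : ℕ} {s : F} (hs : ∀ i : ℕ, s + (i : F) ≠ 0) : lommel M s ≠ 0 := by
  intro h
  have h1 : (lommel M s).coeff (-(M : ℤ)) = ∏ i ∈ range M, (s + (i : F)) := by
    rw [lommel_eq M s (B := M / 2 + 1) le_rfl, HahnSeries.coeff_sum, Finset.sum_eq_single 0]
    · simp [lc]
    · intro b _ hb
      rw [HahnSeries.coeff_single_of_ne]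
      omega
    · intro h0; simp at h0
  rw [h] at h1
  have h2 : ∏ i ∈ range M, (s + (i : F)) ≠ 0 := Finset.prod_ne_zero_iff.mpr (fun i _ => hs i)
  exact h2 (by rw [← h1]; rfl)

theorem ratio_coeff {m : ℕ} {x : F} (hx : ∀ i : ℕ, x + (i : F) ≠ 0) (n : ℕ) :
    (lommel m (x + 1) / lommel (m + 1) x).coeff (2 * (n : ℤ) + 1)
      = O m x (List.replicate n 1) 0 := by
  have h0 := Q0_VL (m := m) hx
  have hne := lommel_ne_zero (M := m + 1) hx
  have hdiv : lommel m (x + 1) / lommel (m + 1) x = HahnSeries.single 1 1 * VL m x 0 := by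
    rw [div_eq_iff hne]
    unfold Q at h0
    simp only [Nat.sub_zero, Nat.cast_zero, add_zero, sub_zero, Nat.add_sub_cancel, Nat.cast_one]
      at h0
    have hm : (m : ℤ) + 1 - 1 = m := by ring
    rw [hm] at h0
    have hs : (HahnSeries.single ((m : ℤ) + 1) 1 : LaurentSeries F)
        = HahnSeries.single (m : ℤ) 1 * HahnSeries.single 1 1 := by
      rw [HahnSeries.single_mul_single, one_mul]
    rw [hs] at h0
    have hn : (HahnSeries.single (m : ℤ) 1 : LaurentSeries F) ≠ 0 := by
      simp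
    apply mul_left_cancel₀ hn
    linear_combination -h0
  rw [hdiv]
  have h1 : (2 * (n : ℤ) + 1) = ((2 * n : ℕ) : ℤ) + 1 := by push_cast; ring
  rw [h1, HahnSeries.coeff_single_mul_add, one_mul]
  unfold VL
  rw [LaurentSeries.coeff_coe_powerSeries]
  simp [V]

theorem nu_add_ne (i : ℕ) : nu + 1 + (i : F) ≠ 0 := by
  have h : nu + 1 + (i : F) = algebraMap (Polynomial ℚ) F (Polynomial.X + Polynomial.C ((i : ℚ) + 1)) := by
    rw [map_add, RatFunc.algebraMap_X, RatFunc.algebraMap_C]
    unfold nu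
    rw [map_add, map_natCast, map_one]
    ring
  rw [h]
  rw [Ne, FaithfulSMul.algebraMap_eq_zero_iff]
  exact Polynomial.X_add_C_ne_zero _

theorem coeffC_eq (m n : ℕ) : coeffC m n = O m (nu + 1) (List.replicate n 1) 0 := by
  unfold coeffC
  rw [← ratio_coeff nu_add_ne]
  have : nu + 2 = nu + 1 + 1 := by ring
  rw [this]

end Pool.Agent.Helper77.Lom
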