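import Mathlib

set_option autoImplicit false

/-! Pseudomanifold subsets of a fixed graph: `PM G n A` says that the subgraph induced on `A` is
a flag normal pseudomanifold with facets of size `n`. -/

namespace Pool.Agent.Helper77.PMan

open Finset

noncomputable section

open scoped Classical

variable {V : Type*} {G : SimpleGraph V}

/-- neighbours of `v` inside `A` -/
def nb (G : SimpleGraph V) (A : Finset V) (v : V) : Finset V := A.filter (fun w => G.Adj v w)

/-- non-neighbours of `x` in `A`, different from `x` -/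
def nn (G : SimpleGraph V) (A : Finset V) (x : V) : Finset V :=
  A.filter (fun w => w ≠ x ∧ ¬ G.Adj x w)

/-- `B` is closed under adjacency in `A` -/
def Clo (G : SimpleGraph V) (A B : Finset V) : Prop :=
  ∀ v ∈ B, ∀ w ∈ A, G.Adj v w → w ∈ B

/-- the subgraph induced on `A` is connected (or empty) -/
def Conn (G : SimpleGraph V) (A : Finset V) : Prop :=
  ∀ B ⊆ A, B.Nonempty → Clo G A B → B = A

/-- pseudomanifold subsets -/
def PM (G : SimpleGraph V) : ℕ → Finset V → Prop
  | 0, A => A = ∅
  | 1, A => ∃ u v, u ≠ v ∧ ¬ G.Adj u v ∧ A = {u, v}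
  | (n + 2), A => A.Nonempty ∧ Conn G A ∧ ∀ v ∈ A, PM G (n + 1) (nb G A v)

theorem mem_nb {A : Finset V} {v w : V} : w ∈ nb G A v ↔ w ∈ A ∧ G.Adj v w := by
  simp [nb]

theorem mem_nn {A : Finset V} {v w : V} : w ∈ nn G A v ↔ w ∈ A ∧ w ≠ v ∧ ¬ G.Adj v w := by
  simp [nn]

theorem nb_subset {A : Finset V} {v : V} : nb G A v ⊆ A := filter_subset _ _

theorem nb_mono {A B : Finset V} (h : A ⊆ B) (v : V) : nb G A v ⊆ nb G B v := by
  intro w hw
  rw [mem_nb] at hw ⊢
  exact ⟨h hw.1, hw.2⟩

theorem nb_comm {A : Finset V} {u v : V} : nb G (nb G A u) v = nb G (nb G A v) u := by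
  ext w
  simp only [mem_nb]
  tauto

theorem not_mem_nb_self {A : Finset V} {v : V} : v ∉ nb G A v := by
  simp [mem_nb]

theorem PM.link {n : ℕ} {A : Finset V} (h : PM G (n + 1) A) {v : V} (hv : v ∈ A) :
    PM G n (nb G A v) := by
  cases n with
  | zero =>
    obtain ⟨a, b, hab, hadj, rfl⟩ := h
    change nb G {a, b} v = ∅
    rw [eq_empty_iff_forall_notMem]
    intro w hw
    rw [mem_nb] at hw
    obtain ⟨hw1, hw2⟩ := hw
    rw [mem_insert, mem_singleton] at hw1 hv
    rcases hv with rfl | rfl <;> rcases hw1 with rfl | rfl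
    · exact hw2.ne rfl
    · exact hadj hw2
    · exact hadj hw2.symm
    · exact hw2.ne rfl
  | succ n => exact h.2.2 v hv

theorem PM.nonempty {n : ℕ} {A : Finset V} (h : PM G (n + 1) A) : A.Nonempty := by
  cases n with
  | zero =>
    obtain ⟨a, b, hab, hadj, rfl⟩ := h
    exact ⟨a, by simp⟩
  | succ n => exact h.1

theorem PM.conn {n : ℕ} {A : Finset V} (h : PM G (n + 2) A) : Conn G A := h.2.1

theorem PM.exists_nonadj {n : ℕ} : ∀ {A : Finset V}, PM G (n + 1) A → ∀ {v : V}, v ∈ A →
    ∃ w ∈ A, w ≠ v ∧ ¬ G.Adj v w := by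
  induction n with
  | zero =>
    intro A h v hv
    obtain ⟨a, b, hab, hadj, rfl⟩ := h
    rw [mem_insert, mem_singleton] at hv
    rcases hv with rfl | rfl
    · exact ⟨b, by simp, hab.symm, hadj⟩
    · exact ⟨a, by simp, hab, fun h => hadj h.symm⟩
  | succ n ih =>
    intro A h v hv
    obtain ⟨y, hy⟩ := (h.link hv).nonempty
    rw [mem_nb] at hy
    have hv' : v ∈ nb G A y := mem_nb.2 ⟨hv, hy.2.symm⟩
    obtain ⟨w, hw, hwv, hadj⟩ := ih (h.link hy.1) hv'
    exact ⟨w, (mem_nb.1 hw).1, hwv, hadj⟩

theorem PM.card_ge {n : ℕ} : ∀ {A : Finset V}, PM G n A → 2 * n ≤ A.card := by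
  induction n with
  | zero => intro A _; simp
  | succ n ih =>
    intro A h
    obtain ⟨v, hv⟩ := h.nonempty
    obtain ⟨w, hw, hwv, hadj⟩ := h.exists_nonadj hv
    have h1 := ih (h.link hv)
    have h2 : insert v (insert w (nb G A v)) ⊆ A := by
      intro z hz
      rw [mem_insert, mem_insert] at hz
      rcases hz with rfl | rfl | hz
      · exact hv
      · exact hw
      · exact nb_subset hz
    have h3 := card_le_card h2
    rw [card_insert_of_notMem, card_insert_of_notMem] at h3
    · omega
    · rw [mem_nb]; tauto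
    · rw [mem_insert]
      rintro (h | h)
      · exact hwv h.symm
      · exact not_mem_nb_self h

/-- a pseudomanifold contained in a pseudomanifold of the same dimension is everything -/
theorem PM.eq_of_subset {n : ℕ} : ∀ {A B : Finset V}, PM G n B → PM G n A → B ⊆ A → B = A := by
  induction n with
  | zero => intro A B hB hA _; rw [show A = ∅ from hA, show B = ∅ from hB]
  | succ n ih =>
    intro A B hB hA hBA
    cases n with
    | zero =>
      obtain ⟨a, b, hab, hadj, rfl⟩ := hA
      obtain ⟨c, d, hcd, hadj', rfl⟩ := hB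
      apply eq_of_subset_of_card_le hBA
      rw [card_pair hab, card_pair hcd]
    | succ n =>
      refine hA.conn B hBA hB.nonempty ?_
      intro v hv w hw hvw
      have h1 := ih (hB.link hv) (hA.link (hBA hv)) (nb_mono hBA v)
      have h2 : w ∈ nb G A v := mem_nb.2 ⟨hw, hvw⟩
      rw [← h1] at h2
      exact nb_subset h2

theorem PM.unique {n : ℕ} : ∀ {m : ℕ} {A : Finset V}, PM G n A → PM G m A → n = m := by
  induction n with
  | zero =>
    intro m A hn hm
    cases m with
    | zero => rfl
    | succ m =>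
      obtain ⟨v, hv⟩ := hm.nonempty
      rw [show A = ∅ from hn] at hv
      exact absurd hv (notMem_empty v)
  | succ n ih =>
    intro m A hn hm
    cases m with
    | zero =>
      obtain ⟨v, hv⟩ := hn.nonempty
      rw [show A = ∅ from hm] at hv
      exact absurd hv (notMem_empty v)
    | succ m =>
      obtain ⟨v, hv⟩ := hn.nonempty
      rw [ih (hn.link hv) (hm.link hv)]

/-- cliques have at most `n` elements -/
theorem PM.clique_card_le {n : ℕ} : ∀ {A S : Finset V}, PM G n A → S ⊆ A →
    (∀ u ∈ S, ∀ v ∈ S, u ≠ v → G.Adj u v) → S.card ≤ n := by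
  induction n with
  | zero =>
    intro A S hA hS _
    rw [show A = ∅ from hA] at hS
    rw [subset_empty.1 hS]; simp
  | succ n ih =>
    intro A S hA hS hcl
    rcases S.eq_empty_or_nonempty with rfl | ⟨v, hv⟩
    · simp
    · have h1 := ih (hA.link (hS hv)) (S := S.erase v) (by
        intro w hw
        rw [mem_erase] at hw
        exact mem_nb.2 ⟨hS hw.2, hcl v hv w hw.2 hw.1.symm⟩) (by
        intro a ha b hb hab
        exact hcl a (mem_of_mem_erase ha) b (mem_of_mem_erase hb) hab)
      rw [card_erase_of_mem hv] at h1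
      omega

/-- two non-adjacent vertices with the same neighbours: the pseudomanifold is a suspension -/
theorem PM.eq_suspension {n : ℕ} : ∀ {A : Finset V}, PM G (n + 1) A → ∀ {u u' : V}, u ∈ A → u' ∈ A →
    u ≠ u' → ¬ G.Adj u u' → nb G A u = nb G A u' → A = insert u (insert u' (nb G A u)) := by
  induction n with
  | zero =>
    intro A h u u' hu hu' hne hadj hnb
    obtain ⟨a, b, hab, hadj', rfl⟩ := h
    symm
    apply eq_of_subset_of_card_le
    · intro z hz
      rw [mem_insert, mem_insert] at hz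
      rcases hz with rfl | rfl | hz
      · exact hu
      · exact hu'
      · exact nb_subset hz
    · rw [card_pair hab, card_insert_of_notMem, card_insert_of_notMem]
      · omega
      · rw [mem_nb]; tauto
      · rw [mem_insert]
        rintro (h | h)
        · exact hne h
        · exact not_mem_nb_self h
  | succ n ih =>
    intro A h u u' hu hu' hne hadj hnb
    symm
    refine h.conn _ ?_ ⟨u, by simp⟩ ?_
    · intro z hz
      rw [mem_insert, mem_insert] at hz
      rcases hz with rfl | rfl | hz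
      · exact hu
      · exact hu'
      · exact nb_subset hz
    · intro y hy w hw hyw
      rw [mem_insert, mem_insert] at hy
      rcases hy with rfl | rfl | hy
      · rw [mem_insert, mem_insert]
        exact Or.inr (Or.inr (mem_nb.2 ⟨hw, hyw⟩))
      · rw [mem_insert, mem_insert]
        refine Or.inr (Or.inr ?_)
        rw [hnb]
        exact mem_nb.2 ⟨hw, hyw⟩
      · have hy1 := mem_nb.1 hy
        have hy2 : y ∈ nb G A u' := by rw [← hnb]; exact hy
        have hy3 := mem_nb.1 hy2
        have h1 := ih (h.link hy1.1) (u := u) (u' := u') (mem_nb.2 ⟨hu, hy1.2.symm⟩)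
          (mem_nb.2 ⟨hu', hy3.2.symm⟩) hne hadj (by rw [nb_comm, hnb, nb_comm])
        have h2 : w ∈ nb G A y := mem_nb.2 ⟨hw, hyw⟩
        rw [h1, mem_insert, mem_insert] at h2
        rw [mem_insert, mem_insert]
        rcases h2 with h2 | h2 | h2
        · exact Or.inl h2
        · exact Or.inr (Or.inl h2)
        · refine Or.inr (Or.inr ?_)
          exact nb_mono nb_subset u h2

/-- unique non-neighbour -/
theorem PM.unique_nonadj {n : ℕ} {A : Finset V} (h : PM G (n + 1) A) {x x' : V} (hx : x ∈ A)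
    (hx' : ∀ w ∈ A, w ≠ x → ¬ G.Adj x w → w = x') {y : V} (hy : y ∈ nb G A x) : G.Adj x' y := by
  cases n with
  | zero =>
    obtain ⟨z, hz⟩ : (nb G A x).Nonempty := ⟨y, hy⟩
    have := h.link hx
    rw [show nb G A x = ∅ from this] at hy
    exact absurd hy (notMem_empty y)
  | succ n =>
    have hy1 := mem_nb.1 hy
    obtain ⟨w, hw, hwx, hadj⟩ := (h.link hy1.1).exists_nonadj (v := x) (mem_nb.2 ⟨hx, hy1.2.symm⟩)
    have hw1 := mem_nb.1 hw
    have := hx' w hw1.1 hwx hadj
    rw [← this]
    exact hw1.2.symm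

/-- union of the links of two adjacent vertices -/
theorem PM.union_ge {n : ℕ} {A : Finset V} (h : PM G (n + 2) A) {i j : V} (hi : i ∈ A) (hj : j ∈ A)
    (hij : G.Adj i j) : (nb G A i).card + 2 ≤ (nb G A i ∪ nb G A j).card := by
  obtain ⟨z, hz, hzi, hadj⟩ := (h.link hj).exists_nonadj (v := i) (mem_nb.2 ⟨hi, hij.symm⟩)
  have h1 : insert i (insert z (nb G A i)) ⊆ nb G A i ∪ nb G A j := by
    intro w hw
    rw [mem_insert, mem_insert] at hw
    rw [mem_union]
    rcases hw with rfl | rfl | hw
    · exact Or.inr (mem_nb.2 ⟨hi, hij.symm⟩)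
    · exact Or.inr hz
    · exact Or.inl hw
  have h2 := card_le_card h1
  rw [card_insert_of_notMem, card_insert_of_notMem] at h2
  · exact h2
  · rw [mem_nb]; tauto
  · rw [mem_insert]
    rintro (h | h)
    · exact hzi h.symm
    · exact not_mem_nb_self h

/-- in a minimal pseudomanifold (cross-polytope) antipodes are unique -/
theorem PM.antipode_unique {m : ℕ} {L : Finset V} (h : PM G (m + 1) L) (hc : L.card = 2 * (m + 1))
    {y z₁ z₂ : V} (hy : y ∈ L) (h₁ : z₁ ∈ L) (h₂ : z₂ ∈ L) (n₁ : z₁ ≠ y) (n₂ : z₂ ≠ y)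
    (a₁ : ¬ G.Adj y z₁) (a₂ : ¬ G.Adj y z₂) : z₁ = z₂ := by
  by_contra hne
  have h1 := (h.link hy).card_ge
  have h2 : insert y (insert z₁ (insert z₂ (nb G L y))) ⊆ L := by
    intro w hw
    rw [mem_insert, mem_insert, mem_insert] at hw
    rcases hw with rfl | rfl | rfl | hw
    · exact hy
    · exact h₁
    · exact h₂
    · exact nb_subset hw
  have h3 := card_le_card h2
  rw [card_insert_of_notMem, card_insert_of_notMem, card_insert_of_notMem] at h3
  · omega
  · rw [mem_nb]; tauto
  · rw [mem_insert, mem_nb]; tauto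
  · rw [mem_insert, mem_insert, mem_nb]
    rintro (h | h | h)
    · exact n₁ h.symm
    · exact n₂ h.symm
    · exact h.2.ne rfl

/-- three mutually adjacent vertices with minimal links force a minimal pseudomanifold -/
theorem PM.three_minimal {m : ℕ} {N : Finset V} (h : PM G (m + 2) N) {u v w : V} (hu : u ∈ N)
    (hv : v ∈ N) (hw : w ∈ N) (huv : G.Adj u v) (huw : G.Adj u w) (hvw : G.Adj v w)
    (cu : (nb G N u).card = 2 * (m + 1)) (cv : (nb G N v).card = 2 * (m + 1))
    (cw : (nb G N w).card = 2 * (m + 1)) : N.card = 2 * (m + 2) := by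
  obtain ⟨u', hu'v, hu'u, hadj⟩ := (h.link hv).exists_nonadj (v := u) (mem_nb.2 ⟨hu, huv.symm⟩)
  have hu'1 := mem_nb.1 hu'v
  have huv' : u ∈ nb G N v := mem_nb.2 ⟨hu, huv.symm⟩
  -- `u' ~ w`
  have hwu' : G.Adj w u' := by
    by_contra hno
    have h1 := (h.link hv).antipode_unique cv (y := u') (z₁ := u) (z₂ := w) hu'v huv'
      (mem_nb.2 ⟨hw, hvw⟩) (fun e => hu'u e.symm)
      (by rintro rfl; exact hadj huw) (fun e => hadj e.symm) (fun e => hno e.symm)
    exact huw.ne h1
  have key : nb G N u ⊆ nb G N u' := by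
    intro y hy
    have hy1 := mem_nb.1 hy
    rw [mem_nb]
    refine ⟨hy1.1, ?_⟩
    by_contra hno
    by_cases hyv : y = v
    · rw [hyv] at hno
      exact hno hu'1.2.symm
    · have hyu' : y ≠ u' := by
        rintro rfl
        exact hadj hy1.2
      by_cases hyv2 : G.Adj v y
      · have h1 := (h.link hv).antipode_unique cv (y := u') (z₁ := u) (z₂ := y) hu'v huv'
          (mem_nb.2 ⟨hy1.1, hyv2⟩) (fun e => hu'u e.symm) hyu' (fun e => hadj e.symm) hno
        exact hy1.2.ne h1
      · -- `y ~ w`
        have hwy : G.Adj w y := by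
          by_contra hno2
          have hyw : w ≠ y := by
            rintro rfl
            exact hyv2 hvw
          have h1 := (h.link hu).antipode_unique cu (y := y) (z₁ := v) (z₂ := w) hy
            (mem_nb.2 ⟨hv, huv⟩) (mem_nb.2 ⟨hw, huw⟩) (fun e => hyv e.symm) hyw
            (fun e => hyv2 e.symm) (fun e => hno2 e.symm)
          exact hvw.ne h1
        have h1 := (h.link hw).antipode_unique cw (y := u') (z₁ := u) (z₂ := y)
          (mem_nb.2 ⟨hu'1.1, hwu'⟩) (mem_nb.2 ⟨hu, huw.symm⟩) (mem_nb.2 ⟨hy1.1, hwy⟩)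
          (fun e => hu'u e.symm) hyu' (fun e => hadj e.symm) hno
        exact hy1.2.ne h1
  have heq := (h.link hu).eq_of_subset (h.link hu'1.1) key
  have h2 := h.eq_suspension hu hu'1.1 (fun e => hu'u e.symm) hadj heq
  have h3 := congrArg card h2
  rw [card_insert_of_notMem, card_insert_of_notMem, cu] at h3
  · omega
  · rw [mem_nb]; tauto
  · rw [mem_insert]
    rintro (h | h)
    · exact hu'u h.symm
    · exact not_mem_nb_self h

end

end Pool.Agent.Helper77.PMan
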