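import Mathlib

set_option autoImplicit false

/-! Definitions of the problem file `MP_c38f4a_co`: discrete pseudomanifolds and `gamma_2`. -/

namespace Pool.Agent.Helper77.PseudoM

universe u

/-- discrete `d`-pseudomanifolds (there are none for `d = 0`): for `d = 1` the cycles `C_n` with
`n ≥ 4`, for `d + 2` the connected graphs all of whose vertex neighbourhoods (induced subgraphs on
the sets of neighbours) are discrete `(d + 1)`-pseudomanifolds -/
def IsPseudomanifold : ℕ → ∀ {V : Type u}, SimpleGraph V → Prop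
  | 0, _, _ => False
  | 1, _, M => ∃ n : ℕ, 4 ≤ n ∧ Nonempty (M ≃g SimpleGraph.cycleGraph n)
  | (d + 2), _, M => M.Connected ∧ ∀ v, IsPseudomanifold (d + 1) (M.induce (M.neighborSet v))

/-- `f₁(M) - (2 d - 1) f₀(M) + (d - 1)(2 d + 2)` -/
noncomputable def gamma2 (d : ℕ) {V : Type u} (M : SimpleGraph V) : ℤ :=
  (M.edgeSet.ncard : ℤ) - (2 * (d : ℤ) - 1) * (Nat.card V : ℤ) + ((d : ℤ) - 1) * (2 * (d : ℤ) + 2)

end Pool.Agent.Helper77.PseudoM
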