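import Pool.Agent.Helper77.PMIso

set_option autoImplicit false

/-! The case of surfaces (`n = 3`): `e2 A + 12 ≥ 6 |A|`. -/

namespace Pool.Agent.Helper77.PMan

open Finset

noncomputable section

open scoped Classical

variable {V : Type*} {G : SimpleGraph V}

theorem PM.conn_erase {k : ℕ} {A : Finset V} (h : PM G (k + 3) A) {v : V} (hv : v ∈ A) :
    Conn G (A.erase v) := by
  intro B hB hne hclo
  have hvB : v ∉ B := fun h => (mem_erase.1 (hB h)).1 rfl
  by_cases h1 : (nb G B v).Nonempty
  · have h2 : nb G B v = nb G A v := by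
      apply (h.link hv).conn _ (nb_mono (hB.trans (erase_subset _ _)) v) h1
      intro u hu u' hu' huu'
      rw [mem_nb] at hu hu' ⊢
      exact ⟨hclo u hu.1 u' (mem_erase.2 ⟨hu'.2.ne', hu'.1⟩) huu', hu'.2⟩
    have h3 : insert v B = A := by
      apply h.conn
      · exact insert_subset hv (hB.trans (erase_subset _ _))
      · exact ⟨v, mem_insert_self _ _⟩
      · intro b hb w hw hbw
        rw [mem_insert] at hb ⊢
        by_cases hwv : w = v
        · exact Or.inl hwv
        · right
          rcases hb with rfl | hb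
          · have : w ∈ nb G A b := mem_nb.2 ⟨hw, hbw⟩
            rw [← h2] at this
            exact (mem_nb.1 this).1
          · exact hclo b hb w (mem_erase.2 ⟨hwv, hw⟩) hbw
    rw [← h3, erase_insert hvB]
  · exfalso
    have h2 : B = A := by
      apply h.conn _ (hB.trans (erase_subset _ _)) hne
      intro b hb w hw hbw
      have hwv : w ≠ v := by
        rintro rfl
        exact h1 ⟨b, mem_nb.2 ⟨hb, hbw.symm⟩⟩
      exact hclo b hb w (mem_erase.2 ⟨hwv, hw⟩) hbw
    exact hvB (by rw [h2]; exact hv)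

/-- six times the number of triangles -/
def t2 (G : SimpleGraph V) (B : Finset V) : ℕ := ∑ v ∈ B, e2 G (nb G B v)

theorem t2_insert {B : Finset V} {w : V} (hw : w ∉ B) :
    t2 G (insert w B) = t2 G B + 3 * e2 G (nb G B w) := by
  unfold t2
  rw [sum_insert hw, nb_insert_of_not_adj (G.loopless.irrefl w)]
  have h1 : ∀ v ∈ B, e2 G (nb G (insert w B) v) =
      e2 G (nb G B v) + if G.Adj w v then 2 * (nb G (nb G B w) v).card else 0 := by
    intro v _
    split_ifs with h
    · rw [nb_insert_of_adj h.symm, e2_insert, nb_comm]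
      rw [mem_nb]
      exact fun h2 => hw h2.1
    · rw [nb_insert_of_not_adj (fun h2 => h h2.symm)]; rfl
  rw [sum_congr rfl h1, sum_add_distrib, ← sum_filter]
  have h2 : ∑ v ∈ B.filter (fun v => G.Adj w v), 2 * (nb G (nb G B w) v).card
      = 2 * e2 G (nb G B w) := by
    rw [← mul_sum]
    rfl
  rw [h2]
  ring

theorem PM.e2_two {A : Finset V} (h : PM G 2 A) : e2 G A = 2 * A.card := by
  unfold e2
  rw [sum_congr rfl (fun v hv => (h.link hv).card_two), sum_const, smul_eq_mul]
  ring

theorem PM.t2_three {A : Finset V} (h : PM G 3 A) : t2 G A = 2 * e2 G A := by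
  unfold t2
  rw [sum_congr rfl (fun v hv => (h.link hv).e2_two), ← mul_sum]
  rfl

theorem PM.e2_proper {N J : Finset V} (h : PM G 2 N) (hJ : J ⊆ N) (hne : J.Nonempty)
    (hJN : J ≠ N) : e2 G J + 2 ≤ 2 * J.card := by
  obtain ⟨j, hj, u, hu, huJ, hju⟩ := h.conn.exists_adj hJ hne hJN
  have h1 : ∀ v ∈ J, (nb G J v).card ≤ 2 := by
    intro v hv
    have := card_le_card (nb_mono (G := G) hJ v)
    rwa [(h.link (hJ hv)).card_two] at this
  have h2 : (nb G J j).card < 2 := by
    rw [← (h.link (hJ hj)).card_two]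
    apply card_lt_card
    rw [ssubset_iff_of_subset (nb_mono hJ j)]
    exact ⟨u, mem_nb.2 ⟨hu, hju⟩, fun h => huJ (mem_nb.1 h).1⟩
  have h3 : e2 G J < ∑ v ∈ J, 2 := sum_lt_sum h1 ⟨j, hj, h2⟩
  rw [sum_const, smul_eq_mul] at h3
  obtain ⟨k, hk⟩ := e2_even (G := G) J
  omega

/-- a vertex of the connected complement, adjacent to `B`, whose removal leaves it connected -/
theorem PM.exists_next {k : ℕ} {A B : Finset V} (h : PM G (k + 3) A) (hBA : B ⊆ A)
    (hBne : B.Nonempty) (hC : Conn G (A \ B)) (hC2 : 2 ≤ (A \ B).card) :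
    ∃ w ∈ A \ B, (nb G B w).Nonempty ∧ Conn G ((A \ B).erase w) := by
  set C := A \ B with hCdef
  have hBneA : B ≠ A := by
    intro h1
    rw [hCdef, h1, sdiff_self] at hC2
    simp at hC2
  obtain ⟨b, hb, c, hc, hcB, hbc⟩ := h.conn.exists_adj hBA hBne hBneA
  have hcC : c ∈ C := mem_sdiff.2 ⟨hc, hcB⟩
  set P := (C ×ˢ C.powerset).filter (fun q => (nb G B q.1).Nonempty ∧ q.1 ∉ q.2 ∧ q.2.Nonempty ∧
    Conn G q.2) with hP
  have hPne : P.Nonempty := by
    obtain ⟨d, hd⟩ : (C.erase c).Nonempty := by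
      rw [← card_pos, card_erase_of_mem hcC]; omega
    rw [mem_erase] at hd
    refine ⟨(c, {d}), ?_⟩
    rw [hP, mem_filter, mem_product, mem_powerset]
    refine ⟨⟨hcC, by simpa using hd.2⟩, ⟨b, mem_nb.2 ⟨hb, hbc.symm⟩⟩, ?_, singleton_nonempty d, ?_⟩
    · simp only [mem_singleton]
      exact fun e => hd.1 e.symm
    · apply conn_of_subsingleton
      intro u hu v hv
      rw [mem_singleton] at hu hv
      rw [hu, hv]
  obtain ⟨⟨w, D⟩, hwD, hmax⟩ := exists_max_image P (fun q => q.2.card) hPne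
  rw [hP, mem_filter, mem_product, mem_powerset] at hwD
  obtain ⟨⟨hwC, hDC⟩, hwB, hwnD, hDne, hDconn⟩ := hwD
  simp only at hwC hDC hwB hwnD hDne hDconn
  refine ⟨w, hwC, hwB, ?_⟩
  have hDsub : D ⊆ C.erase w := fun v hv => mem_erase.2 ⟨fun e => hwnD (e ▸ hv), hDC hv⟩
  have hmax' : ∀ x ∈ C, ∀ E ⊆ C, (nb G B x).Nonempty → x ∉ E → E.Nonempty → Conn G E →
      E.card ≤ D.card := by
    intro x hx E hE h1 h2 h3 h4
    have := hmax (x, E) (by
      rw [hP, mem_filter, mem_product, mem_powerset]
      exact ⟨⟨hx, hE⟩, h1, h2, h3, h4⟩)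
    exact this
  have hDeq : D = C.erase w := by
    by_contra hne
    obtain ⟨d₀, hd₀⟩ : ((C.erase w) \ D).Nonempty := by
      rw [sdiff_nonempty]
      intro h1
      exact hne (Subset.antisymm hDsub h1)
    -- no edges between D and the rest
    have hno : ∀ v ∈ (C.erase w) \ D, ∀ d ∈ D, ¬ G.Adj v d := by
      intro v hv d hd hvd
      rw [mem_sdiff, mem_erase] at hv
      have h1 := hmax' w hwC (insert v D) (insert_subset hv.1.2 hDC) hwB (by
        rw [mem_insert, not_or]
        exact ⟨fun e => hv.1.1 e.symm, hwnD⟩) ⟨v, mem_insert_self _ _⟩ (hDconn.insert hd hvd)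
      rw [card_insert_of_notMem hv.2] at h1
      omega
    -- w is adjacent to D
    have hwD' : ∃ d ∈ D, G.Adj w d := by
      obtain ⟨d, hd, u, hu, huD, hdu⟩ := hC.exists_adj hDC hDne (by
        intro h1
        exact hwnD (by rw [h1]; exact hwC))
      by_cases huw : u = w
      · subst huw
        exact ⟨d, hd, hdu.symm⟩
      · exact absurd hdu.symm (hno u (mem_sdiff.2 ⟨mem_erase.2 ⟨huw, hu⟩, huD⟩) d hd)
    obtain ⟨d, hd, hwd⟩ := hwD'
    -- a vertex of the rest adjacent to B
    have hwA : w ∈ A := (mem_sdiff.1 hwC).1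
    have hsub : (C.erase w) \ D ⊆ A.erase w := by
      intro v hv
      rw [mem_sdiff, mem_erase] at hv
      exact mem_erase.2 ⟨hv.1.1, (mem_sdiff.1 hv.1.2).1⟩
    obtain ⟨v, hv, u, hu, huD, hvu⟩ := (h.conn_erase hwA).exists_adj hsub ⟨d₀, hd₀⟩ (by
      intro h1
      obtain ⟨d, hd⟩ := hDne
      have h2 : d ∈ A.erase w := by
        have := mem_erase.1 (hDsub hd)
        exact mem_erase.2 ⟨this.1, (mem_sdiff.1 this.2).1⟩
      rw [← h1] at h2
      exact (mem_sdiff.1 h2).2 hd)
    have hv' := mem_sdiff.1 hv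
    have hv'' := mem_erase.1 hv'.1
    have huB : u ∈ B := by
      by_contra huB
      rw [mem_erase] at hu
      have huC : u ∈ C := mem_sdiff.2 ⟨hu.2, huB⟩
      by_cases huD' : u ∈ D
      · exact hno v hv u huD' hvu
      · exact huD (mem_sdiff.2 ⟨mem_erase.2 ⟨hu.1, huC⟩, huD'⟩)
    have h1 := hmax' v hv''.2 (insert w D) (insert_subset hwC hDC) ⟨u, mem_nb.2 ⟨huB, hvu⟩⟩ (by
      rw [mem_insert, not_or]
      exact ⟨hv''.1, hv'.2⟩) ⟨w, mem_insert_self _ _⟩ (hDconn.insert hd hwd)
    rw [card_insert_of_notMem hwnD] at h1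
    omega
  rw [← hDeq]
  exact hDconn

theorem PM.surface_growth {A : Finset V} (h : PM G 3 A) : ∀ k : ℕ, 1 ≤ k → k < A.card →
    ∃ B ⊆ A, B.card = k ∧ Conn G (A \ B) ∧ t2 G B + 6 * (k - 1) ≤ 3 * e2 G B := by
  intro k hk
  induction k, hk using Nat.le_induction with
  | base =>
    intro _
    obtain ⟨v, hv⟩ := h.nonempty
    refine ⟨{v}, by simpa using hv, card_singleton v, ?_, ?_⟩
    · rw [sdiff_singleton_eq_erase]
      exact h.conn_erase hv
    · unfold t2
      have h1 : nb G {v} v = ∅ := by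
        rw [eq_empty_iff_forall_notMem]
        intro u hu
        rw [mem_nb, mem_singleton] at hu
        rw [hu.1] at hu
        exact hu.2.ne rfl
      rw [sum_singleton, h1]
      simp [e2]
  | succ k hk ih =>
    intro hkA
    obtain ⟨B, hBA, hBk, hC, hB⟩ := ih (by omega)
    have hBne : B.Nonempty := card_pos.1 (by omega)
    have hcard : (A \ B).card = A.card - k := by rw [card_sdiff_of_subset hBA, hBk]
    obtain ⟨w, hw, hwB, hcon⟩ := h.exists_next hBA hBne hC (by omega)
    have hw' := mem_sdiff.1 hw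
    refine ⟨insert w B, insert_subset hw'.1 hBA, ?_, ?_, ?_⟩
    · rw [card_insert_of_notMem hw'.2, hBk]
    · have : A \ insert w B = (A \ B).erase w := by
        ext v
        rw [mem_sdiff, mem_insert, mem_erase, mem_sdiff]
        tauto
      rw [this]
      exact hcon
    · have hJN : nb G B w ≠ nb G A w := by
        intro heq
        obtain ⟨v, hv, u, hu, huv, hadj⟩ := hC.exists_adj (B := {w}) (by simpa using hw')
          (singleton_nonempty w) (by
            intro h1
            rw [← h1, card_singleton] at hcard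
            omega)
        rw [mem_singleton] at hv
        subst hv
        have hu' := mem_sdiff.1 hu
        have h1 : u ∈ nb G A v := mem_nb.2 ⟨hu'.1, hadj⟩
        rw [← heq] at h1
        exact hu'.2 (mem_nb.1 h1).1
      have h1 := (h.link hw'.1).e2_proper (nb_mono hBA w) hwB hJN
      rw [t2_insert hw'.2, e2_insert hw'.2]
      omega

theorem PM.surface {A : Finset V} (h : PM G 3 A) : 6 * A.card ≤ e2 G A + 12 := by
  have hc : 6 ≤ A.card := h.card_ge
  obtain ⟨B, hBA, hBk, hC, hB⟩ := h.surface_growth (A.card - 1) (by omega) (by omega)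
  have h1 : (A \ B).card = 1 := by
    rw [card_sdiff_of_subset hBA, hBk]; omega
  obtain ⟨w, hw⟩ := card_eq_one.1 h1
  have hwA : w ∈ A ∧ w ∉ B := by
    rw [← mem_sdiff, hw]; simp
  have hA : A = insert w B := by
    ext v
    rw [mem_insert]
    constructor
    · intro hv
      by_cases hvB : v ∈ B
      · exact Or.inr hvB
      · left
        have : v ∈ A \ B := mem_sdiff.2 ⟨hv, hvB⟩
        rw [hw, mem_singleton] at this
        exact this
    · rintro (rfl | hv)
      · exact hwA.1
      · exact hBA hv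
  have hN : nb G B w = nb G A w := by
    rw [hA, nb_insert_of_not_adj (G.loopless.irrefl w)]
  have h2 := t2_insert (G := G) hwA.2
  have h3 := e2_insert (G := G) hwA.2
  rw [← hA, hN] at h2 h3
  rw [h.t2_three, (h.link hwA.1).e2_two] at h2
  omega

end

end Pool.Agent.Helper77.PMan
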