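import Pool.Agent.Helper77.PMGood
import Pool.Agent.Helper77.PMSurf

set_option autoImplicit false

/-! Minimal bad sets of arbitrary size; the case `n = 4`. -/

namespace Pool.Agent.Helper77.PMan

open Finset

noncomputable section

open scoped Classical

variable {V : Type*} {G : SimpleGraph V}

/-- closed neighbourhood of `B` in `A` -/
def cn (G : SimpleGraph V) (A B : Finset V) : Finset V := B ∪ bd G A B

theorem mem_cn {A B : Finset V} (hBA : B ⊆ A) {p : V} :
    p ∈ cn G A B ↔ p ∈ A ∧ (p ∈ B ∨ ∃ b ∈ B, G.Adj p b) := by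
  unfold cn
  rw [mem_union, mem_bd]
  constructor
  · rintro (h | h)
    · exact ⟨hBA h, Or.inl h⟩
    · exact ⟨h.1.1, Or.inr h.2⟩
  · rintro ⟨h1, h2 | h2⟩
    · exact Or.inl h2
    · by_cases h3 : p ∈ B
      · exact Or.inl h3
      · exact Or.inr ⟨⟨h1, h3⟩, h2⟩

theorem card_cn {A B : Finset V} : (cn G A B).card = B.card + (bd G A B).card := by
  unfold cn
  rw [card_union_of_disjoint]
  rw [disjoint_left]
  intro v hv hv'
  exact (mem_bd.1 hv').1.2 hv

theorem Phi_supermod {A B₁ B₂ : Finset V} (h₁ : B₁ ⊆ A) (h₂ : B₂ ⊆ A)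
    (hno : ∀ u ∈ B₁, u ∉ B₂ → ∀ v ∈ B₂, v ∉ B₁ → ¬ G.Adj u v) :
    Phi G A B₁ + Phi G A B₂ ≤ Phi G A (B₁ ∪ B₂) + Phi G A (B₁ ∩ B₂) := by
  have h12 : B₁ ∪ B₂ ⊆ A := union_subset h₁ h₂
  have h12' : B₁ ∩ B₂ ⊆ A := inter_subset_left.trans h₁
  have c1 : (cn G A (B₁ ∪ B₂)).card + (cn G A (B₁ ∩ B₂)).card ≤
      (cn G A B₁).card + (cn G A B₂).card := by
    have e1 : cn G A (B₁ ∪ B₂) = cn G A B₁ ∪ cn G A B₂ := by
      ext p
      rw [mem_union, mem_cn h12, mem_cn h₁, mem_cn h₂]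
      constructor
      · rintro ⟨h3, h4 | ⟨b, hb, h4⟩⟩
        · rw [mem_union] at h4
          rcases h4 with h4 | h4
          · exact Or.inl ⟨h3, Or.inl h4⟩
          · exact Or.inr ⟨h3, Or.inl h4⟩
        · rw [mem_union] at hb
          rcases hb with hb | hb
          · exact Or.inl ⟨h3, Or.inr ⟨b, hb, h4⟩⟩
          · exact Or.inr ⟨h3, Or.inr ⟨b, hb, h4⟩⟩
      · rintro (⟨h3, h4 | ⟨b, hb, h4⟩⟩ | ⟨h3, h4 | ⟨b, hb, h4⟩⟩)
        · exact ⟨h3, Or.inl (mem_union_left _ h4)⟩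
        · exact ⟨h3, Or.inr ⟨b, mem_union_left _ hb, h4⟩⟩
        · exact ⟨h3, Or.inl (mem_union_right _ h4)⟩
        · exact ⟨h3, Or.inr ⟨b, mem_union_right _ hb, h4⟩⟩
    have e2' : cn G A (B₁ ∩ B₂) ⊆ cn G A B₁ ∩ cn G A B₂ := by
      intro p hp
      rw [mem_cn h12'] at hp
      rw [mem_inter, mem_cn h₁, mem_cn h₂]
      obtain ⟨h3, h4 | ⟨b, hb, h4⟩⟩ := hp
      · rw [mem_inter] at h4
        exact ⟨⟨h3, Or.inl h4.1⟩, h3, Or.inl h4.2⟩
      · rw [mem_inter] at hb
        exact ⟨⟨h3, Or.inr ⟨b, hb.1, h4⟩⟩, h3, Or.inr ⟨b, hb.2, h4⟩⟩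
    have := card_le_card e2'
    have h5 := card_union_add_card_inter (cn G A B₁) (cn G A B₂)
    rw [e1]
    omega
  have hcc := card_union_add_card_inter B₁ B₂
  rw [card_cn, card_cn, card_cn, card_cn] at c1
  -- edges
  have d1 : Disjoint B₁ (B₂ \ B₁) := disjoint_sdiff
  have d2 : Disjoint (B₁ ∩ B₂) (B₂ \ B₁) := by
    rw [disjoint_left]
    intro v hv hv'
    exact (mem_sdiff.1 hv').2 (mem_inter.1 hv).1
  have u1 : B₁ ∪ B₂ = B₁ ∪ (B₂ \ B₁) := (union_sdiff_self_eq_union).symm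
  have u2 : B₂ = (B₁ ∩ B₂) ∪ (B₂ \ B₁) := by
    ext v
    rw [mem_union, mem_inter, mem_sdiff]
    tauto
  have f1 := e2_union_disj (G := G) d1
  have f2 := e2_union_disj (G := G) d2
  rw [← u1] at f1
  rw [← u2] at f2
  have f3 : ∑ v ∈ B₁, (nb G (B₂ \ B₁) v).card = ∑ v ∈ B₁ ∩ B₂, (nb G (B₂ \ B₁) v).card := by
    symm
    apply sum_subset inter_subset_left
    intro v hv hv'
    rw [card_eq_zero, eq_empty_iff_forall_notMem]
    intro w hw
    rw [mem_nb, mem_sdiff] at hw
    exact hno v hv (fun h => hv' (mem_inter.2 ⟨hv, h⟩)) w hw.1.1 hw.1.2 hw.2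
  rw [f3] at f1
  have f4 : e2 G (B₁ ∪ B₂) + e2 G (B₁ ∩ B₂) = e2 G B₁ + e2 G B₂ := by omega
  have f5 : (e2 G (B₁ ∪ B₂) : ℤ) + e2 G (B₁ ∩ B₂) = e2 G B₁ + e2 G B₂ := by exact_mod_cast f4
  have f6 := sum_union_inter (s₁ := B₁) (s₂ := B₂) (f := fun w => ((nb G A w).card : ℤ))
  have f7 : ((bd G A (B₁ ∪ B₂)).card : ℤ) + (bd G A (B₁ ∩ B₂)).card ≤
      (bd G A B₁).card + (bd G A B₂).card := by
    have : (bd G A (B₁ ∪ B₂)).card + (bd G A (B₁ ∩ B₂)).card ≤
      (bd G A B₁).card + (bd G A B₂).card := by omega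
    exact_mod_cast this
  unfold Phi
  linarith

/-- everything about minimal bad sets -/
structure Bad (G : SimpleGraph V) (m : ℕ) (A B : Finset V) : Prop where
  sub : B ⊆ A
  conn : Conn G B
  two : 2 ≤ B.card
  good : ∀ B' ⊂ B, B'.Nonempty → Conn G B' → Good G m A B'
  bad : ¬ Good G m A B

theorem Bad.noncut {m : ℕ} {A B : Finset V} (h : Bad G m A B) : ∀ w ∈ B, Conn G (B.erase w) := by
  intro w hw X hX hXne hclo
  by_contra hne
  have hXB : X ⊆ B := hX.trans (erase_subset _ _)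
  have hX' : (B.erase w) \ X ⊆ B.erase w := sdiff_subset
  have hclo' : Clo G (B.erase w) ((B.erase w) \ X) := by
    intro v hv u hu hvu
    rw [mem_sdiff] at hv ⊢
    exact ⟨hu, fun huX => hv.2 (hclo u huX v hv.1 hvu.symm)⟩
  have hne' : ((B.erase w) \ X).Nonempty := by
    rw [sdiff_nonempty]
    intro h
    exact hne (Subset.antisymm hX h)
  have hwX : w ∉ X := fun h => (mem_erase.1 (hX h)).1 rfl
  have c1 := conn_compl_part h.conn hw hX hclo
  have c2 := conn_compl_part h.conn hw hX' hclo'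
  have s1 : B \ X ⊂ B := by
    obtain ⟨x, hx⟩ := hXne
    rw [ssubset_iff_of_subset sdiff_subset]
    exact ⟨x, hXB hx, fun h => (mem_sdiff.1 h).2 hx⟩
  have s2 : B \ ((B.erase w) \ X) ⊂ B := by
    obtain ⟨x, hx⟩ := hne'
    rw [ssubset_iff_of_subset sdiff_subset]
    exact ⟨x, mem_of_mem_erase (mem_sdiff.1 hx).1, fun h => (mem_sdiff.1 h).2 hx⟩
  have n1 : w ∈ B \ X := mem_sdiff.2 ⟨hw, hwX⟩
  have n2 : w ∈ B \ ((B.erase w) \ X) :=
    mem_sdiff.2 ⟨hw, fun h => (mem_erase.1 (mem_sdiff.1 h).1).1 rfl⟩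
  have g1 := h.good _ s1 ⟨w, n1⟩ c1
  have g2 := h.good _ s2 ⟨w, n2⟩ c2
  have hun : (B \ X) ∪ (B \ ((B.erase w) \ X)) = B := by
    ext v
    rw [mem_union, mem_sdiff, mem_sdiff, mem_sdiff, mem_erase]
    tauto
  have hin : (B \ X) ∩ (B \ ((B.erase w) \ X)) = {w} := by
    ext v
    rw [mem_inter, mem_sdiff, mem_sdiff, mem_sdiff, mem_erase, mem_singleton]
    constructor
    · rintro ⟨⟨h1, h2⟩, _, h3⟩
      by_contra h4
      exact h3 ⟨⟨h4, h1⟩, h2⟩
    · rintro rfl
      exact ⟨⟨hw, hwX⟩, hw, fun h => h.1.1 rfl⟩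
  have hsm := Phi_supermod (G := G) (A := A) (B₁ := B \ X) (B₂ := B \ ((B.erase w) \ X))
    (sdiff_subset.trans h.sub) (sdiff_subset.trans h.sub) (by
      intro u hu hu' v hv hv' huv
      rw [mem_sdiff] at hu hv
      have hu2 : u ∈ (B.erase w) \ X := by
        by_contra h1
        exact hu' (mem_sdiff.2 ⟨hu.1, h1⟩)
      have hv2 : v ∈ X := by
        by_contra h1
        exact hv' (mem_sdiff.2 ⟨hv.1, h1⟩)
      exact (mem_sdiff.1 hu2).2 (hclo v hv2 u (mem_sdiff.1 hu2).1 huv.symm))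
  rw [hun, hin, Phi_singleton] at hsm
  have hcc := card_union_add_card_inter (B \ X) (B \ ((B.erase w) \ X))
  rw [hun, hin, card_singleton] at hcc
  have hcc' : (B.card : ℤ) + 1 = (B \ X).card + (B \ ((B.erase w) \ X)).card := by
    exact_mod_cast hcc
  apply h.bad
  unfold Good at g1 g2 ⊢
  have : (4 * (m : ℤ) + 2) * ((B.card : ℤ) - 1) =
      (4 * (m : ℤ) + 2) * (((B \ X).card : ℤ) - 1) +
      (4 * (m : ℤ) + 2) * (((B \ ((B.erase w) \ X)).card : ℤ) - 1) := by
    have e : (B.card : ℤ) = (B \ X).card + (B \ ((B.erase w) \ X)).card - 1 := by linarith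
    rw [e]; ring
  linarith

theorem Bad.facts {m : ℕ} {A B : Finset V} (hb : Bad G m A B) (h : PM G (m + 2) A) :
    ∀ w ∈ B, (((nb G A w).card : ℤ) - (nb G B w).card ≤ 2 * m - 1 ∧
      (4 * (m : ℤ) + 2) * ((B.card : ℤ) - 2) + 2 * (((nb G A w).card : ℤ) - (nb G B w).card) + 2 ≤
        Phi G A B) ∧ (∀ z ∈ nb G A w, z ∉ B → ∃ b ∈ nb G B w, G.Adj b z) := by
  intro w hw
  have hcon := hb.noncut w hw
  have h2 := hb.two
  have hss : B.erase w ⊂ B := erase_ssubset hw
  have hne : (B.erase w).Nonempty := by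
    rw [← card_pos, card_erase_of_mem hw]; omega
  have hg := hb.good _ hss hne hcon
  have hnb : nb G (B.erase w) w = nb G B w := by
    ext p
    rw [mem_nb, mem_nb, mem_erase]
    constructor
    · rintro ⟨⟨_, h1⟩, h2⟩; exact ⟨h1, h2⟩
    · rintro ⟨h1, h2⟩; exact ⟨⟨h2.ne', h1⟩, h2⟩
  have hJ : (nb G (B.erase w) w).Nonempty := by
    rw [hnb]
    obtain ⟨v, hv, u, hu, huv, hadj⟩ := hb.conn.exists_adj (B := {w}) (by simpa using hw)
      (singleton_nonempty w) (by
        intro h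
        rw [← h, card_singleton] at h2
        omega)
    rw [mem_singleton] at hv
    subst hv
    exact ⟨u, mem_nb.2 ⟨hu, hadj⟩⟩
  have hEA : B.erase w ⊆ A := (erase_subset _ _).trans hb.sub
  have h1 := Phi_insert hEA (hb.sub hw) (notMem_erase w B) hJ
  rw [insert_erase hw] at h1
  have hbad := hb.bad
  unfold Good at hg hbad
  rw [card_erase_of_mem hw] at hg
  have h3 : ((B.card - 1 : ℕ) : ℤ) = (B.card : ℤ) - 1 := by
    rw [Nat.cast_sub (by omega)]; simp
  rw [h3] at hg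
  push Not at hbad
  have h4 : ((cs G A (B.erase w) w).card : ℤ) < 2 * m := by
    by_contra h5
    push Not at h5
    nlinarith
  have h4' : (cs G A (B.erase w) w).card < 2 * m := by exact_mod_cast h4
  have hdom : ∀ z ∈ nb G A w, z ∉ B → ∃ b ∈ nb G B w, G.Adj b z := by
    by_contra hcon
    push Not at hcon
    obtain ⟨z, hz1, hz2, hz3⟩ := hcon
    have h5 := (h.link (hb.sub hw)).bd_ge (nb_mono hEA w) hJ hz1
      (fun h6 => hz2 (mem_of_mem_erase (mem_nb.1 h6).1)) (by rw [hnb]; exact hz3)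
    have h6 : bd G (nb G A w) (nb G (B.erase w) w) ⊆ cs G A (B.erase w) w := by
      intro p hp
      obtain ⟨⟨h2, h3⟩, b, hb, hpb⟩ := mem_bd.1 hp
      rw [mem_nb] at h2 hb
      rw [mem_cs]
      exact ⟨h2, fun hpB => h3 (mem_nb.2 ⟨hpB, h2.2⟩), b, mem_nb.2 ⟨hb.1, hpb⟩⟩
    have h7 := card_le_card h6
    omega
  have h5 := h.cs_ge hEA (hb.sub hw) hJ
  rw [hnb] at h5
  have h6 : ((nb G A w).card : ℤ) ≤ (cs G A (B.erase w) w).card + (nb G B w).card := by
    rcases h5 with h5 | h5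
    · omega
    · exact_mod_cast h5
  refine ⟨⟨by linarith, ?_⟩, hdom⟩
  have : (4 * (m : ℤ) + 2) * ((B.card : ℤ) - 2) = (4 * (m : ℤ) + 2) * ((B.card : ℤ) - 1 - 1) := by
    ring
  rw [this]
  linarith

theorem Bad.deg_three {m : ℕ} {A B : Finset V} (hb : Bad G m A B) (h : PM G (m + 2) A) :
    ∀ w ∈ B, 3 ≤ (nb G B w).card := by
  intro w hw
  have h1 := (hb.facts h w hw).1.1
  have h3 := (h.link (hb.sub hw)).card_ge
  have h4 : (2 * (m + 1) : ℤ) ≤ (nb G A w).card := by exact_mod_cast h3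
  have h5 : (3 : ℤ) ≤ (nb G B w).card := by linarith
  exact_mod_cast h5

/-- boundary vertices of a minimal bad set have at least three neighbours in it -/
theorem Bad.bd_three {m : ℕ} {A B : Finset V} (hb : Bad G m A B) (h : PM G (m + 2) A) :
    ∀ p ∈ bd G A B, 3 ≤ (nb G B p).card := by
  intro p hp
  obtain ⟨⟨hpA, hpB⟩, u, hu, hpu⟩ := mem_bd.1 hp
  obtain ⟨v, hv, hvp⟩ := (hb.facts h u hu).2 p (mem_nb.2 ⟨hpA, hpu.symm⟩) hpB
  rw [mem_nb] at hv
  by_contra hcon
  have hnb : nb G B p = {u, v} := by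
    symm
    apply eq_of_subset_of_card_le
    · intro x hx
      rw [mem_insert, mem_singleton] at hx
      rcases hx with rfl | rfl
      · exact mem_nb.2 ⟨hu, hpu⟩
      · exact mem_nb.2 ⟨hv.1, hvp.symm⟩
    · rw [card_pair hv.2.ne]; omega
  have hJne : (nb G (B.erase u) v).Nonempty := by
    have h3 := hb.deg_three h v hv.1
    have h4 : nb G (B.erase u) v = (nb G B v).erase u := by
      ext x
      rw [mem_nb, mem_erase, mem_erase, mem_nb]
      tauto
    rw [← card_pos, h4, card_erase_of_mem (mem_nb.2 ⟨hu, hv.2.symm⟩)]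
    omega
  have hEA : B.erase u ⊆ A := (erase_subset _ _).trans hb.sub
  have hpN : p ∈ nb G A v := mem_nb.2 ⟨hpA, hvp⟩
  have hpJ : p ∉ nb G (B.erase u) v := fun h1 => hpB (mem_of_mem_erase (mem_nb.1 h1).1)
  have hfar : ∀ b ∈ nb G (B.erase u) v, ¬ G.Adj b p := by
    intro b hb' hbp
    rw [mem_nb, mem_erase] at hb'
    have h1 : b ∈ nb G B p := mem_nb.2 ⟨hb'.1.2, hbp.symm⟩
    rw [hnb, mem_insert, mem_singleton] at h1
    rcases h1 with h1 | h1
    · exact hb'.1.1 h1
    · rw [h1] at hb'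
      exact hb'.2.ne rfl
  have h5 := (h.link (hb.sub hv.1)).bd_ge (nb_mono hEA v) hJne hpN hpJ hfar
  have h6 : bd G (nb G A v) (nb G (B.erase u) v) ⊆
      ((nb G A v) \ (nb G (B.erase u) v)).erase p := by
    intro x hx
    obtain ⟨⟨h7, h8⟩, b, hb', hxb⟩ := mem_bd.1 hx
    rw [mem_erase, mem_sdiff]
    refine ⟨?_, h7, h8⟩
    rintro rfl
    exact hfar b hb' hxb.symm
  have h7 := card_le_card h6
  rw [card_erase_of_mem (mem_sdiff.2 ⟨hpN, hpJ⟩),
    card_sdiff_of_subset (nb_mono hEA v)] at h7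
  have h8 : (nb G (B.erase u) v).card = (nb G B v).card - 1 := by
    have h4 : nb G (B.erase u) v = (nb G B v).erase u := by
      ext x
      rw [mem_nb, mem_erase, mem_erase, mem_nb]
      tauto
    rw [h4, card_erase_of_mem (mem_nb.2 ⟨hu, hv.2.symm⟩)]
  have h9 := (hb.facts h v hv.1).1.1
  have h10 := hb.deg_three h v hv.1
  have h11 : (nb G A v).card < 2 * m + (nb G B v).card := by
    have : ((nb G A v).card : ℤ) < 2 * m + (nb G B v).card := by linarith
    exact_mod_cast this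
  have h12 := card_le_card (nb_mono (G := G) hb.sub v)
  omega

theorem sum_bd {A B : Finset V} (hBA : B ⊆ A) :
    ∑ p ∈ bd G A B, (nb G B p).card + ∑ w ∈ B, (nb G B w).card = ∑ w ∈ B, (nb G A w).card := by
  rw [sum_card_nb_comm (bd G A B) B, ← sum_add_distrib]
  apply sum_congr rfl
  intro w hw
  have hd : Disjoint (bd G A B) B := by
    rw [disjoint_left]
    intro v hv hv'
    exact (mem_bd.1 hv).1.2 hv'
  rw [← card_nb_union hd]
  congr 1
  ext v
  rw [mem_nb, mem_nb, mem_union, mem_bd]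
  constructor
  · rintro ⟨h1 | h1, h2⟩
    · exact ⟨h1.1.1, h2⟩
    · exact ⟨hBA h1, h2⟩
  · rintro ⟨h1, h2⟩
    refine ⟨?_, h2⟩
    by_cases h3 : v ∈ B
    · exact Or.inr h3
    · exact Or.inl ⟨⟨h1, h3⟩, w, hw, h2.symm⟩

theorem Bad.count {m : ℕ} {A B : Finset V} (hb : Bad G m A B) (h : PM G (m + 2) A) :
    3 * ((bd G A B).card : ℤ) ≤ (2 * m - 1) * B.card := by
  have h1 := card_nsmul_le_sum (bd G A B) (fun p => (nb G B p).card) 3 (hb.bd_three h)
  have h2 := sum_bd (G := G) hb.sub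
  have h3 := sum_le_card_nsmul B (fun w => ((nb G A w).card : ℤ) - (nb G B w).card) (2 * m - 1)
    (fun w hw => (hb.facts h w hw).1.1)
  rw [sum_sub_distrib, nsmul_eq_mul] at h3
  rw [smul_eq_mul] at h1
  have h4 : ((∑ p ∈ bd G A B, (nb G B p).card : ℕ) : ℤ) + ((∑ w ∈ B, (nb G B w).card : ℕ) : ℤ) =
      ((∑ w ∈ B, (nb G A w).card : ℕ) : ℤ) := by exact_mod_cast h2
  have h5 : ((bd G A B).card : ℤ) * 3 ≤ ((∑ p ∈ bd G A B, (nb G B p).card : ℕ) : ℤ) := by
    exact_mod_cast h1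
  push_cast at h4 h5
  linarith

/-- a set missing at most one edge contains a large clique -/
theorem near_clique {B : Finset V} (hne : B.Nonempty)
    (h : (B.card : ℤ) * (B.card - 1) - 2 ≤ e2 G B) :
    ∃ S ⊆ B, B.card - 1 ≤ S.card ∧ ∀ u ∈ S, ∀ v ∈ S, u ≠ v → G.Adj u v := by
  have hpos := card_pos.2 hne
  by_cases hcl : ∀ u ∈ B, ∀ v ∈ B, u ≠ v → G.Adj u v
  · exact ⟨B, Subset.refl _, by omega, hcl⟩
  · push Not at hcl
    obtain ⟨u, hu, v, hv, huv, hadj⟩ := hcl
    refine ⟨B.erase u, erase_subset _ _, by rw [card_erase_of_mem hu], ?_⟩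
    apply clique_of_e2
    have h1 := e2_insert (G := G) (notMem_erase u B)
    rw [insert_erase hu] at h1
    have h2 : nb G (B.erase u) u ⊆ (B.erase u).erase v := by
      intro x hx
      rw [mem_nb] at hx
      rw [mem_erase]
      refine ⟨?_, hx.1⟩
      rintro rfl
      exact hadj hx.2
    have h3 := card_le_card h2
    rw [card_erase_of_mem (mem_erase.2 ⟨fun e => huv e.symm, hv⟩), card_erase_of_mem hu] at h3
    have h4 : 2 ≤ B.card := by
      have : ({u, v} : Finset V) ⊆ B := by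
        intro x hx
        rw [mem_insert, mem_singleton] at hx
        rcases hx with rfl | rfl <;> assumption
      have := card_le_card this
      rwa [card_pair huv] at this
    rw [card_erase_of_mem hu]
    obtain ⟨b, hb⟩ : ∃ b, B.card = b + 2 := ⟨B.card - 2, by omega⟩
    rw [hb] at h h3 ⊢
    rw [h1] at h
    push_cast at h
    have h5 : (nb G (B.erase u) u).card ≤ b := by omega
    have h6 : ((nb G (B.erase u) u).card : ℤ) ≤ b := by exact_mod_cast h5
    have h7 : ((b : ℤ) + 1) * b ≤ e2 G (B.erase u) := by nlinarith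
    have h8 : (b + 1) * b ≤ e2 G (B.erase u) := by exact_mod_cast h7
    simpa using h8

/-- in rank four there are no minimal bad sets with six elements -/
theorem Bad.not_six {A B : Finset V} (hb : Bad G 2 A B) (h : PM G 4 A) {z : V}
    (hz : z ∈ A) (hzB : z ∉ B) (hzadj : ∀ b ∈ B, ¬ G.Adj b z) (h6 : B.card = 6) : False := by
  have h' : PM G (2 + 2) A := h
  have hBne : B.Nonempty := card_pos.1 (by omega)
  have hc := hb.count h'
  have hbd := h'.bd_ge (n := 3) hb.sub hBne hz hzB hzadj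
  rw [h6] at hc
  push_cast at hc
  have hbd6 : (bd G A B).card = 6 := by
    have : ((bd G A B).card : ℤ) ≤ 6 := by linarith
    have : (bd G A B).card ≤ 6 := by exact_mod_cast this
    omega
  have hs : ∀ w ∈ B, (nb G A w).card ≤ (nb G B w).card + 3 := by
    intro w hw
    have h1 := (hb.facts h' w hw).1.1
    push_cast at h1
    have h2 : ((nb G A w).card : ℤ) ≤ (nb G B w).card + 3 := by linarith
    exact_mod_cast h2
  have h1 := sum_bd (G := G) hb.sub
  have h2 : ∑ w ∈ B, (nb G A w).card ≤ ∑ w ∈ B, ((nb G B w).card + 3) := sum_le_sum hs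
  rw [sum_add_distrib, sum_const, h6] at h2
  have h3 := hb.bd_three h'
  have h4 : ∑ p ∈ bd G A B, (nb G B p).card ≤ 18 := by
    simp only [smul_eq_mul] at h2
    omega
  -- all boundary vertices have exactly three neighbours
  have h5 : ∀ p ∈ bd G A B, (nb G B p).card = 3 := by
    intro p hp
    have h6' := card_nsmul_le_sum ((bd G A B).erase p) (fun p => (nb G B p).card) 3
      (fun q hq => h3 q (mem_of_mem_erase hq))
    rw [card_erase_of_mem hp, hbd6, smul_eq_mul] at h6'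
    have h7 := add_sum_erase (bd G A B) (fun p => (nb G B p).card) hp
    have h8 := h3 p hp
    omega
  have hsum3 : 18 ≤ ∑ p ∈ bd G A B, (nb G B p).card := by
    have := card_nsmul_le_sum (bd G A B) (fun p => (nb G B p).card) 3 h3
    rw [hbd6, smul_eq_mul] at this
    omega
  -- all vertices have exactly three neighbours in the boundary
  have h9 : ∀ w ∈ B, (nb G A w).card = (nb G B w).card + 3 := by
    intro w hw
    by_contra hne
    have hlt : (nb G A w).card < (nb G B w).card + 3 := lt_of_le_of_ne (hs w hw) hne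
    have h10 : ∑ w ∈ B, (nb G A w).card < ∑ w ∈ B, ((nb G B w).card + 3) :=
      sum_lt_sum hs ⟨w, hw, hlt⟩
    rw [sum_add_distrib, sum_const, h6, smul_eq_mul] at h10
    omega
  -- degrees
  have hdeg : ∀ w ∈ B, (nb G B w).card = 3 := by
    intro w hw
    have hN : PM G 3 (nb G A w) := h.link (hb.sub hw)
    have hsurf := hN.surface
    have h3' := hb.deg_three h' w hw
    set J := nb G B w with hJ
    set R := nb G (bd G A B) w with hR
    have hd : Disjoint J R := by
      rw [disjoint_left]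
      intro v hv hv'
      exact (mem_bd.1 (mem_nb.1 hv').1).1.2 (mem_nb.1 hv).1
    have hNeq : nb G A w = J ∪ R := by
      ext v
      rw [mem_union, mem_nb, mem_nb, mem_nb, mem_bd]
      constructor
      · rintro ⟨h1, h2⟩
        by_cases h3 : v ∈ B
        · exact Or.inl ⟨h3, h2⟩
        · exact Or.inr ⟨⟨⟨h1, h3⟩, w, hw, h2.symm⟩, h2⟩
      · rintro (⟨h1, h2⟩ | ⟨h1, h2⟩)
        · exact ⟨hb.sub h1, h2⟩
        · exact ⟨h1.1.1, h2⟩
    have hR3 : R.card = 3 := by
      have h11 := h9 w hw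
      rw [← hJ, hNeq, card_union_of_disjoint hd] at h11
      omega
    have hRJ : ∀ p ∈ R, (nb G J p).card ≤ 2 := by
      intro p hp
      have hp' := mem_nb.1 hp
      have h11 : nb G J p ⊆ (nb G B p).erase w := by
        intro x hx
        rw [mem_nb, mem_nb] at hx
        exact mem_erase.2 ⟨hx.1.2.ne', mem_nb.2 ⟨hx.1.1, hx.2⟩⟩
      have h12 := card_le_card h11
      rw [card_erase_of_mem (mem_nb.2 ⟨hw, hp'.2.symm⟩), h5 p hp'.1] at h12
      exact h12
    have h13 := e2_union_disj (G := G) hd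
    rw [sum_card_nb_comm J R] at h13
    have h14 := sum_le_card_nsmul R (fun p => (nb G J p).card) 2 hRJ
    rw [hR3, smul_eq_mul] at h14
    have h15 := e2_le (G := G) R
    rw [hR3] at h15
    push_cast at h15
    have h15' : e2 G R ≤ 6 := by
      have : (e2 G R : ℤ) ≤ 6 := by linarith
      exact_mod_cast this
    rw [← hNeq] at h13
    have h16 := h9 w hw
    rw [← hJ] at h16
    rw [h16, h13] at hsurf
    have hJ5 : J.card ≤ 5 := by
      have : J ⊆ B.erase w := by
        intro v hv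
        rw [mem_nb] at hv
        exact mem_erase.2 ⟨hv.2.ne', hv.1⟩
      have := card_le_card this
      rw [card_erase_of_mem hw, h6] at this
      exact this
    have hJe : 6 * J.card ≤ e2 G J + 12 := by omega
    by_contra hJ3
    have hJ45 : J.card = 4 ∨ J.card = 5 := by omega
    have hJne : J.Nonempty := card_pos.1 (by omega)
    have hkey : ∃ S ⊆ J, 4 ≤ S.card ∧ ∀ u ∈ S, ∀ v ∈ S, u ≠ v → G.Adj u v := by
      rcases hJ45 with h17 | h17
      · refine ⟨J, Subset.refl _, by omega, ?_⟩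
        apply clique_of_e2
        rw [h17]; omega
      · obtain ⟨S, hS, hS4, hcl⟩ := near_clique (G := G) hJne (by
          rw [h17]
          have : (18 : ℤ) ≤ e2 G J := by
            have : 18 ≤ e2 G J := by omega
            exact_mod_cast this
          push_cast
          linarith)
        exact ⟨S, hS, by omega, hcl⟩
    obtain ⟨S, hS, hS4, hcl⟩ := hkey
    have h18 := hN.clique_card_le (S := S) (by
      intro v hv
      rw [hNeq]
      exact mem_union_left _ (hS hv)) hcl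
    omega
  have he2 : e2 G B = 18 := by
    unfold e2
    rw [sum_congr rfl hdeg, sum_const, h6, smul_eq_mul]
  -- contradiction with the numerical inequality
  have hne := hBne
  obtain ⟨w₀, hw₀⟩ := hBne
  have h17 := (hb.facts h' w₀ hw₀).1.2
  have h18 := h9 w₀ hw₀
  rw [Phi_eq_sum, hbd6, he2, h6] at h17
  have h19 : ∑ w ∈ B, (((nb G A w).card : ℤ) - (nb G B w).card) = 18 := by
    have : ∀ w ∈ B, (((nb G A w).card : ℤ) - (nb G B w).card) = 3 := by
      intro w hw
      rw [h9 w hw]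
      push_cast
      ring
    rw [sum_congr rfl this, sum_const, h6]
    norm_num
  rw [h19, h18] at h17
  push_cast at h17
  linarith

theorem PM.good_four {A : Finset V} (h : PM G 4 A) {z : V} (hz : z ∈ A) :
    ∀ B : Finset V, B ⊆ A → B.Nonempty → Conn G B → z ∉ B → (∀ b ∈ B, ¬ G.Adj b z) →
      B.card ≤ 6 → Good G 2 A B := by
  have h' : PM G (2 + 2) A := h
  intro B hBA hBne hB hzB hzadj h6
  by_cases h5 : B.card ≤ 5
  · exact h'.good5 hz B hBA hBne hB hzB hzadj h5
  · by_contra hbad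
    have hb : Bad G 2 A B := by
      refine ⟨hBA, hB, by omega, ?_, hbad⟩
      intro B' hB' hne' hc'
      have := card_lt_card hB'
      exact h'.good5 hz B' (hB'.subset.trans hBA) hne' hc' (fun h1 => hzB (hB'.subset h1))
        (fun b hb => hzadj b (hB'.subset hb)) (by omega)
    exact hb.not_six h hz hzB hzadj (by omega)

theorem PM.good_seven {A : Finset V} (h : PM G 4 A) {z : V} (hz : z ∈ A) {B : Finset V}
    (hBA : B ⊆ A) (hBne : B.Nonempty) (hB : Conn G B) (hzB : z ∉ B)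
    (hzadj : ∀ b ∈ B, ¬ G.Adj b z) (h7 : B.card ≤ 7) (hbd : 8 ≤ (bd G A B).card) :
    Good G 2 A B := by
  have h' : PM G (2 + 2) A := h
  by_cases h6 : B.card ≤ 6
  · exact h.good_four hz B hBA hBne hB hzB hzadj h6
  · by_contra hbad
    have hb : Bad G 2 A B := by
      refine ⟨hBA, hB, by omega, ?_, hbad⟩
      intro B' hB' hne' hc'
      have := card_lt_card hB'
      exact h.good_four hz B' (hB'.subset.trans hBA) hne' hc' (fun h1 => hzB (hB'.subset h1))
        (fun b hb => hzadj b (hB'.subset hb)) (by omega)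
    have hc := hb.count h'
    have h8 : (8 : ℤ) ≤ (bd G A B).card := by exact_mod_cast hbd
    have h9 : (B.card : ℤ) ≤ 7 := by exact_mod_cast h7
    push_cast at hc
    linarith

end

end Pool.Agent.Helper77.PMan
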