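import Pool.Agent.Helper77.PMPhi

set_option autoImplicit false

/-! Connected sets with at most six elements are good. -/

namespace Pool.Agent.Helper77.PMan

open Finset

noncomputable section

open scoped Classical

variable {V : Type*} {G : SimpleGraph V}

theorem PM.phi_step {m k : ℕ} {A S : Finset V} (h : PM G (m + 2) A) (hS : S ⊆ A) {p : V}
    (hp : p ∈ A) (hpS : p ∉ S) (hJ : (nb G S p).Nonempty) (hdeg : (nb G A p).card = 2 * m + 3)
    (hSk : S.card ≤ k) (hk : 3 ≤ k) :
    Phi G A S + 2 * (2 * m + 3 - k) + 2 ≤ Phi G A (insert p S) := by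
  rw [Phi_insert hS hp hpS hJ]
  have h1 := h.cs_ge hS hp hJ
  have h2 : (nb G S p).card ≤ k := (card_le_card nb_subset).trans hSk
  have h3 : (2 * m + 3 : ℤ) - k ≤ (cs G A S p).card := by
    rcases h1 with h1 | h1
    · have : (2 * m : ℤ) ≤ (cs G A S p).card := by exact_mod_cast h1
      have : (3 : ℤ) ≤ k := by exact_mod_cast hk
      linarith
    · rw [hdeg] at h1
      have h4 : (2 * m + 3 : ℤ) ≤ (cs G A S p).card + (nb G S p).card := by exact_mod_cast h1
      have h5 : ((nb G S p).card : ℤ) ≤ k := by exact_mod_cast h2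
      linarith
  linarith

theorem PM.k5_good {m : ℕ} {A B : Finset V} (h : PM G (m + 2) A) (hBA : B ⊆ A) (h5 : B.card = 5)
    (hcl : ∀ u ∈ B, ∀ v ∈ B, u ≠ v → G.Adj u v) (hdeg : ∀ w ∈ B, (nb G A w).card = 2 * m + 3) :
    Good G m A B := by
  obtain ⟨w₁, hw₁⟩ : B.Nonempty := card_pos.1 (by omega)
  obtain ⟨T, hT, hT3⟩ := exists_subset_card_eq (s := B.erase w₁) (n := 3)
    (by rw [card_erase_of_mem hw₁]; omega)
  obtain ⟨u, v, t, huv, hut, hvt, rfl⟩ := card_eq_three.1 hT3
  have hu := mem_erase.1 (hT (show u ∈ ({u, v, t} : Finset V) by simp))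
  have hv := mem_erase.1 (hT (show v ∈ ({u, v, t} : Finset V) by simp))
  have ht := mem_erase.1 (hT (show t ∈ ({u, v, t} : Finset V) by simp))
  have hm : 3 ≤ m := by
    have := h.clique_card_le hBA hcl
    omega
  obtain ⟨k, rfl⟩ : ∃ k, m = k + 1 := ⟨m - 1, by omega⟩
  have hN : PM G (k + 2) (nb G A w₁) := h.link (hBA hw₁)
  have hmem : ∀ x ∈ B, x ≠ w₁ → x ∈ nb G A w₁ := fun x hx hne =>
    mem_nb.2 ⟨hBA hx, hcl w₁ hw₁ x hx (fun e => hne e.symm)⟩
  have hge : ∀ x ∈ B, x ≠ w₁ → 2 * (k + 1) ≤ (nb G (nb G A w₁) x).card :=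
    fun x hx hne => (hN.link (hmem x hx hne)).card_ge
  have hex : ∃ x ∈ B, x ≠ w₁ ∧ 2 * (k + 1) + 1 ≤ (nb G (nb G A w₁) x).card := by
    by_contra hcon
    push Not at hcon
    have e : ∀ x ∈ B, x ≠ w₁ → (nb G (nb G A w₁) x).card = 2 * (k + 1) := by
      intro x hx hne
      have h1 := hge x hx hne
      have h2 := hcon x hx hne
      omega
    have h1 := hN.three_minimal (hmem u hu.2 hu.1) (hmem v hv.2 hv.1) (hmem t ht.2 ht.1)
      (hcl u hu.2 v hv.2 huv) (hcl u hu.2 t ht.2 hut) (hcl v hv.2 t ht.2 hvt)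
      (e u hu.2 hu.1) (e v hv.2 hv.1) (e t ht.2 ht.1)
    have h2 := hdeg w₁ hw₁
    omega
  obtain ⟨x, hx, hxw, hxc⟩ := hex
  have hc3 : ((B.erase w₁).erase x).card = 3 := by
    rw [card_erase_of_mem (mem_erase.2 ⟨hxw, hx⟩), card_erase_of_mem hw₁]
    omega
  obtain ⟨p, q, r, hpq, hpr, hqr, hpqr⟩ := card_eq_three.1 hc3
  have hp : p ≠ x ∧ p ≠ w₁ ∧ p ∈ B := by
    have : p ∈ (B.erase w₁).erase x := by rw [hpqr]; simp
    rwa [mem_erase, mem_erase] at this
  have hq : q ≠ x ∧ q ≠ w₁ ∧ q ∈ B := by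
    have : q ∈ (B.erase w₁).erase x := by rw [hpqr]; simp
    rwa [mem_erase, mem_erase] at this
  have hr : r ≠ x ∧ r ≠ w₁ ∧ r ∈ B := by
    have : r ∈ (B.erase w₁).erase x := by rw [hpqr]; simp
    rwa [mem_erase, mem_erase] at this
  have hBeq : B = insert r (insert q (insert p (insert x {w₁}))) := by
    ext z
    have h1 : z ∈ (B.erase w₁).erase x ↔ z ∈ ({p, q, r} : Finset V) := by rw [hpqr]
    rw [mem_erase, mem_erase, mem_insert, mem_insert, mem_singleton] at h1
    rw [mem_insert, mem_insert, mem_insert, mem_insert, mem_singleton]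
    constructor
    · intro hz
      by_cases e1 : z = w₁
      · tauto
      · by_cases e2 : z = x
        · tauto
        · have := h1.1 ⟨e2, e1, hz⟩
          tauto
    · rintro (e | e | e | e | e)
      · rw [e]; exact hr.2.2
      · rw [e]; exact hq.2.2
      · rw [e]; exact hp.2.2
      · rw [e]; exact hx
      · rw [e]; exact hw₁
  -- the four steps
  have s1 : ({w₁} : Finset V) ⊆ A := by simpa using hBA hw₁
  have s2 : (insert x {w₁} : Finset V) ⊆ A := insert_subset (hBA hx) s1
  have s3 : (insert p (insert x {w₁}) : Finset V) ⊆ A := insert_subset (hBA hp.2.2) s2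
  have s4 : (insert q (insert p (insert x {w₁})) : Finset V) ⊆ A := insert_subset (hBA hq.2.2) s3
  have n1 : x ∉ ({w₁} : Finset V) := by simpa using hxw
  have n2 : p ∉ (insert x {w₁} : Finset V) := by
    rw [mem_insert, mem_singleton]; tauto
  have n3 : q ∉ (insert p (insert x {w₁}) : Finset V) := by
    rw [mem_insert, mem_insert, mem_singleton]
    have := hpq
    have := hpq.symm
    tauto
  have n4 : r ∉ (insert q (insert p (insert x {w₁})) : Finset V) := by
    rw [mem_insert, mem_insert, mem_insert, mem_singleton]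
    have := hpr.symm
    have := hqr.symm
    tauto
  have j1 : (nb G ({w₁} : Finset V) x).Nonempty :=
    ⟨w₁, mem_nb.2 ⟨by simp, hcl x hx w₁ hw₁ hxw⟩⟩
  have j2 : (nb G (insert x {w₁} : Finset V) p).Nonempty :=
    ⟨w₁, mem_nb.2 ⟨by simp, hcl p hp.2.2 w₁ hw₁ hp.2.1⟩⟩
  have j3 : (nb G (insert p (insert x {w₁}) : Finset V) q).Nonempty :=
    ⟨w₁, mem_nb.2 ⟨by simp, hcl q hq.2.2 w₁ hw₁ hq.2.1⟩⟩
  have j4 : (nb G (insert q (insert p (insert x {w₁})) : Finset V) r).Nonempty :=
    ⟨w₁, mem_nb.2 ⟨by simp, hcl r hr.2.2 w₁ hw₁ hr.2.1⟩⟩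
  have f1 : Phi G A (insert x {w₁}) = Phi G A {w₁} + 2 * ((cs G A {w₁} x).card : ℤ) + 2 :=
    Phi_insert s1 (hBA hx) n1 j1
  have f1' : (2 * ((k : ℤ) + 1) + 1) ≤ (cs G A {w₁} x).card := by
    have h1 : nb G (nb G A w₁) x ⊆ cs G A {w₁} x := by
      intro z hz
      rw [mem_nb, mem_nb] at hz
      rw [mem_cs]
      refine ⟨⟨hz.1.1, hz.2⟩, ?_, w₁, mem_nb.2 ⟨mem_singleton_self _, hz.1.2.symm⟩⟩
      rw [mem_singleton]
      exact hz.1.2.ne'
    have h2 := hxc.trans (card_le_card h1)
    exact_mod_cast h2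
  have c2 : (insert x {w₁} : Finset V).card ≤ 3 := (card_insert_le _ _).trans (by simp)
  have c3 : (insert p (insert x {w₁}) : Finset V).card ≤ 3 :=
    (card_insert_le _ _).trans (by
      have : (insert x {w₁} : Finset V).card ≤ 2 := (card_insert_le _ _).trans (by simp)
      omega)
  have c4 : (insert q (insert p (insert x {w₁})) : Finset V).card ≤ 4 :=
    (card_insert_le _ _).trans (by omega)
  have f2 := h.phi_step s2 (hBA hp.2.2) n2 j2 (hdeg p hp.2.2) c2 le_rfl
  have f3 := h.phi_step s3 (hBA hq.2.2) n3 j3 (hdeg q hq.2.2) c3 le_rfl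
  have f4 := h.phi_step s4 (hBA hr.2.2) n4 j4 (hdeg r hr.2.2) c4 (by norm_num)
  rw [← hBeq] at f4
  rw [Phi_singleton] at f1
  unfold Good
  rw [h5]
  push_cast at f2 f3 f4 f1 f1' ⊢
  linarith

theorem PM.good5 {m : ℕ} {A : Finset V} (h : PM G (m + 2) A) {z : V} (hz : z ∈ A) :
    ∀ B : Finset V, B ⊆ A → B.Nonempty → Conn G B → z ∉ B → (∀ b ∈ B, ¬ G.Adj b z) →
      B.card ≤ 5 → Good G m A B := by
  intro B
  induction B using Finset.strongInduction with
  | H B ih =>
    intro hBA hBne hB hzB hzadj h5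
    by_contra hbad
    have hpos : 0 < B.card := card_pos.2 hBne
    have h2 : 2 ≤ B.card := by
      by_contra h1
      have h3 : B.card = 1 := by omega
      obtain ⟨w, rfl⟩ := card_eq_one.1 h3
      apply hbad
      unfold Good
      rw [Phi_singleton, card_singleton]
      norm_num
    have hgood : ∀ w ∈ B, Conn G (B.erase w) → Good G m A (B.erase w) := by
      intro w hw hc
      refine ih _ (erase_ssubset hw) ((erase_subset _ _).trans hBA) ?_ hc
        (fun h => hzB (mem_of_mem_erase h)) (fun b hb => hzadj b (mem_of_mem_erase hb)) ?_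
      · rw [← card_pos, card_erase_of_mem hw]; omega
      · rw [card_erase_of_mem hw]; omega
    have h3 := h.bad_e2 hBA hB h2 (by omega) hgood hbad
    have h4 := h.bd_ge hBA hBne hz hzB hzadj
    have h4' : (2 * ((m : ℤ) + 1)) ≤ (bd G A B).card := by exact_mod_cast h4
    have h6 := e2_le (G := G) B
    have ha : B.card = 5 := by
      interval_cases hb : B.card
      · push_cast at h3 h6; linarith
      · push_cast at h3 h6; linarith
      · push_cast at h3 h6; linarith
      · rfl
    rw [ha] at h3 h6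
    push_cast at h3 h6
    have he2 : (e2 G B : ℤ) = 20 := by linarith
    have hbd : ((bd G A B).card : ℤ) = 2 * m + 2 := by linarith
    have he2' : e2 G B = 20 := by exact_mod_cast he2
    have hcl := clique_of_e2 (G := G) (B := B) (by rw [ha, he2'])
    have hnb4 : ∀ w ∈ B, (nb G B w).card = 4 := by
      intro w hw
      have : nb G B w = B.erase w := by
        ext v
        rw [mem_nb, mem_erase]
        constructor
        · rintro ⟨h1, h2⟩; exact ⟨h2.ne', h1⟩
        · rintro ⟨h1, h2⟩; exact ⟨h2, hcl w hw v h2 (fun e => h1 e.symm)⟩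
      rw [this, card_erase_of_mem hw, ha]
    apply hbad
    apply h.k5_good hBA ha hcl
    intro w hw
    have hf := h.bad_facts hBA hB h2 (by omega) hgood hbad
    obtain ⟨w₀, hw₀, hmax⟩ := exists_max_image B
      (fun w => ((nb G A w).card : ℤ) - (nb G B w).card) hBne
    obtain ⟨h7, h8⟩ := hf w₀ hw₀
    have h9 : ∑ v ∈ B, (((nb G A v).card : ℤ) - (nb G B v).card) ≤
        (((nb G A w).card : ℤ) - (nb G B w).card) +
          4 * (((nb G A w₀).card : ℤ) - (nb G B w₀).card) := by
      rw [← add_sum_erase B _ hw]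
      have := sum_le_card_nsmul (B.erase w) (fun w => ((nb G A w).card : ℤ) - (nb G B w).card) _
        (fun v hv => hmax v (mem_of_mem_erase hv))
      rw [nsmul_eq_mul, card_erase_of_mem hw, ha] at this
      push_cast at this
      linarith
    rw [Phi_eq_sum, he2, hbd, ha] at h8
    have h10 := (hf w hw).1
    have h11 := hnb4 w hw
    rw [h11] at h10 h9
    rw [hnb4 w₀ hw₀] at h7 h8 h9
    push_cast at h7 h8 h9 h10
    have h12 : ((nb G A w).card : ℤ) = 2 * m + 3 := by linarith
    exact_mod_cast h12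

theorem exists_clique_five {B : Finset V} (h6 : B.card = 6) (h : 28 ≤ e2 G B) :
    ∃ S ⊆ B, 5 ≤ S.card ∧ ∀ u ∈ S, ∀ v ∈ S, u ≠ v → G.Adj u v := by
  have h1 : ∀ w ∈ B, nb G B w ⊆ B.erase w := by
    intro w hw v hv
    rw [mem_nb] at hv
    exact mem_erase.2 ⟨hv.2.ne', hv.1⟩
  have h1' : ∀ w ∈ B, (nb G B w).card ≤ 5 := by
    intro w hw
    have := card_le_card (h1 w hw)
    rw [card_erase_of_mem hw, h6] at this
    exact this
  set F := B.filter (fun w => (nb G B w).card = 5) with hF
  have h2 : e2 G B ≤ 24 + F.card := by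
    have h3 : e2 G B ≤ ∑ w ∈ B, (4 + if (nb G B w).card = 5 then 1 else 0) := by
      apply sum_le_sum
      intro w hw
      have := h1' w hw
      split_ifs with h4 <;> omega
    rw [sum_add_distrib, sum_const, h6, ← card_filter] at h3
    simpa using h3
  have h3 : 4 ≤ F.card := by omega
  have hfull : ∀ u ∈ F, ∀ v ∈ B, u ≠ v → G.Adj u v := by
    intro u hu v hv huv
    rw [hF, mem_filter] at hu
    have h4 : nb G B u = B.erase u := by
      apply eq_of_subset_of_card_le (h1 u hu.1)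
      rw [card_erase_of_mem hu.1, h6, hu.2]
    have h5 : v ∈ nb G B u := by
      rw [h4]
      exact mem_erase.2 ⟨fun e => huv e.symm, hv⟩
    exact (mem_nb.1 h5).2
  have hFB : F ⊆ B := filter_subset _ _
  by_cases h4 : 5 ≤ F.card
  · exact ⟨F, hFB, h4, fun u hu v hv huv => hfull u hu v (hFB hv) huv⟩
  · obtain ⟨v, hv, hvF⟩ : ∃ v ∈ B, v ∉ F := by
      by_contra hcon
      push Not at hcon
      have := card_le_card (show B ⊆ F from hcon)
      omega
    refine ⟨insert v F, insert_subset hv hFB, ?_, ?_⟩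
    · rw [card_insert_of_notMem hvF]; omega
    · intro x hx y hy hxy
      rw [mem_insert] at hx hy
      rcases hx with rfl | hx
      · rcases hy with rfl | hy
        · exact absurd rfl hxy
        · exact (hfull y hy x hv (fun e => hxy e.symm)).symm
      · rcases hy with rfl | hy
        · exact hfull x hx y hv hxy
        · exact hfull x hx y (hFB hy) hxy

theorem PM.good6 {m : ℕ} {A : Finset V} (h : PM G (m + 2) A) (hm : 2 ≤ m) {z : V} (hz : z ∈ A)
    {B : Finset V} (hBA : B ⊆ A) (hB : Conn G B) (hzB : z ∉ B) (hzadj : ∀ b ∈ B, ¬ G.Adj b z)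
    (h6 : B.card = 6) (hbd : 3 * m + 2 ≤ (bd G A B).card) : Good G m A B := by
  by_contra hbad
  have hgood : ∀ w ∈ B, Conn G (B.erase w) → Good G m A (B.erase w) := by
    intro w hw hc
    refine h.good5 hz _ ((erase_subset _ _).trans hBA) ?_ hc
      (fun h => hzB (mem_of_mem_erase h)) (fun b hb => hzadj b (mem_of_mem_erase hb)) ?_
    · rw [← card_pos, card_erase_of_mem hw]; omega
    · rw [card_erase_of_mem hw]; omega
  have h3 := h.bad_e2 hBA hB (by omega) (by omega) hgood hbad
  rw [h6] at h3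
  have h4 : (3 * (m : ℤ) + 2) ≤ (bd G A B).card := by exact_mod_cast hbd
  have h5 := e2_le (G := G) B
  rw [h6] at h5
  push_cast at h3 h5
  have h7 : (24 + 2 * (m : ℤ)) ≤ e2 G B := by linarith
  have h8 : 24 + 2 * m ≤ e2 G B := by exact_mod_cast h7
  have h9 : e2 G B ≤ 30 := by
    have : (e2 G B : ℤ) ≤ 30 := by linarith
    exact_mod_cast this
  have h10 : m = 2 ∨ m = 3 := by omega
  rcases h10 with rfl | rfl
  · obtain ⟨S, hS, hS5, hcl⟩ := exists_clique_five (G := G) h6 (by omega)
    have := h.clique_card_le (hS.trans hBA) hcl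
    omega
  · have hcl := clique_of_e2 (G := G) (B := B) (by rw [h6]; omega)
    have := h.clique_card_le hBA hcl
    omega

end

end Pool.Agent.Helper77.PMan
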