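import Pool.Agent.Helper77.PMBase

set_option autoImplicit false

/-! Connectivity of the complement of a closed star, and an isoperimetric inequality. -/

namespace Pool.Agent.Helper77.PMan

open Finset

noncomputable section

open scoped Classical

variable {V : Type*} {G : SimpleGraph V}

theorem Conn.exists_adj {A B : Finset V} (h : Conn G A) (hB : B ⊆ A) (hne : B.Nonempty)
    (hBA : B ≠ A) : ∃ v ∈ B, ∃ w ∈ A, w ∉ B ∧ G.Adj v w := by
  by_contra hno
  push Not at hno
  exact hBA (h B hB hne (fun v hv w hw hvw => by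
    by_contra hwB
    exact hno v hv w hw hwB hvw))

theorem conn_of_subsingleton {A : Finset V} (h : ∀ u ∈ A, ∀ v ∈ A, u = v) : Conn G A := by
  intro B hB ⟨b, hb⟩ _
  apply Subset.antisymm hB
  intro a ha
  rw [h a ha b (hB hb)]
  exact hb

theorem Conn.insert {A : Finset V} (h : Conn G A) {p c : V} (hc : c ∈ A) (hpc : G.Adj p c) :
    Conn G (insert p A) := by
  intro B hB hne hclo
  by_cases h1 : (B ∩ A).Nonempty
  · have h2 : B ∩ A = A := by
      apply h _ inter_subset_right h1
      intro v hv w hw hvw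
      rw [mem_inter] at hv ⊢
      exact ⟨hclo v hv.1 w (mem_insert_of_mem hw) hvw, hw⟩
    have h3 : A ⊆ B := by
      rw [← h2]
      exact inter_subset_left
    apply Subset.antisymm hB
    intro v hv
    rw [mem_insert] at hv
    rcases hv with rfl | hv
    · exact hclo c (h3 hc) v (mem_insert_self _ _) hpc.symm
    · exact h3 hv
  · exfalso
    obtain ⟨b, hb⟩ := hne
    have hbp : b = p := by
      rcases mem_insert.1 (hB hb) with h2 | h2
      · exact h2
      · exact absurd ⟨b, mem_inter.2 ⟨hb, h2⟩⟩ h1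
    subst hbp
    have h2 := hclo b hb c (mem_insert_of_mem hc) hpc
    exact h1 ⟨c, mem_inter.2 ⟨h2, hc⟩⟩

/-- double counting -/
theorem sum_card_nb_comm (B C : Finset V) :
    ∑ v ∈ B, (nb G C v).card = ∑ c ∈ C, (nb G B c).card := by
  have h1 : ∀ v ∈ B, (nb G C v).card = ∑ c ∈ C, if G.Adj v c then 1 else 0 := by
    intro v _
    rw [nb, card_filter]
  have h2 : ∀ c ∈ C, (nb G B c).card = ∑ v ∈ B, if G.Adj v c then 1 else 0 := by
    intro c _
    rw [nb, card_filter]
    apply sum_congr rfl
    intro v _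
    simp only [G.adj_comm]
  rw [sum_congr rfl h1, sum_congr rfl h2, sum_comm]

/-- twice the number of edges inside `B` -/
def e2 (G : SimpleGraph V) (B : Finset V) : ℕ := ∑ v ∈ B, (nb G B v).card

theorem nb_insert_of_adj {B : Finset V} {v w : V} (h : G.Adj v w) :
    nb G (insert w B) v = insert w (nb G B v) := by
  ext p
  simp only [mem_nb, mem_insert]
  constructor
  · rintro ⟨h1 | h1, h2⟩
    · exact Or.inl h1
    · exact Or.inr ⟨h1, h2⟩
  · rintro (h1 | h1)
    · subst h1; exact ⟨Or.inl rfl, h⟩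
    · exact ⟨Or.inr h1.1, h1.2⟩

theorem nb_insert_of_not_adj {B : Finset V} {v w : V} (h : ¬ G.Adj v w) :
    nb G (insert w B) v = nb G B v := by
  ext p
  simp only [mem_nb, mem_insert]
  constructor
  · rintro ⟨h1 | h1, h2⟩
    · subst h1; exact absurd h2 h
    · exact ⟨h1, h2⟩
  · rintro ⟨h1, h2⟩
    exact ⟨Or.inr h1, h2⟩

theorem e2_insert {B : Finset V} {w : V} (hw : w ∉ B) :
    e2 G (insert w B) = e2 G B + 2 * (nb G B w).card := by
  unfold e2
  rw [sum_insert hw, nb_insert_of_not_adj (G.loopless.irrefl w)]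
  have h1 : ∀ v ∈ B, (nb G (insert w B) v).card = (nb G B v).card + if G.Adj v w then 1 else 0 := by
    intro v _
    split_ifs with h
    · rw [nb_insert_of_adj h, card_insert_of_notMem]
      rw [mem_nb]
      exact fun h2 => hw h2.1
    · rw [nb_insert_of_not_adj h]; rfl
  rw [sum_congr rfl h1, sum_add_distrib]
  have h2 : ∑ v ∈ B, (if G.Adj v w then 1 else 0) = (nb G B w).card := by
    rw [nb, card_filter]
    apply sum_congr rfl
    intro v _
    simp only [G.adj_comm]
  rw [h2]
  ring

theorem e2_even (B : Finset V) : Even (e2 G B) := by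
  induction B using Finset.induction_on with
  | empty => simp [e2]
  | insert w B hw ih =>
    rw [e2_insert hw]
    exact ih.add (even_two_mul _)

theorem PM.card_two {A : Finset V} (h : PM G 1 A) : A.card = 2 := by
  obtain ⟨a, b, hab, _, rfl⟩ := h
  exact card_pair hab

/-- neighbours inside a disjoint union -/
theorem card_nb_union {B C : Finset V} (hd : Disjoint B C) (v : V) :
    (nb G (B ∪ C) v).card = (nb G B v).card + (nb G C v).card := by
  unfold nb
  rw [filter_union, card_union_of_disjoint]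
  exact disjoint_filter_filter hd

theorem e2_union_disj {B C : Finset V} (hd : Disjoint B C) :
    e2 G (B ∪ C) = e2 G B + e2 G C + 2 * ∑ v ∈ B, (nb G C v).card := by
  unfold e2
  rw [sum_union hd]
  have h1 : ∀ v : V, (nb G (B ∪ C) v).card = (nb G B v).card + (nb G C v).card :=
    fun v => card_nb_union hd v
  simp only [h1, sum_add_distrib]
  rw [sum_card_nb_comm C B]
  ring

theorem PM.conn_nn_two {A : Finset V} (h : PM G 2 A) {x : V} (hx : x ∈ A) : Conn G (nn G A x) := by
  intro B hB hne hclo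
  by_contra hBne
  obtain ⟨y, y', hyy', hadj, hL⟩ := h.link hx
  have hy : y ∈ A ∧ G.Adj x y := by
    rw [← mem_nb, hL]; simp
  have hy' : y' ∈ A ∧ G.Adj x y' := by
    rw [← mem_nb, hL]; simp
  have hc2 : ∀ v ∈ A, (nb G A v).card = 2 := fun v hv => (h.link hv).card_two
  have hBA : B ⊆ A := fun v hv => (mem_nn.1 (hB hv)).1
  have hxB : x ∉ B := fun hxB => (mem_nn.1 (hB hxB)).2.1 rfl
  -- neighbours of closed sets
  have hnbr : ∀ C ⊆ nn G A x, Clo G (nn G A x) C → ∀ v ∈ C, nb G A v ⊆ C ∪ {y, y'} := by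
    intro C hC hcl v hv w hw
    have hw1 := mem_nb.1 hw
    have hv1 := mem_nn.1 (hC hv)
    rw [mem_union]
    by_cases hwx : G.Adj x w
    · right
      have : w ∈ nb G A x := mem_nb.2 ⟨hw1.1, hwx⟩
      rwa [hL] at this
    · left
      apply hcl v hv w _ hw1.2
      rw [mem_nn]
      refine ⟨hw1.1, ?_, hwx⟩
      rintro rfl
      exact hv1.2.2 hw1.2.symm
  have hno : ∀ C ⊆ nn G A x, Clo G (nn G A x) C → C.Nonempty →
      (nb G C y).Nonempty ∨ (nb G C y').Nonempty := by
    intro C hC hcl hCne
    by_contra hcon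
    push Not at hcon
    have hCA : C ⊆ A := fun v hv => (mem_nn.1 (hC hv)).1
    have h1 : C = A := by
      apply h.conn C hCA hCne
      intro v hv w hw hvw
      have h2 := hnbr C hC hcl v hv (mem_nb.2 ⟨hw, hvw⟩)
      rw [mem_union, mem_insert, mem_singleton] at h2
      rcases h2 with h2 | rfl | rfl
      · exact h2
      · exfalso
        have : v ∈ nb G C w := mem_nb.2 ⟨hv, hvw.symm⟩
        rw [hcon.1] at this
        exact notMem_empty _ this
      · exfalso
        have : v ∈ nb G C w := mem_nb.2 ⟨hv, hvw.symm⟩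
        rw [hcon.2] at this
        exact notMem_empty _ this
    have h2 : x ∈ C := by rw [h1]; exact hx
    exact (mem_nn.1 (hC h2)).2.1 rfl
  have hC : nn G A x \ B ⊆ nn G A x := sdiff_subset
  have hCclo : Clo G (nn G A x) (nn G A x \ B) := by
    intro v hv w hw hvw
    rw [mem_sdiff] at hv ⊢
    refine ⟨hw, fun hwB => hv.2 ?_⟩
    exact hclo w hwB v hv.1 hvw.symm
  have hCne : (nn G A x \ B).Nonempty := by
    rw [sdiff_nonempty]
    intro hsub
    exact hBne (Subset.antisymm hB hsub)
  have hB1 := hno B hB hclo hne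
  have hC1 := hno _ hC hCclo hCne
  -- at most one neighbour of y in nn
  have hone : ∀ t ∈ A, G.Adj x t → (nb G B t).card + (nb G (nn G A x \ B) t).card ≤ 1 := by
    intro t ht hxt
    have h1 : insert x (nb G B t ∪ nb G (nn G A x \ B) t) ⊆ nb G A t := by
      intro v hv
      rw [mem_insert, mem_union] at hv
      rcases hv with rfl | hv | hv
      · exact mem_nb.2 ⟨hx, hxt.symm⟩
      · exact nb_mono hBA t hv
      · have := mem_nb.1 hv
        exact mem_nb.2 ⟨(mem_nn.1 (mem_sdiff.1 this.1).1).1, this.2⟩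
    have h2 := card_le_card h1
    rw [card_insert_of_notMem, card_union_of_disjoint, hc2 t ht] at h2
    · omega
    · rw [disjoint_left]
      intro v hv hv'
      exact (mem_sdiff.1 (mem_nb.1 hv').1).2 (mem_nb.1 hv).1
    · rw [mem_union]
      rintro (h3 | h3)
      · exact hxB (mem_nb.1 h3).1
      · exact (mem_nn.1 (mem_sdiff.1 (mem_nb.1 h3).1).1).2.1 rfl
  have ho1 := hone y hy.1 hy.2
  have ho2 := hone y' hy'.1 hy'.2
  have hsum : (nb G B y).card + (nb G B y').card = 1 := by
    rcases hB1 with h1 | h1 <;> rcases hC1 with h2 | h2 <;>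
      (have h3 := h1.card_pos; have h4 := h2.card_pos; omega)
  -- parity
  have hd : Disjoint B ({y, y'} : Finset V) := by
    rw [disjoint_left]
    intro v hv hv'
    rw [mem_insert, mem_singleton] at hv'
    rcases hv' with rfl | rfl
    · exact (mem_nn.1 (hB hv)).2.2 hy.2
    · exact (mem_nn.1 (hB hv)).2.2 hy'.2
  have h1 : ∀ v ∈ B, (nb G B v).card + (nb G ({y, y'} : Finset V) v).card = 2 := by
    intro v hv
    rw [← card_nb_union hd, ← hc2 v (hBA hv)]
    congr 1
    ext w
    rw [mem_nb]
    constructor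
    · rintro ⟨hw1, hw2⟩
      rw [mem_nb]
      refine ⟨?_, hw2⟩
      rw [mem_union, mem_insert, mem_singleton] at hw1
      rcases hw1 with hw1 | rfl | rfl
      · exact hBA hw1
      · exact hy.1
      · exact hy'.1
    · intro hw
      exact ⟨hnbr B hB hclo v hv hw, (mem_nb.1 hw).2⟩
  have h2 := sum_congr rfl h1
  rw [sum_add_distrib, sum_card_nb_comm B ({y, y'} : Finset V), sum_pair hyy', hsum, sum_const,
    smul_eq_mul] at h2
  have h3 := e2_even (G := G) B
  obtain ⟨k, hk⟩ := h3
  unfold e2 at hk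
  omega

theorem PM.conn_nn {n : ℕ} : ∀ {A : Finset V}, PM G (n + 1) A → ∀ {x : V}, x ∈ A →
    Conn G (nn G A x) := by
  induction n with
  | zero =>
    intro A h x hx
    obtain ⟨a, b, hab, hadj, rfl⟩ := h
    apply conn_of_subsingleton
    intro u hu v hv
    rw [mem_nn, mem_insert, mem_singleton] at hu hv
    rw [mem_insert, mem_singleton] at hx
    rcases hx with rfl | rfl
    · rcases hu.1 with h1 | h1
      · exact absurd h1 hu.2.1
      · rcases hv.1 with h2 | h2
        · exact absurd h2 hv.2.1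
        · rw [h1, h2]
    · rcases hu.1 with h1 | h1
      · rcases hv.1 with h2 | h2
        · rw [h1, h2]
        · exact absurd h2 hv.2.1
      · exact absurd h1 hu.2.1
  | succ n ih =>
    intro A h x hx
    cases n with
    | zero => exact h.conn_nn_two hx
    | succ n =>
      intro B hB hne hclo
      have hBA : B ⊆ A := fun v hv => (mem_nn.1 (hB hv)).1
      have hxB : x ∉ B := fun hxB => (mem_nn.1 (hB hxB)).2.1 rfl
      -- claim 1
      have c1 : ∃ y ∈ nb G A x, (nb G B y).Nonempty := by
        by_contra hcon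
        push Not at hcon
        have h1 : B = A := by
          apply h.conn B hBA hne
          intro v hv w hw hvw
          have hv1 := mem_nn.1 (hB hv)
          by_cases hwx : G.Adj x w
          · exfalso
            have h2 := hcon w (mem_nb.2 ⟨hw, hwx⟩)
            have h3 : v ∈ nb G B w := mem_nb.2 ⟨hv, hvw.symm⟩
            rw [h2] at h3
            exact notMem_empty _ h3
          · apply hclo v hv w _ hvw
            rw [mem_nn]
            refine ⟨hw, ?_, hwx⟩
            rintro rfl
            exact hv1.2.2 hvw.symm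
        exact hxB (by rw [h1]; exact hx)
      -- claim 2
      have c2 : ∀ y ∈ nb G A x, (nb G B y).Nonempty → ∀ w ∈ nn G A x, G.Adj y w → w ∈ B := by
        intro y hy hyB w hw hyw
        have hy1 := mem_nb.1 hy
        have h1 := ih (h.link hy1.1) (x := x) (mem_nb.2 ⟨hx, hy1.2.symm⟩)
        have h2 : nb G B y = nn G (nb G A y) x := by
          apply h1 _ _ hyB
          · intro v hv w' hw' hvw'
            rw [mem_nb] at hv ⊢
            have hw1 := mem_nn.1 hw'
            have hw2 := mem_nb.1 hw1.1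
            exact ⟨hclo v hv.1 w' (mem_nn.2 ⟨hw2.1, hw1.2⟩) hvw', hw2.2⟩
          · intro v hv
            rw [mem_nb] at hv
            have hv1 := mem_nn.1 (hB hv.1)
            exact mem_nn.2 ⟨mem_nb.2 ⟨hv1.1, hv.2⟩, hv1.2⟩
        have hw1 := mem_nn.1 hw
        have h3 : w ∈ nn G (nb G A y) x := mem_nn.2 ⟨mem_nb.2 ⟨hw1.1, hyw⟩, hw1.2⟩
        rw [← h2] at h3
        exact (mem_nb.1 h3).1
      -- claim 3
      have c3 : (nb G A x).filter (fun y => (nb G B y).Nonempty) = nb G A x := by
        apply (h.link hx).conn _ (filter_subset _ _)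
        · obtain ⟨y, hy, hyB⟩ := c1
          exact ⟨y, mem_filter.2 ⟨hy, hyB⟩⟩
        · intro y hy y' hy' hyy'
          rw [mem_filter] at hy ⊢
          refine ⟨hy', ?_⟩
          have hy1 := mem_nb.1 hy.1
          have hy2 := mem_nb.1 hy'
          obtain ⟨w, hw, hwx, hadj⟩ := ((h.link hy1.1).link (v := y')
            (mem_nb.2 ⟨hy2.1, hyy'⟩)).exists_nonadj (v := x)
            (mem_nb.2 ⟨mem_nb.2 ⟨hx, hy1.2.symm⟩, hy2.2.symm⟩)
          have hw1 := mem_nb.1 hw
          have hw2 := mem_nb.1 hw1.1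
          exact ⟨w, mem_nb.2 ⟨c2 y hy.1 hy.2 w (mem_nn.2 ⟨hw2.1, hwx, hadj⟩) hw2.2, hw1.2⟩⟩
      -- conclusion
      have c4 : insert x (nb G A x ∪ B) = A := by
        apply h.conn
        · intro v hv
          rw [mem_insert, mem_union] at hv
          rcases hv with rfl | hv | hv
          · exact hx
          · exact nb_subset hv
          · exact hBA hv
        · exact ⟨x, mem_insert_self _ _⟩
        · intro v hv w hw hvw
          rw [mem_insert, mem_union] at hv ⊢
          by_cases hwx : w = x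
          · exact Or.inl hwx
          · by_cases hxw : G.Adj x w
            · exact Or.inr (Or.inl (mem_nb.2 ⟨hw, hxw⟩))
            · right; right
              have hwnn : w ∈ nn G A x := mem_nn.2 ⟨hw, hwx, hxw⟩
              rcases hv with rfl | hv | hv
              · exact absurd hvw hxw
              · rw [← c3, mem_filter] at hv
                exact c2 v hv.1 hv.2 w hwnn hvw
              · exact hclo v hv w hwnn hvw
      apply Subset.antisymm hB
      intro v hv
      have hv1 := mem_nn.1 hv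
      have h5 : v ∈ insert x (nb G A x ∪ B) := by rw [c4]; exact hv1.1
      rw [mem_insert, mem_union] at h5
      rcases h5 with h5 | h5 | h5
      · exact absurd h5 hv1.2.1
      · exact absurd (mem_nb.1 h5).2 hv1.2.2
      · exact h5

/-- outer boundary of `B` in `A` -/
def bd (G : SimpleGraph V) (A B : Finset V) : Finset V :=
  (A \ B).filter (fun p => (nb G B p).Nonempty)

theorem mem_bd {A B : Finset V} {p : V} :
    p ∈ bd G A B ↔ (p ∈ A ∧ p ∉ B) ∧ ∃ b ∈ B, G.Adj p b := by
  unfold bd
  rw [mem_filter, mem_sdiff]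
  constructor
  · rintro ⟨h1, ⟨b, hb⟩⟩
    exact ⟨h1, b, (mem_nb.1 hb).1, (mem_nb.1 hb).2⟩
  · rintro ⟨h1, b, hb, h2⟩
    exact ⟨h1, ⟨b, mem_nb.2 ⟨hb, h2⟩⟩⟩

/-- isoperimetric inequality: a set which does not dominate everything has a large boundary -/
theorem PM.bd_ge {n : ℕ} : ∀ {A B : Finset V}, PM G (n + 1) A → B ⊆ A → B.Nonempty →
    ∀ {z : V}, z ∈ A → z ∉ B → (∀ b ∈ B, ¬ G.Adj b z) → 2 * n ≤ (bd G A B).card := by
  induction n with
  | zero => intros; simp
  | succ n ih =>
    intro A B h hBA hBne z hz hzB hzadj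
    have hT : B ∪ bd G A B ≠ A := by
      intro heq
      have : z ∈ B ∪ bd G A B := by rw [heq]; exact hz
      rw [mem_union, mem_bd] at this
      rcases this with h1 | ⟨_, b, hb, hzb⟩
      · exact hzB h1
      · exact hzadj b hb hzb.symm
    obtain ⟨p, hp, q, hq, hqT, hpq⟩ := h.conn.exists_adj (B := B ∪ bd G A B) (by
      intro v hv
      rw [mem_union] at hv
      rcases hv with hv | hv
      · exact hBA hv
      · exact (mem_bd.1 hv).1.1) (hBne.mono subset_union_left) hT
    rw [mem_union, not_or] at hqT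
    have hqadj : ∀ b ∈ B, ¬ G.Adj q b := by
      intro b hb hqb
      exact hqT.2 (mem_bd.2 ⟨⟨hq, hqT.1⟩, b, hb, hqb⟩)
    have hpC : p ∈ bd G A B := by
      rw [mem_union] at hp
      rcases hp with hp | hp
      · exact absurd hpq.symm (hqadj p hp)
      · exact hp
    obtain ⟨⟨hpA, hpB⟩, b₀, hb₀, hpb₀⟩ := mem_bd.1 hpC
    -- inside the link of p
    have h1 := ih (A := nb G A p) (B := nb G B p) (h.link hpA) (nb_mono hBA p)
      ⟨b₀, mem_nb.2 ⟨hb₀, hpb₀⟩⟩ (z := q) (mem_nb.2 ⟨hq, hpq⟩) (fun hq' => hqT.1 (mem_nb.1 hq').1)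
      (fun b hb hbq => hqadj b (mem_nb.1 hb).1 hbq.symm)
    have h2 : bd G (nb G A p) (nb G B p) ⊆ nb G (bd G A B) p := by
      intro v hv
      obtain ⟨⟨hv1, hv2⟩, b, hb, hvb⟩ := mem_bd.1 hv
      rw [mem_nb] at hv1 hb
      rw [mem_nb, mem_bd]
      exact ⟨⟨⟨hv1.1, fun hvB => hv2 (mem_nb.2 ⟨hvB, hv1.2⟩)⟩, b, hb.1, hvb⟩, hv1.2⟩
    have h3 := card_le_card h2
    -- another element of the boundary, not adjacent to p
    have h4 : ∃ c ∈ bd G A B, c ≠ p ∧ ¬ G.Adj p c := by
      by_contra hcon
      push Not at hcon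
      by_cases hbb : ∃ b ∈ B, b ∈ nn G A p
      · obtain ⟨b, hb, hbn⟩ := hbb
        have h5 : (nn G A p).filter (fun v => v ∈ B) = nn G A p := by
          apply h.conn_nn hpA _ (filter_subset _ _) ⟨b, mem_filter.2 ⟨hbn, hb⟩⟩
          intro v hv w hw hvw
          rw [mem_filter] at hv ⊢
          refine ⟨hw, ?_⟩
          by_contra hwB
          have hw1 := mem_nn.1 hw
          have hwC : w ∈ bd G A B := mem_bd.2 ⟨⟨hw1.1, hwB⟩, v, hv.2, hvw.symm⟩
          exact hw1.2.2 (hcon w hwC hw1.2.1)
        obtain ⟨r, hr, hrp, hadj⟩ := (h.link hq).exists_nonadj (v := p) (mem_nb.2 ⟨hpA, hpq.symm⟩)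
        have hr1 := mem_nb.1 hr
        have hrn : r ∈ nn G A p := mem_nn.2 ⟨hr1.1, hrp, hadj⟩
        rw [← h5, mem_filter] at hrn
        exact hqadj r hrn.2 hr1.2
      · push Not at hbb
        obtain ⟨r, hr, hrp, hadj⟩ := (h.link (hBA hb₀)).exists_nonadj (v := p)
          (mem_nb.2 ⟨hpA, hpb₀.symm⟩)
        have hr1 := mem_nb.1 hr
        have hrn : r ∈ nn G A p := mem_nn.2 ⟨hr1.1, hrp, hadj⟩
        by_cases hrB : r ∈ B
        · exact hbb r hrB hrn
        · have hrC : r ∈ bd G A B := mem_bd.2 ⟨⟨hr1.1, hrB⟩, b₀, hb₀, hr1.2.symm⟩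
          exact hadj (hcon r hrC hrp)
    obtain ⟨c, hc, hcp, hadj⟩ := h4
    have h5 : insert p (insert c (nb G (bd G A B) p)) ⊆ bd G A B := by
      intro v hv
      rw [mem_insert, mem_insert] at hv
      rcases hv with rfl | rfl | hv
      · exact hpC
      · exact hc
      · exact nb_subset hv
    have h6 := card_le_card h5
    rw [card_insert_of_notMem, card_insert_of_notMem] at h6
    · omega
    · rw [mem_nb]; tauto
    · rw [mem_insert]
      rintro (h7 | h7)
      · exact hcp h7.symm
      · exact not_mem_nb_self h7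

end

end Pool.Agent.Helper77.PMan
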