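import Pool.Agent.Helper77.PMIso

set_option autoImplicit false

/-! The functional `Phi` measuring the change of `gamma_2` when a connected set is contracted. -/

namespace Pool.Agent.Helper77.PMan

open Finset

noncomputable section

open scoped Classical

variable {V : Type*} {G : SimpleGraph V}

def Phi (G : SimpleGraph V) (A B : Finset V) : ℤ :=
  2 * (∑ w ∈ B, ((nb G A w).card : ℤ)) - 2 * ((bd G A B).card : ℤ) - (e2 G B : ℤ)

/-- common neighbours of `w` and `B` -/
def cs (G : SimpleGraph V) (A B : Finset V) (w : V) : Finset V :=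
  (nb G A w).filter (fun p => p ∉ B ∧ (nb G B p).Nonempty)

theorem mem_cs {A B : Finset V} {w p : V} :
    p ∈ cs G A B w ↔ (p ∈ A ∧ G.Adj w p) ∧ p ∉ B ∧ (nb G B p).Nonempty := by
  unfold cs
  rw [mem_filter, mem_nb]

theorem Phi_singleton {A : Finset V} {w : V} : Phi G A {w} = 0 := by
  have h1 : bd G A {w} = nb G A w := by
    ext p
    rw [mem_bd, mem_nb]
    constructor
    · rintro ⟨⟨h1, h2⟩, b, hb, h3⟩
      rw [mem_singleton] at hb
      subst hb
      exact ⟨h1, h3.symm⟩
    · rintro ⟨h1, h2⟩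
      refine ⟨⟨h1, ?_⟩, w, mem_singleton_self w, h2.symm⟩
      rw [mem_singleton]
      rintro rfl
      exact h2.ne rfl
  have h2 : e2 G {w} = 0 := by
    unfold e2
    rw [sum_singleton, card_eq_zero, eq_empty_iff_forall_notMem]
    intro v hv
    rw [mem_nb, mem_singleton] at hv
    rw [hv.1] at hv
    exact hv.2.ne rfl
  unfold Phi
  rw [h1, h2, sum_singleton]
  simp

theorem Phi_insert {A B : Finset V} (hBA : B ⊆ A) {w : V} (hw : w ∈ A) (hwB : w ∉ B)
    (hJ : (nb G B w).Nonempty) :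
    Phi G A (insert w B) = Phi G A B + 2 * ((cs G A B w).card : ℤ) + 2 := by
  set D := (nb G A w).filter (fun p => p ∉ B ∧ ¬ (nb G B p).Nonempty) with hD
  have h1 : bd G A (insert w B) = (bd G A B).erase w ∪ D := by
    ext p
    rw [mem_bd, mem_union, mem_erase, mem_bd, hD, mem_filter, mem_nb, mem_insert, not_or]
    constructor
    · rintro ⟨⟨h1, h2, h3⟩, b, hb, h4⟩
      by_cases h5 : (nb G B p).Nonempty
      · left
        obtain ⟨b', hb'⟩ := h5
        exact ⟨h2, ⟨h1, h3⟩, b', (mem_nb.1 hb').1, (mem_nb.1 hb').2⟩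
      · right
        rw [mem_insert] at hb
        rcases hb with rfl | hb
        · exact ⟨⟨h1, h4.symm⟩, h3, h5⟩
        · exact absurd ⟨b, mem_nb.2 ⟨hb, h4⟩⟩ h5
    · rintro (⟨h1, ⟨h2, h3⟩, b, hb, h4⟩ | ⟨⟨h1, h2⟩, h3, h4⟩)
      · exact ⟨⟨h2, h1, h3⟩, b, mem_insert_of_mem hb, h4⟩
      · refine ⟨⟨h1, ?_, h3⟩, w, mem_insert_self _ _, h2.symm⟩
        rintro rfl
        exact h2.ne rfl
  have hwbd : w ∈ bd G A B := by
    obtain ⟨b, hb⟩ := hJ
    exact mem_bd.2 ⟨⟨hw, hwB⟩, b, (mem_nb.1 hb).1, (mem_nb.1 hb).2⟩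
  have hpos : 0 < (bd G A B).card := card_pos.2 ⟨w, hwbd⟩
  have h2 : (bd G A (insert w B)).card + 1 = (bd G A B).card + D.card := by
    rw [h1, card_union_of_disjoint, card_erase_of_mem hwbd]
    · omega
    · rw [disjoint_left]
      intro p hp hp'
      rw [mem_erase, mem_bd] at hp
      rw [hD, mem_filter] at hp'
      obtain ⟨_, _, b, hb, hpb⟩ := hp
      exact hp'.2.2 ⟨b, mem_nb.2 ⟨hb, hpb⟩⟩
  have h3 : (nb G A w).card = (nb G B w).card + (cs G A B w).card + D.card := by
    have e1 : nb G B w = (nb G A w).filter (fun p => p ∈ B) := by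
      ext p
      rw [mem_nb, mem_filter, mem_nb]
      constructor
      · rintro ⟨h1, h2⟩
        exact ⟨⟨hBA h1, h2⟩, h1⟩
      · rintro ⟨⟨h1, h2⟩, h3⟩
        exact ⟨h3, h2⟩
    have e2' : (nb G A w).card = ((nb G A w).filter (fun p => p ∈ B)).card
        + ((nb G A w).filter (fun p => ¬ p ∈ B)).card :=
      (card_filter_add_card_filter_not _).symm
    have e3 : ((nb G A w).filter (fun p => ¬ p ∈ B)).card = (cs G A B w).card + D.card := by
      rw [← card_filter_add_card_filter_not (s := (nb G A w).filter (fun p => ¬ p ∈ B))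
        (fun p => (nb G B p).Nonempty), filter_filter, filter_filter]
      rfl
    rw [← e1] at e2'
    omega
  unfold Phi
  rw [sum_insert hwB, e2_insert hwB]
  have h4 : ((bd G A (insert w B)).card : ℤ) + 1 = (bd G A B).card + D.card := by exact_mod_cast h2
  have h5 : ((nb G A w).card : ℤ) = (nb G B w).card + (cs G A B w).card + D.card := by
    exact_mod_cast h3
  push_cast
  linarith

theorem PM.cs_ge {m : ℕ} {A B : Finset V} (h : PM G (m + 2) A) (hBA : B ⊆ A) {w : V} (hw : w ∈ A)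
    (hJ : (nb G B w).Nonempty) :
    2 * m ≤ (cs G A B w).card ∨ (nb G A w).card ≤ (cs G A B w).card + (nb G B w).card := by
  by_cases hz : ∃ z ∈ nb G A w, z ∉ nb G B w ∧ ∀ b ∈ nb G B w, ¬ G.Adj b z
  · left
    obtain ⟨z, hz1, hz2, hz3⟩ := hz
    have h1 := (h.link hw).bd_ge (nb_mono hBA w) hJ hz1 hz2 hz3
    refine h1.trans (card_le_card ?_)
    intro p hp
    obtain ⟨⟨h2, h3⟩, b, hb, hpb⟩ := mem_bd.1 hp
    rw [mem_nb] at h2 hb
    rw [mem_cs]
    exact ⟨h2, fun hpB => h3 (mem_nb.2 ⟨hpB, h2.2⟩), b, mem_nb.2 ⟨hb.1, hpb⟩⟩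
  · right
    push Not at hz
    have h1 : nb G A w ⊆ cs G A B w ∪ nb G B w := by
      intro p hp
      rw [mem_union]
      by_cases hpB : p ∈ nb G B w
      · exact Or.inr hpB
      · left
        obtain ⟨b, hb, hbp⟩ := hz p hp hpB
        rw [mem_nb] at hp hb
        exact mem_cs.2 ⟨hp, fun h => hpB (mem_nb.2 ⟨h, hp.2⟩), b, mem_nb.2 ⟨hb.1, hbp.symm⟩⟩
    exact (card_le_card h1).trans (card_union_le _ _)

def Good (G : SimpleGraph V) (m : ℕ) (A B : Finset V) : Prop :=
  (4 * (m : ℤ) + 2) * ((B.card : ℤ) - 1) ≤ Phi G A B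

theorem conn_compl_part {B X : Finset V} {w : V} (hB : Conn G B) (hw : w ∈ B)
    (hX : X ⊆ B.erase w) (hclo : Clo G (B.erase w) X) : Conn G (B \ X) := by
  intro Y hY hYne hYclo
  have key : ∀ v ∈ B \ X, v ≠ w → ∀ u ∈ B, G.Adj v u → u ∈ B \ X := by
    intro v hv hvw u hu hvu
    rw [mem_sdiff] at hv ⊢
    refine ⟨hu, fun huX => hv.2 ?_⟩
    exact hclo u huX v (mem_erase.2 ⟨hvw, hv.1⟩) hvu.symm
  by_cases hwY : w ∈ Y
  · by_contra hne
    have hZne : ((B \ X) \ Y).Nonempty := by
      rw [sdiff_nonempty]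
      intro h
      exact hne (Subset.antisymm hY h)
    have h1 : (B \ X) \ Y = B := by
      apply hB _ (sdiff_subset.trans sdiff_subset) hZne
      intro v hv u hu hvu
      rw [mem_sdiff] at hv ⊢
      have hvw : v ≠ w := by
        rintro rfl
        exact hv.2 hwY
      have h2 := key v hv.1 hvw u hu hvu
      exact ⟨h2, fun huY => hv.2 (hYclo u huY v hv.1 hvu.symm)⟩
    have h2 : w ∈ (B \ X) \ Y := by rw [h1]; exact hw
    exact (mem_sdiff.1 h2).2 hwY
  · exfalso
    have h1 : Y = B := by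
      apply hB _ (hY.trans sdiff_subset) hYne
      intro v hv u hu hvu
      have hvw : v ≠ w := by
        rintro rfl
        exact hwY hv
      exact hYclo v hv u (key v (hY hv) hvw u hu hvu) hvu
    exact hwY (by rw [h1]; exact hw)

theorem exists_small_noncut {B X : Finset V} {w : V} (hB : Conn G B) (hw : w ∈ B)
    (hX : X ⊆ B.erase w) (hclo : Clo G (B.erase w) X) (hXne : X.Nonempty) (hX2 : X.card ≤ 2) :
    ∃ v ∈ B, Conn G (B.erase v) ∧ (nb G B v).card ≤ 2 := by
  have hXB : X ⊆ B := hX.trans (erase_subset _ _)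
  have hwX : w ∉ X := fun h => (mem_erase.1 (hX h)).1 rfl
  have hY := conn_compl_part hB hw hX hclo
  have hnb : ∀ v ∈ X, (nb G B v).card ≤ 2 := by
    intro v hv
    have h1 : nb G B v ⊆ insert w (X.erase v) := by
      intro u hu
      rw [mem_nb] at hu
      rw [mem_insert]
      by_cases huw : u = w
      · exact Or.inl huw
      · right
        rw [mem_erase]
        exact ⟨hu.2.ne', hclo v hv u (mem_erase.2 ⟨huw, hu.1⟩) hu.2⟩
    have h2 := card_le_card h1
    have h3 := card_insert_le w (X.erase v)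
    rw [card_erase_of_mem hv] at h3
    have h4 : 0 < X.card := card_pos.2 ⟨v, hv⟩
    omega
  obtain ⟨y, hy, u, hu, huY, hyu⟩ := hB.exists_adj (B := B \ X) sdiff_subset
    ⟨w, mem_sdiff.2 ⟨hw, hwX⟩⟩ (by
      intro h
      obtain ⟨x, hx⟩ := hXne
      have : x ∈ B \ X := by rw [h]; exact hXB hx
      exact (mem_sdiff.1 this).2 hx)
  have huX : u ∈ X := by
    by_contra h
    exact huY (mem_sdiff.2 ⟨hu, h⟩)
  by_cases h1 : ∃ v ∈ X, v ≠ u
  · obtain ⟨v, hv, hvu⟩ := h1
    refine ⟨v, hXB hv, ?_, hnb v hv⟩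
    have h2 : B.erase v = insert u (B \ X) := by
      ext z
      rw [mem_erase, mem_insert, mem_sdiff]
      constructor
      · rintro ⟨h3, h4⟩
        by_cases h5 : z ∈ X
        · left
          by_contra h6
          have h7 : ({v, u, z} : Finset V) ⊆ X := by
            intro t ht
            rw [mem_insert, mem_insert, mem_singleton] at ht
            rcases ht with rfl | rfl | rfl <;> assumption
          have h8 := card_le_card h7
          rw [card_eq_three.2 ⟨v, u, z, hvu, fun h => h3 h.symm, fun h => h6 h.symm, rfl⟩] at h8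
          omega
        · exact Or.inr ⟨h4, h5⟩
      · rintro (rfl | ⟨h3, h4⟩)
        · exact ⟨fun h => hvu h.symm, hu⟩
        · exact ⟨fun h => h4 (h ▸ hv), h3⟩
    rw [h2]
    exact hY.insert hy hyu.symm
  · push Not at h1
    refine ⟨u, hu, ?_, hnb u huX⟩
    have h2 : B.erase u = B \ X := by
      ext z
      rw [mem_erase, mem_sdiff]
      constructor
      · rintro ⟨h3, h4⟩
        exact ⟨h4, fun h => h3 (h1 z h)⟩
      · rintro ⟨h3, h4⟩
        exact ⟨fun h => h4 (h ▸ huX), h3⟩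
    rw [h2]
    exact hY

theorem all_noncut {B : Finset V} (hB : Conn G B) (h6 : B.card ≤ 6)
    (h3 : ∀ w ∈ B, Conn G (B.erase w) → 3 ≤ (nb G B w).card) : ∀ w ∈ B, Conn G (B.erase w) := by
  intro w hw X hX hXne hclo
  by_contra hne
  have hX' : (B.erase w) \ X ⊆ B.erase w := sdiff_subset
  have hclo' : Clo G (B.erase w) ((B.erase w) \ X) := by
    intro v hv u hu hvu
    rw [mem_sdiff] at hv ⊢
    exact ⟨hu, fun huX => hv.2 (hclo u huX v hv.1 hvu.symm)⟩
  have hne' : ((B.erase w) \ X).Nonempty := by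
    rw [sdiff_nonempty]
    intro h
    exact hne (Subset.antisymm hX h)
  have hc : ((B.erase w) \ X).card + X.card = B.card - 1 := by
    rw [card_sdiff_add_card_eq_card hX, card_erase_of_mem hw]
  have hex : ∃ v ∈ B, Conn G (B.erase v) ∧ (nb G B v).card ≤ 2 := by
    by_cases h2 : X.card ≤ 2
    · exact exists_small_noncut hB hw hX hclo hXne h2
    · exact exists_small_noncut hB hw hX' hclo' hne' (by omega)
  obtain ⟨v, hv, hcv, hdv⟩ := hex
  have := h3 v hv hcv
  omega

/-- numerical consequences of minimal badness -/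
theorem PM.bad_facts {m : ℕ} {A B : Finset V} (h : PM G (m + 2) A) (hBA : B ⊆ A) (hB : Conn G B)
    (h2 : 2 ≤ B.card) (h6 : B.card ≤ 6)
    (hgood : ∀ w ∈ B, Conn G (B.erase w) → Good G m A (B.erase w)) (hbad : ¬ Good G m A B) :
    ∀ w ∈ B, ((nb G A w).card : ℤ) - (nb G B w).card ≤ 2 * m - 1 ∧
      (4 * (m : ℤ) + 2) * ((B.card : ℤ) - 2) + 2 * (((nb G A w).card : ℤ) - (nb G B w).card) + 2 ≤
        Phi G A B := by
  have step : ∀ w ∈ B, Conn G (B.erase w) →
      ((nb G A w).card : ℤ) - (nb G B w).card ≤ 2 * m - 1 ∧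
      (4 * (m : ℤ) + 2) * ((B.card : ℤ) - 2) + 2 * (((nb G A w).card : ℤ) - (nb G B w).card) + 2 ≤
        Phi G A B := by
    intro w hw hcon
    have hg := hgood w hw hcon
    have hnb : nb G (B.erase w) w = nb G B w := by
      ext p
      rw [mem_nb, mem_nb, mem_erase]
      constructor
      · rintro ⟨⟨_, h1⟩, h2⟩; exact ⟨h1, h2⟩
      · rintro ⟨h1, h2⟩; exact ⟨⟨h2.ne', h1⟩, h2⟩
    have hJ : (nb G (B.erase w) w).Nonempty := by
      rw [hnb]
      obtain ⟨v, hv, u, hu, huv, hadj⟩ := hB.exists_adj (B := {w}) (by simpa using hw)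
        (singleton_nonempty w) (by
          intro h
          rw [← h, card_singleton] at h2
          omega)
      rw [mem_singleton] at hv
      subst hv
      exact ⟨u, mem_nb.2 ⟨hu, hadj⟩⟩
    have hEA : B.erase w ⊆ A := (erase_subset _ _).trans hBA
    have h1 := Phi_insert hEA (hBA hw) (notMem_erase w B) hJ
    rw [insert_erase hw] at h1
    unfold Good at hg hbad
    rw [card_erase_of_mem hw] at hg
    have h3 : ((B.card - 1 : ℕ) : ℤ) = (B.card : ℤ) - 1 := by
      rw [Nat.cast_sub (by omega)]; simp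
    rw [h3] at hg
    push Not at hbad
    have h4 : ((cs G A (B.erase w) w).card : ℤ) < 2 * m := by
      by_contra h5
      push Not at h5
      nlinarith
    have h5 := h.cs_ge hEA (hBA hw) hJ
    rw [hnb] at h5
    have h6 : ((nb G A w).card : ℤ) ≤ (cs G A (B.erase w) w).card + (nb G B w).card := by
      rcases h5 with h5 | h5
      · exfalso
        have : (2 * m : ℤ) ≤ (cs G A (B.erase w) w).card := by exact_mod_cast h5
        linarith
      · exact_mod_cast h5
    constructor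
    · linarith
    · have : (4 * (m : ℤ) + 2) * ((B.card : ℤ) - 2) = (4 * (m : ℤ) + 2) * ((B.card : ℤ) - 1 - 1) := by
        ring
      rw [this]
      linarith
  have hall := all_noncut hB h6 (by
    intro w hw hcon
    have h1 := (step w hw hcon).1
    have h3 := (h.link (hBA hw)).card_ge
    have h4 : (2 * (m + 1) : ℤ) ≤ (nb G A w).card := by exact_mod_cast h3
    have h5 : (3 : ℤ) ≤ (nb G B w).card := by linarith
    exact_mod_cast h5)
  exact fun w hw => step w hw (hall w hw)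

theorem Phi_eq_sum {A B : Finset V} :
    Phi G A B = 2 * (∑ w ∈ B, (((nb G A w).card : ℤ) - (nb G B w).card)) + (e2 G B : ℤ)
      - 2 * ((bd G A B).card : ℤ) := by
  unfold Phi e2
  rw [sum_sub_distrib]
  push_cast
  ring

/-- main numerical inequality for minimal bad sets -/
theorem PM.bad_e2 {m : ℕ} {A B : Finset V} (h : PM G (m + 2) A) (hBA : B ⊆ A) (hB : Conn G B)
    (h2 : 2 ≤ B.card) (h6 : B.card ≤ 6)
    (hgood : ∀ w ∈ B, Conn G (B.erase w) → Good G m A (B.erase w)) (hbad : ¬ Good G m A B) :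
    4 * ((B.card : ℤ) - 1) + 2 * (bd G A B).card ≤ e2 G B + 4 * m := by
  have hf := h.bad_facts hBA hB h2 h6 hgood hbad
  have hne : B.Nonempty := card_pos.1 (by omega)
  obtain ⟨w₀, hw₀, hmax⟩ := exists_max_image B
    (fun w => ((nb G A w).card : ℤ) - (nb G B w).card) hne
  have h3 := sum_le_card_nsmul B (fun w => ((nb G A w).card : ℤ) - (nb G B w).card) _ hmax
  obtain ⟨h4, h5⟩ := hf w₀ hw₀
  rw [Phi_eq_sum] at h5
  rw [nsmul_eq_mul] at h3
  have ha : (2 : ℤ) ≤ (B.card : ℤ) := by exact_mod_cast h2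
  set s := ((nb G A w₀).card : ℤ) - (nb G B w₀).card with hs
  set a := (B.card : ℤ) with ha'
  nlinarith [mul_le_mul_of_nonneg_left h4 (show (0 : ℤ) ≤ a - 1 by linarith)]

theorem e2_le (B : Finset V) : (e2 G B : ℤ) ≤ (B.card : ℤ) * ((B.card : ℤ) - 1) := by
  have h1 : ∀ w ∈ B, (nb G B w).card ≤ B.card - 1 := by
    intro w hw
    rw [← card_erase_of_mem hw]
    apply card_le_card
    intro v hv
    rw [mem_nb] at hv
    exact mem_erase.2 ⟨hv.2.ne', hv.1⟩
  have h2 := sum_le_card_nsmul B _ _ h1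
  rw [smul_eq_mul] at h2
  have h3 : (e2 G B : ℤ) ≤ ((B.card * (B.card - 1) : ℕ) : ℤ) := by exact_mod_cast h2
  rcases Nat.eq_zero_or_pos B.card with h4 | h4
  · rw [h4] at h3 ⊢
    simpa using h3
  · rw [Nat.cast_mul, Nat.cast_sub h4] at h3
    simpa using h3

/-- complete sets: every vertex is adjacent to every other -/
theorem clique_of_e2 {B : Finset V} (h : B.card * (B.card - 1) ≤ e2 G B) :
    ∀ u ∈ B, ∀ v ∈ B, u ≠ v → G.Adj u v := by
  by_contra hcon
  push Not at hcon
  obtain ⟨u, hu, v, hv, huv, hadj⟩ := hcon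
  have h1 : ∀ w ∈ B, (nb G B w).card ≤ B.card - 1 := by
    intro w hw
    rw [← card_erase_of_mem hw]
    apply card_le_card
    intro v hv
    rw [mem_nb] at hv
    exact mem_erase.2 ⟨hv.2.ne', hv.1⟩
  have h2 : (nb G B u).card < B.card - 1 := by
    rw [← card_erase_of_mem hu]
    apply card_lt_card
    rw [ssubset_iff_of_subset]
    · exact ⟨v, mem_erase.2 ⟨fun e => huv e.symm, hv⟩, fun h => hadj (mem_nb.1 h).2⟩
    · intro v hv
      rw [mem_nb] at hv
      exact mem_erase.2 ⟨hv.2.ne', hv.1⟩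
  have h3 : e2 G B < ∑ w ∈ B, (B.card - 1) := sum_lt_sum h1 ⟨u, hu, h2⟩
  rw [sum_const, smul_eq_mul] at h3
  omega

end

end Pool.Agent.Helper77.PMan
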